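import Pool.Agent.Helper46_Burg.Problem

/-!
Module H14: functions of bounded variation are in `H^{1/4}(0,T)`.
-/

set_option autoImplicit false

open MeasureTheory Set Filter Topology
open scoped Real ENNReal

noncomputable section

namespace Pool.Agent.Burg

/-- The variation of `v` is controlled by a monotone function with values in `[0,W]`. -/
def BVb (v : ℝ → ℝ) (W : ℝ) : Prop :=
  ∃ V : ℝ → ℝ, Monotone V ∧ (∀ t, 0 ≤ V t ∧ V t ≤ W) ∧ ∀ s t, s ≤ t → |v t - v s| ≤ V t - V s

theorem BVb.measurable {v : ℝ → ℝ} {W : ℝ} (h : BVb v W) : Measurable v := by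
  obtain ⟨V, hV, -, hv⟩ := h
  have h2 : Monotone (fun t => V t - v t) := by
    intro s t hst
    have := (abs_le.1 (hv s t hst)).2
    simp only
    linarith
  have h3 : v = fun t => V t - (V t - v t) := by
    funext t; ring
  rw [h3]
  exact hV.measurable.sub h2.measurable

theorem BVb.add {v w : ℝ → ℝ} {V W : ℝ} (h : BVb v V) (h' : BVb w W) :
    BVb (fun t => v t + w t) (V + W) := by
  obtain ⟨A, hA, hA2, hA3⟩ := h
  obtain ⟨B, hB, hB2, hB3⟩ := h'
  refine ⟨fun t => A t + B t, hA.add hB, fun t => ⟨add_nonneg (hA2 t).1 (hB2 t).1,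
    add_le_add (hA2 t).2 (hB2 t).2⟩, fun s t hst => ?_⟩
  have h1 := hA3 s t hst
  have h2 := hB3 s t hst
  calc |v t + w t - (v s + w s)| = |(v t - v s) + (w t - w s)| := by congr 1; ring
    _ ≤ |v t - v s| + |w t - w s| := abs_add_le _ _
    _ ≤ _ := by linarith

theorem BVb.mono {v : ℝ → ℝ} {V W : ℝ} (h : BVb v V) (hVW : V ≤ W) : BVb v W := by
  obtain ⟨A, hA, hA2, hA3⟩ := h
  exact ⟨A, hA, fun t => ⟨(hA2 t).1, (hA2 t).2.trans hVW⟩, hA3⟩

theorem BVb.zero : BVb (fun _ => 0) 0 :=
  ⟨fun _ => 0, monotone_const, fun _ => ⟨le_rfl, le_rfl⟩, fun s t _ => by simp⟩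

/-- A Lipschitz function cut off to an interval. -/
theorem BVb.lipschitz_indicator {w : ℝ → ℝ} {L M p q : ℝ} (hpq : p ≤ q)
    (hL : ∀ s ∈ Icc p q, ∀ t ∈ Icc p q, |w t - w s| ≤ L * |t - s|)
    (hM : ∀ t ∈ Icc p q, |w t| ≤ M) :
    BVb ((Ioc p q).indicator w) (L * (q - p) + 2 * M) := by
  have hM0 : 0 ≤ M := (abs_nonneg _).trans (hM p ⟨le_rfl, hpq⟩)
  rcases hpq.eq_or_lt with rfl | hlt
  · have : ((Ioc p p).indicator w) = fun _ => (0 : ℝ) := by
      funext t; simp
    rw [this]
    exact BVb.zero.mono (by simp [hM0])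
  have hL0 : 0 ≤ L := by
    have h1 := (abs_nonneg _).trans (hL p ⟨le_rfl, hpq⟩ q ⟨hpq, le_rfl⟩)
    rw [abs_of_pos (sub_pos.2 hlt)] at h1
    by_contra hneg
    push Not at hneg
    have : L * (q - p) < 0 := mul_neg_of_neg_of_pos hneg (sub_pos.2 hlt)
    linarith
  -- the clamp
  set cl : ℝ → ℝ := fun t => max p (min t q) with hcl
  have hclm : Monotone cl := fun s t hst => max_le_max le_rfl (min_le_min hst le_rfl)
  have hcl1 : ∀ t, p ≤ cl t := fun t => le_max_left _ _
  have hcl2 : ∀ t, cl t ≤ q := fun t => max_le hpq (min_le_right _ _)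
  set st : ℝ → ℝ → ℝ := fun r t => if r < t then 1 else 0 with hst
  have hstm : ∀ r, Monotone (st r) := by
    intro r s t h
    simp only [hst]
    split_ifs with h1 h2 <;> linarith
  have hst0 : ∀ r t, 0 ≤ st r t := by
    intro r t; simp only [hst]; split_ifs <;> norm_num
  have hst1 : ∀ r t, st r t ≤ 1 := by
    intro r t; simp only [hst]; split_ifs <;> norm_num
  refine ⟨fun t => L * (cl t - p) + M * st p t + M * st q t, ?_, ?_, ?_⟩
  · intro s t h
    have h1 := mul_le_mul_of_nonneg_left (hclm h) hL0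
    have h2 := mul_le_mul_of_nonneg_left (hstm p h) hM0
    have h3 := mul_le_mul_of_nonneg_left (hstm q h) hM0
    simp only
    linarith
  · intro t
    have h1 : 0 ≤ L * (cl t - p) := mul_nonneg hL0 (sub_nonneg.2 (hcl1 t))
    have h1' : L * (cl t - p) ≤ L * (q - p) :=
      mul_le_mul_of_nonneg_left (sub_le_sub_right (hcl2 t) p) hL0
    have h2 : 0 ≤ M * st p t := mul_nonneg hM0 (hst0 _ _)
    have h2' : M * st p t ≤ M := by
      have := mul_le_mul_of_nonneg_left (hst1 p t) hM0; linarith
    have h3 : 0 ≤ M * st q t := mul_nonneg hM0 (hst0 _ _)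
    have h3' : M * st q t ≤ M := by
      have := mul_le_mul_of_nonneg_left (hst1 q t) hM0; linarith
    constructor <;> simp only <;> linarith
  · intro s t h
    have hmono : L * (cl s - p) ≤ L * (cl t - p) :=
      mul_le_mul_of_nonneg_left (sub_le_sub_right (hclm h) p) hL0
    simp only [Set.indicator, mem_Ioc]
    by_cases hs1 : p < s
    · have ht1 : p < t := lt_of_lt_of_le hs1 h
      have e1 : st p s = 1 := if_pos hs1
      have e2 : st p t = 1 := if_pos ht1
      by_cases hs2 : s ≤ q
      · have e3 : st q s = 0 := if_neg (not_lt.2 hs2)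
        by_cases ht2 : t ≤ q
        · have e4 : st q t = 0 := if_neg (not_lt.2 ht2)
          have c1 : cl s = s := by
            simp only [hcl]; rw [min_eq_left hs2, max_eq_right hs1.le]
          have c2 : cl t = t := by
            simp only [hcl]; rw [min_eq_left ht2, max_eq_right ht1.le]
          rw [if_pos ⟨ht1, ht2⟩, if_pos ⟨hs1, hs2⟩, e1, e2, e3, e4, c1, c2]
          have := hL s ⟨hs1.le, hs2⟩ t ⟨ht1.le, ht2⟩
          rw [abs_of_nonneg (sub_nonneg.2 h)] at this
          linarith
        · have e4 : st q t = 1 := if_pos (not_le.1 ht2)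
          rw [if_neg (fun hh => ht2 hh.2), if_pos ⟨hs1, hs2⟩, e1, e2, e3, e4]
          have := hM s ⟨hs1.le, hs2⟩
          rw [zero_sub, abs_neg]
          linarith
      · have ht2 : ¬ t ≤ q := fun hh => hs2 (h.trans hh)
        have e3 : st q s = 1 := if_pos (not_le.1 hs2)
        have e4 : st q t = 1 := if_pos (not_le.1 ht2)
        rw [if_neg (fun hh => ht2 hh.2), if_neg (fun hh => hs2 hh.2), e1, e2, e3, e4]
        simp only [sub_zero, abs_zero]
        linarith
    · have e1 : st p s = 0 := if_neg hs1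
      have e3 : st q s = 0 := if_neg (not_lt.2 ((not_lt.1 hs1).trans hpq))
      rw [if_neg (fun hh => hs1 hh.1 : ¬ (p < s ∧ s ≤ q)), e1, e3]
      by_cases ht1 : p < t ∧ t ≤ q
      · have e2 : st p t = 1 := if_pos ht1.1
        have e4 := hst0 q t
        have := hM t ⟨ht1.1.le, ht1.2⟩
        rw [if_pos ht1, e2, sub_zero]
        have h5 := mul_nonneg hM0 e4
        linarith
      · rw [if_neg ht1, sub_zero, abs_zero]
        have h5 := mul_nonneg hM0 (hst0 q t)
        have h6 := mul_nonneg hM0 (hst0 p t)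
        linarith

theorem BVb.indicator (c p q : ℝ) : BVb ((Ioc p q).indicator fun _ => c) (2 * |c|) := by
  rcases le_total p q with h | h
  · have := BVb.lipschitz_indicator (w := fun _ => c) (L := 0) (M := |c|) h
      (fun s _ t _ => by simp) (fun t _ => le_rfl)
    simpa using this
  · have h1 : ((Ioc p q).indicator fun _ => c) = fun _ => (0 : ℝ) := by
      rw [Ioc_eq_empty (not_lt.2 h)]; simp
    rw [h1]
    exact BVb.zero.mono (by positivity)

/-- Countable sums. -/
theorem BVb.tsum {v : ℕ → ℝ → ℝ} {W : ℕ → ℝ} (h : ∀ k, BVb (v k) (W k)) (hW : Summable W)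
    (hs : ∀ t, Summable fun k => v k t) : BVb (fun t => ∑' k, v k t) (∑' k, W k) := by
  choose V hV1 hV2 hV3 using h
  have hsum : ∀ t, Summable fun k => V k t := fun t =>
    Summable.of_nonneg_of_le (fun k => (hV2 k t).1) (fun k => (hV2 k t).2) hW
  refine ⟨fun t => ∑' k, V k t, ?_, ?_, ?_⟩
  · intro s t hst
    exact Summable.tsum_le_tsum (fun k => hV1 k hst) (hsum s) (hsum t)
  · intro t
    exact ⟨tsum_nonneg fun k => (hV2 k t).1,
      Summable.tsum_le_tsum (fun k => (hV2 k t).2) (hsum t) hW⟩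
  · intro s t hst
    simp only
    rw [← Summable.tsum_sub (hs t) (hs s), ← Summable.tsum_sub (hsum t) (hsum s)]
    have h1 : Summable fun k => |v k t - v k s| := by
      refine Summable.of_nonneg_of_le (fun k => abs_nonneg _) (fun k => hV3 k s t hst) ?_
      exact (hsum t).sub (hsum s)
    have h2 : ‖∑' k, (v k t - v k s)‖ ≤ ∑' k, ‖v k t - v k s‖ :=
      norm_tsum_le_tsum_norm (by simpa only [Real.norm_eq_abs] using h1)
    simp only [Real.norm_eq_abs] at h2
    refine h2.trans ?_
    exact Summable.tsum_le_tsum (fun k => hV3 k s t hst) h1 ((hsum t).sub (hsum s))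

theorem BVb.abs_le {v : ℝ → ℝ} {W : ℝ} (h : BVb v W) (t : ℝ) : |v t| ≤ |v 0| + W := by
  obtain ⟨V, hV, hV2, hv⟩ := h
  have key : |v t - v 0| ≤ W := by
    rcases le_total 0 t with h0 | h0
    · have := hv 0 t h0
      linarith [(hV2 0).1, (hV2 t).2]
    · have := hv t 0 h0
      rw [abs_sub_comm]
      linarith [(hV2 t).1, (hV2 0).2]
  calc |v t| = |v 0 + (v t - v 0)| := by congr 1; ring
    _ ≤ |v 0| + |v t - v 0| := abs_add_le _ _
    _ ≤ _ := by linarith

/-- The shift estimate for bounded monotone functions. -/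
theorem shift_le {V : ℝ → ℝ} (hV : Monotone V) {W : ℝ} (hV2 : ∀ t, 0 ≤ V t ∧ V t ≤ W)
    {T : ℝ} (hT : 0 ≤ T) (h : ℝ) :
    ∫⁻ t in Ioo 0 T, ENNReal.ofReal |V (t + h) - V t| ≤ ENNReal.ofReal (W * |h|) := by
  have hint : ∀ a b, IntervalIntegrable V volume a b := fun a b => hV.intervalIntegrable
  have hint' : ∀ a b, IntervalIntegrable (fun t => V (t + h)) volume a b := fun a b =>
    Monotone.intervalIntegrable (fun s t hst => hV (by linarith))
  have hb : ∀ a b, a ≤ b → ∫ t in a..b, V t ≤ W * (b - a) := by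
    intro a b hab
    have := intervalIntegral.integral_mono_on hab (hint a b)
      (intervalIntegrable_const (c := W)) (fun t _ => (hV2 t).2)
    rw [intervalIntegral.integral_const, smul_eq_mul] at this
    linarith
  have hb0 : ∀ a b, a ≤ b → 0 ≤ ∫ t in a..b, V t := fun a b hab =>
    intervalIntegral.integral_nonneg hab fun t _ => (hV2 t).1
  have hshift : ∫ t in (0 : ℝ)..T, V (t + h) = ∫ t in h..(T + h), V t := by
    rw [intervalIntegral.integral_comp_add_right]; simp
  have hadd := intervalIntegral.integral_add_adjacent_intervals (hint 0 h) (hint h (T + h))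
  have hadd2 := intervalIntegral.integral_add_adjacent_intervals (hint 0 T) (hint T (T + h))
  have hkey : ∫ t in (0 : ℝ)..T, |V (t + h) - V t| ≤ W * |h| := by
    rcases le_total 0 h with h0 | h0
    · have e : ∀ t, |V (t + h) - V t| = V (t + h) - V t := fun t =>
        abs_of_nonneg (sub_nonneg.2 (hV (by linarith)))
      simp only [e]
      rw [intervalIntegral.integral_sub (hint' 0 T) (hint 0 T), hshift, abs_of_nonneg h0]
      have h1 := hb T (T + h) (by linarith)
      have h2 := hb0 0 h h0
      have h3 : W * (T + h - T) = W * h := by ring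
      linarith
    · have e : ∀ t, |V (t + h) - V t| = V t - V (t + h) := fun t => by
        rw [abs_sub_comm]
        exact abs_of_nonneg (sub_nonneg.2 (hV (by linarith)))
      simp only [e]
      rw [intervalIntegral.integral_sub (hint 0 T) (hint' 0 T), hshift, abs_of_nonpos h0]
      have h1 := hb (T + h) T (by linarith)
      have h2 := hb0 h 0 h0
      have h1' : ∫ t in T..(T + h), V t = -∫ t in (T + h)..T, V t :=
        intervalIntegral.integral_symm _ _
      have h2' : ∫ t in (0 : ℝ)..h, V t = -∫ t in h..(0 : ℝ), V t :=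
        intervalIntegral.integral_symm _ _
      have h3 : W * (T - (T + h)) = W * -h := by ring
      linarith
  have hii : IntervalIntegrable (fun t => |V (t + h) - V t|) volume 0 T :=
    ((hint' 0 T).sub (hint 0 T)).abs
  have hon : IntegrableOn (fun t => |V (t + h) - V t|) (Ioo 0 T) volume := by
    have := (intervalIntegrable_iff_integrableOn_Ioc_of_le hT).1 hii
    exact this.mono_set Ioo_subset_Ioc_self
  rw [← ofReal_integral_eq_lintegral_ofReal hon (Eventually.of_forall fun t => abs_nonneg _)]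
  apply ENNReal.ofReal_le_ofReal
  rw [← integral_Ioc_eq_integral_Ioo, ← intervalIntegral.integral_of_le hT]
  exact hkey

theorem lintegral_abs_rpow_lt_top (T : ℝ) (hT : 0 ≤ T) :
    ∫⁻ h in Ioo (-T) T, ENNReal.ofReal (|h| ^ (-(1 / 2) : ℝ)) < ⊤ := by
  have h1 : IntervalIntegrable (fun x : ℝ => x ^ (-(1 / 2) : ℝ)) volume 0 T :=
    intervalIntegral.intervalIntegrable_rpow' (by norm_num)
  have h2 : IntervalIntegrable (fun x : ℝ => |x| ^ (-(1 / 2) : ℝ)) volume 0 T := by
    refine h1.congr ?_
    intro x hx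
    rw [uIoc_of_le hT] at hx
    simp only
    rw [abs_of_pos hx.1]
  have h3 : IntervalIntegrable (fun x : ℝ => |x| ^ (-(1 / 2) : ℝ)) volume (-T) 0 := by
    have := h2.comp_sub_left 0
    simp only [zero_sub, abs_neg, sub_zero] at this
    exact this.symm
  have h4 : IntervalIntegrable (fun x : ℝ => |x| ^ (-(1 / 2) : ℝ)) volume (-T) T := h3.trans h2
  have h5 : IntegrableOn (fun x : ℝ => |x| ^ (-(1 / 2) : ℝ)) (Ioo (-T) T) volume :=
    ((intervalIntegrable_iff_integrableOn_Ioc_of_le (by linarith)).1 h4).mono_set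
      Ioo_subset_Ioc_self
  have h6 := h5.hasFiniteIntegral
  rw [hasFiniteIntegral_iff_ofReal (Eventually.of_forall fun x => by positivity)] at h6
  exact h6

theorem BVb.memH14 {v : ℝ → ℝ} {W : ℝ} (h : BVb v W) (T : ℝ) : MemH14 T v := by
  have hmeas := h.measurable
  have habs := h.abs_le
  obtain ⟨V, hV, hV2, hv⟩ := h
  have hW0 : 0 ≤ W := (hV2 0).1.trans (hV2 0).2
  refine ⟨?_, ?_⟩
  · refine MemLp.of_bound hmeas.aestronglyMeasurable (|v 0| + W) ?_
    exact Eventually.of_forall fun t => habs t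
  rcases le_or_gt T 0 with hT | hT
  · rw [Ioo_eq_empty (not_lt.2 hT)]; simp
  -- pointwise bound
  have hpt : ∀ t s, ENNReal.ofReal ((v t - v s) ^ 2 / |t - s| ^ (3 / 2 : ℝ)) ≤
      ENNReal.ofReal (W * |s - t| ^ (-(3 / 2) : ℝ)) * ENNReal.ofReal |V s - V t| := by
    intro t s
    rw [← ENNReal.ofReal_mul (by positivity)]
    apply ENNReal.ofReal_le_ofReal
    have h1 : |v t - v s| ≤ |V s - V t| := by
      rcases le_total s t with hst | hst
      · rw [abs_sub_comm (V s), abs_of_nonneg (sub_nonneg.2 (hV hst))]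
        exact hv s t hst
      · rw [abs_sub_comm (v t), abs_of_nonneg (sub_nonneg.2 (hV hst))]
        exact hv t s hst
    have h2 : |V s - V t| ≤ W := by
      rw [abs_sub_le_iff]
      constructor <;> linarith [(hV2 s).1, (hV2 s).2, (hV2 t).1, (hV2 t).2]
    have h3 : (v t - v s) ^ 2 ≤ W * |V s - V t| := by
      rw [← sq_abs, sq]
      exact mul_le_mul (h1.trans h2) h1 (abs_nonneg _) hW0
    rw [abs_sub_comm t s, Real.rpow_neg (abs_nonneg _), div_eq_mul_inv]
    calc (v t - v s) ^ 2 * (|s - t| ^ (3 / 2 : ℝ))⁻¹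
        ≤ (W * |V s - V t|) * (|s - t| ^ (3 / 2 : ℝ))⁻¹ :=
          mul_le_mul_of_nonneg_right h3 (by positivity)
      _ = _ := by ring
  set K : ℝ → ℝ≥0∞ := fun h => (Ioo (-T) T).indicator
    (fun h => ENNReal.ofReal (W * |h| ^ (-(3 / 2) : ℝ))) h with hK
  have hKm : Measurable K := by
    refine Measurable.indicator ?_ measurableSet_Ioo
    fun_prop
  have hVm : Measurable V := hV.measurable
  calc ∫⁻ t in Ioo 0 T, ∫⁻ s in Ioo 0 T,
        ENNReal.ofReal ((v t - v s) ^ 2 / |t - s| ^ (3 / 2 : ℝ))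
      ≤ ∫⁻ t in Ioo 0 T, ∫⁻ h, K h * ENNReal.ofReal |V (t + h) - V t| := by
        refine setLIntegral_mono' measurableSet_Ioo fun t ht => ?_
        rw [← lintegral_indicator measurableSet_Ioo,
          ← lintegral_add_left_eq_self _ t]
        refine lintegral_mono fun h => ?_
        simp only [Set.indicator]
        split_ifs with h1
        · refine (hpt t (t + h)).trans ?_
          have e : t + h - t = h := by ring
          rw [e]
          have : h ∈ Ioo (-T) T := ⟨by linarith [h1.1, ht.2], by linarith [h1.2, ht.1]⟩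
          simp only [hK, Set.indicator, if_pos this]
          exact le_rfl
        · exact zero_le
    _ = ∫⁻ h, ∫⁻ t in Ioo 0 T, K h * ENNReal.ofReal |V (t + h) - V t| := by
        rw [lintegral_lintegral_swap]
        refine Measurable.aemeasurable ?_
        simp only [Function.uncurry_def]
        refine (hKm.comp measurable_snd).mul ?_
        refine ENNReal.measurable_ofReal.comp ?_
        exact ((hVm.comp (measurable_fst.add measurable_snd)).sub (hVm.comp measurable_fst)).abs
    _ ≤ ∫⁻ h in Ioo (-T) T, ENNReal.ofReal (W ^ 2) * ENNReal.ofReal (|h| ^ (-(1 / 2) : ℝ)) := by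
        rw [← lintegral_indicator measurableSet_Ioo]
        refine lintegral_mono fun h => ?_
        rw [lintegral_const_mul' _ _ (by
          simp only [hK, Set.indicator]; split_ifs <;> simp)]
        simp only [hK, Set.indicator]
        split_ifs with h1
        · refine (mul_le_mul_right (shift_le hV hV2 hT.le h) _).trans ?_
          rw [← ENNReal.ofReal_mul (by positivity), ← ENNReal.ofReal_mul (by positivity)]
          apply ENNReal.ofReal_le_ofReal
          rcases eq_or_ne h 0 with rfl | hne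
          · simp only [abs_zero, mul_zero]
            positivity
          · have hpos : 0 < |h| := abs_pos.2 hne
            have e : |h| ^ (-(3 / 2) : ℝ) * |h| = |h| ^ (-(1 / 2) : ℝ) := by
              rw [← Real.rpow_add_one hpos.ne']; norm_num
            calc W * |h| ^ (-(3 / 2) : ℝ) * (W * |h|) = W ^ 2 * (|h| ^ (-(3 / 2) : ℝ) * |h|) := by
                  ring
              _ = _ := by rw [e]
              _ ≤ _ := le_rfl
        · simp
    _ = ENNReal.ofReal (W ^ 2) * ∫⁻ h in Ioo (-T) T, ENNReal.ofReal (|h| ^ (-(1 / 2) : ℝ)) :=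
        lintegral_const_mul' _ _ ENNReal.ofReal_ne_top
    _ < ⊤ := ENNReal.mul_lt_top ENNReal.ofReal_lt_top (lintegral_abs_rpow_lt_top T hT.le)

end Pool.Agent.Burg
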