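import Pool.Agent.Helper46_Burg.Defs

/-!
Module FLUX: elementary facts on the flux `|s|^(γ-1) s` and its truncation.
-/

set_option autoImplicit false

open MeasureTheory Set Filter Topology
open scoped Real ENNReal NNReal

noncomputable section

namespace Pool.Agent.Burg

theorem continuous_flux {γ : ℝ} (hγ : 1 < γ) : Continuous (flux γ) := by
  unfold flux
  exact (continuous_abs.rpow_const (fun _ => Or.inr (by linarith))).mul continuous_id

theorem flux_zero (γ : ℝ) : flux γ 0 = 0 := by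
  simp [flux]

theorem abs_flux {γ : ℝ} (hγ : 1 < γ) (s : ℝ) : |flux γ s| = |s| ^ γ := by
  unfold flux
  rw [abs_mul, abs_of_nonneg (Real.rpow_nonneg (abs_nonneg s) _)]
  rcases eq_or_ne s 0 with h | h
  · subst h
    simp [Real.zero_rpow (by linarith : γ ≠ 0)]
  · have h' : 0 < |s| := abs_pos.mpr h
    conv_lhs => rw [← Real.rpow_one |s|, ← Real.rpow_mul (abs_nonneg s), one_mul,
      ← Real.rpow_add h']
    congr 1
    ring

theorem hasDerivAt_flux {γ : ℝ} (hγ : 1 < γ) (s : ℝ) :
    HasDerivAt (flux γ) (γ * |s| ^ (γ - 1)) s := by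
  rcases lt_trichotomy s 0 with h | h | h
  · have h1 : HasDerivAt (fun t : ℝ => -((-t) ^ γ)) (-(-1 * γ * (-s) ^ (γ - 1))) s := by
      have := ((hasDerivAt_id' s).fun_neg.rpow_const (p := γ) (Or.inr hγ.le)).fun_neg
      exact this
    have h2 : flux γ =ᶠ[𝓝 s] fun t : ℝ => -((-t) ^ γ) := by
      filter_upwards [Iio_mem_nhds h] with t ht
      have ht' : t < 0 := ht
      unfold flux
      rw [abs_of_neg ht']
      have h3 : (-t) ^ γ = (-t) ^ (γ - 1) * (-t) := by
        conv_rhs => rw [← Real.rpow_one (-t), ← Real.rpow_mul (by linarith), one_mul,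
          ← Real.rpow_add (by linarith)]
        congr 1; ring
      rw [h3]; ring
    have h4 := h1.congr_of_eventuallyEq h2
    have h5 : γ * |s| ^ (γ - 1) = -(-1 * γ * (-s) ^ (γ - 1)) := by
      rw [abs_of_neg h]; ring
    rw [h5]; exact h4
  · subst h
    rw [hasDerivAt_iff_tendsto_slope_zero]
    have h1 : Tendsto (fun t : ℝ => |t| ^ (γ - 1)) (𝓝[≠] 0) (𝓝 (|(0 : ℝ)| ^ (γ - 1))) := by
      have : Continuous fun t : ℝ => |t| ^ (γ - 1) :=
        continuous_abs.rpow_const (fun _ => Or.inr (by linarith))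
      exact (this.tendsto 0).mono_left nhdsWithin_le_nhds
    have h0 : γ * |(0 : ℝ)| ^ (γ - 1) = |(0 : ℝ)| ^ (γ - 1) := by
      simp [Real.zero_rpow (by linarith : γ - 1 ≠ 0)]
    rw [h0]
    refine h1.congr' ?_
    filter_upwards [self_mem_nhdsWithin] with t ht
    have ht' : t ≠ 0 := ht
    simp only [zero_add, flux_zero, sub_zero, smul_eq_mul]
    unfold flux
    field_simp
  · have h1 : HasDerivAt (fun t : ℝ => t ^ γ) (1 * γ * s ^ (γ - 1)) s :=
      (hasDerivAt_id s).rpow_const (p := γ) (Or.inr hγ.le)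
    have h2 : flux γ =ᶠ[𝓝 s] fun t : ℝ => t ^ γ := by
      filter_upwards [Ioi_mem_nhds h] with t ht
      have ht' : 0 < t := ht
      unfold flux
      rw [abs_of_pos ht']
      conv_lhs => rw [← Real.rpow_one t, ← Real.rpow_mul ht'.le, one_mul,
          ← Real.rpow_add ht']
      congr 1; ring
    have h4 := h1.congr_of_eventuallyEq h2
    have h5 : γ * |s| ^ (γ - 1) = 1 * γ * s ^ (γ - 1) := by
      rw [abs_of_pos h]; ring
    rw [h5]; exact h4

theorem continuous_dflux {γ M : ℝ} (hγ : 1 < γ) (_hM : 0 ≤ M) : Continuous (dflux γ M) := by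
  unfold dflux
  exact continuous_const.mul
    ((continuous_abs.min continuous_const).rpow_const (fun _ => Or.inr (by linarith)))

theorem dflux_nonneg {γ M : ℝ} (hγ : 1 < γ) (hM : 0 ≤ M) (s : ℝ) : 0 ≤ dflux γ M s := by
  unfold dflux
  exact mul_nonneg (by linarith) (Real.rpow_nonneg (le_min (abs_nonneg s) hM) _)

theorem dflux_le_const {γ M : ℝ} (hγ : 1 < γ) (hM : 0 ≤ M) (s : ℝ) :
    dflux γ M s ≤ γ * M ^ (γ - 1) := by
  unfold dflux
  exact mul_le_mul_of_nonneg_left (Real.rpow_le_rpow (le_min (abs_nonneg s) hM)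
    (min_le_right _ _) (by linarith)) (by linarith)

theorem dflux_le_abs {γ M : ℝ} (hγ : 1 < γ) (hM : 0 ≤ M) (s : ℝ) :
    dflux γ M s ≤ γ * |s| ^ (γ - 1) := by
  unfold dflux
  exact mul_le_mul_of_nonneg_left (Real.rpow_le_rpow (le_min (abs_nonneg s) hM)
    (min_le_left _ _) (by linarith)) (by linarith)

theorem hasDerivAt_fluxT {γ M : ℝ} (hγ : 1 < γ) (hM : 0 ≤ M) (s : ℝ) :
    HasDerivAt (fluxT γ M) (dflux γ M s) s := by
  have h := (continuous_dflux hγ hM).integral_hasStrictDerivAt 0 s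
  exact h.hasDerivAt

theorem lipschitz_fluxT {γ M : ℝ} (hγ : 1 < γ) (hM : 0 ≤ M) :
    LipschitzWith (Real.toNNReal (γ * M ^ (γ - 1))) (fluxT γ M) := by
  refine lipschitzWith_of_nnnorm_deriv_le
    (fun s => (hasDerivAt_fluxT hγ hM s).differentiableAt) (fun s => ?_)
  rw [(hasDerivAt_fluxT hγ hM s).deriv]
  rw [← NNReal.coe_le_coe, coe_nnnorm, Real.coe_toNNReal _
    (mul_nonneg (by linarith) (Real.rpow_nonneg hM _)), Real.norm_eq_abs,
    abs_of_nonneg (dflux_nonneg hγ hM s)]
  exact dflux_le_const hγ hM s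

theorem fluxT_eq {γ M s : ℝ} (hγ : 1 < γ) (hM : 0 ≤ M) (hs : |s| ≤ M) :
    fluxT γ M s = flux γ s := by
  have h1 : ∫ t in (0 : ℝ)..s, γ * |t| ^ (γ - 1) = flux γ s - flux γ 0 :=
    intervalIntegral.integral_eq_sub_of_hasDerivAt (fun t _ => hasDerivAt_flux hγ t)
      ((continuous_const.mul (continuous_abs.rpow_const
        (fun _ => Or.inr (by linarith)))).intervalIntegrable _ _)
  rw [flux_zero, sub_zero] at h1
  rw [← h1]
  unfold fluxT
  refine intervalIntegral.integral_congr (fun t ht => ?_)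
  unfold dflux
  have : |t| ≤ |s| := by
    rw [uIcc_comm] at ht
    rcases le_total 0 s with h | h
    · rw [uIcc_of_ge h] at ht
      rw [abs_of_nonneg ht.1, abs_of_nonneg h]; exact ht.2
    · rw [uIcc_of_le h] at ht
      rw [abs_of_nonpos ht.2, abs_of_nonpos h]; linarith [ht.1]
  simp only [min_eq_left (this.trans hs)]

theorem abs_fluxT_le {γ M : ℝ} (hγ : 1 < γ) (hM : 0 ≤ M) (s : ℝ) :
    |fluxT γ M s| ≤ |s| ^ γ := by
  have hint : IntervalIntegrable (fun t : ℝ => γ * |t| ^ (γ - 1)) volume 0 s :=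
    (continuous_const.mul (continuous_abs.rpow_const
        (fun _ => Or.inr (by linarith)))).intervalIntegrable _ _
  have h1 : ∫ t in (0 : ℝ)..s, γ * |t| ^ (γ - 1) = flux γ s - flux γ 0 :=
    intervalIntegral.integral_eq_sub_of_hasDerivAt (fun t _ => hasDerivAt_flux hγ t) hint
  rw [flux_zero, sub_zero] at h1
  rw [← abs_flux hγ, ← h1]
  have h2 : |fluxT γ M s| ≤ |∫ t in (0 : ℝ)..s, γ * |t| ^ (γ - 1)| := by
    unfold fluxT
    have := intervalIntegral.norm_integral_le_abs_of_norm_le (μ := volume) (a := 0) (b := s)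
      (f := dflux γ M) (g := fun t : ℝ => γ * |t| ^ (γ - 1)) ?_ hint
    · simpa [Real.norm_eq_abs] using this
    · refine Filter.Eventually.of_forall (fun t => ?_)
      rw [Real.norm_eq_abs, abs_of_nonneg (dflux_nonneg hγ hM t)]
      exact dflux_le_abs hγ hM t
  exact h2

/-- Modulus of continuity, uniform in the truncation. -/
theorem abs_fluxT_sub_le {γ M : ℝ} (hγ : 1 < γ) (hM : 0 ≤ M) (s t : ℝ) :
    |fluxT γ M s - fluxT γ M t| ≤ γ * (max |s| |t|) ^ (γ - 1) * |s - t| := by
  have h1 : fluxT γ M s - fluxT γ M t = ∫ u in t..s, dflux γ M u := by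
    unfold fluxT
    rw [intervalIntegral.integral_interval_sub_left]
    · exact (continuous_dflux hγ hM).intervalIntegrable _ _
    · exact (continuous_dflux hγ hM).intervalIntegrable _ _
  rw [h1]
  have h2 := intervalIntegral.norm_integral_le_of_norm_le_const (a := t) (b := s)
    (f := dflux γ M) (C := γ * (max |s| |t|) ^ (γ - 1)) (fun u hu => ?_)
  · simpa [Real.norm_eq_abs] using h2
  · rw [Real.norm_eq_abs, abs_of_nonneg (dflux_nonneg hγ hM u)]
    refine (dflux_le_abs hγ hM u).trans ?_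
    refine mul_le_mul_of_nonneg_left (Real.rpow_le_rpow (abs_nonneg u) ?_ (by linarith))
      (by linarith)
    have hu' := uIoc_subset_uIcc hu
    rcases le_total t s with h | h
    · rw [uIcc_of_le h] at hu'
      rw [max_comm]
      exact abs_le_max_abs_abs hu'.1 hu'.2
    · rw [uIcc_of_ge h] at hu'
      exact abs_le_max_abs_abs hu'.1 hu'.2

theorem dflux_neg {γ M : ℝ} (s : ℝ) : dflux γ M (-s) = dflux γ M s := by
  unfold dflux; rw [abs_neg]

/-- Lower bound for the derivative away from the bad interval. -/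
theorem le_dflux {γ M : ℝ} (hγ : 1 < γ) {Y : ℝ} (hY : |Y| ≤ 2 * M) {u : ℝ}
    (hu : |Y| / 2 ≤ |u|) : γ * (|Y| / 2) ^ (γ - 1) ≤ dflux γ M u := by
  unfold dflux
  refine mul_le_mul_of_nonneg_left (Real.rpow_le_rpow (by positivity) ?_ (by linarith))
    (by linarith)
  exact le_min hu (by linarith)

theorem key_ineq_nonneg {γ M : ℝ} (hγ : 1 < γ) {Y : ℝ} (hY : |Y| ≤ 2 * M) {q : ℝ}
    (hq : 0 ≤ q) :
    γ / 18 * (|Y| / 2) ^ (γ - 1) * q ^ 2 ≤ ∫ s in (0 : ℝ)..q, s * dflux γ M (Y + s) := by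
  have hM : 0 ≤ M := by linarith [abs_nonneg Y]
  set a := |Y| with ha
  set c := γ * (a / 2) ^ (γ - 1) with hc
  have hc0 : 0 ≤ c := by positivity
  have ha0 : 0 ≤ a := abs_nonneg Y
  have hcont : Continuous fun s : ℝ => s * dflux γ M (Y + s) :=
    continuous_id.mul ((continuous_dflux hγ hM).comp (continuous_const.add continuous_id))
  have hii : ∀ p r : ℝ, IntervalIntegrable (fun s : ℝ => s * dflux γ M (Y + s)) volume p r :=
    fun p r => hcont.intervalIntegrable p r
  have hgoal : γ / 18 * (a / 2) ^ (γ - 1) * q ^ 2 = c * (q ^ 2 / 18) := by rw [hc]; ring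
  rw [hgoal]
  -- nonnegativity on nonnegative intervals
  have hnn : ∀ p r : ℝ, 0 ≤ p → p ≤ r → 0 ≤ ∫ s in p..r, s * dflux γ M (Y + s) := by
    intro p r hp hpr
    exact intervalIntegral.integral_nonneg hpr
      (fun s hs => mul_nonneg (hp.trans hs.1) (dflux_nonneg hγ hM _))
  -- lower bound on good intervals
  have hgood : ∀ p r : ℝ, 0 ≤ p → p ≤ r → (∀ s ∈ Icc p r, a / 2 ≤ |Y + s|) →
      c * ((r ^ 2 - p ^ 2) / 2) ≤ ∫ s in p..r, s * dflux γ M (Y + s) := by
    intro p r hp hpr hgd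
    have h1 : ∫ s in p..r, s * c ≤ ∫ s in p..r, s * dflux γ M (Y + s) := by
      refine intervalIntegral.integral_mono_on hpr
        ((continuous_id.mul continuous_const).intervalIntegrable _ _) (hii p r) (fun s hs => ?_)
      exact mul_le_mul_of_nonneg_left (le_dflux hγ hY (hgd s hs)) (hp.trans hs.1)
    have h2 : ∫ s in p..r, s * c = c * ((r ^ 2 - p ^ 2) / 2) := by
      rw [intervalIntegral.integral_mul_const, integral_id]; ring
    rw [← h2]; exact h1
  have hlow : ∀ s : ℝ, 0 ≤ s → s ≤ a / 2 → a / 2 ≤ |Y + s| := by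
    intro s h0 h1
    have h2 : |Y| ≤ |Y + s| + |s| := by
      have := abs_sub_abs_le_abs_sub Y (-s)
      rw [sub_neg_eq_add, abs_neg] at this
      linarith
    rw [abs_of_nonneg h0] at h2
    linarith
  have hhigh : ∀ s : ℝ, 3 * a / 2 ≤ s → a / 2 ≤ |Y + s| := by
    intro s h0
    have h2 : |s| ≤ |Y + s| + |Y| := by
      have := abs_sub_abs_le_abs_sub s (-Y)
      rw [sub_neg_eq_add, abs_neg, add_comm s Y] at this
      linarith
    rw [abs_of_nonneg (by linarith : (0 : ℝ) ≤ s)] at h2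
    linarith
  rcases le_or_gt q (a / 2) with h1 | h1
  · have h2 := hgood 0 q le_rfl hq (fun s hs => hlow s hs.1 (hs.2.trans h1))
    refine le_trans ?_ h2
    apply mul_le_mul_of_nonneg_left _ hc0
    nlinarith [sq_nonneg q]
  · have h3 := hgood 0 (a / 2) le_rfl (by linarith) (fun s hs => hlow s hs.1 hs.2)
    rcases le_or_gt q (3 * a / 2) with h4 | h4
    · have h5 := hnn (a / 2) q (by linarith) h1.le
      have h6 := intervalIntegral.integral_add_adjacent_intervals (hii 0 (a / 2)) (hii (a / 2) q)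
      rw [← h6]
      have h7 : c * (q ^ 2 / 18) ≤ c * (((a / 2) ^ 2 - 0 ^ 2) / 2) := by
        apply mul_le_mul_of_nonneg_left _ hc0
        nlinarith
      linarith
    · have h5 := hnn (a / 2) (3 * a / 2) (by linarith) (by linarith)
      have h5' := hgood (3 * a / 2) q (by linarith) h4.le (fun s hs => hhigh s hs.1)
      have h6 := intervalIntegral.integral_add_adjacent_intervals (hii 0 (a / 2))
        (hii (a / 2) (3 * a / 2))
      have h6' := intervalIntegral.integral_add_adjacent_intervals (hii 0 (3 * a / 2))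
        (hii (3 * a / 2) q)
      rw [← h6', ← h6]
      have h7 : c * (q ^ 2 / 18) ≤ c * (((a / 2) ^ 2 - 0 ^ 2) / 2)
          + c * ((q ^ 2 - (3 * a / 2) ^ 2) / 2) := by
        rw [← mul_add]
        apply mul_le_mul_of_nonneg_left _ hc0
        nlinarith
      linarith

/-- The key convexity-type inequality behind the damping by the oscillation. -/
theorem key_ineq {γ M : ℝ} (hγ : 1 < γ) {Y : ℝ} (hY : |Y| ≤ 2 * M) (q : ℝ) :
    γ / 18 * (|Y| / 2) ^ (γ - 1) * q ^ 2 ≤ ∫ s in (0 : ℝ)..q, s * dflux γ M (Y + s) := by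
  rcases le_total 0 q with hq | hq
  · exact key_ineq_nonneg hγ hY hq
  · have h1 := key_ineq_nonneg (M := M) hγ (Y := -Y) (by rwa [abs_neg]) (q := -q) (by linarith)
    rw [abs_neg, neg_sq] at h1
    refine h1.trans (le_of_eq ?_)
    have h2 := intervalIntegral.integral_comp_neg (a := q) (b := 0)
      (fun s : ℝ => s * dflux γ M (-Y + s))
    rw [neg_zero] at h2
    rw [← h2, intervalIntegral.integral_symm q 0, ← intervalIntegral.integral_neg]
    refine intervalIntegral.integral_congr (fun s _ => ?_)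
    have h3 : dflux γ M (-Y + -s) = dflux γ M (Y + s) := by
      rw [← dflux_neg (Y + s)]; congr 1; ring
    simp only [h3]
    ring

end Pool.Agent.Burg
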