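import Pool.Agent.Helper46_Burg.Defs

/-!
Module TOOLS: general tools (continuity and integrability of slice integrals).
-/

set_option autoImplicit false

open MeasureTheory Set Filter Topology
open scoped Real ENNReal

noncomputable section

namespace Pool.Agent.Burg

/-- The slice integrals of a function continuous on `S × [0,1]` are continuous. -/
theorem continuousOn_slice {S : Set ℝ} (hS : IsLocallyClosed S) {H : ℝ → ℝ → ℝ}
    (hH : ContinuousOn (Function.uncurry H) (S ×ˢ Icc 0 1)) :
    ContinuousOn (fun t => ∫ x in (0 : ℝ)..1, H t x) S := by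
  have : LocallyCompactSpace S := hS.locallyCompactSpace
  rw [continuousOn_iff_continuous_domRestrict]
  let G : S → ℝ → ℝ := fun t x => H t (projIcc (0:ℝ) 1 zero_le_one x)
  have hG : Continuous (Function.uncurry G) := by
    have h1 : Continuous fun p : S × ℝ => ((p.1 : ℝ), ((projIcc (0:ℝ) 1 zero_le_one p.2 : Icc (0:ℝ) 1) : ℝ)) := by
      refine (continuous_subtype_val.comp continuous_fst).prodMk ?_
      exact continuous_subtype_val.comp ((continuous_projIcc (h := zero_le_one)).comp continuous_snd)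
    exact hH.comp_continuous h1 fun p => ⟨p.1.2, (projIcc (0:ℝ) 1 zero_le_one p.2).2⟩
  have h2 := continuous_parametric_integral_of_continuous (μ := volume) hG
    (isCompact_Icc (a := (0:ℝ)) (b := 1))
  convert h2 using 2 with t
  simp only [Set.domRestrict_apply]
  rw [intervalIntegral.integral_of_le zero_le_one, integral_Icc_eq_integral_Ioc]
  refine setIntegral_congr_fun measurableSet_Ioc fun x hx => ?_
  have : projIcc (0:ℝ) 1 zero_le_one x = ⟨x, Ioc_subset_Icc_self hx⟩ := projIcc_of_mem _ _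
  simp only [G, this]

theorem isLocallyClosed_Ioc (a b : ℝ) : IsLocallyClosed (Ioc a b) := by
  have : Ioc a b = Ioi a ∩ Iic b := rfl
  rw [this]
  exact isOpen_Ioi.isLocallyClosed.inter isClosed_Iic.isLocallyClosed

theorem continuousOn_slice_Ioc {a b : ℝ} {H : ℝ → ℝ → ℝ}
    (hH : ContinuousOn (Function.uncurry H) (Ioc a b ×ˢ Icc 0 1)) :
    ContinuousOn (fun t => ∫ x in (0 : ℝ)..1, H t x) (Ioc a b) :=
  continuousOn_slice (isLocallyClosed_Ioc a b) hH

theorem continuousOn_slice_Icc {a b : ℝ} {H : ℝ → ℝ → ℝ}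
    (hH : ContinuousOn (Function.uncurry H) (Icc a b ×ˢ Icc 0 1)) :
    ContinuousOn (fun t => ∫ x in (0 : ℝ)..1, H t x) (Icc a b) :=
  continuousOn_slice isClosed_Icc.isLocallyClosed hH

/-- Slices of a jointly continuous function are continuous. -/
theorem continuousOn_row {S : Set ℝ} {H : ℝ → ℝ → ℝ}
    (hH : ContinuousOn (Function.uncurry H) (S ×ˢ Icc 0 1)) {t : ℝ} (ht : t ∈ S) :
    ContinuousOn (H t) (Icc 0 1) :=
  hH.comp (Continuous.continuousOn (by fun_prop : Continuous fun x : ℝ => (t, x)))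
    fun _ hx => ⟨ht, hx⟩

/-- A function continuous on `[t₁,b] × [0,1]` is bounded there. -/
theorem exists_bound_Icc {a b : ℝ} {H : ℝ → ℝ → ℝ}
    (hH : ContinuousOn (Function.uncurry H) (Icc a b ×ˢ Icc 0 1)) :
    ∃ C, ∀ t ∈ Icc a b, ∀ x ∈ Icc (0 : ℝ) 1, |H t x| ≤ C := by
  obtain ⟨C, hC⟩ := (isCompact_Icc.prod isCompact_Icc).exists_bound_of_continuousOn hH
  exact ⟨C, fun t ht x hx => hC (t, x) ⟨ht, hx⟩⟩

end Pool.Agent.Burg
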