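import Pool.Agent.Helper46_Burg.Exist
import Pool.Agent.Helper46_Burg.Flux
import Pool.Agent.Helper46_Burg.Tools

/-!
Module SOL: weak solutions on a closed time interval, concatenation (finite and countable).
-/

set_option autoImplicit false

open MeasureTheory Set Filter Topology
open scoped Real ENNReal NNReal

noncomputable section

namespace Pool.Agent.Burg

/-- Weak solution `y` (with space derivative `g`) on `[a,b]` of
`y_t + f(y)_x - y_xx = u(t)`, `y(t,0) = v(t)`, `y(t,1) = 0`. -/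
structure Sol (f : ℝ → ℝ) (a b : ℝ) (u v : ℝ → ℝ) (y g : ℝ → ℝ → ℝ) : Prop where
  measY : Measurable (Function.uncurry y)
  measG : Measurable (Function.uncurry g)
  bdd : ∃ M, ∀ t ∈ Icc a b, ∀ x ∈ Icc (0 : ℝ) 1, |y t x| ≤ M
  sqG : ∫⁻ t in Ioc a b, ∫⁻ x in Icc (0 : ℝ) 1, ENNReal.ofReal (g t x ^ 2) < ⊤
  contG : ∀ t ∈ Ioc a b, ContinuousOn (g t) (Icc 0 1)
  der : ∀ t ∈ Ioc a b, ∀ x ∈ Icc (0 : ℝ) 1, HasDerivWithinAt (y t) (g t x) (Icc 0 1) x
  left : ∀ t ∈ Ioc a b, y t 0 = v t
  right : ∀ t ∈ Ioc a b, y t 1 = 0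
  intU : IntervalIntegrable u volume a b
  cont : ∀ t₀ ∈ Icc a b,
    Tendsto (fun t => ∫ x in (0 : ℝ)..1, (y t x - y t₀ x) ^ 2) (𝓝[Icc a b] t₀) (𝓝 0)
  weak : ∀ φ φ', IsTest φ φ' → ∀ t ∈ Icc a b,
    (∫ x in (0 : ℝ)..1, y t x * φ x) - (∫ x in (0 : ℝ)..1, y a x * φ x) =
      ∫ s in a..t, ((∫ x in (0 : ℝ)..1, (f (y s x) - g s x) * φ' x) +
        u s * ∫ x in (0 : ℝ)..1, φ x)

/-- A lifting: smooth solution of the heat equation with source `u(t)` and `B(t,1) = 0`. -/
structure Lift (u : ℝ → ℝ) (B Bx : ℝ → ℝ → ℝ) : Prop where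
  contU : Continuous u
  contB : Continuous (Function.uncurry B)
  contBx : Continuous (Function.uncurry Bx)
  der : ∀ t x, HasDerivAt (B t) (Bx t x) x
  right : ∀ t, B t 1 = 0
  weak : ∀ φ φ', IsTest φ φ' → ∀ t₁ t₂,
    (∫ x in (0 : ℝ)..1, B t₂ x * φ x) - (∫ x in (0 : ℝ)..1, B t₁ x * φ x) =
      ∫ t in t₁..t₂, ((∫ x in (0 : ℝ)..1, (-Bx t x) * φ' x) + u t * ∫ x in (0 : ℝ)..1, φ x)

theorem IsTest.contφ {φ φ' : ℝ → ℝ} (h : IsTest φ φ') : ContinuousOn φ (Icc 0 1) :=
  fun x hx => (h.der x hx).continuousWithinAt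

theorem IsTest.integral_deriv {φ φ' : ℝ → ℝ} (h : IsTest φ φ') :
    ∫ x in (0 : ℝ)..1, φ' x = 0 := by
  rw [intervalIntegral.integral_eq_sub_of_hasDerivAt_of_le zero_le_one h.contφ
    (fun x hx => (h.der x (Ioo_subset_Icc_self hx)).hasDerivAt (Icc_mem_nhds hx.1 hx.2))
    (ContinuousOn.intervalIntegrable (by rw [uIcc_of_le zero_le_one]; exact h.cont)),
    h.zero1, h.zero0, sub_zero]

theorem lift_zero : Lift (fun _ => 0) (fun _ _ => 0) (fun _ _ => 0) where
  contU := continuous_const
  contB := continuous_const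
  contBx := continuous_const
  der := fun t x => hasDerivAt_const x 0
  right := fun t => rfl
  weak := fun φ φ' _ t₁ t₂ => by simp

theorem lift_const (c : ℝ) :
    Lift (fun _ => 0) (fun _ x => c * (1 - x)) (fun _ _ => -c) where
  contU := continuous_const
  contB := by simp only [Function.uncurry_def]; fun_prop
  contBx := continuous_const
  der := fun t x => by
    have := ((hasDerivAt_id x).const_sub 1).const_mul c
    simpa using this
  right := fun t => by simp
  weak := fun φ φ' h t₁ t₂ => by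
    simp only [neg_neg, zero_mul, add_zero, sub_self]
    rw [show (∫ x in (0 : ℝ)..1, c * φ' x) = 0 by
      rw [intervalIntegral.integral_const_mul, h.integral_deriv, mul_zero]]
    simp

/-- Space derivative of `stokes`. -/
def stokesX (A κ t x : ℝ) : ℝ :=
  -(A * κ * (Real.exp (-(κ * (1 - x))) * Real.sin (2 * κ ^ 2 * t - κ * (1 - x)))) -
    A * κ * (Real.exp (-(κ * (1 - x))) * Real.cos (2 * κ ^ 2 * t - κ * (1 - x)))

theorem stokes_weak (A κ : ℝ) {φ φ' : ℝ → ℝ} (h : IsTest φ φ') (t₁ t₂ : ℝ) :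
    (∫ x in (0 : ℝ)..1, stokes A κ t₂ x * φ x) - (∫ x in (0 : ℝ)..1, stokes A κ t₁ x * φ x) =
      ∫ t in t₁..t₂, ((∫ x in (0 : ℝ)..1, (-stokesX A κ t x) * φ' x) +
        2 * A * κ ^ 2 * Real.cos (2 * κ ^ 2 * t) * ∫ x in (0 : ℝ)..1, φ x) := by
  set D : ℝ → ℝ → ℝ := fun t x => 2 * A * κ ^ 2 * Real.cos (2 * κ ^ 2 * t) +
    (-(2 * A * κ ^ 2 * (Real.exp (-(κ * (1 - x))) * Real.cos (2 * κ ^ 2 * t - κ * (1 - x)))))
    with hD
  have hDt : ∀ t x, HasDerivAt (fun t => stokes A κ t x) (D t x) t := by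
    intro t x
    have h1 : HasDerivAt (fun t : ℝ => 2 * κ ^ 2 * t) (2 * κ ^ 2) t := by
      simpa using (hasDerivAt_id t).const_mul (2 * κ ^ 2)
    have h2 := (h1.sin.const_mul A)
    have h3 := (((h1.sub_const (κ * (1 - x))).sin.const_mul
      (Real.exp (-(κ * (1 - x))))).const_mul A)
    refine (h2.sub h3).congr_deriv ?_
    simp only [hD]
    ring
  have hDx : ∀ t x, HasDerivAt (stokesX A κ t)
      (-(2 * A * κ ^ 2 * (Real.exp (-(κ * (1 - x))) *
        Real.cos (2 * κ ^ 2 * t - κ * (1 - x))))) x := by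
    intro t x
    have h1 : HasDerivAt (fun x : ℝ => κ * (1 - x)) (-κ) x := by
      simpa using ((hasDerivAt_id x).const_sub 1).const_mul κ
    have h2 := h1.neg.exp
    have h3 := (h1.const_sub (2 * κ ^ 2 * t)).sin
    have h3' := (h1.const_sub (2 * κ ^ 2 * t)).cos
    have h4 := (((h2.mul h3).const_mul (A * κ)).neg).sub ((h2.mul h3').const_mul (A * κ))
    refine h4.congr_deriv ?_
    simp only [Pi.neg_apply]
    ring
  have hDc : Continuous (Function.uncurry D) := by
    simp only [Function.uncurry_def, hD]; fun_prop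
  have hDc1 : ∀ x, Continuous fun t => D t x := fun x =>
    hDc.comp (by fun_prop : Continuous fun t : ℝ => (t, x))
  have hφc := h.contφ
  have hφi : IntervalIntegrable φ volume 0 1 :=
    ContinuousOn.intervalIntegrable (by rw [uIcc_of_le zero_le_one]; exact hφc)
  have hB : ∀ t, IntervalIntegrable (fun x => stokes A κ t x * φ x) volume 0 1 := by
    intro t
    refine ContinuousOn.intervalIntegrable ?_
    rw [uIcc_of_le zero_le_one]
    refine ContinuousOn.mul (Continuous.continuousOn ?_) hφc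
    unfold stokes; fun_prop
  rw [← intervalIntegral.integral_sub (hB t₂) (hB t₁)]
  have e1 : ∀ x, stokes A κ t₂ x * φ x - stokes A κ t₁ x * φ x =
      ∫ t in t₁..t₂, D t x * φ x := by
    intro x
    rw [intervalIntegral.integral_mul_const, intervalIntegral.integral_eq_sub_of_hasDerivAt
      (fun t _ => hDt t x) ((hDc1 x).intervalIntegrable _ _)]
    ring
  rw [show (∫ x in (0 : ℝ)..1, (stokes A κ t₂ x * φ x - stokes A κ t₁ x * φ x)) =
    ∫ x in (0 : ℝ)..1, ∫ t in t₁..t₂, D t x * φ x from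
      intervalIntegral.integral_congr fun x _ => e1 x]
  rw [intervalIntegral_intervalIntegral_swap]
  · refine intervalIntegral.integral_congr fun t _ => ?_
    have e2 : ∀ x, D t x * φ x = 2 * A * κ ^ 2 * Real.cos (2 * κ ^ 2 * t) * φ x +
        φ x * (-(2 * A * κ ^ 2 * (Real.exp (-(κ * (1 - x))) *
          Real.cos (2 * κ ^ 2 * t - κ * (1 - x))))) := by
      intro x
      change (2 * A * κ ^ 2 * Real.cos (2 * κ ^ 2 * t) + (-(2 * A * κ ^ 2 *
        (Real.exp (-(κ * (1 - x))) * Real.cos (2 * κ ^ 2 * t - κ * (1 - x)))))) * φ x = _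
      ring
    rw [show (∫ x in (0 : ℝ)..1, D t x * φ x) = ∫ x in (0 : ℝ)..1,
        (2 * A * κ ^ 2 * Real.cos (2 * κ ^ 2 * t) * φ x +
        φ x * (-(2 * A * κ ^ 2 * (Real.exp (-(κ * (1 - x))) *
          Real.cos (2 * κ ^ 2 * t - κ * (1 - x)))))) from
      intervalIntegral.integral_congr fun x _ => e2 x]
    have hc2 : Continuous fun x => (-(2 * A * κ ^ 2 * (Real.exp (-(κ * (1 - x))) *
          Real.cos (2 * κ ^ 2 * t - κ * (1 - x))))) := by fun_prop
    rw [intervalIntegral.integral_add (hφi.const_mul _)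
      (hφi.mul_continuousOn hc2.continuousOn), intervalIntegral.integral_const_mul]
    have ibp := intervalIntegral.integral_mul_deriv_eq_deriv_mul_of_hasDerivWithinAt
      (a := 0) (b := 1) (u := φ) (u' := φ') (v := stokesX A κ t)
      (v' := fun x => (-(2 * A * κ ^ 2 * (Real.exp (-(κ * (1 - x))) *
          Real.cos (2 * κ ^ 2 * t - κ * (1 - x))))))
      (by rw [uIcc_of_le zero_le_one]; exact h.der)
      (fun x _ => (hDx t x).hasDerivWithinAt)
      (ContinuousOn.intervalIntegrable (by rw [uIcc_of_le zero_le_one]; exact h.cont))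
      (hc2.intervalIntegrable _ _)
    rw [ibp, h.zero1, h.zero0]
    have e3 : ∀ x, -stokesX A κ t x * φ' x = -(φ' x * stokesX A κ t x) := fun x => by ring
    simp only [e3]
    rw [intervalIntegral.integral_neg]
    ring
  · have hc3 : ContinuousOn (Function.uncurry fun x t => D t x * φ x)
        (Icc 0 1 ×ˢ uIcc t₁ t₂) := by
      have c1 : Continuous fun p : ℝ × ℝ => D p.2 p.1 := hDc.comp continuous_swap
      have c2 : ContinuousOn (fun p : ℝ × ℝ => φ p.1) (Icc 0 1 ×ˢ uIcc t₁ t₂) :=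
        hφc.comp continuous_fst.continuousOn fun p hp => hp.1
      exact c1.continuousOn.mul c2
    refine (hc3.integrableOn_compact (isCompact_Icc.prod isCompact_uIcc)).mono_set ?_
    rw [uIoc_of_le zero_le_one]
    exact prod_mono Ioc_subset_Icc_self uIoc_subset_uIcc


theorem lift_stokes (A κ : ℝ) :
    Lift (fun t => 2 * A * κ ^ 2 * Real.cos (2 * κ ^ 2 * t)) (stokes A κ) (stokesX A κ) where
  contU := by fun_prop
  contB := by simp only [Function.uncurry_def, stokes]; fun_prop
  contBx := by simp only [Function.uncurry_def, stokesX]; fun_prop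
  der := fun t x => by
    have h1 : HasDerivAt (fun x : ℝ => κ * (1 - x)) (-κ) x := by
      simpa using ((hasDerivAt_id x).const_sub 1).const_mul κ
    have h2 := h1.neg.exp
    have h3 := (h1.const_sub (2 * κ ^ 2 * t)).sin
    have h4 := ((h2.mul h3).const_mul A).const_sub (A * Real.sin (2 * κ ^ 2 * t))
    refine h4.congr_deriv ?_
    simp only [stokesX, Pi.neg_apply]
    ring
  right := fun t => by simp [stokes]
  weak := fun φ φ' h t₁ t₂ => stokes_weak A κ h t₁ t₂

/-- On `[0,1]` a continuous function can be replaced by a globally continuous bounded one. -/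
theorem exists_ext_Icc {ψ : ℝ → ℝ} (h : ContinuousOn ψ (Icc 0 1)) :
    ∃ (Ψ : ℝ → ℝ) (C : ℝ), Continuous Ψ ∧ 0 ≤ C ∧ (∀ x, |Ψ x| ≤ C) ∧
      ∀ x ∈ Icc (0 : ℝ) 1, Ψ x = ψ x := by
  obtain ⟨C, hC⟩ := (isCompact_Icc (a := (0:ℝ)) (b := 1)).exists_bound_of_continuousOn h
  have hC0 : 0 ≤ C := (norm_nonneg _).trans (hC 0 ⟨le_rfl, zero_le_one⟩)
  refine ⟨fun x => ψ (projIcc (0:ℝ) 1 zero_le_one x), C, ?_, hC0, fun x => ?_, fun x hx => ?_⟩
  · exact h.comp_continuous (continuous_subtype_val.comp continuous_projIcc)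
      fun x => (projIcc (0:ℝ) 1 zero_le_one x).2
  · exact hC _ (projIcc (0:ℝ) 1 zero_le_one x).2
  · simp only [projIcc_of_mem zero_le_one hx]

theorem integrable_prod_of_sq {a b : ℝ} {G : ℝ → ℝ → ℝ} (hG : Measurable (Function.uncurry G))
    (h : ∫⁻ t in Ioc a b, ∫⁻ x in Icc (0 : ℝ) 1, ENNReal.ofReal (G t x ^ 2) < ⊤) :
    Integrable (Function.uncurry G)
      ((volume.restrict (Ioc a b)).prod (volume.restrict (Ioc (0 : ℝ) 1))) := by
  have h1 : Integrable (fun p : ℝ × ℝ => Function.uncurry G p ^ 2)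
      ((volume.restrict (Ioc a b)).prod (volume.restrict (Ioc (0 : ℝ) 1))) := by
    refine ⟨(hG.pow_const 2).aestronglyMeasurable, ?_⟩
    rw [hasFiniteIntegral_iff_ofReal (ae_of_all _ fun p => sq_nonneg _)]
    rw [lintegral_prod _ (hG.pow_const 2).ennreal_ofReal.aemeasurable]
    have e2 : volume.restrict (Ioc (0:ℝ) 1) = volume.restrict (Icc (0:ℝ) 1) :=
      restrict_Ioc_eq_restrict_Icc
    rw [e2]
    exact h
  have h2 : Integrable (fun p : ℝ × ℝ => 1 + Function.uncurry G p ^ 2)
      ((volume.restrict (Ioc a b)).prod (volume.restrict (Ioc (0 : ℝ) 1))) :=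
    (integrable_const 1).add h1
  refine h2.mono' hG.aestronglyMeasurable (ae_of_all _ fun p => ?_)
  rw [Real.norm_eq_abs]
  nlinarith [sq_nonneg (|Function.uncurry G p| - 1), sq_abs (Function.uncurry G p),
    abs_nonneg (Function.uncurry G p)]

theorem core_intervalIntegrable {f : ℝ → ℝ} {a b : ℝ} {u : ℝ → ℝ} {y g : ℝ → ℝ → ℝ}
    (hf : Continuous f) (hab : a ≤ b) (hY : Measurable (Function.uncurry y))
    (hG : Measurable (Function.uncurry g))
    (hbdd : ∃ M, ∀ t ∈ Ioc a b, ∀ x ∈ Icc (0 : ℝ) 1, |y t x| ≤ M)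
    (hsq : ∫⁻ t in Ioc a b, ∫⁻ x in Icc (0 : ℝ) 1, ENNReal.ofReal (g t x ^ 2) < ⊤)
    (hu : IntervalIntegrable u volume a b) {φ φ' : ℝ → ℝ} (hφ : IsTest φ φ') :
    IntervalIntegrable (fun s => (∫ x in (0 : ℝ)..1, (f (y s x) - g s x) * φ' x) +
      u s * ∫ x in (0 : ℝ)..1, φ x) volume a b := by
  refine IntervalIntegrable.add ?_ (hu.mul_const _)
  obtain ⟨Ψ, C, hΨ, hC0, hC, hΨe⟩ := exists_ext_Icc hφ.cont
  obtain ⟨M, hM⟩ := hbdd
  obtain ⟨N, hN⟩ := (isCompact_Icc (a := -M) (b := M)).exists_bound_of_continuousOn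
    hf.continuousOn
  have hgi := integrable_prod_of_sq hG hsq
  have hfm : Measurable fun p : ℝ × ℝ => f (y p.1 p.2) := hf.measurable.comp hY
  have hfi : Integrable (fun p : ℝ × ℝ => f (y p.1 p.2))
      ((volume.restrict (Ioc a b)).prod (volume.restrict (Ioc (0 : ℝ) 1))) := by
    refine (integrable_const N).mono' hfm.aestronglyMeasurable ?_
    rw [Measure.prod_restrict]
    refine ae_restrict_of_forall_mem (measurableSet_Ioc.prod measurableSet_Ioc) ?_
    rintro ⟨t, x⟩ ⟨ht, hx⟩
    exact hN _ (abs_le.1 (hM t ht x (Ioc_subset_Icc_self hx)))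
  have hΨm : Measurable fun p : ℝ × ℝ => Ψ p.2 := hΨ.measurable.comp measurable_snd
  have hi : Integrable (fun p : ℝ × ℝ => (f (y p.1 p.2) - g p.1 p.2) * Ψ p.2)
      ((volume.restrict (Ioc a b)).prod (volume.restrict (Ioc (0 : ℝ) 1))) := by
    refine Integrable.mul_bdd (c := C) (hfi.sub hgi) hΨm.aestronglyMeasurable ?_
    exact ae_of_all _ fun p => hC _
  have h2 := hi.integral_prod_left
  rw [intervalIntegrable_iff_integrableOn_Ioc_of_le hab]
  refine h2.congr (ae_of_all _ fun s => ?_)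
  simp only
  rw [intervalIntegral.integral_of_le zero_le_one]
  refine setIntegral_congr_fun measurableSet_Ioc fun x hx => ?_
  simp only [hΨe x (Ioc_subset_Icc_self hx)]

theorem Sol.intervalIntegrable {f : ℝ → ℝ} {a b : ℝ} {u v : ℝ → ℝ} {y g : ℝ → ℝ → ℝ}
    (h : Sol f a b u v y g) (hf : Continuous f) (hab : a ≤ b) {φ φ' : ℝ → ℝ}
    (hφ : IsTest φ φ') :
    IntervalIntegrable (fun s => (∫ x in (0 : ℝ)..1, (f (y s x) - g s x) * φ' x) +
      u s * ∫ x in (0 : ℝ)..1, φ x) volume a b := by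
  obtain ⟨M, hM⟩ := h.bdd
  exact core_intervalIntegrable hf hab h.measY h.measG
    ⟨M, fun t ht => hM t (Ioc_subset_Icc_self ht)⟩ h.sqG h.intU hφ

/-- Jensen on `[0,1]`. -/
theorem sq_integral_le {H : ℝ → ℝ} (h1 : IntervalIntegrable H volume 0 1)
    (h2 : IntervalIntegrable (fun x => H x ^ 2) volume 0 1) :
    (∫ x in (0 : ℝ)..1, H x) ^ 2 ≤ ∫ x in (0 : ℝ)..1, H x ^ 2 := by
  set m := ∫ x in (0 : ℝ)..1, H x with hm
  have h0 : 0 ≤ ∫ x in (0 : ℝ)..1, (H x - m) ^ 2 :=
    intervalIntegral.integral_nonneg zero_le_one fun x _ => sq_nonneg _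
  have e : ∀ x, (H x - m) ^ 2 = (H x ^ 2 - 2 * m * H x) + m ^ 2 := fun x => by ring
  simp only [e] at h0
  rw [intervalIntegral.integral_add (h2.sub (h1.const_mul _)) intervalIntegrable_const,
    intervalIntegral.integral_sub h2 (h1.const_mul _), intervalIntegral.integral_const_mul,
    ← hm, intervalIntegral.integral_const] at h0
  simp only [sub_zero, smul_eq_mul, one_mul] at h0
  nlinarith

/-- Bounded measurable functions on `[0,1]` are interval integrable. -/
theorem intervalIntegrable_bdd01 {H : ℝ → ℝ} (hm : Measurable H) {C : ℝ}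
    (hC : ∀ x ∈ Icc (0 : ℝ) 1, |H x| ≤ C) : IntervalIntegrable H volume 0 1 := by
  rw [intervalIntegrable_iff_integrableOn_Ioc_of_le zero_le_one]
  refine Measure.integrableOn_of_bounded (M := C) (by simp) hm.aestronglyMeasurable ?_
  exact ae_restrict_of_forall_mem measurableSet_Ioc fun x hx => hC x (Ioc_subset_Icc_self hx)

/-- Convergence in `L²(0,1)` implies convergence of the pairings. -/
theorem tendsto_pairing {ι : Type*} {l : Filter ι} {y : ι → ℝ → ℝ} {z : ℝ → ℝ}
    (hy : ∀ i, Measurable (y i)) (hz : Measurable z) {M : ℝ}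
    (hyM : ∀ᶠ i in l, ∀ x ∈ Icc (0 : ℝ) 1, |y i x| ≤ M)
    (hzM : ∀ x ∈ Icc (0 : ℝ) 1, |z x| ≤ M)
    (h : Tendsto (fun i => ∫ x in (0 : ℝ)..1, (y i x - z x) ^ 2) l (𝓝 0)) {φ : ℝ → ℝ}
    (hφ : ContinuousOn φ (Icc 0 1)) :
    Tendsto (fun i => ∫ x in (0 : ℝ)..1, y i x * φ x) l (𝓝 (∫ x in (0 : ℝ)..1, z x * φ x)) := by
  obtain ⟨Ψ, C, hΨ, hC0, hC, hΨe⟩ := exists_ext_Icc hφ
  have hM0 : 0 ≤ M := (abs_nonneg _).trans (hzM 0 ⟨le_rfl, zero_le_one⟩)
  have e : ∀ w : ℝ → ℝ, ∫ x in (0 : ℝ)..1, w x * φ x = ∫ x in (0 : ℝ)..1, w x * Ψ x := by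
    intro w
    refine intervalIntegral.integral_congr fun x hx => ?_
    rw [uIcc_of_le zero_le_one] at hx
    simp only [hΨe x hx]
  simp only [e]
  have hΨm := hΨ.measurable
  have key : ∀ᶠ i in l, ‖(∫ x in (0 : ℝ)..1, y i x * Ψ x) - ∫ x in (0 : ℝ)..1, z x * Ψ x‖ ≤
      √(C ^ 2 * ∫ x in (0 : ℝ)..1, (y i x - z x) ^ 2) := by
    filter_upwards [hyM] with i hi
    have hd : Measurable fun x => y i x - z x := (hy i).sub hz
    have hdb : ∀ x ∈ Icc (0:ℝ) 1, |y i x - z x| ≤ 2 * M := fun x hx =>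
      (abs_sub _ _).trans (by linarith [hi x hx, hzM x hx])
    have i1 : IntervalIntegrable (fun x => y i x * Ψ x) volume 0 1 :=
      intervalIntegrable_bdd01 ((hy i).mul hΨm) (C := M * C) fun x hx => by
        rw [abs_mul]; exact mul_le_mul (hi x hx) (hC x) (abs_nonneg _) hM0
    have i2 : IntervalIntegrable (fun x => z x * Ψ x) volume 0 1 :=
      intervalIntegrable_bdd01 (hz.mul hΨm) (C := M * C) fun x hx => by
        rw [abs_mul]; exact mul_le_mul (hzM x hx) (hC x) (abs_nonneg _) hM0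
    have i3 : IntervalIntegrable (fun x => (y i x - z x) * Ψ x) volume 0 1 :=
      intervalIntegrable_bdd01 (hd.mul hΨm) (C := 2 * M * C) fun x hx => by
        rw [abs_mul]; exact mul_le_mul (hdb x hx) (hC x) (abs_nonneg _) (by positivity)
    have i4 : IntervalIntegrable (fun x => ((y i x - z x) * Ψ x) ^ 2) volume 0 1 :=
      intervalIntegrable_bdd01 ((hd.mul hΨm).pow_const 2) (C := (2 * M * C) ^ 2) fun x hx => by
        rw [abs_pow, abs_mul]
        exact pow_le_pow_left₀ (by positivity)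
          (mul_le_mul (hdb x hx) (hC x) (abs_nonneg _) (by positivity)) 2
    have i5 : IntervalIntegrable (fun x => (y i x - z x) ^ 2) volume 0 1 :=
      intervalIntegrable_bdd01 (hd.pow_const 2) (C := (2 * M) ^ 2) fun x hx => by
        rw [abs_pow]; exact pow_le_pow_left₀ (abs_nonneg _) (hdb x hx) 2
    rw [← intervalIntegral.integral_sub i1 i2]
    have e2 : ∀ x, y i x * Ψ x - z x * Ψ x = (y i x - z x) * Ψ x := fun x => by ring
    simp only [e2]
    rw [Real.norm_eq_abs]
    apply Real.abs_le_sqrt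
    refine (sq_integral_le i3 i4).trans ?_
    rw [← intervalIntegral.integral_const_mul]
    refine intervalIntegral.integral_mono_on zero_le_one i4 (i5.const_mul _) fun x hx => ?_
    rw [mul_pow, mul_comm]
    refine mul_le_mul_of_nonneg_right ?_ (sq_nonneg _)
    rw [← sq_abs]
    exact pow_le_pow_left₀ (abs_nonneg _) (hC x) 2
  rw [tendsto_iff_norm_sub_tendsto_zero]
  have h3 : Tendsto (fun i => √(C ^ 2 * ∫ x in (0 : ℝ)..1, (y i x - z x) ^ 2)) l (𝓝 0) := by
    have := (Real.continuous_sqrt.tendsto _).comp (h.const_mul (C ^ 2))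
    simpa [Function.comp_def] using this
  exact squeeze_zero' (Eventually.of_forall fun i => norm_nonneg _) key h3


/-- The boundary value may be changed outside `(a,b]`, the source on a null set. -/
theorem Sol.congr {f : ℝ → ℝ} {a b : ℝ} {u v u' v' : ℝ → ℝ} {y g : ℝ → ℝ → ℝ}
    (h : Sol f a b u v y g) (hab : a ≤ b) (hu : ∀ t ∈ Ioc a b, u t = u' t) (hv : ∀ t ∈ Ioc a b, v t = v' t) :
    Sol f a b u' v' y g where
  measY := h.measY
  measG := h.measG
  bdd := h.bdd
  sqG := h.sqG
  contG := h.contG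
  der := h.der
  left := fun t ht => (h.left t ht).trans (hv t ht)
  right := h.right
  intU := by
    refine h.intU.congr ?_
    intro t ht
    rw [uIoc_of_le hab] at ht
    exact hu t ht
  cont := h.cont
  weak := fun φ φ' hφ t ht => by
    rw [h.weak φ φ' hφ t ht]
    refine intervalIntegral.integral_congr_ae (ae_of_all _ fun s hs => ?_)
    rw [uIoc_of_le ht.1] at hs
    rw [hu s ⟨hs.1, hs.2.trans ht.2⟩]

/-- Concatenation. -/
theorem Sol.trans {f : ℝ → ℝ} {a b c : ℝ} (hab : a ≤ b) (hbc : b ≤ c) (hf : Continuous f)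
    {u v : ℝ → ℝ} {y₁ g₁ y₂ g₂ : ℝ → ℝ → ℝ}
    (h₁ : Sol f a b u v y₁ g₁) (h₂ : Sol f b c u v y₂ g₂)
    (h : ∀ x ∈ Icc (0 : ℝ) 1, y₁ b x = y₂ b x) :
    Sol f a c u v (fun t x => if t ≤ b then y₁ t x else y₂ t x)
      (fun t x => if t ≤ b then g₁ t x else g₂ t x) where
  measY := Measurable.ite (measurableSet_le measurable_fst measurable_const) h₁.measY h₂.measY
  measG := Measurable.ite (measurableSet_le measurable_fst measurable_const) h₁.measG h₂.measG
  bdd := by
    obtain ⟨M₁, hM₁⟩ := h₁.bdd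
    obtain ⟨M₂, hM₂⟩ := h₂.bdd
    refine ⟨max M₁ M₂, fun t ht x hx => ?_⟩
    split_ifs with htb
    · exact (hM₁ t ⟨ht.1, htb⟩ x hx).trans (le_max_left _ _)
    · exact (hM₂ t ⟨(not_le.1 htb).le, ht.2⟩ x hx).trans (le_max_right _ _)
  sqG := by
    rw [← Ioc_union_Ioc_eq_Ioc hab hbc]
    refine (lintegral_union_le _ _ _).trans_lt (ENNReal.add_lt_top.2 ⟨?_, ?_⟩)
    · refine lt_of_le_of_lt (le_of_eq ?_) h₁.sqG
      refine setLIntegral_congr_fun measurableSet_Ioc fun t ht => ?_
      simp only [if_pos ht.2]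
    · refine lt_of_le_of_lt (le_of_eq ?_) h₂.sqG
      refine setLIntegral_congr_fun measurableSet_Ioc fun t ht => ?_
      simp only [if_neg (not_le.2 ht.1)]
  contG := fun t ht => by
    by_cases htb : t ≤ b
    · simp only [if_pos htb]; exact h₁.contG t ⟨ht.1, htb⟩
    · simp only [if_neg htb]; exact h₂.contG t ⟨not_le.1 htb, ht.2⟩
  der := fun t ht x hx => by
    by_cases htb : t ≤ b
    · simp only [if_pos htb]; exact h₁.der t ⟨ht.1, htb⟩ x hx
    · simp only [if_neg htb]; exact h₂.der t ⟨not_le.1 htb, ht.2⟩ x hx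
  left := fun t ht => by
    by_cases htb : t ≤ b
    · simp only [if_pos htb]; exact h₁.left t ⟨ht.1, htb⟩
    · simp only [if_neg htb]; exact h₂.left t ⟨not_le.1 htb, ht.2⟩
  right := fun t ht => by
    by_cases htb : t ≤ b
    · simp only [if_pos htb]; exact h₁.right t ⟨ht.1, htb⟩
    · simp only [if_neg htb]; exact h₂.right t ⟨not_le.1 htb, ht.2⟩
  intU := h₁.intU.trans h₂.intU
  cont := fun t₀ ht₀ => by
    -- values on the right part
    have hval : ∀ t ∈ Icc b c, ∀ x ∈ Icc (0:ℝ) 1,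
        (if t ≤ b then y₁ t x else y₂ t x) = y₂ t x := by
      intro t ht x hx
      split_ifs with htb
      · have : t = b := le_antisymm htb ht.1
        subst this; exact h x hx
      · rfl
    have hle : 𝓝[Icc a c] t₀ ≤ 𝓝[Icc a b] t₀ ⊔ 𝓝[Icc b c] t₀ := by
      rw [← nhdsWithin_union]
      apply nhdsWithin_mono
      rw [Icc_union_Icc_eq_Icc hab hbc]
    refine Tendsto.mono_left (Tendsto.sup ?_ ?_) hle
    · by_cases htb : t₀ ≤ b
      · refine (h₁.cont t₀ ⟨ht₀.1, htb⟩).congr' ?_
        filter_upwards [self_mem_nhdsWithin] with t ht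
        simp only [if_pos htb, if_pos ht.2]
      · have : 𝓝[Icc a b] t₀ = ⊥ := by
          rw [← notMem_closure_iff_nhdsWithin_eq_bot, isClosed_Icc.closure_eq]
          exact fun hh => htb hh.2
        rw [this]; exact tendsto_bot
    · by_cases htb : b ≤ t₀
      · refine (h₂.cont t₀ ⟨htb, ht₀.2⟩).congr' ?_
        filter_upwards [self_mem_nhdsWithin] with t ht
        refine intervalIntegral.integral_congr fun x hx => ?_
        rw [uIcc_of_le zero_le_one] at hx
        rw [hval t ht x hx, hval t₀ ⟨htb, ht₀.2⟩ x hx]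
      · have : 𝓝[Icc b c] t₀ = ⊥ := by
          rw [← notMem_closure_iff_nhdsWithin_eq_bot, isClosed_Icc.closure_eq]
          exact fun hh => htb hh.1
        rw [this]; exact tendsto_bot
  weak := fun φ φ' hφ t ht => by
    simp only [if_pos hab]
    have key : ∀ t ∈ Icc a b, ∫ s in a..t,
        ((∫ x in (0 : ℝ)..1, (f (if s ≤ b then y₁ s x else y₂ s x) -
          (if s ≤ b then g₁ s x else g₂ s x)) * φ' x) + u s * ∫ x in (0 : ℝ)..1, φ x) =
        ∫ s in a..t, ((∫ x in (0 : ℝ)..1, (f (y₁ s x) - g₁ s x) * φ' x) +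
          u s * ∫ x in (0 : ℝ)..1, φ x) := by
      intro t ht
      refine intervalIntegral.integral_congr fun s hs => ?_
      rw [uIcc_of_le ht.1] at hs
      simp only [if_pos (hs.2.trans ht.2)]
    have key2 : ∀ t ∈ Icc b c, ∫ s in b..t,
        ((∫ x in (0 : ℝ)..1, (f (if s ≤ b then y₁ s x else y₂ s x) -
          (if s ≤ b then g₁ s x else g₂ s x)) * φ' x) + u s * ∫ x in (0 : ℝ)..1, φ x) =
        ∫ s in b..t, ((∫ x in (0 : ℝ)..1, (f (y₂ s x) - g₂ s x) * φ' x) +
          u s * ∫ x in (0 : ℝ)..1, φ x) := by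
      intro t ht
      refine intervalIntegral.integral_congr_ae (ae_of_all _ fun s hs => ?_)
      rw [uIoc_of_le ht.1] at hs
      simp only [if_neg (not_le.2 hs.1)]
    by_cases htb : t ≤ b
    · rw [key t ⟨ht.1, htb⟩, ← h₁.weak φ φ' hφ t ⟨ht.1, htb⟩]
      simp only [if_pos htb]
    · have htb' := (not_le.1 htb).le
      have i1 : IntervalIntegrable (fun s => (∫ x in (0 : ℝ)..1,
          (f (if s ≤ b then y₁ s x else y₂ s x) -
          (if s ≤ b then g₁ s x else g₂ s x)) * φ' x) + u s * ∫ x in (0 : ℝ)..1, φ x)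
          volume a b := by
        refine (h₁.intervalIntegrable hf hab hφ).congr ?_
        intro s hs
        rw [uIoc_of_le hab] at hs
        simp only [if_pos hs.2]
      have i2 : IntervalIntegrable (fun s => (∫ x in (0 : ℝ)..1,
          (f (if s ≤ b then y₁ s x else y₂ s x) -
          (if s ≤ b then g₁ s x else g₂ s x)) * φ' x) + u s * ∫ x in (0 : ℝ)..1, φ x)
          volume b t := by
        refine IntervalIntegrable.congr ?_ ((h₂.intervalIntegrable hf hbc hφ).mono_set ?_)
        · intro s hs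
          rw [uIoc_of_le htb'] at hs
          simp only [if_neg (not_le.2 hs.1)]
        · rw [uIcc_of_le htb', uIcc_of_le hbc]; exact Icc_subset_Icc le_rfl ht.2
      rw [← intervalIntegral.integral_add_adjacent_intervals i1 i2, key b ⟨hab, le_rfl⟩,
        key2 t ⟨htb', ht.2⟩, ← h₁.weak φ φ' hφ b ⟨hab, le_rfl⟩,
        ← h₂.weak φ φ' hφ t ⟨htb', ht.2⟩]
      simp only [if_neg htb]
      have e : ∫ x in (0 : ℝ)..1, y₁ b x * φ x = ∫ x in (0 : ℝ)..1, y₂ b x * φ x := by
        refine intervalIntegral.integral_congr fun x hx => ?_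
        rw [uIcc_of_le zero_le_one] at hx
        simp only [h x hx]
      rw [e]
      ring


theorem measurable_indicator_of_continuousOn {S : Set (ℝ × ℝ)} (hS : MeasurableSet S)
    {F : ℝ × ℝ → ℝ} (hF : ContinuousOn F S) : Measurable (S.indicator F) := by
  classical
  have := ContinuousOn.measurable_piecewise (g := fun _ => (0:ℝ)) hF continuousOn_const hS
  have e : S.indicator F = S.piecewise F (fun _ => 0) := by
    rw [← Set.piecewise_eq_indicator]
    rfl
  rw [e]
  convert this

/-- The gradient bound up to the initial time. -/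
theorem lintegral_sq_le {a b : ℝ} (hab : a < b) {G : ℝ → ℝ → ℝ}
    (hG : ContinuousOn (Function.uncurry G) (Ioc a b ×ˢ Icc 0 1)) {C : ℝ}
    (hC : ∀ t₁ ∈ Ioc a b, ∫ t in t₁..b, ∫ x in (0 : ℝ)..1, G t x ^ 2 ≤ C) :
    ∫⁻ t in Ioc a b, ∫⁻ x in Icc (0 : ℝ) 1, ENNReal.ofReal (G t x ^ 2) ≤ ENNReal.ofReal C := by
  set K : ℝ → ℝ := fun t => ∫ x in (0 : ℝ)..1, G t x ^ 2 with hK
  have hK0 : ∀ t, 0 ≤ K t := fun t =>
    intervalIntegral.integral_nonneg zero_le_one fun x _ => sq_nonneg _
  have hKc : ContinuousOn K (Ioc a b) := continuousOn_slice_Ioc (hG.pow 2)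
  have e1 : ∀ t ∈ Ioc a b, ∫⁻ x in Icc (0 : ℝ) 1, ENNReal.ofReal (G t x ^ 2) =
      ENNReal.ofReal (K t) := by
    intro t ht
    have hc : ContinuousOn (fun x => G t x ^ 2) (Icc 0 1) := (continuousOn_row hG ht).pow 2
    rw [hK]
    simp only
    rw [intervalIntegral.integral_of_le zero_le_one, ← integral_Icc_eq_integral_Ioc,
      ofReal_integral_eq_lintegral_ofReal (hc.integrableOn_compact isCompact_Icc)
        (ae_of_all _ fun x => sq_nonneg _)]
  rw [setLIntegral_congr_fun measurableSet_Ioc e1]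
  set τ : ℕ → ℝ := fun n => a + (b - a) / (n + 1) with hτ
  have hba : 0 < b - a := sub_pos.2 hab
  have hτ1 : ∀ n, a < τ n := fun n => by
    simp only [hτ]; have : 0 < (b - a) / ((n:ℝ) + 1) := by positivity
    linarith
  have hτ2 : ∀ n, τ n ≤ b := fun n => by
    simp only [hτ]
    have : (b - a) / ((n:ℝ) + 1) ≤ b - a := div_le_self hba.le (by simp)
    linarith
  have hanti : Antitone τ := by
    intro m n hmn
    simp only [hτ]
    have : (m:ℝ) ≤ n := by exact_mod_cast hmn
    gcongr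
  have hlim : Tendsto τ atTop (𝓝 a) := by
    have h1 : Tendsto (fun n : ℕ => (b - a) / ((n:ℝ) + 1)) atTop (𝓝 0) :=
      tendsto_const_div_atTop_nhds_zero_nat (b - a) |>.comp (tendsto_add_atTop_nat 1) |>.congr
        (fun n => by simp)
    simpa [hτ] using h1.const_add a
  have hU : Ioc a b = ⋃ n, Ioc (τ n) b := by
    ext t
    simp only [mem_iUnion, mem_Ioc]
    constructor
    · rintro ⟨h1, h2⟩
      obtain ⟨n, hn⟩ := (hlim.eventually (gt_mem_nhds h1)).exists
      exact ⟨n, hn, h2⟩
    · rintro ⟨n, h1, h2⟩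
      exact ⟨(hτ1 n).trans h1, h2⟩
  rw [hU, setLIntegral_iUnion_of_directed _ (Monotone.directed_le
    (fun m n hmn => Ioc_subset_Ioc_left (hanti hmn)))]
  refine iSup_le fun n => ?_
  have hsub : Icc (τ n) b ⊆ Ioc a b := fun t ht => ⟨(hτ1 n).trans_le ht.1, ht.2⟩
  have hi : IntegrableOn K (Ioc (τ n) b) volume :=
    ((hKc.mono hsub).integrableOn_compact isCompact_Icc).mono_set Ioc_subset_Icc_self
  rw [← ofReal_integral_eq_lintegral_ofReal hi (ae_of_all _ hK0),
    ← intervalIntegral.integral_of_le (hτ2 n)]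
  exact ENNReal.ofReal_le_ofReal (hC (τ n) ⟨hτ1 n, hτ2 n⟩)

/-- A piece on top of a lifting is a solution. The bound `C` controls the gradient. -/
theorem Piece.sol {f : ℝ → ℝ} {a b : ℝ} {y1 : ℝ → ℝ} {B Bx r g : ℝ → ℝ → ℝ} {u : ℝ → ℝ}
    (hab : a < b) (hf : Continuous f) (hL : Lift u B Bx) (hy1 : Measurable y1) {R : ℝ}
    (hR : ∀ x ∈ Icc (0 : ℝ) 1, |y1 x| ≤ R)
    (hP : Piece f a b (fun x => y1 x - B a x) B r g) {C : ℝ}
    (hC : ∀ t₁ ∈ Ioc a b, ∫ t in t₁..b, ∫ x in (0 : ℝ)..1, (Bx t x + g t x) ^ 2 ≤ C) :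
    ∃ y' g' : ℝ → ℝ → ℝ, Sol f a b u (fun t => B t 0) y' g' ∧
      (∀ x ∈ Icc (0 : ℝ) 1, y' a x = y1 x) ∧
      (∀ t ∈ Ioc a b, ∀ x ∈ Icc (0 : ℝ) 1, y' t x = B t x + r t x) ∧
      ∫⁻ t in Ioc a b, ∫⁻ x in Icc (0 : ℝ) 1, ENNReal.ofReal (g' t x ^ 2) ≤
        ENNReal.ofReal C := by
  set S : Set (ℝ × ℝ) := Ioc a b ×ˢ Icc 0 1 with hS
  have hSm : MeasurableSet S := measurableSet_Ioc.prod measurableSet_Icc
  have hYc : ContinuousOn (fun p : ℝ × ℝ => B p.1 p.2 + r p.1 p.2) S :=
    hL.contB.continuousOn.add hP.contR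
  have hGc : ContinuousOn (fun p : ℝ × ℝ => Bx p.1 p.2 + g p.1 p.2) S :=
    hL.contBx.continuousOn.add hP.contG
  set Y2 : ℝ × ℝ → ℝ := S.indicator (fun p => B p.1 p.2 + r p.1 p.2) with hY2
  set G2 : ℝ × ℝ → ℝ := S.indicator (fun p => Bx p.1 p.2 + g p.1 p.2) with hG2
  have hY2m : Measurable Y2 := measurable_indicator_of_continuousOn hSm hYc
  have hG2m : Measurable G2 := measurable_indicator_of_continuousOn hSm hGc
  set y' : ℝ → ℝ → ℝ := fun t x => if t ≤ a then y1 x else Y2 (t, x) with hy'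
  set g' : ℝ → ℝ → ℝ := fun t x => G2 (t, x) with hg'
  have ey : ∀ t ∈ Ioc a b, ∀ x ∈ Icc (0 : ℝ) 1, y' t x = B t x + r t x := by
    intro t ht x hx
    simp only [hy', if_neg (not_le.2 ht.1), hY2]
    exact indicator_of_mem (show (t, x) ∈ S from ⟨ht, hx⟩) _
  have eg : ∀ t ∈ Ioc a b, ∀ x ∈ Icc (0 : ℝ) 1, g' t x = Bx t x + g t x := by
    intro t ht x hx
    simp only [hg', hG2]
    exact indicator_of_mem (show (t, x) ∈ S from ⟨ht, hx⟩) _
  have ea : ∀ x, y' a x = y1 x := fun x => by simp only [hy', le_refl, if_true]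
  have mY : Measurable (Function.uncurry y') := by
    have : Function.uncurry y' = fun p : ℝ × ℝ => if p.1 ≤ a then y1 p.2 else Y2 p := rfl
    rw [this]
    exact Measurable.ite (measurableSet_le measurable_fst measurable_const)
      (hy1.comp measurable_snd) hY2m
  have mG : Measurable (Function.uncurry g') := hG2m
  obtain ⟨Mr, hMr⟩ := hP.bdd
  obtain ⟨MB, hMB⟩ := exists_bound_Icc (a := a) (b := b) hL.contB.continuousOn
  have hbdd : ∀ t ∈ Ioc a b, ∀ x ∈ Icc (0:ℝ) 1, |y' t x| ≤ MB + Mr := by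
    intro t ht x hx
    rw [ey t ht x hx]
    exact (abs_add_le _ _).trans (add_le_add (hMB t (Ioc_subset_Icc_self ht) x hx) (hMr t ht x hx))
  have hsqle : ∫⁻ t in Ioc a b, ∫⁻ x in Icc (0 : ℝ) 1, ENNReal.ofReal (g' t x ^ 2) ≤
      ENNReal.ofReal C := by
    refine le_trans (le_of_eq ?_) (lintegral_sq_le hab (G := fun t x => Bx t x + g t x) hGc hC)
    refine setLIntegral_congr_fun measurableSet_Ioc fun t ht => ?_
    refine setLIntegral_congr_fun measurableSet_Icc fun x hx => ?_
    simp only [eg t ht x hx]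
  have hsq : ∫⁻ t in Ioc a b, ∫⁻ x in Icc (0 : ℝ) 1, ENNReal.ofReal (g' t x ^ 2) < ⊤ :=
    hsqle.trans_lt ENNReal.ofReal_lt_top
  have hnle : ∀ t₀, a < t₀ → 𝓝[Icc a b] t₀ ≤ 𝓝[Ioc a b] t₀ := by
    intro t₀ h
    refine nhdsWithin_le_of_mem ?_
    filter_upwards [self_mem_nhdsWithin, mem_nhdsWithin_of_mem_nhds (Ioi_mem_nhds h)] with t h1 h2
    exact ⟨h2, h1.2⟩
  have hcont : ∀ t₀ ∈ Icc a b,
      Tendsto (fun t => ∫ x in (0 : ℝ)..1, (y' t x - y' t₀ x) ^ 2) (𝓝[Icc a b] t₀) (𝓝 0) := by
    intro t₀ ht₀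
    rcases ht₀.1.eq_or_lt with h0 | h0
    · subst h0
      have hins : Icc a b = insert a (Ioc a b) := (Ioc_insert_left ht₀.2).symm
      rw [hins, nhdsWithin_insert]
      refine Tendsto.sup ?_ ?_
      · rw [tendsto_pure_left]
        intro s hs
        simp only [sub_self, ne_eq, OfNat.ofNat_ne_zero, not_false_eq_true, zero_pow,
          intervalIntegral.integral_zero]
        exact mem_of_mem_nhds hs
      · have hB0 : Tendsto (fun t => ∫ x in (0 : ℝ)..1, (B t x - B a x) ^ 2) (𝓝[Ioc a b] a)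
            (𝓝 0) := by
          have hc : ContinuousOn (fun t => ∫ x in (0 : ℝ)..1, (B t x - B a x) ^ 2) (Icc a b) := by
            refine continuousOn_slice_Icc (H := fun t x => (B t x - B a x) ^ 2) ?_
            refine Continuous.continuousOn ?_
            have h1 := hL.contB
            have h2 : Continuous fun p : ℝ × ℝ => B a p.2 :=
              hL.contB.comp (by fun_prop : Continuous fun p : ℝ × ℝ => (a, p.2))
            exact (h1.sub h2).pow 2
          have := (hc a ⟨le_rfl, ht₀.2⟩).tendsto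
          simp only [sub_self, ne_eq, OfNat.ofNat_ne_zero, not_false_eq_true, zero_pow,
            intervalIntegral.integral_zero] at this
          exact this.mono_left (nhdsWithin_mono _ Ioc_subset_Icc_self)
        have hI := hP.init
        rw [← nhdsWithin_Ioc_eq_nhdsGT hab] at hI
        have hsum := (hI.const_mul 2).add (hB0.const_mul 2)
        simp only [mul_zero, add_zero] at hsum
        refine squeeze_zero' (Eventually.of_forall fun t =>
          intervalIntegral.integral_nonneg zero_le_one fun x _ => sq_nonneg _) ?_ hsum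
        filter_upwards [self_mem_nhdsWithin] with t ht
        have hrt : ContinuousOn (r t) (Icc 0 1) := continuousOn_row hP.contR ht
        have hBt : ∀ t, Continuous (B t) := fun t =>
          hL.contB.comp (by fun_prop : Continuous fun x : ℝ => (t, x))
        have hsm : ∀ {H : ℝ → ℝ} {c : ℝ}, AEStronglyMeasurable H (volume.restrict (Ioc 0 1)) →
            (∀ x ∈ Icc (0:ℝ) 1, |H x| ≤ c) → IntervalIntegrable H volume 0 1 := by
          intro H c hm hc
          rw [intervalIntegrable_iff_integrableOn_Ioc_of_le zero_le_one]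
          refine Integrable.of_bound hm c ?_
          exact ae_restrict_of_forall_mem measurableSet_Ioc
            fun x hx => hc x (Ioc_subset_Icc_self hx)
        have mr : AEStronglyMeasurable (r t) (volume.restrict (Ioc 0 1)) :=
          (hrt.mono Ioc_subset_Icc_self).aestronglyMeasurable measurableSet_Ioc
        have my : AEStronglyMeasurable y1 (volume.restrict (Ioc 0 1)) := hy1.aestronglyMeasurable
        have mB : ∀ t, AEStronglyMeasurable (B t) (volume.restrict (Ioc 0 1)) := fun t =>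
          (hBt t).aestronglyMeasurable
        have i1 : IntervalIntegrable (fun x => (r t x - (y1 x - B a x)) ^ 2) volume 0 1 := by
          refine hsm (c := (Mr + (R + MB)) ^ 2) ((mr.sub (my.sub (mB a))).pow 2) fun x hx => ?_
          rw [abs_pow]
          refine pow_le_pow_left₀ (abs_nonneg _) ?_ 2
          exact (abs_sub _ _).trans (add_le_add (hMr t ht x hx)
            ((abs_sub _ _).trans (add_le_add (hR x hx) (hMB a ⟨le_rfl, ht₀.2⟩ x hx))))
        have i2 : IntervalIntegrable (fun x => (B t x - B a x) ^ 2) volume 0 1 :=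
          (((hBt t).sub (hBt a)).pow 2).intervalIntegrable _ _
        have i3 : IntervalIntegrable (fun x => (B t x + r t x - y1 x) ^ 2) volume 0 1 := by
          refine hsm (c := (MB + Mr + R) ^ 2) ((((mB t).add mr).sub my).pow 2) fun x hx => ?_
          rw [abs_pow]
          refine pow_le_pow_left₀ (abs_nonneg _) ?_ 2
          exact (abs_sub _ _).trans (add_le_add ((abs_add_le _ _).trans
            (add_le_add (hMB t (Ioc_subset_Icc_self ht) x hx) (hMr t ht x hx))) (hR x hx))
        have e1 : ∫ x in (0 : ℝ)..1, (y' t x - y' a x) ^ 2 =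
            ∫ x in (0 : ℝ)..1, (B t x + r t x - y1 x) ^ 2 := by
          refine intervalIntegral.integral_congr fun x hx => ?_
          rw [uIcc_of_le zero_le_one] at hx
          simp only [ey t ht x hx, ea]
        rw [e1, ← intervalIntegral.integral_const_mul, ← intervalIntegral.integral_const_mul,
          ← intervalIntegral.integral_add (i1.const_mul 2) (i2.const_mul 2)]
        refine intervalIntegral.integral_mono_on zero_le_one i3
          ((i1.const_mul 2).add (i2.const_mul 2)) fun x _ => ?_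
        nlinarith [sq_nonneg ((r t x - (y1 x - B a x)) - (B t x - B a x))]
    · have ht₀' : t₀ ∈ Ioc a b := ⟨h0, ht₀.2⟩
      have hc : ContinuousOn (fun t => ∫ x in (0 : ℝ)..1,
          ((B t x + r t x) - (B t₀ x + r t₀ x)) ^ 2) (Ioc a b) := by
        refine continuousOn_slice_Ioc (H := fun t x => ((B t x + r t x) -
          (B t₀ x + r t₀ x)) ^ 2) ?_
        have h2 : ContinuousOn (fun p : ℝ × ℝ => B t₀ p.2 + r t₀ p.2) (Ioc a b ×ˢ Icc 0 1) :=
          hYc.comp (Continuous.continuousOn (by fun_prop : Continuous fun p : ℝ × ℝ => (t₀, p.2)))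
            fun p hp => ⟨ht₀', hp.2⟩
        exact (hYc.sub h2).pow 2
      have := (hc t₀ ht₀').tendsto
      simp only [sub_self, ne_eq, OfNat.ofNat_ne_zero, not_false_eq_true, zero_pow,
        intervalIntegral.integral_zero] at this
      refine Tendsto.mono_left ?_ (hnle t₀ h0)
      refine this.congr' ?_
      filter_upwards [self_mem_nhdsWithin] with t ht
      refine intervalIntegral.integral_congr fun x hx => ?_
      rw [uIcc_of_le zero_le_one] at hx
      simp only [ey t ht x hx, ey t₀ ht₀' x hx]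
  refine ⟨y', g', ?_, fun x _ => ea x, ey, hsqle⟩
  exact {
    measY := mY
    measG := mG
    bdd := ⟨max R (MB + Mr), fun t ht x hx => by
      rcases ht.1.eq_or_lt with h0 | h0
      · rw [← h0, ea]; exact (hR x hx).trans (le_max_left _ _)
      · exact (hbdd t ⟨h0, ht.2⟩ x hx).trans (le_max_right _ _)⟩
    sqG := hsq
    contG := fun t ht => by
      refine (continuousOn_row (H := fun t x => Bx t x + g t x) hGc ht).congr ?_
      exact fun x hx => eg t ht x hx
    der := fun t ht x hx => by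
      have h1 := ((hL.der t x).hasDerivWithinAt (s := Icc 0 1)).add (hP.der t ht x hx)
      rw [eg t ht x hx]
      exact h1.congr (fun z hz => ey t ht z hz) (ey t ht x hx)
    left := fun t ht => by
      rw [ey t ht 0 ⟨le_rfl, zero_le_one⟩, hP.zero0 t ht, add_zero]
    right := fun t ht => by
      rw [ey t ht 1 ⟨zero_le_one, le_rfl⟩, hP.zero1 t ht, hL.right, add_zero]
    intU := hL.contU.intervalIntegrable _ _
    cont := hcont
    weak := fun φ φ' hφ t ht => by
      have hii := core_intervalIntegrable hf hab.le mY mG ⟨_, hbdd⟩ hsq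
        (hL.contU.intervalIntegrable a b) hφ
      rcases ht.1.eq_or_lt with h0 | h0
      · rw [← h0]; simp
      have ht' : t ∈ Ioc a b := ⟨h0, ht.2⟩
      -- identity on `[t₁,t]`
      have hid : ∀ t₁ ∈ Ioc a t, (∫ x in (0 : ℝ)..1, y' t x * φ x) -
          (∫ x in (0 : ℝ)..1, y' t₁ x * φ x) =
          (∫ s in a..t, ((∫ x in (0 : ℝ)..1, (f (y' s x) - g' s x) * φ' x) +
            u s * ∫ x in (0 : ℝ)..1, φ x)) -
          ∫ s in a..t₁, ((∫ x in (0 : ℝ)..1, (f (y' s x) - g' s x) * φ' x) +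
            u s * ∫ x in (0 : ℝ)..1, φ x) := by
        intro t₁ ht₁
        have ht₁' : t₁ ∈ Ioc a b := ⟨ht₁.1, ht₁.2.trans ht.2⟩
        rw [intervalIntegral.integral_interval_sub_left
          (hii.mono_set (by rw [uIcc_of_le ht.1, uIcc_of_le hab.le]; exact Icc_subset_Icc le_rfl ht.2))
          (hii.mono_set (by rw [uIcc_of_le ht₁.1.le, uIcc_of_le hab.le];
                            exact Icc_subset_Icc le_rfl ht₁'.2))]
        have hsub : Icc t₁ t ⊆ Ioc a b := fun s hs => ⟨ht₁.1.trans_le hs.1, hs.2.trans ht.2⟩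
        have w1 := hP.weak t₁ t ht₁.1 ht₁.2 ht.2 φ φ' hφ
        have w2 := hL.weak φ φ' hφ t₁ t
        have hBt : ∀ t, Continuous (B t) := fun t =>
          hL.contB.comp (by fun_prop : Continuous fun x : ℝ => (t, x))
        have hφc : ContinuousOn φ (Icc 0 1) := fun x hx => (hφ.der x hx).continuousWithinAt
        have iB : ∀ t, IntervalIntegrable (fun x => B t x * φ x) volume 0 1 := fun t =>
          ContinuousOn.intervalIntegrable (by
            rw [uIcc_of_le zero_le_one]; exact (hBt t).continuousOn.mul hφc)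
        have ir : ∀ t ∈ Ioc a b, IntervalIntegrable (fun x => r t x * φ x) volume 0 1 :=
          fun t ht => ContinuousOn.intervalIntegrable (by
            rw [uIcc_of_le zero_le_one]; exact (continuousOn_row hP.contR ht).mul hφc)
        have esplit : ∀ t ∈ Ioc a b, ∫ x in (0 : ℝ)..1, y' t x * φ x =
            (∫ x in (0 : ℝ)..1, B t x * φ x) + ∫ x in (0 : ℝ)..1, r t x * φ x := by
          intro t ht
          rw [← intervalIntegral.integral_add (iB t) (ir t ht)]
          refine intervalIntegral.integral_congr fun x hx => ?_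
          rw [uIcc_of_le zero_le_one] at hx
          simp only [ey t ht x hx]
          ring
        rw [esplit t ht', esplit t₁ ht₁']
        have c1 : ContinuousOn (fun s => ∫ x in (0 : ℝ)..1,
            (f (B s x + r s x) - g s x) * φ' x) (Icc t₁ t) := by
          refine continuousOn_slice_Icc (H := fun s x => (f (B s x + r s x) - g s x) * φ' x) ?_
          have m : Icc t₁ t ×ˢ Icc (0:ℝ) 1 ⊆ Ioc a b ×ˢ Icc 0 1 := prod_mono hsub le_rfl
          exact ((hf.comp_continuousOn (hYc.mono m)).sub (hP.contG.mono m)).mul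
            (hφ.cont.comp continuous_snd.continuousOn fun p hp => hp.2)
        have c2 : ContinuousOn (fun s => (∫ x in (0 : ℝ)..1, (-Bx s x) * φ' x) +
            u s * ∫ x in (0 : ℝ)..1, φ x) (Icc t₁ t) := by
          refine ContinuousOn.add ?_ (hL.contU.continuousOn.mul continuousOn_const)
          refine continuousOn_slice_Icc (H := fun s x => (-Bx s x) * φ' x) ?_
          exact hL.contBx.continuousOn.neg.mul
            (hφ.cont.comp continuous_snd.continuousOn fun p hp => hp.2)
        have i1 : IntervalIntegrable (fun s => ∫ x in (0 : ℝ)..1,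
            (f (B s x + r s x) - g s x) * φ' x) volume t₁ t :=
          ContinuousOn.intervalIntegrable (by rw [uIcc_of_le ht₁.2]; exact c1)
        have i2 : IntervalIntegrable (fun s => (∫ x in (0 : ℝ)..1, (-Bx s x) * φ' x) +
            u s * ∫ x in (0 : ℝ)..1, φ x) volume t₁ t :=
          ContinuousOn.intervalIntegrable (by rw [uIcc_of_le ht₁.2]; exact c2)
        have e3 : ∫ s in t₁..t, ((∫ x in (0 : ℝ)..1, (f (y' s x) - g' s x) * φ' x) +
            u s * ∫ x in (0 : ℝ)..1, φ x) =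
            (∫ s in t₁..t, ∫ x in (0 : ℝ)..1, (f (B s x + r s x) - g s x) * φ' x) +
            ∫ s in t₁..t, ((∫ x in (0 : ℝ)..1, (-Bx s x) * φ' x) +
              u s * ∫ x in (0 : ℝ)..1, φ x) := by
          rw [← intervalIntegral.integral_add i1 i2]
          refine intervalIntegral.integral_congr fun s hs => ?_
          rw [uIcc_of_le ht₁.2] at hs
          have hs' := hsub hs
          rw [← add_assoc]
          congr 1
          have j1 : IntervalIntegrable (fun x => (f (B s x + r s x) - g s x) * φ' x)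
              volume 0 1 := ContinuousOn.intervalIntegrable (by
            rw [uIcc_of_le zero_le_one]
            exact ((hf.comp_continuousOn (continuousOn_row (H := fun t x => B t x + r t x) hYc
              hs')).sub (continuousOn_row hP.contG hs')).mul hφ.cont)
          have j2 : IntervalIntegrable (fun x => (-Bx s x) * φ' x) volume 0 1 :=
            ContinuousOn.intervalIntegrable (by
              rw [uIcc_of_le zero_le_one]
              exact (hL.contBx.comp (by fun_prop : Continuous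
                fun x : ℝ => (s, x))).continuousOn.neg.mul hφ.cont)
          rw [← intervalIntegral.integral_add j1 j2]
          refine intervalIntegral.integral_congr fun x hx => ?_
          rw [uIcc_of_le zero_le_one] at hx
          simp only [ey s hs' x hx, eg s hs' x hx]
          ring
        rw [e3]
        linarith
      -- limit `t₁ → a`
      have hNe : (𝓝[Ioc a t] a).NeBot := by
        rw [nhdsWithin_Ioc_eq_nhdsGT h0]; infer_instance
      have l1 : Tendsto (fun t₁ => (∫ x in (0 : ℝ)..1, y' t x * φ x) -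
          ∫ x in (0 : ℝ)..1, y' t₁ x * φ x) (𝓝[Ioc a t] a)
          (𝓝 ((∫ x in (0 : ℝ)..1, y' t x * φ x) - ∫ x in (0 : ℝ)..1, y' a x * φ x)) := by
        refine tendsto_const_nhds.sub ?_
        refine tendsto_pairing (M := max R (MB + Mr))
          (fun t₁ => mY.comp measurable_prodMk_left) (mY.comp measurable_prodMk_left) ?_ ?_ ?_
          (fun x hx => (hφ.der x hx).continuousWithinAt)
        · filter_upwards [self_mem_nhdsWithin] with t₁ ht₁ x hx
          exact (hbdd t₁ ⟨ht₁.1, ht₁.2.trans ht.2⟩ x hx).trans (le_max_right _ _)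
        · intro x hx
          change |y' a x| ≤ _
          rw [ea]; exact (hR x hx).trans (le_max_left _ _)
        · exact (hcont a ⟨le_rfl, hab.le⟩).mono_left (nhdsWithin_mono _
            ((Ioc_subset_Ioc_right ht.2).trans Ioc_subset_Icc_self))
      have l2 : Tendsto (fun t₁ =>
          (∫ s in a..t, ((∫ x in (0 : ℝ)..1, (f (y' s x) - g' s x) * φ' x) +
            u s * ∫ x in (0 : ℝ)..1, φ x)) -
          ∫ s in a..t₁, ((∫ x in (0 : ℝ)..1, (f (y' s x) - g' s x) * φ' x) +
            u s * ∫ x in (0 : ℝ)..1, φ x)) (𝓝[Ioc a t] a)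
          (𝓝 ((∫ s in a..t, ((∫ x in (0 : ℝ)..1, (f (y' s x) - g' s x) * φ' x) +
            u s * ∫ x in (0 : ℝ)..1, φ x)) - 0)) := by
        refine tendsto_const_nhds.sub ?_
        have hcp := intervalIntegral.continuousOn_primitive_interval' hii
          (left_mem_uIcc : a ∈ uIcc a b)
        have := (hcp a left_mem_uIcc).tendsto
        rw [intervalIntegral.integral_same] at this
        refine this.mono_left (nhdsWithin_mono _ ?_)
        rw [uIcc_of_le hab.le]
        exact (Ioc_subset_Ioc_right ht.2).trans Ioc_subset_Icc_self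
      rw [sub_zero] at l2
      refine tendsto_nhds_unique l1 (l2.congr' ?_)
      filter_upwards [self_mem_nhdsWithin] with t₁ ht₁
      exact (hid t₁ ht₁).symm }


/-- Change of the functions outside the relevant sets. -/
theorem Sol.of_eq {f : ℝ → ℝ} {a b : ℝ} {u v : ℝ → ℝ} {y g y' g' : ℝ → ℝ → ℝ}
    (h : Sol f a b u v y g) (mY : Measurable (Function.uncurry y'))
    (mG : Measurable (Function.uncurry g'))
    (ey : ∀ t ∈ Icc a b, ∀ x ∈ Icc (0 : ℝ) 1, y' t x = y t x)
    (eg : ∀ t ∈ Ioc a b, ∀ x ∈ Icc (0 : ℝ) 1, g' t x = g t x) : Sol f a b u v y' g' where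
  measY := mY
  measG := mG
  bdd := by
    obtain ⟨M, hM⟩ := h.bdd
    exact ⟨M, fun t ht x hx => by rw [ey t ht x hx]; exact hM t ht x hx⟩
  sqG := by
    refine lt_of_le_of_lt (le_of_eq ?_) h.sqG
    refine setLIntegral_congr_fun measurableSet_Ioc fun t ht => ?_
    refine setLIntegral_congr_fun measurableSet_Icc fun x hx => ?_
    simp only [eg t ht x hx]
  contG := fun t ht => (h.contG t ht).congr fun x hx => eg t ht x hx
  der := fun t ht x hx => by
    have ht' := Ioc_subset_Icc_self ht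
    rw [eg t ht x hx]
    exact (h.der t ht x hx).congr (fun z hz => ey t ht' z hz) (ey t ht' x hx)
  left := fun t ht => by
    rw [ey t (Ioc_subset_Icc_self ht) 0 ⟨le_rfl, zero_le_one⟩]; exact h.left t ht
  right := fun t ht => by
    rw [ey t (Ioc_subset_Icc_self ht) 1 ⟨zero_le_one, le_rfl⟩]; exact h.right t ht
  intU := h.intU
  cont := fun t₀ ht₀ => by
    refine (h.cont t₀ ht₀).congr' ?_
    filter_upwards [self_mem_nhdsWithin] with t ht
    refine intervalIntegral.integral_congr fun x hx => ?_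
    rw [uIcc_of_le zero_le_one] at hx
    simp only [ey t ht x hx, ey t₀ ht₀ x hx]
  weak := fun φ φ' hφ t ht => by
    have ha : a ∈ Icc a b := ⟨le_rfl, ht.1.trans ht.2⟩
    have e : ∀ t ∈ Icc a b, ∫ x in (0 : ℝ)..1, y' t x * φ x = ∫ x in (0 : ℝ)..1, y t x * φ x := by
      intro t ht
      refine intervalIntegral.integral_congr fun x hx => ?_
      rw [uIcc_of_le zero_le_one] at hx
      simp only [ey t ht x hx]
    rw [e t ht, e a ha, h.weak φ φ' hφ t ht]
    refine intervalIntegral.integral_congr_ae (ae_of_all _ fun s hs => ?_)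
    rw [uIoc_of_le ht.1] at hs
    have hs' : s ∈ Ioc a b := ⟨hs.1, hs.2.trans ht.2⟩
    congr 1
    refine intervalIntegral.integral_congr fun x hx => ?_
    rw [uIcc_of_le zero_le_one] at hx
    simp only [ey s (Ioc_subset_Icc_self hs') x hx, eg s hs' x hx]

/-- Countable concatenation, followed by the zero solution. -/
theorem Sol.countable {f : ℝ → ℝ} (hf : Continuous f) (hf0 : f 0 = 0) {s : ℕ → ℝ}
    (hs : StrictMono s) {b c : ℝ} (hb : Tendsto s atTop (𝓝 b)) (hbc : b ≤ c)
    {v : ℝ → ℝ} {y g : ℕ → ℝ → ℝ → ℝ}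
    (hS : ∀ k, Sol f (s k) (s (k + 1)) (fun _ => 0) v (y k) (g k))
    (hm : ∀ k, ∀ x ∈ Icc (0 : ℝ) 1, y k (s (k + 1)) x = y (k + 1) (s (k + 1)) x)
    (hv : ∀ t, b ≤ t → v t = 0) {M G : ℕ → ℝ}
    (hM : ∀ k, ∀ t ∈ Icc (s k) (s (k + 1)), ∀ x ∈ Icc (0 : ℝ) 1, |y k t x| ≤ M k)
    (hM0 : Tendsto M atTop (𝓝 0))
    (hG : ∀ k, ∫⁻ t in Ioc (s k) (s (k + 1)), ∫⁻ x in Icc (0 : ℝ) 1,
      ENNReal.ofReal (g k t x ^ 2) ≤ ENNReal.ofReal (G k))
    (hG0 : ∀ k, 0 ≤ G k) (hG1 : Summable G) :
    ∃ y' g' : ℝ → ℝ → ℝ, Sol f (s 0) c (fun _ => 0) v y' g' ∧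
      (∀ x ∈ Icc (0 : ℝ) 1, y' (s 0) x = y 0 (s 0) x) ∧
      (∀ t, b ≤ t → ∀ x ∈ Icc (0 : ℝ) 1, y' t x = 0) := by
  classical
  have hsb : ∀ n, s n < b := fun n =>
    (hs (Nat.lt_succ_self n)).trans_le (hs.monotone.ge_of_tendsto hb _)
  have hP : ∀ t : ℝ, ∃ n : ℕ, t ≤ s (n + 1) ∨ b ≤ t := by
    intro t
    rcases lt_or_ge t b with h | h
    · obtain ⟨n, hn⟩ := (hb.eventually (lt_mem_nhds h)).exists
      exact ⟨n, Or.inl (hn.le.trans (hs (Nat.lt_succ_self n)).le)⟩
    · exact ⟨0, Or.inr h⟩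
  set N : ℝ → ℕ := fun t => Nat.find (hP t) with hN
  set y' : ℝ → ℝ → ℝ := fun t x => if b ≤ t then 0 else y (N t) t x with hy'
  set g' : ℝ → ℝ → ℝ := fun t x => if b ≤ t then 0 else g (N t) t x with hg'
  have hmeasP : ∀ n : ℕ, MeasurableSet {p : ℝ × ℝ | p.1 ≤ s (n + 1) ∨ b ≤ p.1} := fun n =>
    (measurableSet_le measurable_fst measurable_const).union
      (measurableSet_le measurable_const measurable_fst)
  have mY : Measurable (Function.uncurry y') := by
    have : Function.uncurry y' = fun p : ℝ × ℝ => if b ≤ p.1 then 0 else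
        (fun n (p : ℝ × ℝ) => y n p.1 p.2) (Nat.find (hP p.1)) p := rfl
    rw [this]
    refine Measurable.ite (measurableSet_le measurable_const measurable_fst) measurable_const ?_
    exact Measurable.find (f := fun n (p : ℝ × ℝ) => y n p.1 p.2)
      (p := fun n (p : ℝ × ℝ) => p.1 ≤ s (n + 1) ∨ b ≤ p.1) (fun n => (hS n).measY) hmeasP
      (fun p => hP p.1)
  have mG : Measurable (Function.uncurry g') := by
    have : Function.uncurry g' = fun p : ℝ × ℝ => if b ≤ p.1 then 0 else
        (fun n (p : ℝ × ℝ) => g n p.1 p.2) (Nat.find (hP p.1)) p := rfl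
    rw [this]
    refine Measurable.ite (measurableSet_le measurable_const measurable_fst) measurable_const ?_
    exact Measurable.find (f := fun n (p : ℝ × ℝ) => g n p.1 p.2)
      (p := fun n (p : ℝ × ℝ) => p.1 ≤ s (n + 1) ∨ b ≤ p.1) (fun n => (hS n).measG) hmeasP
      (fun p => hP p.1)
  have hNk : ∀ k, ∀ t ∈ Ioc (s k) (s (k + 1)), N t = k := by
    intro k t ht
    have htb : ¬ b ≤ t := not_le.2 (ht.2.trans_lt (hsb _))
    refine (Nat.find_eq_iff (hP t)).2 ⟨Or.inl ht.2, fun n hn => ?_⟩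
    rintro (h | h)
    · exact absurd (h.trans (hs.monotone (Nat.succ_le_of_lt hn))) (not_le.2 ht.1)
    · exact htb h
  have hN0 : ∀ t, t ≤ s 1 → N t = 0 := by
    intro t ht
    exact (Nat.find_eq_zero (hP t)).2 (Or.inl ht)
  have hNmem : ∀ t, s 0 ≤ t → t < b → t ∈ Icc (s (N t)) (s (N t + 1)) := by
    intro t h0 h1
    have h2 := Nat.find_spec (hP t)
    have h3 : t ≤ s (N t + 1) := by
      rcases h2 with h2 | h2
      · exact h2
      · exact absurd h1 (not_lt.2 h2)
    refine ⟨?_, h3⟩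
    rcases Nat.eq_zero_or_pos (N t) with h4 | h4
    · rw [h4]; exact h0
    · have h5 := Nat.find_min (hP t) (Nat.sub_lt h4 one_pos)
      push Not at h5
      have h6 : N t - 1 + 1 = N t := Nat.sub_add_cancel h4
      have h7 := h5.1
      have h8 : Nat.find (hP t) - 1 + 1 = N t := h6
      rw [h8] at h7
      exact h7.le
  have ey : ∀ k, ∀ t ∈ Icc (s k) (s (k + 1)), ∀ x ∈ Icc (0 : ℝ) 1, y' t x = y k t x := by
    intro k t ht x hx
    have htb : ¬ b ≤ t := not_le.2 (ht.2.trans_lt (hsb _))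
    simp only [hy', if_neg htb]
    rcases ht.1.eq_or_lt with h0 | h0
    · rcases k with _ | k
      · rw [hN0 t (by rw [← h0]; exact (hs Nat.zero_lt_one).le)]
      · have : N t = k := hNk k t ⟨by rw [← h0]; exact hs (Nat.lt_succ_self k), h0.ge⟩
        rw [this, ← h0]
        exact hm k x hx
    · rw [hNk k t ⟨h0, ht.2⟩]
  have eg : ∀ k, ∀ t ∈ Ioc (s k) (s (k + 1)), ∀ x ∈ Icc (0 : ℝ) 1, g' t x = g k t x := by
    intro k t ht x _
    have htb : ¬ b ≤ t := not_le.2 (ht.2.trans_lt (hsb _))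
    simp only [hg', if_neg htb]
    rw [hNk k t ht]
  have hSk : ∀ k, Sol f (s k) (s (k + 1)) (fun _ => 0) v y' g' := fun k =>
    (hS k).of_eq mY mG (ey k) (eg k)
  have hSn : ∀ n, Sol f (s 0) (s (n + 1)) (fun _ => 0) v y' g' := by
    intro n
    induction n with
    | zero => exact hSk 0
    | succ n ih =>
      have h1 := ih.trans (hs.monotone (Nat.zero_le _)) (hs (Nat.lt_succ_self _)).le hf
        (hSk (n + 1)) (fun x _ => rfl)
      simpa only [ite_self] using h1
  have hzero : ∀ t, b ≤ t → ∀ x, y' t x = 0 := fun t ht x => by simp only [hy', if_pos ht]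
  have hzero' : ∀ t, b ≤ t → ∀ x, g' t x = 0 := fun t ht x => by simp only [hg', if_pos ht]
  have hs0b := hsb 0
  -- bounds
  obtain ⟨K, hK⟩ := hM0.bddAbove_range
  have hK' : ∀ k, M k ≤ K := fun k => hK ⟨k, rfl⟩
  have hyb : ∀ t, s 0 ≤ t → t < b → ∀ x ∈ Icc (0 : ℝ) 1, |y' t x| ≤ M (N t) := by
    intro t h0 h1 x hx
    have h2 := hNmem t h0 h1
    rw [ey (N t) t h2 x hx]
    exact hM _ t h2 x hx
  have hbdd : ∀ t, s 0 ≤ t → ∀ x ∈ Icc (0 : ℝ) 1, |y' t x| ≤ max K 0 := by
    intro t h0 x hx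
    rcases lt_or_ge t b with h1 | h1
    · exact (hyb t h0 h1 x hx).trans ((hK' _).trans (le_max_left _ _))
    · rw [hzero t h1]; simp
  -- smallness near `b`
  have hsmall : ∀ ε : ℝ, 0 < ε → ∃ n, ∀ t, s n < t → ∀ x ∈ Icc (0:ℝ) 1, |y' t x| ≤ ε := by
    intro ε hε
    obtain ⟨n, hn⟩ := (hM0.eventually (gt_mem_nhds hε)).exists_forall_of_atTop
    refine ⟨n, fun t ht x hx => ?_⟩
    rcases lt_or_ge t b with h1 | h1
    · have h0 : s 0 ≤ t := (hs.monotone (Nat.zero_le n)).trans ht.le
      refine (hyb t h0 h1 x hx).trans (hn _ ?_).le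
      by_contra hlt
      push Not at hlt
      have h3 := (hNmem t h0 h1).2
      exact absurd (h3.trans (hs.monotone (Nat.succ_le_of_lt hlt))) (not_le.2 ht)
    · rw [hzero t h1]; simpa using hε.le
  have hsq : ∫⁻ t in Ioc (s 0) c, ∫⁻ x in Icc (0 : ℝ) 1, ENNReal.ofReal (g' t x ^ 2) < ⊤ := by
    have hsub : Ioc (s 0) c ⊆ (⋃ k, Ioc (s k) (s (k + 1))) ∪ Ici b := by
      intro t ht
      rcases lt_or_ge t b with h1 | h1
      · left
        have h2 := hNmem t ht.1.le h1
        rcases h2.1.eq_or_lt with h3 | h3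
        · -- `t = s (N t)`, then `N t` is positive
          rcases hk : N t with _ | k
          · rw [hk] at h3; exact absurd h3 ht.1.ne
          · rw [hk] at h3
            exact mem_iUnion.2 ⟨k, by rw [← h3]; exact hs (Nat.lt_succ_self k), h3.ge⟩
        · exact mem_iUnion.2 ⟨N t, h3, h2.2⟩
      · exact Or.inr h1
    refine (lintegral_mono_set hsub).trans_lt ?_
    refine (lintegral_union_le _ _ _).trans_lt (ENNReal.add_lt_top.2 ⟨?_, ?_⟩)
    · refine (lintegral_iUnion_le _ _).trans_lt ?_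
      have h1 : ∀ k, ∫⁻ t in Ioc (s k) (s (k + 1)), ∫⁻ x in Icc (0 : ℝ) 1,
          ENNReal.ofReal (g' t x ^ 2) ≤ ENNReal.ofReal (G k) := by
        intro k
        refine le_trans (le_of_eq ?_) (hG k)
        refine setLIntegral_congr_fun measurableSet_Ioc fun t ht => ?_
        refine setLIntegral_congr_fun measurableSet_Icc fun x hx => ?_
        simp only [eg k t ht x hx]
      refine (ENNReal.tsum_le_tsum h1).trans_lt ?_
      rw [← ENNReal.ofReal_tsum_of_nonneg hG0 hG1]
      exact ENNReal.ofReal_lt_top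
    · have : ∫⁻ t in Ici b, ∫⁻ x in Icc (0 : ℝ) 1, ENNReal.ofReal (g' t x ^ 2) = 0 := by
        rw [setLIntegral_congr_fun (g := fun _ => 0) measurableSet_Ici fun t ht => by
          simp only [hzero' t ht]; simp]
        simp
      rw [this]; exact ENNReal.zero_lt_top
  have hii : ∀ {φ φ' : ℝ → ℝ}, IsTest φ φ' → IntervalIntegrable
      (fun s => (∫ x in (0 : ℝ)..1, (f (y' s x) - g' s x) * φ' x) +
        (fun _ => (0:ℝ)) s * ∫ x in (0 : ℝ)..1, φ x) volume (s 0) c := fun hφ =>
    core_intervalIntegrable hf (hs0b.le.trans hbc) mY mG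
      ⟨_, fun t ht => hbdd t ht.1.le⟩ hsq intervalIntegrable_const hφ
  refine ⟨y', g', ?_, fun x hx => ey 0 (s 0) ⟨le_rfl, (hs Nat.zero_lt_one).le⟩ x hx,
    fun t ht x _ => hzero t ht x⟩
  have hin : ∀ t, s 0 < t → t < b → t ∈ Ioc (s 0) (s (N t + 1)) := fun t h0 h1 =>
    ⟨h0, (hNmem t h0.le h1).2⟩
  exact {
    measY := mY
    measG := mG
    bdd := ⟨_, fun t ht => hbdd t ht.1⟩
    sqG := hsq
    contG := fun t ht => by
      rcases lt_or_ge t b with h1 | h1
      · exact (hSn (N t)).contG t (hin t ht.1 h1)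
      · refine (continuousOn_const (c := (0:ℝ))).congr fun x _ => hzero' t h1 x
    der := fun t ht x hx => by
      rcases lt_or_ge t b with h1 | h1
      · exact (hSn (N t)).der t (hin t ht.1 h1) x hx
      · rw [hzero' t h1]
        exact (hasDerivWithinAt_const x (Icc (0:ℝ) 1) (0:ℝ)).congr (fun z _ => hzero t h1 z)
          (hzero t h1 x)
    left := fun t ht => by
      rcases lt_or_ge t b with h1 | h1
      · exact (hSn (N t)).left t (hin t ht.1 h1)
      · rw [hzero t h1, hv t h1]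
    right := fun t ht => by
      rcases lt_or_ge t b with h1 | h1
      · exact (hSn (N t)).right t (hin t ht.1 h1)
      · rw [hzero t h1]
    intU := intervalIntegrable_const
    cont := fun t₀ ht₀ => by
      rcases lt_or_ge t₀ b with h1 | h1
      · obtain ⟨n, hn⟩ := (hb.eventually (lt_mem_nhds h1)).exists
        have hn' : t₀ < s (n + 1) := hn.trans (hs (Nat.lt_succ_self n))
        refine ((hSn n).cont t₀ ⟨ht₀.1, hn'.le⟩).mono_left ?_
        refine nhdsWithin_le_of_mem ?_
        filter_upwards [self_mem_nhdsWithin,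
          mem_nhdsWithin_of_mem_nhds (Iio_mem_nhds hn')] with t h1 h2
        exact ⟨h1.1, le_of_lt h2⟩
      · rw [Metric.tendsto_nhds]
        intro ε hε
        have hδ : 0 < min 1 (ε / 2) := lt_min one_pos (by linarith)
        obtain ⟨n, hn⟩ := hsmall _ hδ
        filter_upwards [mem_nhdsWithin_of_mem_nhds (Ioi_mem_nhds ((hsb n).trans_le h1))] with t ht
        have h2 := hn t ht
        have e1 : ∫ x in (0 : ℝ)..1, (y' t x - y' t₀ x) ^ 2 = ∫ x in (0 : ℝ)..1, y' t x ^ 2 := by
          refine intervalIntegral.integral_congr fun x _ => ?_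
          simp only [hzero t₀ h1, sub_zero]
        rw [e1, Real.dist_eq, sub_zero]
        have h3 : ‖∫ x in (0 : ℝ)..1, y' t x ^ 2‖ ≤ min 1 (ε / 2) * |(1:ℝ) - 0| := by
          refine intervalIntegral.norm_integral_le_of_norm_le_const fun x hx => ?_
          rw [uIoc_of_le zero_le_one] at hx
          have h4 := h2 x (Ioc_subset_Icc_self hx)
          rw [Real.norm_eq_abs, abs_pow, pow_two]
          calc |y' t x| * |y' t x| ≤ min 1 (ε / 2) * 1 :=
                mul_le_mul h4 (h4.trans (min_le_left _ _)) (abs_nonneg _) hδ.le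
            _ = _ := mul_one _
        rw [Real.norm_eq_abs] at h3
        have h5 : min 1 (ε / 2) ≤ ε / 2 := min_le_right _ _
        simp only [sub_zero, abs_one, mul_one] at h3
        linarith
    weak := fun φ φ' hφ t ht => by
      rcases lt_or_ge t b with h1 | h1
      · exact (hSn (N t)).weak φ φ' hφ t ⟨ht.1, (hNmem t ht.1 h1).2⟩
      · have hi := hii hφ
        set F : ℝ → ℝ := fun s => (∫ x in (0 : ℝ)..1, (f (y' s x) - g' s x) * φ' x) +
          (fun _ => (0:ℝ)) s * ∫ x in (0 : ℝ)..1, φ x with hF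
        have hs0c : s 0 ≤ c := hs0b.le.trans hbc
        have hsub1 : uIcc (s 0) b ⊆ uIcc (s 0) c := by
          rw [uIcc_of_le hs0b.le, uIcc_of_le hs0c]; exact Icc_subset_Icc le_rfl hbc
        have hsub2 : uIcc b t ⊆ uIcc (s 0) c := by
          rw [uIcc_of_le h1, uIcc_of_le hs0c]; exact Icc_subset_Icc hs0b.le ht.2
        have hF0 : ∫ s in b..t, F s = 0 := by
          rw [intervalIntegral.integral_congr (g := fun _ => (0:ℝ))]
          · simp
          · intro s hs
            rw [uIcc_of_le h1] at hs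
            simp only [hF, hzero s hs.1, hzero' s hs.1, hf0, sub_self, zero_mul,
              intervalIntegral.integral_zero, add_zero]
        rw [← intervalIntegral.integral_add_adjacent_intervals (hi.mono_set hsub1)
          (hi.mono_set hsub2), hF0, add_zero]
        have e0 : ∫ x in (0 : ℝ)..1, y' t x * φ x = 0 := by
          rw [intervalIntegral.integral_congr (g := fun _ => (0:ℝ))]
          · simp
          · intro x _; simp only [hzero t h1, zero_mul]
        rw [e0, zero_sub]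
        -- limits along `s (n+1)`
        have hcp := intervalIntegral.continuousOn_primitive_interval' hi
          (left_mem_uIcc : s 0 ∈ uIcc (s 0) c)
        have hbm : b ∈ uIcc (s 0) c := hsub1 right_mem_uIcc
        have hs1 : Tendsto (fun n => s (n + 1)) atTop (𝓝[uIcc (s 0) c] b) := by
          refine tendsto_nhdsWithin_iff.2 ⟨hb.comp (tendsto_add_atTop_nat 1), ?_⟩
          refine Eventually.of_forall fun n => ?_
          rw [uIcc_of_le hs0c]
          exact ⟨hs.monotone (Nat.zero_le _), (hsb _).le.trans hbc⟩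
        have l1 := (hcp b hbm).tendsto.comp hs1
        have l2 : Tendsto (fun n => ∫ x in (0 : ℝ)..1, y' (s (n + 1)) x * φ x) atTop (𝓝 0) := by
          suffices hpair : Tendsto (fun n => ∫ x in (0 : ℝ)..1, y' (s (n + 1)) x * φ x) atTop
              (𝓝 (∫ x in (0 : ℝ)..1, (fun _ => (0:ℝ)) x * φ x)) by
            simpa using hpair
          refine tendsto_pairing (M := max K 0) (y := fun n => y' (s (n + 1)))
            (fun n => mY.comp measurable_prodMk_left)
            measurable_const ?_ ?_ ?_ (fun x hx => (hφ.der x hx).continuousWithinAt)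
          · exact Eventually.of_forall fun n x hx => hbdd _ (hs.monotone (Nat.zero_le _)) x hx
          · intro x _; simp
          · rw [Metric.tendsto_nhds]
            intro ε hε
            have hδ : 0 < min 1 (ε / 2) := lt_min one_pos (by linarith)
            obtain ⟨n, hn⟩ := hsmall _ hδ
            filter_upwards [eventually_ge_atTop n] with m hmn
            have h2 := hn (s (m + 1)) (hs (Nat.lt_succ_of_le hmn))
            rw [Real.dist_eq, sub_zero]
            have h3 : ‖∫ x in (0 : ℝ)..1, (y' (s (m + 1)) x - 0) ^ 2‖ ≤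
                min 1 (ε / 2) * |(1:ℝ) - 0| := by
              refine intervalIntegral.norm_integral_le_of_norm_le_const fun x hx => ?_
              rw [uIoc_of_le zero_le_one] at hx
              have h4 := h2 x (Ioc_subset_Icc_self hx)
              rw [sub_zero, Real.norm_eq_abs, abs_pow, pow_two]
              calc |y' (s (m + 1)) x| * |y' (s (m + 1)) x| ≤ min 1 (ε / 2) * 1 :=
                    mul_le_mul h4 (h4.trans (min_le_left _ _)) (abs_nonneg _) hδ.le
                _ = _ := mul_one _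
            rw [Real.norm_eq_abs] at h3
            have h5 : min 1 (ε / 2) ≤ ε / 2 := min_le_right _ _
            simp only [sub_zero, abs_one, mul_one] at h3
            simp only [sub_zero]
            linarith
        have l3 : Tendsto (fun n => (∫ x in (0 : ℝ)..1, y' (s (n + 1)) x * φ x) -
            ∫ x in (0 : ℝ)..1, y' (s 0) x * φ x) atTop
            (𝓝 (0 - ∫ x in (0 : ℝ)..1, y' (s 0) x * φ x)) := l2.sub tendsto_const_nhds
        rw [zero_sub] at l3
        refine tendsto_nhds_unique l3 (l1.congr fun n => ?_)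
        have := (hSn n).weak φ φ' hφ (s (n + 1)) ⟨hs.monotone (Nat.zero_le _), le_rfl⟩
        exact this.symm }

end Pool.Agent.Burg
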