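import Pool.Agent.Helper46_Burg.LinCtl
import Pool.Agent.Helper46_Burg.Sol
import Pool.Agent.Helper46_Burg.H14
import Pool.Agent.Helper46_Burg.Tools

/-!
Module BLOCK: one block of the local null control, and the infinite iteration (PHASE2).
-/

set_option autoImplicit false

open MeasureTheory Set Filter Topology
open scoped Real ENNReal NNReal

noncomputable section

namespace Pool.Agent.Burg

theorem grad_shift {a b c C : ℝ} {g : ℝ → ℝ → ℝ}
    (hg : ContinuousOn (Function.uncurry g) (Ioc a b ×ˢ Icc 0 1))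
    (hC : ∀ t₁ ∈ Ioc a b, ∫ t in t₁..b, ∫ x in (0 : ℝ)..1, g t x ^ 2 ≤ C) :
    ∀ t₁ ∈ Ioc a b, ∫ t in t₁..b, ∫ x in (0 : ℝ)..1, (-c + g t x) ^ 2 ≤
      2 * c ^ 2 * (b - a) + 2 * C := by
  intro t₁ ht₁
  have hsub : Icc t₁ b ⊆ Ioc a b := fun t ht => ⟨ht₁.1.trans_le ht.1, ht.2⟩
  have hg1 : ContinuousOn (Function.uncurry g) (Icc t₁ b ×ˢ Icc 0 1) :=
    hg.mono (prod_mono hsub le_rfl)
  have hG2 : ContinuousOn (Function.uncurry fun t x => g t x ^ 2) (Icc t₁ b ×ˢ Icc 0 1) :=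
    hg1.pow 2
  have hS : ContinuousOn (Function.uncurry fun t x => (-c + g t x) ^ 2) (Icc t₁ b ×ˢ Icc 0 1) :=
    (continuousOn_const.add hg1).pow 2
  have h5 : ∀ t ∈ Icc t₁ b, ∫ x in (0 : ℝ)..1, (-c + g t x) ^ 2 ≤
      2 * c ^ 2 + 2 * ∫ x in (0 : ℝ)..1, g t x ^ 2 := by
    intro t ht
    have i1 : IntervalIntegrable (fun x => (-c + g t x) ^ 2) volume 0 1 :=
      ContinuousOn.intervalIntegrable (by
        rw [uIcc_of_le zero_le_one]; exact continuousOn_row hS ht)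
    have i2 : IntervalIntegrable (fun x => g t x ^ 2) volume 0 1 :=
      ContinuousOn.intervalIntegrable (by
        rw [uIcc_of_le zero_le_one]; exact continuousOn_row hG2 ht)
    have := intervalIntegral.integral_mono_on zero_le_one i1
      ((intervalIntegrable_const (c := 2 * c ^ 2)).add (i2.const_mul 2)) (fun x hx => ?_)
    · rw [intervalIntegral.integral_add intervalIntegrable_const (i2.const_mul 2),
        intervalIntegral.integral_const_mul] at this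
      simpa using this
    · nlinarith [sq_nonneg (-c - g t x)]
  have c1 := continuousOn_slice_Icc hS
  have c2 := continuousOn_slice_Icc hG2
  have i1 : IntervalIntegrable (fun t => ∫ x in (0 : ℝ)..1, (-c + g t x) ^ 2)
      volume t₁ b := ContinuousOn.intervalIntegrable (by rw [uIcc_of_le ht₁.2]; exact c1)
  have i2 : IntervalIntegrable (fun t => ∫ x in (0 : ℝ)..1, g t x ^ 2)
      volume t₁ b := ContinuousOn.intervalIntegrable (by rw [uIcc_of_le ht₁.2]; exact c2)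
  have := intervalIntegral.integral_mono_on ht₁.2 i1
    ((intervalIntegrable_const (c := 2 * c ^ 2)).add (i2.const_mul 2)) h5
  rw [intervalIntegral.integral_add intervalIntegrable_const (i2.const_mul 2),
    intervalIntegral.integral_const, smul_eq_mul] at this
  have e7 : ∫ t in t₁..b, 2 * ∫ x in (0 : ℝ)..1, g t x ^ 2 =
      2 * ∫ t in t₁..b, ∫ x in (0 : ℝ)..1, g t x ^ 2 := intervalIntegral.integral_const_mul _ _
  rw [e7] at this
  have h6 : (b - t₁) * (2 * c ^ 2) ≤ 2 * c ^ 2 * (b - a) := by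
    nlinarith [mul_nonneg (sub_nonneg.2 ht₁.1.le) (sq_nonneg c)]
  linarith [hC t₁ ht₁]

theorem step {γ : ℝ} (hγ1 : 1 < γ) (hγ2 : γ ≤ 3 / 2) {a h : ℝ} (hh : 0 < h)
    (hh' : h ≤ 1 / 36) {y1 : ℝ → ℝ} (hy1 : Measurable y1) {Y c N : ℝ}
    (hY : ∀ x ∈ Icc (0 : ℝ) 1, |y1 x| ≤ Y) (hs : 2 * (2 * |c| + Y) ≤ N) (hN : N ≤ 1) :
    ∃ y g : ℝ → ℝ → ℝ, Sol (flux γ) a (a + h) (fun _ => 0) (fun _ => c) y g ∧
      (∀ x ∈ Icc (0 : ℝ) 1, y a x = y1 x) ∧
      (∀ t ∈ Icc a (a + h), ∀ x ∈ Icc (0 : ℝ) 1, |y t x| ≤ N) ∧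
      (∀ x ∈ Icc (0 : ℝ) 1,
        |y (a + h) x - (c * (1 - x) + heat h (fun z => y1 z - c * (1 - z)) x)| ≤
          2 * √h * N ^ γ) ∧
      ∫⁻ t in Ioc a (a + h), ∫⁻ x in Icc (0 : ℝ) 1, ENNReal.ofReal (g t x ^ 2) ≤
        ENNReal.ofReal (5 * N ^ 2) := by
  obtain ⟨r, g, hP, h1, h2, h3⟩ := small_piece (a := a) hγ1 hγ2 hh hh' hy1 (c := c) hY
    (hs.trans hN)
  have hY0 : 0 ≤ Y := (abs_nonneg _).trans (hY 0 ⟨le_rfl, zero_le_one⟩)
  have hc0 := abs_nonneg c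
  set N' := 2 * (2 * |c| + Y) with hN'
  have hN'0 : 0 ≤ N' := by positivity
  have hN0 : 0 ≤ N := hN'0.trans hs
  have hab : a < a + h := by linarith
  have hP' : Piece (flux γ) a (a + h) (fun x => y1 x - (fun _ x => c * (1 - x) : ℝ → ℝ → ℝ) a x)
      (fun _ x => c * (1 - x)) r g := hP
  have hC : ∀ t₁ ∈ Ioc a (a + h), ∫ t in t₁..(a + h), ∫ x in (0 : ℝ)..1,
      ((fun _ _ => -c : ℝ → ℝ → ℝ) t x + g t x) ^ 2 ≤ 5 * N ^ 2 := by
    intro t₁ ht₁
    refine (grad_shift hP.contG h3 t₁ ht₁).trans ?_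
    have e1 : a + h - a = h := by ring
    rw [e1]
    have e2 : 4 * |c| ≤ N := by linarith
    have e3 : c ^ 2 ≤ N ^ 2 / 16 := by
      rw [← sq_abs c]; nlinarith
    have e4 : N' ^ 2 ≤ N ^ 2 := by gcongr
    nlinarith [sq_nonneg c, sq_nonneg N]
  obtain ⟨y, g', hS, hi, hy, hg'⟩ := hP'.sol hab (continuous_flux hγ1) (lift_const c) hy1
    hY hC
  refine ⟨y, g', hS.congr hab.le (fun _ _ => rfl) (fun t _ => by simp), hi, ?_, ?_, hg'⟩
  · intro t ht x hx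
    rcases eq_or_lt_of_le ht.1 with h0 | h0
    · rw [← h0, hi x hx]
      exact (hY x hx).trans (by linarith)
    · rw [hy t ⟨h0, ht.2⟩ x hx]
      exact (h1 t ⟨h0, ht.2⟩ x hx).trans hs
  · intro x hx
    have hm : a + h ∈ Ioc a (a + h) := ⟨hab, le_rfl⟩
    rw [hy _ hm x hx]
    have := h2 _ hm x hx
    have e : a + h - a = h := by ring
    rw [e] at this
    have e2 : c * (1 - x) + r (a + h) x - (c * (1 - x) + heat h (fun z => y1 z - c * (1 - z)) x) =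
        r (a + h) x - heat h (fun z => y1 z - c * (1 - z)) x := by ring
    rw [e2]
    refine this.trans ?_
    gcongr

theorem Sol.refl (f : ℝ → ℝ) (a : ℝ) {y1 : ℝ → ℝ} (hy1 : Measurable y1) {Y : ℝ}
    (hY : ∀ x ∈ Icc (0 : ℝ) 1, |y1 x| ≤ Y) (v : ℝ → ℝ) :
    Sol f a a (fun _ => 0) v (fun _ => y1) (fun _ _ => 0) := by
  refine ⟨hy1.comp measurable_snd, measurable_const, ⟨Y, fun _ _ => hY⟩, by simp, ?_, ?_, ?_, ?_,
    by simp, ?_, ?_⟩
  · intro t ht; simp at ht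
  · intro t ht; simp at ht
  · intro t ht; simp at ht
  · intro t ht; simp at ht
  · intro t₀ _; simpa using tendsto_const_nhds
  · intro φ φ' _ t ht
    have : t = a := le_antisymm ht.2 ht.1
    simp [this]

theorem lintegral_pw {a b c : ℝ} (hab : a ≤ b) (hbc : b ≤ c) (g₁ g₂ : ℝ → ℝ → ℝ) {A B : ℝ}
    (hA0 : 0 ≤ A) (hB0 : 0 ≤ B)
    (hA : ∫⁻ t in Ioc a b, ∫⁻ x in Icc (0 : ℝ) 1, ENNReal.ofReal (g₁ t x ^ 2) ≤ ENNReal.ofReal A)
    (hB : ∫⁻ t in Ioc b c, ∫⁻ x in Icc (0 : ℝ) 1, ENNReal.ofReal (g₂ t x ^ 2) ≤ ENNReal.ofReal B) :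
    ∫⁻ t in Ioc a c, ∫⁻ x in Icc (0 : ℝ) 1,
      ENNReal.ofReal ((if t ≤ b then g₁ t x else g₂ t x) ^ 2) ≤ ENNReal.ofReal (A + B) := by
  rw [← Ioc_union_Ioc_eq_Ioc hab hbc]
  refine (lintegral_union_le _ _ _).trans ?_
  rw [ENNReal.ofReal_add hA0 hB0]
  refine add_le_add ?_ ?_
  · refine le_trans (le_of_eq ?_) hA
    refine setLIntegral_congr_fun measurableSet_Ioc fun t ht => ?_
    simp only [if_pos ht.2]
  · refine le_trans (le_of_eq ?_) hB
    refine setLIntegral_congr_fun measurableSet_Ioc fun t ht => ?_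
    simp only [if_neg (not_le.2 ht.1)]

/-- Adding one step at the end. -/
theorem iterate_step {γ : ℝ} (hγ1 : 1 < γ) (hγ2 : γ ≤ 3 / 2) {a b h : ℝ} (hab : a ≤ b)
    (hh : 0 < h) (hh' : h ≤ 1 / 36) {v : ℝ → ℝ} {y g : ℝ → ℝ → ℝ} {c D N e A : ℝ}
    (hS : Sol (flux γ) a b (fun _ => 0) v y g)
    (hyN : ∀ t ∈ Icc a b, ∀ x ∈ Icc (0 : ℝ) 1, |y t x| ≤ N) {z : ℝ → ℝ} (hz : Measurable z)
    (hzD : ∀ x ∈ Icc (0 : ℝ) 1, |z x| ≤ D)
    (hye : ∀ x ∈ Icc (0 : ℝ) 1, |y b x - z x| ≤ e)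
    (hv : ∀ t ∈ Ioc b (b + h), v t = c) (hc : 2 * |c| ≤ D) (he : e ≤ D) (hDN : 6 * D ≤ N)
    (hN : N ≤ 1) (hA0 : 0 ≤ A)
    (hA : ∫⁻ t in Ioc a b, ∫⁻ x in Icc (0 : ℝ) 1, ENNReal.ofReal (g t x ^ 2) ≤ ENNReal.ofReal A) :
    ∃ y' g' : ℝ → ℝ → ℝ, Sol (flux γ) a (b + h) (fun _ => 0) v y' g' ∧
      (∀ x ∈ Icc (0 : ℝ) 1, y' a x = y a x) ∧
      (∀ t ∈ Icc a (b + h), ∀ x ∈ Icc (0 : ℝ) 1, |y' t x| ≤ N) ∧
      (∀ x ∈ Icc (0 : ℝ) 1,
        |y' (b + h) x - (c * (1 - x) + heat h (fun w => z w - c * (1 - w)) x)| ≤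
          e + 2 * √h * N ^ γ) ∧
      ∫⁻ t in Ioc a (b + h), ∫⁻ x in Icc (0 : ℝ) 1, ENNReal.ofReal (g' t x ^ 2) ≤
        ENNReal.ofReal (A + 5 * N ^ 2) := by
  have hD0 : 0 ≤ D := (abs_nonneg _).trans (hzD 0 ⟨le_rfl, zero_le_one⟩)
  have hyb : Measurable (y b) := hS.measY.comp measurable_prodMk_left
  have hyb2 : ∀ x ∈ Icc (0 : ℝ) 1, |y b x| ≤ 2 * D := fun x hx => by
    have h1 := hye x hx
    have h2 := hzD x hx
    have : |y b x| ≤ |y b x - z x| + |z x| := by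
      have := abs_add_le (y b x - z x) (z x)
      simpa using this
    linarith
  obtain ⟨y₂, g₂, hS₂, hi₂, hN₂, he₂, hG₂⟩ := step (a := b) hγ1 hγ2 hh hh' hyb (c := c) (N := N)
    hyb2 (by linarith) hN
  have hS₂' : Sol (flux γ) b (b + h) (fun _ => 0) v y₂ g₂ :=
    hS₂.congr (by linarith) (fun _ _ => rfl) (fun t ht => (hv t ht).symm)
  have hbb : b ≤ b + h := by linarith
  refine ⟨_, _, hS.trans hab hbb (continuous_flux hγ1) hS₂' (fun x hx => (hi₂ x hx).symm),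
    ?_, ?_, ?_, lintegral_pw hab hbb g g₂ hA0 (by positivity) hA hG₂⟩
  · intro x _
    simp only [if_pos hab]
  · intro t ht x hx
    by_cases htb : t ≤ b
    · simp only [if_pos htb]; exact hyN t ⟨ht.1, htb⟩ x hx
    · simp only [if_neg htb]; exact hN₂ t ⟨(not_le.1 htb).le, ht.2⟩ x hx
  · intro x hx
    simp only [if_neg (not_le.2 (by linarith : b < b + h))]
    have h1 := he₂ x hx
    have hmf : Measurable fun w => z w - c * (1 - w) := by fun_prop
    have hmg : Measurable fun w => y b w - c * (1 - w) := by fun_prop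
    have hbz : ∀ w ∈ Icc (0 : ℝ) 1, |z w - c * (1 - w)| ≤ D + |c| := fun w hw => by
      have h3 : |c * (1 - w)| ≤ |c| := by
        rw [abs_mul]
        refine mul_le_of_le_one_right (abs_nonneg _) ?_
        rw [abs_le]; constructor <;> linarith [hw.1, hw.2]
      exact (abs_sub _ _).trans (add_le_add (hzD w hw) h3)
    have hby : ∀ w ∈ Icc (0 : ℝ) 1, |y b w - c * (1 - w)| ≤ 2 * D + |c| := fun w hw => by
      have h3 : |c * (1 - w)| ≤ |c| := by
        rw [abs_mul]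
        refine mul_le_of_le_one_right (abs_nonneg _) ?_
        rw [abs_le]; constructor <;> linarith [hw.1, hw.2]
      exact (abs_sub _ _).trans (add_le_add (hyb2 w hw) h3)
    have h2 := heat_sub hmg hmf hby hbz h x
    have h3 : |heat h (fun w => y b w - c * (1 - w) - (z w - c * (1 - w))) x| ≤ e := by
      refine abs_heat_le (by fun_prop) (fun w hw => ?_) h x
      have : y b w - c * (1 - w) - (z w - c * (1 - w)) = y b w - z w := by ring
      rw [this]; exact hye w hw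
    rw [h2] at h3
    have h4 : y₂ (b + h) x - (c * (1 - x) + heat h (fun w => z w - c * (1 - w)) x) =
        (y₂ (b + h) x - (c * (1 - x) + heat h (fun w => y b w - c * (1 - w)) x)) +
        (heat h (fun w => y b w - c * (1 - w)) x - heat h (fun w => z w - c * (1 - w)) x) := by
      ring
    rw [h4]
    refine (abs_add_le _ _).trans ?_
    linarith

theorem iterate {γ : ℝ} (hγ1 : 1 < γ) (hγ2 : γ ≤ 3 / 2) {a h : ℝ} (hh : 0 < h)
    (hh' : h ≤ 1 / 36) {y1 : ℝ → ℝ} (hy1 : Measurable y1) {M D N : ℝ}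
    (hM : ∀ x ∈ Icc (0 : ℝ) 1, |y1 x| ≤ M) {n : ℕ} {b : ℕ → ℝ}
    (hb : M + 2 * ∑ k ∈ Finset.range n, |b k| ≤ D) (hn : n * (2 * √h * N ^ γ) ≤ D)
    (hDN : 6 * D ≤ N) (hN : N ≤ 1) {v : ℝ → ℝ}
    (hv : ∀ k : ℕ, k < n → ∀ t ∈ Ioc (a + k * h) (a + (k + 1 : ℕ) * h), v t = b k) :
    ∀ i : ℕ, i ≤ n → ∃ y g : ℝ → ℝ → ℝ, Sol (flux γ) a (a + i * h) (fun _ => 0) v y g ∧
      (∀ x ∈ Icc (0 : ℝ) 1, y a x = y1 x) ∧
      (∀ t ∈ Icc a (a + i * h), ∀ x ∈ Icc (0 : ℝ) 1, |y t x| ≤ N) ∧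
      (∀ x ∈ Icc (0 : ℝ) 1, |y (a + i * h) x - zit h b y1 i x| ≤ i * (2 * √h * N ^ γ)) ∧
      ∫⁻ t in Ioc a (a + i * h), ∫⁻ x in Icc (0 : ℝ) 1, ENNReal.ofReal (g t x ^ 2) ≤
        ENNReal.ofReal (i * (5 * N ^ 2)) := by
  have hM0 : 0 ≤ M := (abs_nonneg _).trans (hM 0 ⟨le_rfl, zero_le_one⟩)
  have hS0 : 0 ≤ ∑ k ∈ Finset.range n, |b k| := Finset.sum_nonneg fun _ _ => abs_nonneg _
  have hD0 : 0 ≤ D := by linarith
  have hN0 : 0 ≤ N := by linarith
  have hNg : 0 ≤ 2 * √h * N ^ γ := by positivity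
  intro i
  induction i with
  | zero =>
    intro _
    have e : a + ((0 : ℕ) : ℝ) * h = a := by simp
    rw [e]
    refine ⟨_, _, Sol.refl _ a hy1 hM v, fun _ _ => rfl, fun t _ x hx => ?_, fun x _ => ?_, ?_⟩
    · exact (hM x hx).trans (by linarith)
    · simp [zit]
    · simp
  | succ i ih =>
    intro hi
    obtain ⟨y, g, hS, hi0, hyN, hye, hG⟩ := ih (by omega)
    have hin : (i : ℝ) * (2 * √h * N ^ γ) ≤ D := by
      refine le_trans ?_ hn
      have : (i : ℝ) ≤ n := by exact_mod_cast (by omega : i ≤ n)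
      gcongr
    have hbi : |b i| ≤ ∑ k ∈ Finset.range n, |b k| :=
      Finset.single_le_sum (f := fun k => |b k|) (fun _ _ => abs_nonneg _)
        (Finset.mem_range.2 (by omega))
    have e1 : a + ((i + 1 : ℕ) : ℝ) * h = a + i * h + h := by push_cast; ring
    obtain ⟨y', g', hS', h1, h2, h3, h4⟩ := iterate_step hγ1 hγ2 (b := a + i * h) (c := b i)
      (D := D) (N := N) (by nlinarith [Nat.cast_nonneg (α := ℝ) i]) hh hh' hS hyN
      (measurable_zit hy1 i)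
      (fun x hx => (abs_zit_le hy1 hM i x hx).trans (le_trans (by
        have : ∑ k ∈ Finset.range i, |b k| ≤ ∑ k ∈ Finset.range n, |b k| :=
          Finset.sum_le_sum_of_subset_of_nonneg (Finset.range_mono (by omega))
            fun _ _ _ => abs_nonneg _
        linarith) hb))
      hye (fun t ht => hv i (by omega) t (by rw [e1]; exact ht)) (by linarith) hin hDN hN
      (by positivity) hG
    rw [e1]
    refine ⟨y', g', hS', fun x hx => (h1 x hx).trans (hi0 x hx), h2, fun x hx => ?_, ?_⟩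
    · have := h3 x hx
      have e2 : ((i + 1 : ℕ) : ℝ) * (2 * √h * N ^ γ) = i * (2 * √h * N ^ γ) + 2 * √h * N ^ γ := by
        push_cast; ring
      rw [e2]
      exact this
    · refine h4.trans (le_of_eq ?_)
      congr 1
      push_cast; ring

theorem exists_log_small {η : ℝ} (hη : 0 < η) : ∃ X : ℕ, ∀ m : ℕ, X ≤ m →
    100 * Real.log m ≤ η * m := by
  have h := (Real.isLittleO_log_id_atTop.comp_tendsto tendsto_natCast_atTop_atTop).bound
    (show (0:ℝ) < η / 100 by positivity)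
  obtain ⟨X, hX⟩ := h.exists_forall_of_atTop
  refine ⟨X, fun m hm => ?_⟩
  have := hX m hm
  simp only [Function.comp, id, Real.norm_eq_abs, Nat.abs_cast] at this
  have h2 := le_abs_self (Real.log m)
  linarith

/-- The amplitude of the states in the block number `m`. -/
def amp (m : ℕ) : ℝ :=
  Real.exp (-(m : ℝ) ^ 5) + 2 * (((m ^ 4 : ℕ) : ℝ) * (Real.exp (-(m : ℝ) ^ 5) / (1 / (m : ℝ) ^ 6)) *
    (2 + 1 / (1 / (m : ℝ) ^ 6)) ^ (m ^ 4))

theorem amp_pos {m : ℕ} : 0 < amp m := by unfold amp; positivity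

theorem one_le_log {m : ℕ} (hm : 7 ≤ m) : 1 ≤ Real.log m := by
  have h7 : (7 : ℝ) ≤ m := by exact_mod_cast hm
  rw [Real.le_log_iff_exp_le (by linarith)]
  linarith [Real.exp_one_lt_d9]

theorem amp_le {m : ℕ} (hm : 7 ≤ m) :
    amp m ≤ Real.exp (-(m : ℝ) ^ 5 + 8 * ((m : ℝ) ^ 4 * Real.log m)) := by
  have h7 : (7 : ℝ) ≤ m := by exact_mod_cast hm
  have hx0 : (0 : ℝ) < m := by linarith
  set x : ℝ := (m : ℝ) with hx
  have hlog := one_le_log hm
  rw [← hx] at hlog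
  have e1 : 1 / (1 / x ^ 6) = x ^ 6 := by field_simp
  have e2 : Real.exp (-x ^ 5) / (1 / x ^ 6) = Real.exp (-x ^ 5) * x ^ 6 := by field_simp
  have e3 : ((m ^ 4 : ℕ) : ℝ) = x ^ 4 := by push_cast; rfl
  have h2 : 2 + x ^ 6 ≤ x ^ 7 := by
    have h3 : (1:ℝ) ≤ x ^ 6 := one_le_pow₀ (by linarith)
    nlinarith [h3]
  have h4 : (2 + x ^ 6) ^ (m ^ 4) ≤ Real.exp (7 * (x ^ 4 * Real.log x)) := by
    calc (2 + x ^ 6) ^ (m ^ 4) ≤ (x ^ 7) ^ (m ^ 4) := by gcongr
      _ = Real.exp (7 * (x ^ 4 * Real.log x)) := by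
        rw [← Real.exp_log hx0, ← Real.exp_nat_mul, ← Real.exp_nat_mul, Real.log_exp]
        rw [e3, Real.exp_log hx0]
        push_cast
        ring_nf
  have h5 : x ^ 10 = Real.exp (10 * Real.log x) := by
    rw [mul_comm, Real.exp_mul, Real.exp_log hx0]; norm_cast
  have hx4 : (2401 : ℝ) ≤ x ^ 4 := by
    calc (2401:ℝ) = 7 ^ 4 := by norm_num
      _ ≤ x ^ 4 := by gcongr
  have hP : 2401 * Real.log x ≤ x ^ 4 * Real.log x := by gcongr
  have h6 : amp m ≤ Real.exp (-x ^ 5) * (3 * (x ^ 10 * Real.exp (7 * (x ^ 4 * Real.log x)))) := by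
    unfold amp
    rw [← hx, e1, e2, e3]
    have h7 : (1 : ℝ) ≤ x ^ 10 * Real.exp (7 * (x ^ 4 * Real.log x)) := by
      have a1 : (1 : ℝ) ≤ x ^ 10 := one_le_pow₀ (by linarith)
      have a2 : (1 : ℝ) ≤ Real.exp (7 * (x ^ 4 * Real.log x)) := by
        rw [Real.one_le_exp_iff]; positivity
      nlinarith
    have h8 : Real.exp (-x ^ 5) * x ^ 10 * (2 + x ^ 6) ^ (m ^ 4) ≤
        Real.exp (-x ^ 5) * x ^ 10 * Real.exp (7 * (x ^ 4 * Real.log x)) := by gcongr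
    have h9 : x ^ 4 * (Real.exp (-x ^ 5) * x ^ 6) * (2 + x ^ 6) ^ (m ^ 4) =
        Real.exp (-x ^ 5) * x ^ 10 * (2 + x ^ 6) ^ (m ^ 4) := by ring
    rw [h9]
    nlinarith [Real.exp_pos (-x ^ 5)]
  refine h6.trans ?_
  have h3e : (3 : ℝ) ≤ Real.exp (2 * Real.log x) := by
    have : Real.exp (2 * Real.log x) = x ^ 2 := by
      rw [mul_comm, Real.exp_mul, Real.exp_log hx0]; norm_cast
    rw [this]; nlinarith
  calc Real.exp (-x ^ 5) * (3 * (x ^ 10 * Real.exp (7 * (x ^ 4 * Real.log x))))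
      ≤ Real.exp (-x ^ 5) * (Real.exp (2 * Real.log x) *
          (Real.exp (10 * Real.log x) * Real.exp (7 * (x ^ 4 * Real.log x)))) := by
        rw [h5]; gcongr
    _ = Real.exp (-x ^ 5 + (2 * Real.log x + (10 * Real.log x + 7 * (x ^ 4 * Real.log x)))) := by
        rw [Real.exp_add, Real.exp_add, Real.exp_add]
    _ ≤ _ := by
        rw [Real.exp_le_exp]
        linarith

theorem exists_est {γ : ℝ} (hγ1 : 1 < γ) (hγ2 : γ ≤ 3 / 2) :
    ∃ m₁ : ℕ, 7 ≤ m₁ ∧ ∀ m : ℕ, m₁ ≤ m →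
      6 * amp m ≤ Real.exp (-(m : ℝ) ^ 4) ∧
      2 * (m : ℝ) * (6 * amp m) ^ γ ≤ amp m ∧
      ((m : ℝ) ^ 4 + 1) * (5 * (6 * amp m) ^ 2) ≤ Real.exp (-(m : ℝ) ^ 4) ∧
      4 * (m : ℝ) * (6 * amp m) ^ γ + 2 * amp m * (2 * Real.exp (-(m : ℝ) ^ 6)) ≤
        Real.exp (-((m : ℝ) + 1) ^ 5) := by
  obtain ⟨X, hX⟩ := exists_log_small (η := γ - 1) (by linarith)
  refine ⟨max X 7, le_max_right _ _, fun m hm => ?_⟩
  have hm7 : 7 ≤ m := (le_max_right _ _).trans hm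
  have h7 : (7 : ℝ) ≤ m := by exact_mod_cast hm7
  have hL := hX m ((le_max_left _ _).trans hm)
  have hamp := amp_le hm7
  have hamp0 := amp_pos (m := m)
  have hlog := one_le_log hm7
  set x : ℝ := (m : ℝ) with hx
  have hx0 : (0 : ℝ) < x := by linarith
  set P := x ^ 4 * Real.log x with hP
  have hx4 : (2401 : ℝ) ≤ x ^ 4 := by
    calc (2401:ℝ) = 7 ^ 4 := by norm_num
      _ ≤ x ^ 4 := by gcongr
  have hP1 : x ^ 4 ≤ P := by
    rw [hP]; nlinarith
  have hP2 : 2401 * Real.log x ≤ P := by rw [hP]; gcongr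
  have hx5 : 7 * x ^ 4 ≤ x ^ 5 := by
    have : x ^ 5 = x * x ^ 4 := by ring
    rw [this]; gcongr
  have hPx : 100 * P ≤ (γ - 1) * x ^ 5 := by
    have : (γ - 1) * x ^ 5 = x ^ 4 * ((γ - 1) * x) := by ring
    rw [this, hP]
    have h0 : (0:ℝ) ≤ x ^ 4 := by positivity
    nlinarith [mul_le_mul_of_nonneg_left hL h0]
  have hPx' : 200 * P ≤ x ^ 5 := by
    have : (γ - 1) * x ^ 5 ≤ (1 / 2) * x ^ 5 := by gcongr; linarith
    linarith
  have hN : 6 * amp m ≤ Real.exp (-x ^ 5 + 9 * P) := by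
    have h6 : (6 : ℝ) ≤ Real.exp P := by
      have := Real.add_one_le_exp P
      linarith
    calc 6 * amp m ≤ Real.exp P * Real.exp (-x ^ 5 + 8 * P) := by gcongr
      _ = Real.exp (-x ^ 5 + 9 * P) := by rw [← Real.exp_add]; ring_nf
  have hN0 : 0 < 6 * amp m := by positivity
  have hNγ : (6 * amp m) ^ γ ≤ Real.exp (γ * (-x ^ 5 + 9 * P)) := by
    calc (6 * amp m) ^ γ ≤ (Real.exp (-x ^ 5 + 9 * P)) ^ γ :=
          Real.rpow_le_rpow hN0.le hN (by linarith)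
      _ = Real.exp (γ * (-x ^ 5 + 9 * P)) := by rw [← Real.exp_mul]; ring_nf
  have hxl : x ≤ Real.exp (Real.log x) := by rw [Real.exp_log hx0]
  have h12 : (12 : ℝ) ≤ Real.exp P := by
    have := Real.add_one_le_exp P
    linarith
  refine ⟨?_, ?_, ?_, ?_⟩
  · refine hN.trans ?_
    rw [Real.exp_le_exp]; linarith
  · -- `12 x N^(γ-1) ≤ 1`
    have e1 : (6 * amp m) ^ γ = (6 * amp m) ^ (γ - 1) * (6 * amp m) := by
      conv_rhs => rw [← Real.rpow_one (6 * amp m), ← Real.rpow_mul hN0.le, one_mul]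
      rw [← Real.rpow_add hN0]; ring_nf
    have h1 : (6 * amp m) ^ (γ - 1) ≤ Real.exp ((γ - 1) * (-x ^ 5 + 9 * P)) := by
      calc (6 * amp m) ^ (γ - 1) ≤ (Real.exp (-x ^ 5 + 9 * P)) ^ (γ - 1) :=
            Real.rpow_le_rpow hN0.le hN (by linarith)
        _ = _ := by rw [← Real.exp_mul]; ring_nf
    have h2 : 12 * x * (6 * amp m) ^ (γ - 1) ≤ 1 := by
      calc 12 * x * (6 * amp m) ^ (γ - 1)
          ≤ Real.exp P * Real.exp (Real.log x) * Real.exp ((γ - 1) * (-x ^ 5 + 9 * P)) := by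
            gcongr
        _ = Real.exp (P + Real.log x + (γ - 1) * (-x ^ 5 + 9 * P)) := by
            rw [Real.exp_add, Real.exp_add]
        _ ≤ 1 := by
            rw [Real.exp_le_one_iff]
            have : (γ - 1) * (9 * P) ≤ 9 * P := by
              have : 0 ≤ P := by linarith
              nlinarith
            nlinarith
    rw [e1]
    calc 2 * x * ((6 * amp m) ^ (γ - 1) * (6 * amp m))
        = (12 * x * (6 * amp m) ^ (γ - 1)) * amp m := by ring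
      _ ≤ 1 * amp m := by gcongr
      _ = amp m := one_mul _
  · have h1 : (6 * amp m) ^ 2 ≤ Real.exp (2 * (-x ^ 5 + 9 * P)) := by
      calc (6 * amp m) ^ 2 ≤ (Real.exp (-x ^ 5 + 9 * P)) ^ 2 := by gcongr
        _ = _ := by rw [← Real.exp_nat_mul]; norm_num
    have h2 : (x ^ 4 + 1) * 5 ≤ Real.exp P * Real.exp P := by
      have a1 : x ^ 4 + 1 ≤ Real.exp P := by
        have := Real.add_one_le_exp P
        linarith
      have a2 : (5 : ℝ) ≤ Real.exp P := by linarith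
      have a3 : 0 ≤ x ^ 4 + 1 := by positivity
      nlinarith [Real.exp_pos P]
    calc (x ^ 4 + 1) * (5 * (6 * amp m) ^ 2) = ((x ^ 4 + 1) * 5) * (6 * amp m) ^ 2 := by ring
      _ ≤ (Real.exp P * Real.exp P) * Real.exp (2 * (-x ^ 5 + 9 * P)) := by gcongr
      _ = Real.exp (P + P + 2 * (-x ^ 5 + 9 * P)) := by rw [Real.exp_add, Real.exp_add]
      _ ≤ Real.exp (-x ^ 4) := by
          rw [Real.exp_le_exp]; linarith
  · have hpoly : (x + 1) ^ 5 ≤ x ^ 5 + 31 * x ^ 4 := by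
      have a1 : (1:ℝ) ≤ x := by linarith
      have a2 : x ≤ x ^ 4 := le_self_pow₀ a1 (by norm_num)
      have a3 : x ^ 2 ≤ x ^ 4 := pow_le_pow_right₀ a1 (by norm_num)
      have a4 : x ^ 3 ≤ x ^ 4 := pow_le_pow_right₀ a1 (by norm_num)
      have a5 : 1 ≤ x ^ 4 := one_le_pow₀ a1
      have : (x + 1) ^ 5 = x ^ 5 + 5 * x ^ 4 + 10 * x ^ 3 + 10 * x ^ 2 + 5 * x + 1 := by ring
      linarith
    have h1 : 4 * x * (6 * amp m) ^ γ ≤ Real.exp (-(x + 1) ^ 5) / 2 := by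
      have a1 : 8 * x * (6 * amp m) ^ γ ≤ Real.exp (-(x + 1) ^ 5) := by
        have h8 : (8 : ℝ) ≤ Real.exp P := by linarith
        calc 8 * x * (6 * amp m) ^ γ
            ≤ Real.exp P * Real.exp (Real.log x) * Real.exp (γ * (-x ^ 5 + 9 * P)) := by
              gcongr
          _ = Real.exp (P + Real.log x + γ * (-x ^ 5 + 9 * P)) := by
              rw [Real.exp_add, Real.exp_add]
          _ ≤ Real.exp (-(x + 1) ^ 5) := by
              rw [Real.exp_le_exp]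
              have hP0 : 0 ≤ P := by linarith
              have : γ * (9 * P) ≤ 14 * P := by nlinarith
              nlinarith
      linarith
    have h2 : 2 * amp m * (2 * Real.exp (-x ^ 6)) ≤ Real.exp (-(x + 1) ^ 5) / 2 := by
      have a0 : amp m ≤ 1 := by
        refine hamp.trans ?_
        rw [Real.exp_le_one_iff]; linarith
      have a1 : 8 * Real.exp (-x ^ 6) ≤ Real.exp (-(x + 1) ^ 5) := by
        have h8 : (8 : ℝ) ≤ Real.exp (x ^ 4) := by
          have := Real.add_one_le_exp (x ^ 4)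
          linarith
        have hx6 : 7 * x ^ 5 ≤ x ^ 6 := by
          have : x ^ 6 = x * x ^ 5 := by ring
          rw [this]; gcongr
        calc 8 * Real.exp (-x ^ 6) ≤ Real.exp (x ^ 4) * Real.exp (-x ^ 6) := by gcongr
          _ = Real.exp (x ^ 4 + -x ^ 6) := by rw [Real.exp_add]
          _ ≤ _ := by rw [Real.exp_le_exp]; linarith
      have a2 : 0 < Real.exp (-x ^ 6) := Real.exp_pos _
      nlinarith
    linarith


theorem tail_le {m : ℕ} (hm : 7 ≤ m) :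
    ∑' j : ℕ, Real.exp (-(π ^ 2 * (((m ^ 4 : ℕ) : ℝ) + 1 + j) ^ 2 * (1 / (m : ℝ) ^ 2))) ≤
      2 * Real.exp (-(m : ℝ) ^ 6) := by
  have h7 : (7 : ℝ) ≤ m := by exact_mod_cast hm
  set x : ℝ := (m : ℝ) with hx
  have hx0 : (0 : ℝ) < x := by linarith
  have hterm : ∀ j : ℕ, Real.exp (-(π ^ 2 * (((m ^ 4 : ℕ) : ℝ) + 1 + j) ^ 2 * (1 / x ^ 2))) ≤
      Real.exp (-x ^ 6) * Real.exp (-1) ^ j := by
    intro j
    rw [← Real.exp_nat_mul, ← Real.exp_add, Real.exp_le_exp]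
    have e3 : ((m ^ 4 : ℕ) : ℝ) = x ^ 4 := by push_cast; rfl
    rw [e3]
    have hpi : (1 : ℝ) ≤ π ^ 2 := by nlinarith [Real.pi_gt_three]
    have hj : (0 : ℝ) ≤ j := Nat.cast_nonneg j
    have h1 : x ^ 6 + j ≤ (x ^ 4 + 1 + j) ^ 2 * (1 / x ^ 2) := by
      rw [mul_one_div, le_div_iff₀ (by positivity)]
      have a1 : x ^ 2 ≤ x ^ 4 := pow_le_pow_right₀ (by linarith) (by norm_num)
      have a2 : (j : ℝ) * x ^ 2 ≤ j * x ^ 4 := by gcongr
      have a3 : 0 ≤ x ^ 4 := by positivity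
      nlinarith [sq_nonneg (1 + (j:ℝ))]
    have h2 : 0 ≤ (x ^ 4 + 1 + j) ^ 2 * (1 / x ^ 2) := by positivity
    have h3 : (x ^ 4 + 1 + j) ^ 2 * (1 / x ^ 2) ≤
        π ^ 2 * (x ^ 4 + 1 + j) ^ 2 * (1 / x ^ 2) := by
      rw [mul_assoc]
      exact le_mul_of_one_le_left h2 hpi
    linarith
  have he1 : Real.exp (-1) ≤ 1 / 2 := by
    rw [Real.exp_neg, inv_eq_one_div]
    apply one_div_le_one_div_of_le (by norm_num)
    have := Real.add_one_le_exp (1:ℝ)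
    linarith
  have hlt : Real.exp (-1) < 1 := by linarith
  have hg := (summable_geometric_of_lt_one (Real.exp_pos (-1)).le hlt).mul_left (Real.exp (-x ^ 6))
  have hs : Summable fun j : ℕ =>
      Real.exp (-(π ^ 2 * (((m ^ 4 : ℕ) : ℝ) + 1 + j) ^ 2 * (1 / x ^ 2))) :=
    Summable.of_nonneg_of_le (fun _ => (Real.exp_pos _).le) hterm hg
  refine (hs.tsum_le_tsum hterm hg).trans ?_
  rw [tsum_mul_left, tsum_geometric_of_lt_one (Real.exp_pos (-1)).le hlt, mul_comm]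
  have h4 : (1 - Real.exp (-1))⁻¹ ≤ 2 := by
    rw [inv_le_comm₀ (by linarith) (by norm_num)]
    linarith
  gcongr

theorem BVb.sum {n : ℕ} {v : ℕ → ℝ → ℝ} {W : ℕ → ℝ} (h : ∀ k, k < n → BVb (v k) (W k)) :
    BVb (fun t => ∑ k ∈ Finset.range n, v k t) (∑ k ∈ Finset.range n, W k) := by
  induction n with
  | zero => simpa using BVb.zero
  | succ n ih =>
    simp only [Finset.sum_range_succ]
    exact (ih fun k hk => h k (by omega)).add (h n (by omega))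

/-- One control block of length `2/m²`: `m⁴` constant boundary values on intervals of length
`1/m⁶`, followed by free evolution during `1/m²`. -/
theorem block {γ : ℝ} (hγ1 : 1 < γ) (hγ2 : γ ≤ 3 / 2) :
    ∃ m₁ : ℕ, 1 ≤ m₁ ∧ ∀ m : ℕ, m₁ ≤ m → ∀ (a : ℝ) (y1 : ℝ → ℝ), Measurable y1 →
      (∀ x ∈ Icc (0 : ℝ) 1, |y1 x| ≤ Real.exp (-(m : ℝ) ^ 5)) →
      ∃ (v : ℝ → ℝ) (y g : ℝ → ℝ → ℝ),
        Sol (flux γ) a (a + (1 / (m : ℝ) ^ 2 + 1 / (m : ℝ) ^ 2)) (fun _ => 0) v y g ∧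
        (∀ x ∈ Icc (0 : ℝ) 1, y a x = y1 x) ∧
        (∀ t ∈ Icc a (a + (1 / (m : ℝ) ^ 2 + 1 / (m : ℝ) ^ 2)), ∀ x ∈ Icc (0 : ℝ) 1,
          |y t x| ≤ Real.exp (-(m : ℝ) ^ 4)) ∧
        (∀ x ∈ Icc (0 : ℝ) 1,
          |y (a + (1 / (m : ℝ) ^ 2 + 1 / (m : ℝ) ^ 2)) x| ≤ Real.exp (-((m : ℝ) + 1) ^ 5)) ∧
        BVb v (Real.exp (-(m : ℝ) ^ 4)) ∧
        (∀ t, t ∉ Ioc a (a + (1 / (m : ℝ) ^ 2 + 1 / (m : ℝ) ^ 2)) → v t = 0) ∧
        ∫⁻ t in Ioc a (a + (1 / (m : ℝ) ^ 2 + 1 / (m : ℝ) ^ 2)), ∫⁻ x in Icc (0 : ℝ) 1,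
          ENNReal.ofReal (g t x ^ 2) ≤ ENNReal.ofReal (Real.exp (-(m : ℝ) ^ 4)) := by
  obtain ⟨m₁, hm₁, hest⟩ := exists_est hγ1 hγ2
  refine ⟨m₁, by omega, fun m hm a y1 hy1m hy1 => ?_⟩
  obtain ⟨E1, E2, E3, E4⟩ := hest m hm
  have hm7 : 7 ≤ m := hm₁.trans hm
  have h7 : (7 : ℝ) ≤ m := by exact_mod_cast hm7
  have hD0 := amp_pos (m := m)
  set D := amp m with hD
  have hampdef : D = Real.exp (-(m : ℝ) ^ 5) + 2 * (((m ^ 4 : ℕ) : ℝ) *
    (Real.exp (-(m : ℝ) ^ 5) / (1 / (m : ℝ) ^ 6)) * (2 + 1 / (1 / (m : ℝ) ^ 6)) ^ (m ^ 4)) := rfl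
  set x : ℝ := (m : ℝ) with hx
  have hx0 : (0 : ℝ) < x := by linarith
  set h : ℝ := 1 / x ^ 6 with hh
  set h' : ℝ := 1 / x ^ 2 with hh'
  have hh0 : 0 < h := by positivity
  have hh'0 : 0 < h' := by positivity
  have hh'36 : h' ≤ 1 / 36 := by
    rw [hh']
    apply one_div_le_one_div_of_le (by norm_num)
    nlinarith
  have hh36 : h ≤ 1 / 36 := by
    refine le_trans ?_ hh'36
    rw [hh, hh']
    apply one_div_le_one_div_of_le (by positivity)
    exact pow_le_pow_right₀ (by linarith) (by norm_num)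
  set n : ℕ := m ^ 4 with hn
  have hnx : ((n : ℕ) : ℝ) = x ^ 4 := by rw [hn]; push_cast; rfl
  have hnh : (n : ℝ) * h = h' := by
    rw [hnx, hh, hh']; field_simp
  obtain ⟨b, hb1, hb2⟩ := lin_control n hh0 hy1m hy1
  have hbD : Real.exp (-x ^ 5) + 2 * ∑ k ∈ Finset.range n, |b k| ≤ D := by
    rw [hampdef]; linarith
  have hexp0 := Real.exp_pos (-x ^ 5)
  have hsum0 : 0 ≤ ∑ k ∈ Finset.range n, |b k| := Finset.sum_nonneg fun _ _ => abs_nonneg _
  set N := 6 * D with hN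
  have hN1 : N ≤ 1 := E1.trans (by rw [Real.exp_le_one_iff]; have : (0:ℝ) ≤ x ^ 4 := by positivity
                                   linarith)
  have hN0 : 0 < N := by positivity
  have hsqh : √h = 1 / x ^ 3 := by
    rw [hh, Real.sqrt_div' _ (by positivity), Real.sqrt_one]
    congr 1
    rw [show x ^ 6 = (x ^ 3) ^ 2 by ring, Real.sqrt_sq (by positivity)]
  have hsqh' : √h' = 1 / x := by
    rw [hh', Real.sqrt_div' _ (by positivity), Real.sqrt_one, Real.sqrt_sq hx0.le]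
  have hnN : (n : ℝ) * (2 * √h * N ^ γ) = 2 * x * N ^ γ := by
    rw [hnx, hsqh]; field_simp
  have hnD : (n : ℝ) * (2 * √h * N ^ γ) ≤ D := by rw [hnN]; exact E2
  -- the boundary control
  set v : ℝ → ℝ := fun t => ∑ k ∈ Finset.range n,
    (Ioc (a + k * h) (a + (k + 1 : ℕ) * h)).indicator (fun _ => b k) t with hv
  have hdisj : ∀ {t : ℝ} {j k : ℕ}, t ∈ Ioc (a + j * h) (a + (j + 1 : ℕ) * h) →
      t ∈ Ioc (a + k * h) (a + (k + 1 : ℕ) * h) → k = j := by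
    intro t j k hj hk
    have a1 : (j : ℝ) * h < (k + 1 : ℕ) * h := by linarith [hj.1, hk.2]
    have a2 : (k : ℝ) * h < (j + 1 : ℕ) * h := by linarith [hj.2, hk.1]
    have b1 : (j : ℝ) < (k + 1 : ℕ) := lt_of_mul_lt_mul_right a1 hh0.le
    have b2 : (k : ℝ) < (j + 1 : ℕ) := lt_of_mul_lt_mul_right a2 hh0.le
    have c1 : j < k + 1 := by exact_mod_cast b1
    have c2 : k < j + 1 := by exact_mod_cast b2
    omega
  have hvk : ∀ k : ℕ, k < n → ∀ t ∈ Ioc (a + k * h) (a + (k + 1 : ℕ) * h), v t = b k := by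
    intro k hk t ht
    rw [hv]
    simp only
    rw [Finset.sum_eq_single k]
    · rw [indicator_of_mem ht]
    · intro j _ hj
      exact indicator_of_notMem (fun h => hj (hdisj ht h)) _
    · intro h; exact absurd (Finset.mem_range.2 hk) h
  have hvout : ∀ t, t ∉ Ioc a (a + n * h) → v t = 0 := by
    intro t ht
    rw [hv]
    refine Finset.sum_eq_zero fun k hk => indicator_of_notMem (fun hmem => ht ?_) _
    have hk' : ((k + 1 : ℕ) : ℝ) ≤ n := by exact_mod_cast Finset.mem_range.1 hk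
    have hk0 : (0 : ℝ) ≤ k := Nat.cast_nonneg k
    refine ⟨lt_of_le_of_lt (by nlinarith) hmem.1, hmem.2.trans ?_⟩
    have := mul_le_mul_of_nonneg_right hk' hh0.le
    linarith
  obtain ⟨y, g, hS, hy0, hyN, hye, hG⟩ := iterate hγ1 hγ2 hh0 hh36 hy1m hy1 hbD hnD le_rfl hN1
    hvk n le_rfl
  have hzD : ∀ w ∈ Icc (0 : ℝ) 1, |zit h b y1 n w| ≤ D := fun w hw =>
    (abs_zit_le hy1m hy1 n w hw).trans hbD
  have hab : a ≤ a + n * h := by rw [hnh]; linarith
  obtain ⟨y', g', hS', hy'0, hy'N, hy'e, hG'⟩ := iterate_step hγ1 hγ2 (c := 0) (D := D) (N := N)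
    (h := h') hab hh'0 hh'36 hS hyN (measurable_zit hy1m n) hzD hye
    (fun t ht => hvout t fun h => absurd h.2 (not_le.2 ht.1)) (by simpa using hD0.le) hnD le_rfl
    hN1 (by positivity) hG
  have hend : a + n * h + h' = a + (h' + h') := by rw [hnh]; ring
  rw [hend] at hS' hy'N hy'e hG'
  refine ⟨v, y', g', hS', fun w hw => (hy'0 w hw).trans (hy0 w hw), fun t ht w hw =>
    (hy'N t ht w hw).trans E1, fun w hw => ?_, ?_, fun t ht => hvout t fun h1 => ht ?_, ?_⟩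
  · have k1 := hy'e w hw
    have k2 : |heat h' (zit h b y1 n) w| ≤ 2 * D * (2 * Real.exp (-x ^ 6)) := by
      refine (heat_decay (measurable_zit hy1m n) hzD (n := n) hb1 hh'0 hw).trans ?_
      have := tail_le hm7
      rw [← hx] at this
      gcongr
    simp only [zero_mul, sub_zero, zero_add] at k1
    have k3 : |y' (a + (h' + h')) w| ≤
        |y' (a + (h' + h')) w - heat h' (zit h b y1 n) w| + |heat h' (zit h b y1 n) w| := by
      have := abs_add_le (y' (a + (h' + h')) w - heat h' (zit h b y1 n) w)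
        (heat h' (zit h b y1 n) w)
      simpa using this
    have k4 : (n : ℝ) * (2 * √h * N ^ γ) + 2 * √h' * N ^ γ ≤ 4 * x * N ^ γ := by
      rw [hnN, hsqh']
      have : 2 * (1 / x) ≤ 2 * x := by
        have : 1 / x ≤ x := by
          rw [div_le_iff₀ hx0]; nlinarith
        linarith
      have hNγ0 : 0 ≤ N ^ γ := by positivity
      have e5 := mul_le_mul_of_nonneg_right this hNγ0
      calc 2 * x * N ^ γ + 2 * (1 / x) * N ^ γ ≤ 2 * x * N ^ γ + 2 * x * N ^ γ := by gcongr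
        _ = 4 * x * N ^ γ := by ring
    calc |y' (a + (h' + h')) w| ≤ _ := k3
      _ ≤ (n : ℝ) * (2 * √h * N ^ γ) + 2 * √h' * N ^ γ + 2 * D * (2 * Real.exp (-x ^ 6)) :=
        add_le_add k1 k2
      _ ≤ 4 * x * N ^ γ + 2 * D * (2 * Real.exp (-x ^ 6)) := by gcongr
      _ ≤ _ := E4
  · refine (BVb.sum fun k _ => BVb.indicator (b k) _ _).mono ?_
    rw [← Finset.mul_sum]
    linarith
  · refine ⟨h1.1, h1.2.trans ?_⟩
    rw [← hend]; linarith
  · refine hG'.trans (ENNReal.ofReal_le_ofReal ?_)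
    have : (n : ℝ) * (5 * N ^ 2) + 5 * N ^ 2 = (x ^ 4 + 1) * (5 * N ^ 2) := by rw [hnx]; ring
    rw [this]
    exact E3

theorem exists_start {T : ℝ} (hT : 0 < T) (m₁ : ℕ) :
    ∃ m₀ : ℕ, m₁ ≤ m₀ ∧
      Summable (fun k : ℕ => (1 / ((m₀ + k : ℕ) : ℝ) ^ 2 + 1 / ((m₀ + k : ℕ) : ℝ) ^ 2)) ∧
      ∑' k : ℕ, (1 / ((m₀ + k : ℕ) : ℝ) ^ 2 + 1 / ((m₀ + k : ℕ) : ℝ) ^ 2) ≤ T := by
  let F : ℕ → ℝ := fun n => 1 / (n : ℝ) ^ 2 + 1 / (n : ℝ) ^ 2
  have hF : Summable F := by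
    have : Summable fun n : ℕ => 1 / (n : ℝ) ^ 2 := Real.summable_one_div_nat_pow.2 (by norm_num)
    exact this.add this
  have h1 := tendsto_sum_nat_add F
  obtain ⟨N, hN⟩ := (h1.eventually (eventually_le_nhds hT)).exists_forall_of_atTop
  refine ⟨max N m₁, le_max_right _ _, ?_, ?_⟩
  · have := (summable_nat_add_iff (f := F) (max N m₁)).2 hF
    refine this.congr fun k => ?_
    simp only [F, add_comm k]
  · have := hN (max N m₁) (le_max_left _ _)
    refine le_trans (le_of_eq ?_) this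
    refine tsum_congr fun k => ?_
    simp only [F, add_comm k]

/-- Local null controllability with the boundary control only. -/
theorem phase2 {γ : ℝ} (hγ1 : 1 < γ) (hγ2 : γ ≤ 3 / 2) {T : ℝ} (hT : 0 < T) :
    ∃ ε : ℝ, 0 < ε ∧ ∀ (a c : ℝ) (y1 : ℝ → ℝ), a + T ≤ c → Measurable y1 →
      (∀ x ∈ Icc (0 : ℝ) 1, |y1 x| ≤ ε) →
      ∃ (v : ℝ → ℝ) (y g : ℝ → ℝ → ℝ),
        Sol (flux γ) a c (fun _ => 0) v y g ∧
        (∀ x ∈ Icc (0 : ℝ) 1, y a x = y1 x) ∧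
        (∀ x ∈ Icc (0 : ℝ) 1, y c x = 0) ∧
        (∃ W, BVb v W) ∧ (∀ t, t ≤ a → v t = 0) := by
  obtain ⟨m₁, hm₁, hb⟩ := block hγ1 hγ2
  choose! V Y G h1 h2 h3 h4 h5 h6 h7 using hb
  obtain ⟨m₀, hm₀, hsum, hsumT⟩ := exists_start hT m₁
  refine ⟨Real.exp (-(m₀ : ℝ) ^ 5), Real.exp_pos _, fun a c y1 hac hy1m hy1 => ?_⟩
  set d : ℕ → ℝ := fun k => (1 / ((m₀ + k : ℕ) : ℝ) ^ 2 + 1 / ((m₀ + k : ℕ) : ℝ) ^ 2) with hd
  set s : ℕ → ℝ := fun k => a + ∑ j ∈ Finset.range k, d j with hs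
  have hm0 : ∀ k, 1 ≤ m₀ + k := fun k => by omega
  have hd0 : ∀ k, 0 < d k := fun k => by
    have : (0 : ℝ) < ((m₀ + k : ℕ) : ℝ) := by exact_mod_cast hm0 k
    simp only [hd]; positivity
  have hs1 : ∀ k, s (k + 1) = s k + d k := fun k => by
    simp only [hs, Finset.sum_range_succ]; ring
  have hsm : StrictMono s := strictMono_nat_of_lt_succ fun k => by rw [hs1]; linarith [hd0 k]
  have hs0 : s 0 = a := by simp [hs]
  have hslim : Tendsto s atTop (𝓝 (a + ∑' k, d k)) :=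
    tendsto_const_nhds.add hsum.hasSum.tendsto_sum_nat
  have hsle : ∀ k, s k < a + ∑' k, d k := fun k =>
    (hsm (Nat.lt_succ_self k)).trans_le (hsm.monotone.ge_of_tendsto hslim (k + 1))
  have hlec : a + ∑' k, d k ≤ c := by linarith
  -- the states
  let st : ℕ → ℝ → ℝ := fun k => Nat.rec y1 (fun k f => Y (m₀ + k) (s k) f (s (k + 1))) k
  have hst0 : st 0 = y1 := rfl
  have hst1 : ∀ k, st (k + 1) = Y (m₀ + k) (s k) (st k) (s (k + 1)) := fun k => rfl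
  have hst : ∀ k, Measurable (st k) ∧
      ∀ x ∈ Icc (0 : ℝ) 1, |st k x| ≤ Real.exp (-((m₀ + k : ℕ) : ℝ) ^ 5) := by
    intro k
    induction k with
    | zero => exact ⟨hy1m, by simpa [hst0] using hy1⟩
    | succ k ih =>
      have hle : m₁ ≤ m₀ + k := hm₀.trans (Nat.le_add_right _ _)
      refine ⟨?_, fun x hx => ?_⟩
      · rw [hst1]
        exact (h1 _ hle (s k) (st k) ih.1 ih.2).measY.comp measurable_prodMk_left
      · rw [hst1, hs1]
        have := h4 _ hle (s k) (st k) ih.1 ih.2 x hx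
        refine this.trans (le_of_eq ?_)
        push_cast
        ring_nf
  have hle : ∀ k, m₁ ≤ m₀ + k := fun k => hm₀.trans (Nat.le_add_right _ _)
  -- the control
  let vk : ℕ → ℝ → ℝ := fun k => V (m₀ + k) (s k) (st k)
  have hvk : ∀ k t, t ∉ Ioc (s k) (s (k + 1)) → vk k t = 0 := fun k t ht => by
    rw [hs1] at ht
    exact h6 _ (hle k) (s k) (st k) (hst k).1 (hst k).2 t ht
  have hdisj : ∀ {t : ℝ} {j k : ℕ}, t ∈ Ioc (s j) (s (j + 1)) → t ∈ Ioc (s k) (s (k + 1)) →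
      k = j := by
    intro t j k hj hk
    have a1 : s j < s (k + 1) := hj.1.trans_le hk.2
    have a2 : s k < s (j + 1) := hk.1.trans_le hj.2
    have b1 := hsm.lt_iff_lt.1 a1
    have b2 := hsm.lt_iff_lt.1 a2
    omega
  let v : ℝ → ℝ := fun t => ∑' k, vk k t
  have hv : ∀ j, ∀ t ∈ Ioc (s j) (s (j + 1)), v t = vk j t := by
    intro j t ht
    refine tsum_eq_single j fun k hk => hvk k t fun h => hk (hdisj ht h)
  have hvb : ∀ t, a + ∑' k, d k ≤ t → v t = 0 := by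
    intro t ht
    refine (tsum_congr fun k => hvk k t fun h => ?_).trans tsum_zero
    exact absurd (h.2.trans_lt (hsle (k + 1))) (not_lt.2 ht)
  have hva : ∀ t, t ≤ a → v t = 0 := by
    intro t ht
    refine (tsum_congr fun k => hvk k t fun h => ?_).trans tsum_zero
    have : a ≤ s k := by rw [← hs0]; exact hsm.monotone (Nat.zero_le k)
    exact absurd h.1 (not_lt.2 (ht.trans this))
  have hexp : ∀ k : ℕ, Real.exp (-((m₀ + k : ℕ) : ℝ) ^ 4) ≤ Real.exp (-1) ^ k := by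
    intro k
    rw [← Real.exp_nat_mul, mul_neg, mul_one, Real.exp_le_exp, neg_le_neg_iff]
    have h0 : (k : ℝ) ≤ ((m₀ + k : ℕ) : ℝ) := by exact_mod_cast Nat.le_add_left _ _
    have h1 : (1 : ℝ) ≤ ((m₀ + k : ℕ) : ℝ) := by exact_mod_cast hm0 k
    exact h0.trans (le_self_pow₀ h1 (by norm_num))
  have hWs : Summable fun k : ℕ => Real.exp (-((m₀ + k : ℕ) : ℝ) ^ 4) := by
    refine Summable.of_nonneg_of_le (fun k => (Real.exp_pos _).le) hexp ?_
    exact summable_geometric_of_lt_one (Real.exp_pos _).le (by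
      rw [Real.exp_lt_one_iff]; norm_num)
  have hBV : BVb v (∑' k : ℕ, Real.exp (-((m₀ + k : ℕ) : ℝ) ^ 4)) := by
    refine BVb.tsum (fun k => h5 _ (hle k) (s k) (st k) (hst k).1 (hst k).2) hWs fun t => ?_
    refine summable_of_hasFiniteSupport ?_
    refine Set.Subsingleton.finite fun i hi j hj => ?_
    have hi' : t ∈ Ioc (s i) (s (i + 1)) := by
      by_contra h; exact hi (hvk i t h)
    have hj' : t ∈ Ioc (s j) (s (j + 1)) := by
      by_contra h; exact hj (hvk j t h)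
    exact hdisj hj' hi'
  obtain ⟨y', g', hS, hy0, hyb⟩ := Sol.countable (continuous_flux hγ1) (flux_zero γ) hsm hslim hlec
    (v := v) (y := fun k => Y (m₀ + k) (s k) (st k)) (g := fun k => G (m₀ + k) (s k) (st k))
    (M := fun k => Real.exp (-((m₀ + k : ℕ) : ℝ) ^ 4))
    (G := fun k => Real.exp (-((m₀ + k : ℕ) : ℝ) ^ 4))
    (fun k => by
      have := h1 _ (hle k) (s k) (st k) (hst k).1 (hst k).2
      rw [hs1]
      refine this.congr (by linarith [hd0 k]) (fun _ _ => rfl) fun t ht => ?_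
      rw [← hd] at *
      exact (hv k t (by rw [hs1]; exact ht)).symm)
    (fun k x hx => by
      have := h2 _ (hle (k + 1)) (s (k + 1)) (st (k + 1)) (hst (k + 1)).1 (hst (k + 1)).2 x hx
      rw [this, hst1])
    hvb
    (fun k t ht x hx => by
      rw [hs1] at ht
      exact h3 _ (hle k) (s k) (st k) (hst k).1 (hst k).2 t ht x hx)
    hWs.tendsto_atTop_zero
    (fun k => by
      rw [hs1]
      exact h7 _ (hle k) (s k) (st k) (hst k).1 (hst k).2)
    (fun k => (Real.exp_pos _).le) hWs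
  rw [hs0] at hS hy0
  refine ⟨v, y', g', hS, fun x hx => ?_, fun x hx => hyb c hlec x hx, ⟨_, hBV⟩, hva⟩
  rw [hy0 x hx]
  have := h2 _ (hle 0) (s 0) (st 0) (hst 0).1 (hst 0).2 x hx
  rw [hs0] at this
  exact this

end Pool.Agent.Burg
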