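import Mathlib

/-!
Definitions shared by all modules of the formalization of small-time global null controllability
of the generalized Burgers equation (helper46).
-/

set_option autoImplicit false

open MeasureTheory Set Filter Topology
open scoped Real ENNReal

noncomputable section

namespace Pool.Agent.Burg

/-- Gaussian profile `(4π)^(-1/2) exp(-z²/4)`. -/
def g0 (z : ℝ) : ℝ := (√(4 * π))⁻¹ * Real.exp (-(z ^ 2) / 4)

/-- First derivative of `g0`. -/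
def g1 (z : ℝ) : ℝ := -(z / 2) * g0 z

/-- Second derivative of `g0`. -/
def g2 (z : ℝ) : ℝ := (z ^ 2 / 4 - 1 / 2) * g0 z

/-- Scaled convolution `∫ k(z) φ(x - c z) dz`. -/
def cv (k : ℝ → ℝ) (c : ℝ) (φ : ℝ → ℝ) (x : ℝ) : ℝ := ∫ z, k z * φ (x - c * z)

/-- The `2`-periodic even triangular wave which is the identity on `[0,1]`. -/
def tri (x : ℝ) : ℝ := ‖((x : ℝ) : AddCircle (2 : ℝ))‖

/-- The `2`-periodic odd square wave, `1` on `(0,1)`. -/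
def sq (x : ℝ) : ℝ := Real.sign (Real.sin (π * x))

/-- Odd `2`-periodic extension of a function on `[0,1]`. -/
def oddExt (φ : ℝ → ℝ) (x : ℝ) : ℝ := sq x * φ (tri x)

/-- Even `2`-periodic extension of a function on `[0,1]`. -/
def evenExt (φ : ℝ → ℝ) (x : ℝ) : ℝ := φ (tri x)

/-- Dirichlet heat flow on `[0,1]` at time `t > 0`. -/
def heat (t : ℝ) (φ : ℝ → ℝ) (x : ℝ) : ℝ := cv g0 (√t) (oddExt φ) x

/-- Duhamel term `∫₀ᵗ ∂ₓ N(t-s) F(s) ds` (`N` the Neumann heat flow), written over the fixed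
interval `(0,1)` by the substitution `s = tσ`. -/
def duh (F : ℝ → ℝ → ℝ) (t x : ℝ) : ℝ :=
  √t * ∫ σ in (0 : ℝ)..1, (1 - σ) ^ (-(1 / 2) : ℝ) *
    cv g1 (√(t * (1 - σ))) (evenExt (F (t * σ))) x

/-- A pair `φ, φ'` with `φ ∈ C¹[0,1]`, `φ(0) = φ(1) = 0`. -/
structure IsTest (φ φ' : ℝ → ℝ) : Prop where
  der : ∀ x ∈ Icc (0 : ℝ) 1, HasDerivWithinAt φ (φ' x) (Icc 0 1) x
  cont : ContinuousOn φ' (Icc 0 1)
  zero0 : φ 0 = 0
  zero1 : φ 1 = 0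

/-- `r` is, on `(a,b]`, the solution of `r_t = r_xx - (f(B + r))_x`, `r(t,0) = r(t,1) = 0`,
`r(a,·) = r0`; `g` is its space derivative. -/
structure Piece (f : ℝ → ℝ) (a b : ℝ) (r0 : ℝ → ℝ) (B r g : ℝ → ℝ → ℝ) : Prop where
  contR : ContinuousOn (Function.uncurry r) (Ioc a b ×ˢ Icc 0 1)
  contG : ContinuousOn (Function.uncurry g) (Ioc a b ×ˢ Icc 0 1)
  bdd : ∃ M, ∀ t ∈ Ioc a b, ∀ x ∈ Icc (0 : ℝ) 1, |r t x| ≤ M
  der : ∀ t ∈ Ioc a b, ∀ x ∈ Icc (0 : ℝ) 1, HasDerivWithinAt (r t) (g t x) (Icc 0 1) x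
  zero0 : ∀ t ∈ Ioc a b, r t 0 = 0
  zero1 : ∀ t ∈ Ioc a b, r t 1 = 0
  weak : ∀ t₁ t₂, a < t₁ → t₁ ≤ t₂ → t₂ ≤ b → ∀ φ φ', IsTest φ φ' →
    (∫ x in (0 : ℝ)..1, r t₂ x * φ x) - (∫ x in (0 : ℝ)..1, r t₁ x * φ x) =
      ∫ t in t₁..t₂, ∫ x in (0 : ℝ)..1, (f (B t x + r t x) - g t x) * φ' x
  init : Tendsto (fun t => ∫ x in (0 : ℝ)..1, (r t x - r0 x) ^ 2) (𝓝[>] a) (𝓝 0)
  mild : ∀ t ∈ Ioc a b, ∀ m κ : ℝ → ℝ,
    (∀ s ∈ Ioo a t, ∀ x ∈ Icc (0 : ℝ) 1, |f (B s x + r s x) - κ s| ≤ m s) →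
    IntervalIntegrable (fun s => (t - s) ^ (-(1 / 2) : ℝ) * m s) volume a t →
    ∀ x ∈ Icc (0 : ℝ) 1, |r t x - heat (t - a) r0 x| ≤ ∫ s in a..t, (t - s) ^ (-(1 / 2) : ℝ) * m s

/-- The flux `|s|^(γ-1) s`. -/
def flux (γ s : ℝ) : ℝ := |s| ^ (γ - 1) * s

/-- Derivative of the truncated flux. -/
def dflux (γ M s : ℝ) : ℝ := γ * (min |s| M) ^ (γ - 1)

/-- Truncated flux: equal to `flux γ` on `[-M,M]`, affine outside. -/
def fluxT (γ M s : ℝ) : ℝ := ∫ t in (0 : ℝ)..s, dflux γ M t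

/-- The lifting used in the first phase: a spatially uniform oscillation plus the Stokes layer
at `x = 1`; it solves the heat equation with the uniform source `2 A κ² cos (2 κ² t)`. -/
def stokes (A κ t x : ℝ) : ℝ :=
  A * Real.sin (2 * κ ^ 2 * t) -
    A * (Real.exp (-(κ * (1 - x))) * Real.sin (2 * κ ^ 2 * t - κ * (1 - x)))

end Pool.Agent.Burg
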