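import Pool.Agent.Helper46_Burg.Duh
import Pool.Agent.Helper46_Burg.Tools

/-!
Module DENS: density of cosine sums, completeness of the sines, the weak formulation from the
coefficient formula, decay of the heat flow of data without low frequencies.
-/

set_option autoImplicit false

open MeasureTheory Set Filter Topology
open scoped Real ENNReal

noncomputable section

namespace Pool.Agent.Burg

/-- the span of the cosines -/
def cosSpan : Submodule ℝ (ℝ → ℝ) :=
  Submodule.span ℝ (range fun (j : ℕ) (x : ℝ) => Real.cos (j * π * x))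

theorem cos_mem (j : ℕ) : (fun x : ℝ => Real.cos (j * π * x)) ∈ cosSpan :=
  Submodule.subset_span ⟨j, rfl⟩

theorem mul_cos_mem {f : ℝ → ℝ} (hf : f ∈ cosSpan) :
    (fun x => f x * Real.cos (π * x)) ∈ cosSpan := by
  unfold cosSpan at hf
  induction hf using Submodule.span_induction with
  | mem x hx =>
    obtain ⟨j, rfl⟩ := hx
    rcases j with _ | j
    · convert cos_mem 1 using 1
      ext x; simp
    · have h : (fun x : ℝ => Real.cos ((j + 1 : ℕ) * π * x) * Real.cos (π * x)) =
          (1 / 2 : ℝ) • (fun x : ℝ => Real.cos ((j + 2 : ℕ) * π * x)) +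
          (1 / 2 : ℝ) • (fun x : ℝ => Real.cos (j * π * x)) := by
        ext x
        simp only [Pi.add_apply, Pi.smul_apply, smul_eq_mul]
        have e1 : ((j + 2 : ℕ) : ℝ) * π * x = ((j + 1 : ℕ) : ℝ) * π * x + π * x := by
          push_cast; ring
        have e2 : (j : ℝ) * π * x = ((j + 1 : ℕ) : ℝ) * π * x - π * x := by
          push_cast; ring
        rw [e1, e2, Real.cos_add, Real.cos_sub]
        ring
      show (fun x : ℝ => Real.cos ((j + 1 : ℕ) * π * x) * Real.cos (π * x)) ∈ cosSpan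
      rw [h]
      exact cosSpan.add_mem (cosSpan.smul_mem _ (cos_mem _)) (cosSpan.smul_mem _ (cos_mem _))
  | zero =>
    convert cosSpan.zero_mem using 1
    ext x; simp
  | add x y _ _ hx hy =>
    convert cosSpan.add_mem hx hy using 1
    ext t; simp [add_mul]
  | smul a x _ hx =>
    convert cosSpan.smul_mem a hx using 1
    ext t; simp [mul_assoc]

theorem poly_cos_mem (p : Polynomial ℝ) : (fun x => p.eval (Real.cos (π * x))) ∈ cosSpan := by
  induction p using Polynomial.induction_on' with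
  | add p q hp hq =>
    convert cosSpan.add_mem hp hq using 1
    ext t; simp
  | monomial n a =>
    have h : ∀ n : ℕ, (fun x : ℝ => Real.cos (π * x) ^ n) ∈ cosSpan := by
      intro n
      induction n with
      | zero =>
        convert cos_mem 0 using 1
        ext x; simp
      | succ n ih =>
        convert mul_cos_mem ih using 1
        ext x; rw [pow_succ]
    convert cosSpan.smul_mem a (h n) using 1
    ext t; simp

theorem cosSpan_sum {f : ℝ → ℝ} (hf : f ∈ cosSpan) : ∃ (n : ℕ) (a : ℕ → ℝ), ∀ x,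
    f x = ∑ j ∈ Finset.range n, a j * Real.cos (j * π * x) := by
  obtain ⟨c, hc⟩ := Finsupp.mem_span_range_iff_exists_finsupp.mp hf
  obtain ⟨n, hn⟩ := c.support.exists_nat_subset_range
  refine ⟨n, c, fun x => ?_⟩
  rw [← hc, Finsupp.sum, Finset.sum_apply]
  simp only [Pi.smul_apply, smul_eq_mul]
  apply Finset.sum_subset hn
  intro j _ hj
  rw [Finsupp.notMem_support_iff.mp hj, zero_mul]

theorem exists_cos_approx {ψ : ℝ → ℝ} (hψ : ContinuousOn ψ (Icc 0 1)) {ε : ℝ} (hε : 0 < ε) :
    ∃ (n : ℕ) (a : ℕ → ℝ), ∀ x ∈ Icc (0 : ℝ) 1,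
      |ψ x - ∑ j ∈ Finset.range n, a j * Real.cos (j * π * x)| ≤ ε := by
  have hc : ContinuousOn (fun y => ψ (Real.arccos y / π)) (Icc (-1) 1) := by
    apply hψ.comp (Real.continuous_arccos.div_const π).continuousOn
    intro y _
    constructor
    · have := Real.arccos_nonneg y; positivity
    · rw [div_le_one Real.pi_pos]; exact Real.arccos_le_pi y
  obtain ⟨p, hp⟩ := exists_polynomial_near_of_continuousOn (-1) 1 _ hc ε hε
  obtain ⟨n, a, ha⟩ := cosSpan_sum (poly_cos_mem p)
  refine ⟨n, a, fun x hx => ?_⟩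
  have h1 := hp (Real.cos (π * x)) ⟨Real.neg_one_le_cos _, Real.cos_le_one _⟩
  rw [← ha x, abs_sub_comm]
  have h2 : Real.arccos (Real.cos (π * x)) / π = x := by
    rw [Real.arccos_cos (by have := hx.1; have := Real.pi_pos; positivity)
      (by have := hx.2; have := Real.pi_pos; nlinarith)]
    field_simp
  simp only [h2] at h1
  exact h1.le

/-- Test pairs are approximated by finite sine sums, together with the derivative. -/
theorem exists_sin_approx {φ φ' : ℝ → ℝ} (h : IsTest φ φ') {ε : ℝ} (hε : 0 < ε) :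
    ∃ (n : ℕ) (a : ℕ → ℝ), ∀ x ∈ Icc (0 : ℝ) 1,
      |φ x - ∑ j ∈ Finset.range n, a j * Real.sin (j * π * x)| ≤ ε ∧
      |φ' x - ∑ j ∈ Finset.range n, a j * (j * π * Real.cos (j * π * x))| ≤ ε := by
  obtain ⟨n, b, hb⟩ := exists_cos_approx h.cont (half_pos hε)
  -- the coefficients
  set a : ℕ → ℝ := fun j => b j / (j * π) with ha
  have hab : ∀ j : ℕ, j ≠ 0 → a j * (j * π) = b j := by
    intro j hj
    have : (j : ℝ) ≠ 0 := by exact_mod_cast hj
    have := Real.pi_ne_zero
    simp only [ha]; field_simp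
  set b0 : ℝ := if n = 0 then 0 else b 0 with hb0
  have hsum : ∀ x, ∑ j ∈ Finset.range n, b j * Real.cos (j * π * x) =
      b0 + ∑ j ∈ Finset.range n, a j * (j * π * Real.cos (j * π * x)) := by
    intro x
    rcases n with _ | n
    · simp [hb0]
    · rw [Finset.sum_range_succ', Finset.sum_range_succ' (fun j => a j * _)]
      simp only [hb0, Nat.add_eq_zero_iff, one_ne_zero, and_false, if_false, Nat.cast_zero,
        zero_mul, Real.cos_zero, mul_one, mul_zero, add_zero]
      rw [add_comm]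
      congr 1
      refine Finset.sum_congr rfl fun j _ => ?_
      rw [← mul_assoc, hab _ (Nat.succ_ne_zero j)]
  have hder : ∀ x, HasDerivAt (fun x => ∑ j ∈ Finset.range n, a j * Real.sin (j * π * x))
      (∑ j ∈ Finset.range n, a j * (j * π * Real.cos (j * π * x))) x := by
    intro x
    apply HasDerivAt.fun_sum
    intro j _
    have h1 : HasDerivAt (fun x : ℝ => (j : ℝ) * π * x) (j * π) x := by
      simpa using (hasDerivAt_id x).const_mul ((j : ℝ) * π)
    have h2 := (h1.sin).const_mul (a j)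
    exact h2.congr_deriv (by ring)
  -- mean value bound
  have key : ∀ (c : ℝ) (δ : ℝ), (∀ x ∈ Icc (0 : ℝ) 1, |φ' x -
      (c + ∑ j ∈ Finset.range n, a j * (j * π * Real.cos (j * π * x)))| ≤ δ) → 0 ≤ δ →
      ∀ x ∈ Icc (0 : ℝ) 1,
        |φ x - (c * x + ∑ j ∈ Finset.range n, a j * Real.sin (j * π * x))| ≤ δ := by
    intro c δ hδ hδ0 x hx
    have hd : ∀ y ∈ Icc (0 : ℝ) 1, HasDerivWithinAt
        (fun x => φ x - (c * x + ∑ j ∈ Finset.range n, a j * Real.sin (j * π * x)))
        (φ' y - (c + ∑ j ∈ Finset.range n, a j * (j * π * Real.cos (j * π * y)))) (Icc 0 1) y := by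
      intro y hy
      refine (h.der y hy).sub (HasDerivWithinAt.add ?_ (hder y).hasDerivWithinAt)
      simpa using ((hasDerivAt_id y).const_mul c).hasDerivWithinAt
    have := Convex.norm_image_sub_le_of_norm_hasDerivWithin_le hd (fun y hy => hδ y hy)
      (convex_Icc (0 : ℝ) 1) (left_mem_Icc.mpr zero_le_one) hx
    simp only [h.zero0, mul_zero, Real.sin_zero, Finset.sum_const_zero, add_zero, sub_zero,
      Real.norm_eq_abs] at this
    refine this.trans ?_
    rw [abs_of_nonneg hx.1]
    nlinarith [hx.2]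
  have hb' : ∀ x ∈ Icc (0 : ℝ) 1, |φ' x -
      (b0 + ∑ j ∈ Finset.range n, a j * (j * π * Real.cos (j * π * x)))| ≤ ε / 2 := by
    intro x hx; rw [← hsum]; exact hb x hx
  have hb0' : |b0| ≤ ε / 2 := by
    have := key b0 (ε / 2) hb' (by linarith) 1 (right_mem_Icc.mpr zero_le_one)
    simpa [h.zero1, Real.sin_nat_mul_pi] using this
  have hc : ∀ x ∈ Icc (0 : ℝ) 1,
      |φ' x - ∑ j ∈ Finset.range n, a j * (j * π * Real.cos (j * π * x))| ≤ ε := by
    intro x hx
    have h1 := hb' x hx
    calc |φ' x - ∑ j ∈ Finset.range n, a j * (j * π * Real.cos (j * π * x))|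
        = |(φ' x - (b0 + ∑ j ∈ Finset.range n, a j * (j * π * Real.cos (j * π * x)))) + b0| := by
          congr 1; ring
      _ ≤ _ := abs_add_le _ _
      _ ≤ ε := by linarith
  refine ⟨n, a, fun x hx => ⟨?_, hc x hx⟩⟩
  have := key 0 ε (by simpa using hc) hε.le x hx
  simpa using this

theorem integral_mul_sub {h f g : ℝ → ℝ} (hh : ContinuousOn h (Icc 0 1))
    (hf : ContinuousOn f (Icc 0 1)) (hg : ContinuousOn g (Icc 0 1)) :
    ∫ x in (0 : ℝ)..1, h x * (f x - g x) =
      (∫ x in (0 : ℝ)..1, h x * f x) - ∫ x in (0 : ℝ)..1, h x * g x := by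
  have u01 : uIcc (0 : ℝ) 1 = Icc 0 1 := uIcc_of_le zero_le_one
  rw [← intervalIntegral.integral_sub (f := fun x => h x * f x) (g := fun x => h x * g x)]
  · refine intervalIntegral.integral_congr fun x _ => ?_
    ring
  · exact ContinuousOn.intervalIntegrable (by rw [u01]; exact hh.mul hf)
  · exact ContinuousOn.intervalIntegrable (by rw [u01]; exact hh.mul hg)

theorem eq_zero_of_sin_coeff {h : ℝ → ℝ} (hc : ContinuousOn h (Icc 0 1))
    (hs : ∀ j : ℕ, ∫ x in (0 : ℝ)..1, h x * Real.sin (j * π * x) = 0) :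
    ∀ x ∈ Icc (0 : ℝ) 1, h x = 0 := by
  have u01 : uIcc (0 : ℝ) 1 = Icc 0 1 := uIcc_of_le zero_le_one
  have hi : ∀ {f : ℝ → ℝ}, ContinuousOn f (Icc 0 1) → IntervalIntegrable f volume 0 1 := by
    intro f hf; exact ContinuousOn.intervalIntegrable (by rwa [u01])
  obtain ⟨K, hK⟩ := isCompact_Icc.exists_bound_of_continuousOn hc
  have hK0 : 0 ≤ K := (norm_nonneg _).trans (hK 0 (left_mem_Icc.mpr zero_le_one))
  -- orthogonality to all test functions
  have ht : ∀ φ φ', IsTest φ φ' → ∫ x in (0 : ℝ)..1, h x * φ x = 0 := by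
    intro φ φ' hφ
    have hφc : ContinuousOn φ (Icc 0 1) := fun x hx => (hφ.der x hx).continuousWithinAt
    by_contra hne
    have hpos : 0 < |∫ x in (0 : ℝ)..1, h x * φ x| := abs_pos.mpr hne
    obtain ⟨ε, hε, hε2⟩ : ∃ ε : ℝ, 0 < ε ∧ K * ε < |∫ x in (0 : ℝ)..1, h x * φ x| := by
      refine ⟨|∫ x in (0 : ℝ)..1, h x * φ x| / (2 * (K + 1)), by positivity, ?_⟩
      rw [mul_div_assoc', div_lt_iff₀ (by positivity)]
      nlinarith
    obtain ⟨n, a, hna⟩ := exists_sin_approx hφ hε
    have hsc : Continuous fun x : ℝ => ∑ j ∈ Finset.range n, a j * Real.sin (j * π * x) := by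
      fun_prop
    have h0 : ∫ x in (0 : ℝ)..1, h x * ∑ j ∈ Finset.range n, a j * Real.sin (j * π * x) = 0 := by
      have : ∀ x, h x * ∑ j ∈ Finset.range n, a j * Real.sin (j * π * x) =
          ∑ j ∈ Finset.range n, a j * (h x * Real.sin (j * π * x)) := by
        intro x; rw [Finset.mul_sum]; refine Finset.sum_congr rfl fun j _ => ?_; ring
      simp_rw [this]
      rw [intervalIntegral.integral_finsetSum]
      · refine Finset.sum_eq_zero fun j _ => ?_
        rw [intervalIntegral.integral_const_mul, hs, mul_zero]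
      · intro j _
        refine (hi (hc.mul ?_)).const_mul _
        exact (by fun_prop : Continuous fun x : ℝ => Real.sin (j * π * x)).continuousOn
    have h1 : ∫ x in (0 : ℝ)..1, h x * φ x = ∫ x in (0 : ℝ)..1,
        h x * (φ x - ∑ j ∈ Finset.range n, a j * Real.sin (j * π * x)) := by
      rw [integral_mul_sub hc hφc hsc.continuousOn, h0, sub_zero]
    have h2 : |∫ x in (0 : ℝ)..1,
        h x * (φ x - ∑ j ∈ Finset.range n, a j * Real.sin (j * π * x))| ≤ K * ε := by
      have := intervalIntegral.norm_integral_le_of_norm_le_const (a := 0) (b := 1) (C := K * ε)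
        (f := fun x => h x * (φ x - ∑ j ∈ Finset.range n, a j * Real.sin (j * π * x))) (by
          intro x hx
          rw [uIoc_of_le zero_le_one] at hx
          have hx' : x ∈ Icc (0 : ℝ) 1 := Ioc_subset_Icc_self hx
          rw [norm_mul]
          exact mul_le_mul (hK x hx') (hna x hx').1 (norm_nonneg _) hK0)
      simpa using this
    rw [h1] at hε2
    linarith
  -- polynomials times the weight
  have hp : ∀ p : Polynomial ℝ, ∫ x in (0 : ℝ)..1, h x * (x * (1 - x) * p.eval x) = 0 := by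
    intro p
    refine ht _ (fun x => (1 - 2 * x) * p.eval x + x * (1 - x) * p.derivative.eval x)
      ⟨fun x _ => ?_, ?_, by simp, by simp⟩
    · have h1 : HasDerivAt (fun x : ℝ => x * (1 - x)) (1 - 2 * x) x := by
        have := (hasDerivAt_id x).mul ((hasDerivAt_id x).const_sub 1)
        exact this.congr_deriv (by simp only [id]; ring)
      exact (h1.mul (p.hasDerivAt x)).hasDerivWithinAt
    · exact (by fun_prop : Continuous fun x : ℝ => (1 - 2 * x) * p.eval x +
        x * (1 - x) * p.derivative.eval x).continuousOn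
  set g : ℝ → ℝ := fun x => h x * (x * (1 - x)) with hg
  have hgc : ContinuousOn g (Icc 0 1) :=
    hc.mul (by fun_prop : Continuous fun x : ℝ => x * (1 - x)).continuousOn
  obtain ⟨G, hG⟩ := isCompact_Icc.exists_bound_of_continuousOn hgc
  have hG0 : 0 ≤ G := (norm_nonneg _).trans (hG 0 (left_mem_Icc.mpr zero_le_one))
  have hg2 : ∫ x in (0 : ℝ)..1, g x * g x = 0 := by
    by_contra hne
    have hpos : 0 < |∫ x in (0 : ℝ)..1, g x * g x| := abs_pos.mpr hne
    obtain ⟨ε, hε, hε2⟩ : ∃ ε : ℝ, 0 < ε ∧ G * ε < |∫ x in (0 : ℝ)..1, g x * g x| := by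
      refine ⟨|∫ x in (0 : ℝ)..1, g x * g x| / (2 * (G + 1)), by positivity, ?_⟩
      rw [mul_div_assoc', div_lt_iff₀ (by positivity)]
      nlinarith
    obtain ⟨p, hpp⟩ := exists_polynomial_near_of_continuousOn 0 1 g hgc ε hε
    have h0 : ∫ x in (0 : ℝ)..1, g x * p.eval x = 0 := by
      refine (intervalIntegral.integral_congr fun x _ => ?_).trans (hp p)
      simp only [hg]; ring
    have h1 : ∫ x in (0 : ℝ)..1, g x * g x = ∫ x in (0 : ℝ)..1, g x * (g x - p.eval x) := by
      rw [integral_mul_sub hgc hgc p.continuous.continuousOn, h0, sub_zero]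
    have h2 : |∫ x in (0 : ℝ)..1, g x * (g x - p.eval x)| ≤ G * ε := by
      have := intervalIntegral.norm_integral_le_of_norm_le_const (a := 0) (b := 1) (C := G * ε)
        (f := fun x => g x * (g x - p.eval x)) (by
          intro x hx
          rw [uIoc_of_le zero_le_one] at hx
          have hx' : x ∈ Icc (0 : ℝ) 1 := Ioc_subset_Icc_self hx
          rw [norm_mul]
          refine mul_le_mul (hG x hx') ?_ (norm_nonneg _) hG0
          rw [norm_sub_rev]
          exact (hpp x hx').le)
      simpa using this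
    rw [h1] at hε2
    linarith
  have hg0 : ∀ x ∈ Icc (0 : ℝ) 1, g x = 0 := by
    rw [intervalIntegral.integral_of_le zero_le_one, ← integral_Icc_eq_integral_Ioc] at hg2
    have hgi : IntegrableOn (fun x => g x * g x) (Icc 0 1) :=
      (hgc.mul hgc).integrableOn_compact isCompact_Icc
    have h1 : (fun x => g x * g x) =ᵐ[volume.restrict (Icc 0 1)] 0 :=
      (integral_eq_zero_iff_of_nonneg (fun x => mul_self_nonneg _) hgi).mp hg2
    have h2 : g =ᵐ[volume.restrict (Icc 0 1)] 0 := by
      filter_upwards [h1] with x hx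
      exact mul_self_eq_zero.mp hx
    exact Measure.eqOn_Icc_of_ae_eq volume zero_ne_one h2 hgc continuousOn_const
  have hh : EqOn h (fun _ => 0) (Ioo 0 1) := by
    intro x hx
    have := hg0 x (Ioo_subset_Icc_self hx)
    simp only [hg, mul_eq_zero] at this
    rcases this with h1 | h1 | h1
    · exact h1
    · exact absurd h1 hx.1.ne'
    · exact absurd h1 (by have := hx.2; linarith [hx.2] : (1 - x) ≠ 0)
  have hcl : Icc (0 : ℝ) 1 ⊆ closure (Ioo 0 1) := by rw [closure_Ioo zero_ne_one]
  have := hh.of_subset_closure hc continuousOn_const Ioo_subset_Icc_self hcl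
  exact fun x hx => this hx

/-- The weak formulation for one sine. -/
theorem weak_sin {T : ℝ} {r g F : ℝ → ℝ → ℝ} {M N : ℝ} (hr : Adm T r M) (hF : Adm T F N)
    (hg : ContinuousOn (Function.uncurry g) (Ioc 0 T ×ˢ Icc 0 1))
    (hd : ∀ t ∈ Ioc 0 T, ∀ x ∈ Icc (0 : ℝ) 1, HasDerivWithinAt (r t) (g t x) (Icc 0 1) x)
    (h0 : ∀ t ∈ Ioc 0 T, r t 0 = 0) (h1 : ∀ t ∈ Ioc 0 T, r t 1 = 0) (c : ℝ) (j : ℕ)
    (hcoeff : ∀ t ∈ Ioc 0 T, ∫ x in (0 : ℝ)..1, r t x * Real.sin (j * π * x) =
      Real.exp (-(π ^ 2 * j ^ 2 * t)) * c +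
        (j * π) * ∫ s in (0 : ℝ)..t, Real.exp (-(π ^ 2 * j ^ 2 * (t - s))) *
          ∫ x in (0 : ℝ)..1, F s x * Real.cos (j * π * x))
    {t₁ t₂ : ℝ} (ht₁ : 0 < t₁) (h12 : t₁ ≤ t₂) (ht₂ : t₂ ≤ T) :
    (∫ x in (0 : ℝ)..1, r t₂ x * Real.sin (j * π * x)) -
        (∫ x in (0 : ℝ)..1, r t₁ x * Real.sin (j * π * x)) =
      ∫ t in t₁..t₂, ∫ x in (0 : ℝ)..1, (F t x - g t x) * (j * π * Real.cos (j * π * x)) := by
  have u01 : uIcc (0 : ℝ) 1 = Icc 0 1 := uIcc_of_le zero_le_one
  set lam : ℝ := π ^ 2 * j ^ 2 with hlam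
  set G : ℝ → ℝ := fun s => ∫ x in (0 : ℝ)..1, F s x * Real.cos (j * π * x) with hG
  have hGc : ContinuousOn G (Ioc 0 T) := by
    apply continuousOn_slice_Ioc (H := fun s x => F s x * Real.cos (j * π * x))
    have hcos : ContinuousOn (fun p : ℝ × ℝ => Real.cos (j * π * p.2)) (Ioc 0 T ×ˢ Icc 0 1) :=
      (by fun_prop : Continuous fun p : ℝ × ℝ => Real.cos (j * π * p.2)).continuousOn
    exact hF.cont.mul hcos
  have hGb : ∀ s ∈ Ioc 0 T, |G s| ≤ N := by
    intro s hs
    have := intervalIntegral.norm_integral_le_of_norm_le_const (a := 0) (b := 1) (C := N)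
      (f := fun x => F s x * Real.cos (j * π * x)) (by
        intro x hx
        rw [uIoc_of_le zero_le_one] at hx
        have h2 := hF.bd s hs x (Ioc_subset_Icc_self hx)
        rw [norm_mul]
        calc ‖F s x‖ * ‖Real.cos (j * π * x)‖ ≤ N * 1 :=
              mul_le_mul h2 (Real.abs_cos_le_one _) (norm_nonneg _) ((abs_nonneg _).trans h2)
          _ = N := mul_one N)
    simpa using this
  -- the function with the exponential factor removed
  set E : ℝ → ℝ := fun s => Real.exp (lam * s) * G s with hE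
  have hEc : ContinuousOn E (Ioc 0 T) :=
    (by fun_prop : Continuous fun s : ℝ => Real.exp (lam * s)).continuousOn.mul hGc
  have hEi : ∀ t ∈ Ioc 0 T, IntegrableOn E (Ioc 0 t) := by
    intro t ht
    have hsub : Ioc 0 t ⊆ Ioc 0 T := Ioc_subset_Ioc_right ht.2
    refine Integrable.mono' (g := fun _ => Real.exp (|lam| * T) * N)
      (integrableOn_const (by simp)) ?_ ?_
    · exact (hEc.mono hsub).aestronglyMeasurable measurableSet_Ioc
    · refine (ae_restrict_iff' measurableSet_Ioc).mpr (Filter.Eventually.of_forall fun s hs => ?_)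
      have hs' := hsub hs
      simp only [hE, norm_mul]
      have h3 : ‖Real.exp (lam * s)‖ ≤ Real.exp (|lam| * T) := by
        rw [Real.norm_of_nonneg (Real.exp_pos _).le]
        apply Real.exp_le_exp.mpr
        calc lam * s ≤ |lam| * s := mul_le_mul_of_nonneg_right (le_abs_self _) hs'.1.le
          _ ≤ |lam| * T := mul_le_mul_of_nonneg_left hs'.2 (abs_nonneg _)
      exact mul_le_mul h3 (hGb s hs') (norm_nonneg _) (Real.exp_pos _).le
  set C : ℝ → ℝ := fun t => ∫ x in (0 : ℝ)..1, r t x * Real.sin (j * π * x) with hC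
  set P : ℝ → ℝ := fun t => Real.exp (-(lam * t)) * (c + (j * π) * ∫ s in (0 : ℝ)..t, E s) with hP
  have hC1 : ∀ t ∈ Ioc 0 T, C t = P t := by
    intro t ht
    simp only [hC, hP]
    rw [hcoeff t ht, mul_add]
    congr 1
    have h : ∫ s in (0 : ℝ)..t, Real.exp (-(lam * (t - s))) * G s =
        Real.exp (-(lam * t)) * ∫ s in (0 : ℝ)..t, E s := by
      rw [← intervalIntegral.integral_const_mul]
      refine intervalIntegral.integral_congr fun s _ => ?_
      simp only [hE]
      rw [← mul_assoc, ← Real.exp_add]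
      congr 2; ring
    rw [h]; ring
  -- integration by parts
  have hparts : ∀ t ∈ Ioc 0 T, ∫ x in (0 : ℝ)..1, g t x * Real.cos (j * π * x) =
      (j * π) * C t := by
    intro t ht
    have hgt : ContinuousOn (g t) (Icc 0 1) := continuousOn_row hg ht
    have hrt : ContinuousOn (r t) (Icc 0 1) := hr.slice ht
    have c1 : ContinuousOn (fun x : ℝ => Real.cos (j * π * x)) (Icc 0 1) :=
      (by fun_prop : Continuous fun x : ℝ => Real.cos (j * π * x)).continuousOn
    have c2 : ContinuousOn (fun x : ℝ => Real.sin (j * π * x)) (Icc 0 1) :=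
      (by fun_prop : Continuous fun x : ℝ => Real.sin (j * π * x)).continuousOn
    have hint1 : IntervalIntegrable (fun x => g t x * Real.cos (j * π * x)) volume 0 1 :=
      ContinuousOn.intervalIntegrable (by rw [u01]; exact hgt.mul c1)
    have hint2 : IntervalIntegrable (fun x => (j * π) * (r t x * Real.sin (j * π * x))) volume 0 1 :=
      ContinuousOn.intervalIntegrable (by rw [u01]; exact continuousOn_const.mul (hrt.mul c2))
    have hftc := intervalIntegral.integral_eq_sub_of_hasDerivAt_of_le (a := 0) (b := 1)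
      zero_le_one (f := fun x => r t x * Real.cos (j * π * x))
      (f' := fun x => g t x * Real.cos (j * π * x) - (j * π) * (r t x * Real.sin (j * π * x)))
      (hrt.mul c1) (fun x hx => by
        have a1 : HasDerivAt (r t) (g t x) x :=
          (hd t ht x (Ioo_subset_Icc_self hx)).hasDerivAt (Icc_mem_nhds hx.1 hx.2)
        have a2 : HasDerivAt (fun x : ℝ => (j : ℝ) * π * x) (j * π) x := by
          simpa using (hasDerivAt_id x).const_mul ((j : ℝ) * π)
        have a3 := a1.mul a2.cos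
        exact a3.congr_deriv (by ring)) (hint1.sub hint2)
    rw [intervalIntegral.integral_sub hint1 hint2, intervalIntegral.integral_const_mul] at hftc
    simp only [h0 t ht, h1 t ht, zero_mul, sub_zero] at hftc
    linarith
  have hslice : ∀ t ∈ Ioc 0 T, ∫ x in (0 : ℝ)..1, (F t x - g t x) * (j * π * Real.cos (j * π * x)) =
      (j * π) * G t - lam * C t := by
    intro t ht
    have hgt : ContinuousOn (g t) (Icc 0 1) := continuousOn_row hg ht
    have hft : ContinuousOn (F t) (Icc 0 1) := hF.slice ht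
    have c1 : ContinuousOn (fun x : ℝ => (j * π) * Real.cos (j * π * x)) (Icc 0 1) :=
      (by fun_prop : Continuous fun x : ℝ => (j * π) * Real.cos (j * π * x)).continuousOn
    have e1 := integral_mul_sub c1 hft hgt
    have e2 : ∫ x in (0 : ℝ)..1, (F t x - g t x) * (j * π * Real.cos (j * π * x)) =
        ∫ x in (0 : ℝ)..1, (j * π * Real.cos (j * π * x)) * (F t x - g t x) := by
      refine intervalIntegral.integral_congr fun x _ => ?_
      ring
    have e3 : ∀ f : ℝ → ℝ, ∫ x in (0 : ℝ)..1, (j * π * Real.cos (j * π * x)) * f x =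
        (j * π) * ∫ x in (0 : ℝ)..1, f x * Real.cos (j * π * x) := by
      intro f
      rw [← intervalIntegral.integral_const_mul]
      refine intervalIntegral.integral_congr fun x _ => ?_
      ring
    rw [e2, e1, e3, e3, hparts t ht]
    simp only [hG, hlam]
    ring
  have hsubIcc : Icc t₁ t₂ ⊆ Ioc 0 T := fun t ht => ⟨ht₁.trans_le ht.1, ht.2.trans ht₂⟩
  have hT : 0 < T := ht₁.trans_le (h12.trans ht₂)
  have hEiT : IntegrableOn E (uIcc 0 T) := by
    rw [uIcc_of_le hT.le, integrableOn_Icc_iff_integrableOn_Ioc]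
    exact hEi T ⟨hT, le_rfl⟩
  have hPc : ContinuousOn P (Icc t₁ t₂) := by
    have h2 := (intervalIntegral.continuousOn_primitive_interval hEiT).mono
      (s := uIcc 0 T) (t := Icc t₁ t₂) (by
        rw [uIcc_of_le hT.le]; exact fun t ht => Ioc_subset_Icc_self (hsubIcc ht))
    exact (by fun_prop : Continuous fun t : ℝ => Real.exp (-(lam * t))).continuousOn.mul
      (continuousOn_const.add (continuousOn_const.mul h2))
  have hPd : ∀ t ∈ Ioo t₁ t₂, HasDerivAt P ((j * π) * G t - lam * P t) t := by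
    intro t ht
    have htT : t ∈ Ioo 0 T := ⟨ht₁.trans ht.1, ht.2.trans_le ht₂⟩
    have hopen : ContinuousOn E (Ioo 0 T) := hEc.mono Ioo_subset_Ioc_self
    have b1 : HasDerivAt (fun u => ∫ s in (0 : ℝ)..u, E s) (E t) t := by
      apply intervalIntegral.integral_hasDerivAt_right
      · exact (intervalIntegrable_iff_integrableOn_Ioc_of_le htT.1.le).mpr
          (hEi t ⟨htT.1, htT.2.le⟩)
      · exact hopen.stronglyMeasurableAtFilter isOpen_Ioo t htT
      · exact hopen.continuousAt (isOpen_Ioo.mem_nhds htT)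
    have b2 : HasDerivAt (fun u : ℝ => Real.exp (-(lam * u))) (Real.exp (-(lam * t)) * (-lam)) t := by
      have := ((hasDerivAt_id t).const_mul lam).neg.exp
      simpa using this
    have b3 := b2.mul ((b1.const_mul (j * π)).const_add c)
    refine b3.congr_deriv ?_
    simp only [hP, hE]
    have : Real.exp (-(lam * t)) * Real.exp (lam * t) = 1 := by
      rw [← Real.exp_add]; simp
    linear_combination ((j : ℝ) * π * G t) * this
  have hGc' : ContinuousOn G (Icc t₁ t₂) := hGc.mono hsubIcc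
  have hint : IntervalIntegrable (fun t => (j * π) * G t - lam * P t) volume t₁ t₂ :=
    ContinuousOn.intervalIntegrable (by
      rw [uIcc_of_le h12]
      exact (continuousOn_const.mul hGc').sub (continuousOn_const.mul hPc))
  have hfin := intervalIntegral.integral_eq_sub_of_hasDerivAt_of_le h12 hPc hPd hint
  show C t₂ - C t₁ = _
  rw [hC1 t₂ (hsubIcc (right_mem_Icc.mpr h12)), hC1 t₁ (hsubIcc (left_mem_Icc.mpr h12)), ← hfin]
  refine intervalIntegral.integral_congr fun t ht => ?_
  rw [uIcc_of_le h12] at ht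
  rw [hslice t (hsubIcc ht), hC1 t (hsubIcc ht)]

/-- Weak formulation from the coefficient formula. -/
theorem weak_of_coeff {T : ℝ} {r g F : ℝ → ℝ → ℝ} {M N : ℝ} (hr : Adm T r M) (hF : Adm T F N)
    (hg : ContinuousOn (Function.uncurry g) (Ioc 0 T ×ˢ Icc 0 1))
    (hd : ∀ t ∈ Ioc 0 T, ∀ x ∈ Icc (0 : ℝ) 1, HasDerivWithinAt (r t) (g t x) (Icc 0 1) x)
    (h0 : ∀ t ∈ Ioc 0 T, r t 0 = 0) (h1 : ∀ t ∈ Ioc 0 T, r t 1 = 0) (c : ℕ → ℝ)
    (hcoeff : ∀ j : ℕ, ∀ t ∈ Ioc 0 T, ∫ x in (0 : ℝ)..1, r t x * Real.sin (j * π * x) =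
      Real.exp (-(π ^ 2 * j ^ 2 * t)) * c j +
        (j * π) * ∫ s in (0 : ℝ)..t, Real.exp (-(π ^ 2 * j ^ 2 * (t - s))) *
          ∫ x in (0 : ℝ)..1, F s x * Real.cos (j * π * x))
    {t₁ t₂ : ℝ} (ht₁ : 0 < t₁) (h12 : t₁ ≤ t₂) (ht₂ : t₂ ≤ T) {φ φ' : ℝ → ℝ}
    (hφ : IsTest φ φ') :
    (∫ x in (0 : ℝ)..1, r t₂ x * φ x) - (∫ x in (0 : ℝ)..1, r t₁ x * φ x) =
      ∫ t in t₁..t₂, ∫ x in (0 : ℝ)..1, (F t x - g t x) * φ' x := by
  have u01 : uIcc (0 : ℝ) 1 = Icc 0 1 := uIcc_of_le zero_le_one
  have hsub : Icc t₁ t₂ ⊆ Ioc 0 T := fun t ht => ⟨ht₁.trans_le ht.1, ht.2.trans ht₂⟩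
  have hφc : ContinuousOn φ (Icc 0 1) := fun x hx => (hφ.der x hx).continuousWithinAt
  set H : ℝ → ℝ → ℝ := fun t x => F t x - g t x with hH
  have hHc : ContinuousOn (Function.uncurry H) (Icc t₁ t₂ ×ˢ Icc 0 1) :=
    (hF.cont.sub hg).mono (prod_mono_left hsub)
  obtain ⟨K, hK⟩ := exists_bound_Icc hHc
  have hK0 : 0 ≤ K := (abs_nonneg _).trans
    (hK t₁ (left_mem_Icc.mpr h12) 0 (left_mem_Icc.mpr zero_le_one))
  have hM0 : 0 ≤ M := (abs_nonneg _).trans
    (hr.bd t₁ (hsub (left_mem_Icc.mpr h12)) 0 (left_mem_Icc.mpr zero_le_one))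
  -- slices
  have hHs : ∀ t ∈ Icc t₁ t₂, ContinuousOn (H t) (Icc 0 1) := fun t ht => continuousOn_row hHc ht
  have hsl : ∀ u : ℝ → ℝ, ContinuousOn u (Icc 0 1) →
      ContinuousOn (fun t => ∫ x in (0 : ℝ)..1, H t x * u x) (Icc t₁ t₂) := by
    intro u hu
    apply continuousOn_slice_Icc (H := fun t x => H t x * u x)
    exact hHc.mul (hu.comp continuous_snd.continuousOn (fun p hp => hp.2))
  have hint : ∀ u : ℝ → ℝ, ContinuousOn u (Icc 0 1) →
      IntervalIntegrable (fun t => ∫ x in (0 : ℝ)..1, H t x * u x) volume t₁ t₂ := fun u hu =>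
    ContinuousOn.intervalIntegrable (by rw [uIcc_of_le h12]; exact hsl u hu)
  have bound : ∀ (k u : ℝ → ℝ) (A ε : ℝ), (∀ x ∈ Icc (0 : ℝ) 1, |k x| ≤ A) → 0 ≤ A →
      (∀ x ∈ Icc (0 : ℝ) 1, |u x| ≤ ε) → |∫ x in (0 : ℝ)..1, k x * u x| ≤ A * ε := by
    intro k u A ε hk hA hu
    have := intervalIntegral.norm_integral_le_of_norm_le_const (a := 0) (b := 1) (C := A * ε)
      (f := fun x => k x * u x) (by
        intro x hx
        rw [uIoc_of_le zero_le_one] at hx
        have hx' : x ∈ Icc (0 : ℝ) 1 := Ioc_subset_Icc_self hx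
        rw [norm_mul]
        exact mul_le_mul (hk x hx') (hu x hx') (norm_nonneg _) hA)
    simpa using this
  set B : ℝ := 2 * M + (t₂ - t₁) * K with hB
  have hB0 : 0 ≤ B := by have : 0 ≤ t₂ - t₁ := by linarith
                         positivity
  -- the defect is small
  have key : ∀ ε : ℝ, 0 < ε → |((∫ x in (0 : ℝ)..1, r t₂ x * φ x) -
      (∫ x in (0 : ℝ)..1, r t₁ x * φ x)) -
      ∫ t in t₁..t₂, ∫ x in (0 : ℝ)..1, H t x * φ' x| ≤ B * ε := by
    intro ε hε
    obtain ⟨n, a, hna⟩ := exists_sin_approx hφ hε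
    set S : ℝ → ℝ := fun x => ∑ j ∈ Finset.range n, a j * Real.sin (j * π * x) with hS
    set S' : ℝ → ℝ := fun x => ∑ j ∈ Finset.range n, a j * (j * π * Real.cos (j * π * x)) with hS'
    have hSc : ContinuousOn S (Icc 0 1) := (by fun_prop : Continuous S).continuousOn
    have hSc' : ContinuousOn S' (Icc 0 1) := (by fun_prop : Continuous S').continuousOn
    have hrS : ∀ t ∈ Ioc 0 T, ∫ x in (0 : ℝ)..1, r t x * S x =
        ∑ j ∈ Finset.range n, a j * ∫ x in (0 : ℝ)..1, r t x * Real.sin (j * π * x) := by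
      intro t ht
      have e : ∀ x, r t x * S x = ∑ j ∈ Finset.range n, a j * (r t x * Real.sin (j * π * x)) := by
        intro x; simp only [hS]; rw [Finset.mul_sum]
        refine Finset.sum_congr rfl fun j _ => ?_
        ring
      simp_rw [e]
      rw [intervalIntegral.integral_finsetSum]
      · refine Finset.sum_congr rfl fun j _ => ?_
        rw [intervalIntegral.integral_const_mul]
      · intro j _
        refine (ContinuousOn.intervalIntegrable ?_).const_mul _
        rw [u01]
        exact (hr.slice ht).mul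
          (by fun_prop : Continuous fun x : ℝ => Real.sin (j * π * x)).continuousOn
    have hLS : ∫ t in t₁..t₂, ∫ x in (0 : ℝ)..1, H t x * S' x =
        ∑ j ∈ Finset.range n, a j * ∫ t in t₁..t₂, ∫ x in (0 : ℝ)..1,
          H t x * (j * π * Real.cos (j * π * x)) := by
      have hcj : ∀ j : ℕ, ContinuousOn (fun x : ℝ => j * π * Real.cos (j * π * x)) (Icc 0 1) :=
        fun j => (by fun_prop : Continuous fun x : ℝ => j * π * Real.cos (j * π * x)).continuousOn
      have e : ∀ t ∈ Icc t₁ t₂, ∫ x in (0 : ℝ)..1, H t x * S' x =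
          ∑ j ∈ Finset.range n, a j * ∫ x in (0 : ℝ)..1, H t x * (j * π * Real.cos (j * π * x)) := by
        intro t ht
        have e : ∀ x, H t x * S' x =
            ∑ j ∈ Finset.range n, a j * (H t x * (j * π * Real.cos (j * π * x))) := by
          intro x; simp only [hS']; rw [Finset.mul_sum]
          refine Finset.sum_congr rfl fun j _ => ?_
          ring
        simp_rw [e]
        rw [intervalIntegral.integral_finsetSum]
        · refine Finset.sum_congr rfl fun j _ => ?_
          rw [intervalIntegral.integral_const_mul]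
        · intro j _
          refine (ContinuousOn.intervalIntegrable ?_).const_mul _
          rw [u01]
          exact (hHs t ht).mul (hcj j)
      have e2 : ∫ t in t₁..t₂, ∫ x in (0 : ℝ)..1, H t x * S' x = ∫ t in t₁..t₂,
          ∑ j ∈ Finset.range n, a j * ∫ x in (0 : ℝ)..1, H t x * (j * π * Real.cos (j * π * x)) := by
        refine intervalIntegral.integral_congr fun t ht => ?_
        rw [uIcc_of_le h12] at ht
        exact e t ht
      rw [e2, intervalIntegral.integral_finsetSum]
      · refine Finset.sum_congr rfl fun j _ => ?_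
        rw [intervalIntegral.integral_const_mul]
      · intro j _
        exact (hint _ (hcj j)).const_mul _
    have hW : (∫ x in (0 : ℝ)..1, r t₂ x * S x) - (∫ x in (0 : ℝ)..1, r t₁ x * S x) =
        ∫ t in t₁..t₂, ∫ x in (0 : ℝ)..1, H t x * S' x := by
      rw [hrS t₂ (hsub (right_mem_Icc.mpr h12)), hrS t₁ (hsub (left_mem_Icc.mpr h12)), hLS,
        ← Finset.sum_sub_distrib]
      refine Finset.sum_congr rfl fun j _ => ?_
      rw [← mul_sub, weak_sin hr hF hg hd h0 h1 (c j) j (hcoeff j) ht₁ h12 ht₂]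
    have d1 := integral_mul_sub (hr.slice (hsub (right_mem_Icc.mpr h12))) hφc hSc
    have d2 := integral_mul_sub (hr.slice (hsub (left_mem_Icc.mpr h12))) hφc hSc
    have d3 : ∫ t in t₁..t₂, ∫ x in (0 : ℝ)..1, H t x * (φ' x - S' x) =
        (∫ t in t₁..t₂, ∫ x in (0 : ℝ)..1, H t x * φ' x) -
          ∫ t in t₁..t₂, ∫ x in (0 : ℝ)..1, H t x * S' x := by
      rw [← intervalIntegral.integral_sub (hint _ hφ.cont) (hint _ hSc')]
      refine intervalIntegral.integral_congr fun t ht => ?_
      rw [uIcc_of_le h12] at ht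
      exact integral_mul_sub (hHs t ht) hφ.cont hSc'
    have b1 := bound (r t₂) (fun x => φ x - S x) M ε
      (hr.bd t₂ (hsub (right_mem_Icc.mpr h12))) hM0 (fun x hx => (hna x hx).1)
    have b2 := bound (r t₁) (fun x => φ x - S x) M ε
      (hr.bd t₁ (hsub (left_mem_Icc.mpr h12))) hM0 (fun x hx => (hna x hx).1)
    have b3 : |∫ t in t₁..t₂, ∫ x in (0 : ℝ)..1, H t x * (φ' x - S' x)| ≤ (K * ε) * (t₂ - t₁) := by
      have := intervalIntegral.norm_integral_le_of_norm_le_const (a := t₁) (b := t₂) (C := K * ε)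
        (f := fun t => ∫ x in (0 : ℝ)..1, H t x * (φ' x - S' x)) (by
          intro t ht
          rw [uIoc_of_le h12] at ht
          exact bound (H t) (fun x => φ' x - S' x) K ε (hK t (Ioc_subset_Icc_self ht)) hK0
            (fun x hx => (hna x hx).2))
      rwa [abs_of_nonneg (by linarith : (0 : ℝ) ≤ t₂ - t₁)] at this
    have e : ((∫ x in (0 : ℝ)..1, r t₂ x * φ x) - (∫ x in (0 : ℝ)..1, r t₁ x * φ x)) -
        ∫ t in t₁..t₂, ∫ x in (0 : ℝ)..1, H t x * φ' x =
        (∫ x in (0 : ℝ)..1, r t₂ x * (φ x - S x)) - (∫ x in (0 : ℝ)..1, r t₁ x * (φ x - S x)) -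
        ∫ t in t₁..t₂, ∫ x in (0 : ℝ)..1, H t x * (φ' x - S' x) := by
      rw [d1, d2, d3]
      linear_combination hW
    rw [e]
    calc _ ≤ |(∫ x in (0 : ℝ)..1, r t₂ x * (φ x - S x)) -
            (∫ x in (0 : ℝ)..1, r t₁ x * (φ x - S x))| + |∫ t in t₁..t₂, ∫ x in (0 : ℝ)..1,
              H t x * (φ' x - S' x)| := abs_sub _ _
      _ ≤ (|∫ x in (0 : ℝ)..1, r t₂ x * (φ x - S x)| +
            |∫ x in (0 : ℝ)..1, r t₁ x * (φ x - S x)|) + |∫ t in t₁..t₂, ∫ x in (0 : ℝ)..1,
              H t x * (φ' x - S' x)| := by gcongr; exact abs_sub _ _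
      _ ≤ (M * ε + M * ε) + (K * ε) * (t₂ - t₁) := by gcongr
      _ = B * ε := by simp only [hB]; ring
  by_contra hne
  have hpos := abs_pos.mpr (sub_ne_zero.mpr hne)
  set D := |((∫ x in (0 : ℝ)..1, r t₂ x * φ x) - (∫ x in (0 : ℝ)..1, r t₁ x * φ x)) -
      ∫ t in t₁..t₂, ∫ x in (0 : ℝ)..1, H t x * φ' x| with hD
  have h3 := key (D / (2 * (B + 1))) (by positivity)
  have h4 : B * (D / (2 * (B + 1))) < D := by
    rw [mul_div_assoc', div_lt_iff₀ (by positivity)]
    nlinarith
  linarith

/-! ### decay of the heat flow -/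

theorem integral_cos_nat (m : ℤ) (hm : m ≠ 0) : ∫ x in (0 : ℝ)..1, Real.cos (m * π * x) = 0 := by
  have hm' : (m : ℝ) * π ≠ 0 := mul_ne_zero (by exact_mod_cast hm) Real.pi_ne_zero
  rw [intervalIntegral.integral_comp_mul_left (fun x => Real.cos x) hm']
  simp [Real.sin_int_mul_pi]

theorem integral_sin_sin (j k : ℕ) (hk : k ≠ 0) :
    ∫ x in (0 : ℝ)..1, Real.sin (j * π * x) * Real.sin (k * π * x) = if j = k then 1 / 2 else 0 := by
  have e : ∀ x : ℝ, Real.sin (j * π * x) * Real.sin (k * π * x) =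
      (1 / 2) * (Real.cos (((j : ℤ) - (k : ℤ) : ℤ) * π * x) -
        Real.cos (((j : ℤ) + (k : ℤ) : ℤ) * π * x)) := by
    intro x
    have e1 : (((j : ℤ) - (k : ℤ) : ℤ) : ℝ) * π * x = j * π * x - k * π * x := by push_cast; ring
    have e2 : (((j : ℤ) + (k : ℤ) : ℤ) : ℝ) * π * x = j * π * x + k * π * x := by push_cast; ring
    rw [e1, e2, Real.cos_sub, Real.cos_add]
    ring
  simp_rw [e]
  rw [intervalIntegral.integral_const_mul, intervalIntegral.integral_sub
    (Continuous.intervalIntegrable (by fun_prop) _ _) (Continuous.intervalIntegrable (by fun_prop) _ _),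
    integral_cos_nat ((j : ℤ) + k) (by omega), sub_zero]
  split_ifs with h
  · subst h; simp
  · rw [integral_cos_nat ((j : ℤ) - k) (by omega), mul_zero]

theorem exp_le_geom {t : ℝ} (ht : 0 < t) (j : ℕ) :
    Real.exp (-(π ^ 2 * j ^ 2 * t)) ≤ Real.exp (-(π ^ 2 * t)) ^ j := by
  rw [← Real.exp_nat_mul]
  apply Real.exp_le_exp.mpr
  have h1 : (j : ℝ) ≤ (j : ℝ) ^ 2 := by
    exact_mod_cast Nat.le_self_pow two_ne_zero j
  have h2 : 0 < π ^ 2 * t := by have := Real.pi_pos; positivity
  nlinarith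

theorem summable_exp_sq {t : ℝ} (ht : 0 < t) :
    Summable fun j : ℕ => Real.exp (-(π ^ 2 * (j : ℝ) ^ 2 * t)) := by
  refine Summable.of_nonneg_of_le (fun j => (Real.exp_pos _).le) (exp_le_geom ht) ?_
  apply summable_geometric_of_lt_one (Real.exp_pos _).le
  rw [Real.exp_lt_one_iff]
  have := Real.pi_pos
  have : 0 < π ^ 2 * t := by positivity
  linarith

/-- Decay of the heat flow when the first `n` sine coefficients vanish. -/
theorem heat_decay {φ : ℝ → ℝ} (hφ : Measurable φ) {M : ℝ}
    (hM : ∀ x ∈ Icc (0 : ℝ) 1, |φ x| ≤ M) {n : ℕ}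
    (hn : ∀ j : ℕ, j ≤ n → ∫ x in (0 : ℝ)..1, φ x * Real.sin (j * π * x) = 0)
    {t : ℝ} (ht : 0 < t) {x : ℝ} (hx : x ∈ Icc (0 : ℝ) 1) :
    |heat t φ x| ≤ 2 * M * ∑' j : ℕ, Real.exp (-(π ^ 2 * (n + 1 + j : ℝ) ^ 2 * t)) := by
  have u01 : uIcc (0 : ℝ) 1 = Icc 0 1 := uIcc_of_le zero_le_one
  have hM0 : 0 ≤ M := (abs_nonneg _).trans (hM 0 (left_mem_Icc.mpr zero_le_one))
  set c : ℕ → ℝ := fun j => ∫ x in (0 : ℝ)..1, φ x * Real.sin (j * π * x) with hc
  have hcM : ∀ j, |c j| ≤ M := by
    intro j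
    have := intervalIntegral.norm_integral_le_of_norm_le_const (a := 0) (b := 1) (C := M)
      (f := fun x => φ x * Real.sin (j * π * x)) (by
        intro x hx
        rw [uIoc_of_le zero_le_one] at hx
        have h2 := hM x (Ioc_subset_Icc_self hx)
        rw [norm_mul]
        calc ‖φ x‖ * ‖Real.sin (j * π * x)‖ ≤ M * 1 :=
              mul_le_mul h2 (Real.abs_sin_le_one _) (norm_nonneg _) ((abs_nonneg _).trans h2)
          _ = M := mul_one M)
    simpa using this
  set u : ℕ → ℝ → ℝ := fun j x =>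
    2 * c j * Real.exp (-(π ^ 2 * (j : ℝ) ^ 2 * t)) * Real.sin (j * π * x) with hu
  set b : ℕ → ℝ := fun j => 2 * M * Real.exp (-(π ^ 2 * (j : ℝ) ^ 2 * t)) with hb
  have hbs : Summable b := (summable_exp_sq ht).mul_left (2 * M)
  have hub : ∀ j x, ‖u j x‖ ≤ b j := by
    intro j x
    simp only [hu, hb, norm_mul, Real.norm_eq_abs, abs_two, Real.abs_exp]
    have h1 := hcM j
    have h2 := Real.abs_sin_le_one (j * π * x)
    have h3 := (Real.exp_pos (-(π ^ 2 * (j : ℝ) ^ 2 * t))).le
    calc 2 * |c j| * Real.exp (-(π ^ 2 * (j : ℝ) ^ 2 * t)) * |Real.sin (j * π * x)|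
        ≤ 2 * M * Real.exp (-(π ^ 2 * (j : ℝ) ^ 2 * t)) * 1 := by gcongr
      _ = _ := mul_one _
  have huc : ∀ j, Continuous (u j) := fun j => by simp only [hu]; fun_prop
  set H : ℝ → ℝ := fun x => ∑' j, u j x with hH
  have hHc : Continuous H := continuous_tsum huc hbs hub
  -- coefficients of the series
  have hHcoef : ∀ k : ℕ, ∫ x in (0 : ℝ)..1, H x * Real.sin (k * π * x) =
      Real.exp (-(π ^ 2 * (k : ℝ) ^ 2 * t)) * c k := by
    intro k
    have h1 : HasSum (fun j => ∫ x in (0 : ℝ)..1, u j x * Real.sin (k * π * x))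
        (∫ x in (0 : ℝ)..1, H x * Real.sin (k * π * x)) := by
      apply intervalIntegral.hasSum_integral_of_dominated_convergence (fun j _ => b j)
      · intro j
        exact ((huc j).mul (by fun_prop)).aestronglyMeasurable
      · intro j
        refine Filter.Eventually.of_forall fun x _ => ?_
        rw [norm_mul]
        calc ‖u j x‖ * ‖Real.sin (k * π * x)‖ ≤ b j * 1 :=
              mul_le_mul (hub j x) (Real.abs_sin_le_one _) (norm_nonneg _)
                ((norm_nonneg _).trans (hub j x))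
          _ = b j := mul_one _
      · exact Filter.Eventually.of_forall fun x _ => hbs
      · exact intervalIntegrable_const
      · refine Filter.Eventually.of_forall fun x _ => ?_
        exact (Summable.of_norm_bounded hbs (fun j => hub j x)).hasSum.mul_right _
    rcases eq_or_ne k 0 with rfl | hk
    · simp [hc]
    · have h2 : ∀ j, ∫ x in (0 : ℝ)..1, u j x * Real.sin (k * π * x) =
          if j = k then Real.exp (-(π ^ 2 * (k : ℝ) ^ 2 * t)) * c k else 0 := by
        intro j
        have e : ∀ x, u j x * Real.sin (k * π * x) =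
            (2 * c j * Real.exp (-(π ^ 2 * (j : ℝ) ^ 2 * t))) *
              (Real.sin (j * π * x) * Real.sin (k * π * x)) := by
          intro x; simp only [hu]; ring
        simp_rw [e]
        rw [intervalIntegral.integral_const_mul, integral_sin_sin j k hk]
        split_ifs with h
        · subst h; ring
        · ring
      simp_rw [h2] at h1
      exact h1.unique (hasSum_ite_eq k _)
  -- the heat flow is the series
  have heq : ∀ y ∈ Icc (0 : ℝ) 1, heat t φ y - H y = 0 := by
    have hhc : Continuous (heat t φ) := by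
      refine continuous_iff_continuousAt.mpr fun y => (hasDerivAt_heat hφ hM ht y).continuousAt
    refine eq_zero_of_sin_coeff (h := fun y => heat t φ y - H y) (hhc.sub hHc).continuousOn ?_
    intro k
    have e : ∀ y, (heat t φ y - H y) * Real.sin (k * π * y) =
        heat t φ y * Real.sin (k * π * y) - H y * Real.sin (k * π * y) := fun y => by ring
    simp_rw [e]
    rw [intervalIntegral.integral_sub, heat_coeff hφ hM ht, hHcoef, sub_self]
    · exact (hhc.mul (by fun_prop)).intervalIntegrable _ _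
    · exact (hHc.mul (by fun_prop)).intervalIntegrable _ _
  have h1 : heat t φ x = H x := by have := heq x hx; linarith
  rw [h1]
  -- the tail of the series
  have hsum : Summable fun j => u j x := Summable.of_norm_bounded hbs (fun j => hub j x)
  have h2 : H x = ∑' j, u (j + (n + 1)) x := by
    simp only [hH]
    rw [← hsum.sum_add_tsum_nat_add (n + 1), Finset.sum_eq_zero, zero_add]
    intro j hj
    have : c j = 0 := hn j (by have := Finset.mem_range.mp hj; omega)
    simp [hu, this]
  rw [h2]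
  have h3 : Summable fun j => b (j + (n + 1)) := (summable_nat_add_iff (n + 1)).mpr hbs
  have h4 : ‖∑' j, u (j + (n + 1)) x‖ ≤ ∑' j, b (j + (n + 1)) :=
    tsum_of_norm_bounded h3.hasSum (fun j => hub _ x)
  refine h4.trans (le_of_eq ?_)
  rw [← tsum_mul_left]
  congr 1
  ext j
  simp only [hb]
  push_cast
  congr 3
  ring

end Pool.Agent.Burg
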