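import Pool.Agent.Helper46_Burg.DuhB

/-!
Module DUH: calculus of the Duhamel term `duh` (sup bounds, joint continuity, Hölder bound,
space derivative, sine coefficients).  The structure `Adm` and the definition `duh'` are in
`DuhDefs`, joint continuity and the space derivative in `DuhB`.
-/

set_option autoImplicit false

open MeasureTheory Set Filter Topology
open scoped Real ENNReal

noncomputable section

namespace Pool.Agent.Burg

theorem duh_zero (F : ℝ → ℝ → ℝ) (t : ℝ) : duh F t 0 = 0 := by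
  simp [duh, cv_g1_evenExt_zero]

theorem duh_one (F : ℝ → ℝ → ℝ) (t : ℝ) : duh F t 1 = 0 := by
  simp [duh, cv_g1_evenExt_one]

theorem duh_eq (F : ℝ → ℝ → ℝ) (t x : ℝ) : duh F t x = √t * ∫ σ in Ioo (0 : ℝ) 1,
    (1 - σ) ^ (-(1 / 2) : ℝ) * cv g1 (√(t * (1 - σ))) (evenExt (F (t * σ))) x := by
  simp only [duh]
  rw [intervalIntegral.integral_of_le (by norm_num), integral_Ioc_eq_integral_Ioo]

/-- The substitution `s = t σ`. -/
theorem subst_mul {t : ℝ} (ht : 0 < t) (m : ℝ → ℝ) :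
    ∫ s in (0 : ℝ)..t, (t - s) ^ (-(1 / 2) : ℝ) * m s =
      √t * ∫ σ in Ioo (0 : ℝ) 1, (1 - σ) ^ (-(1 / 2) : ℝ) * m (t * σ) := by
  have h := intervalIntegral.integral_comp_mul_left
    (fun s => (t - s) ^ (-(1 / 2) : ℝ) * m s) (a := 0) (b := 1) ht.ne'
  simp only [mul_zero, mul_one, smul_eq_mul] at h
  have h2 : ∫ s in (0 : ℝ)..t, (t - s) ^ (-(1 / 2) : ℝ) * m s =
      t * ∫ σ in (0 : ℝ)..1, (t - t * σ) ^ (-(1 / 2) : ℝ) * m (t * σ) := by
    rw [h]; field_simp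
  rw [h2, intervalIntegral.integral_of_le (by norm_num), integral_Ioc_eq_integral_Ioo,
    ← integral_const_mul, ← integral_const_mul]
  refine setIntegral_congr_fun measurableSet_Ioo fun σ hσ => ?_
  have hσ1 : 0 < 1 - σ := by linarith [hσ.2]
  have e1 : t - t * σ = t * (1 - σ) := by ring
  have e2 : t * t ^ (-(1 / 2) : ℝ) = √t := by
    rw [Real.sqrt_eq_rpow]
    nth_rewrite 1 [← Real.rpow_one t]
    rw [← Real.rpow_add ht]
    norm_num
  show t * ((t - t * σ) ^ (-(1 / 2) : ℝ) * m (t * σ)) =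
    √t * ((1 - σ) ^ (-(1 / 2) : ℝ) * m (t * σ))
  rw [e1, Real.mul_rpow ht.le hσ1.le, ← e2]
  ring

/-- Sup bound for the Duhamel term; functions of time only may be subtracted. -/
theorem abs_duh_le {T : ℝ} {F : ℝ → ℝ → ℝ} {M : ℝ} (hF : Adm T F M) {t : ℝ} (ht : t ∈ Ioc 0 T)
    {m κ : ℝ → ℝ} (hm : ∀ s ∈ Ioo 0 t, ∀ x ∈ Icc (0 : ℝ) 1, |F s x - κ s| ≤ m s)
    (hi : IntervalIntegrable (fun s => (t - s) ^ (-(1 / 2) : ℝ) * m s) volume 0 t) (x : ℝ) :
    |duh F t x| ≤ ∫ s in (0 : ℝ)..t, (t - s) ^ (-(1 / 2) : ℝ) * m s := by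
  have ht0 : 0 < t := ht.1
  rw [subst_mul ht0, duh_eq, abs_mul, abs_of_nonneg (Real.sqrt_nonneg _)]
  refine mul_le_mul_of_nonneg_left ?_ (Real.sqrt_nonneg _)
  refine le_trans abs_integral_le_integral_abs ?_
  have hint : IntegrableOn (fun σ : ℝ => (1 - σ) ^ (-(1 / 2) : ℝ) * m (t * σ)) (Ioo 0 1) := by
    have h := hi.comp_mul_left (c := t)
    rw [zero_div, div_self ht0.ne', intervalIntegrable_iff_integrableOn_Ioo_of_le (by norm_num)]
      at h
    have h2 := h.const_mul (√t)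
    refine (integrableOn_congr_fun ?_ measurableSet_Ioo).1 h2
    intro σ hσ
    have hσ1 : 0 < 1 - σ := by linarith [hσ.2]
    have e1 : t - t * σ = t * (1 - σ) := by ring
    have e2 : √t * t ^ (-(1 / 2) : ℝ) = 1 := by
      rw [Real.sqrt_eq_rpow, ← Real.rpow_add ht0]
      norm_num
    show √t * ((t - t * σ) ^ (-(1 / 2) : ℝ) * m (t * σ)) = (1 - σ) ^ (-(1 / 2) : ℝ) * m (t * σ)
    rw [e1, Real.mul_rpow ht0.le hσ1.le]
    calc √t * (t ^ (-(1 / 2) : ℝ) * (1 - σ) ^ (-(1 / 2) : ℝ) * m (t * σ))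
        = (√t * t ^ (-(1 / 2) : ℝ)) * ((1 - σ) ^ (-(1 / 2) : ℝ) * m (t * σ)) := by ring
      _ = _ := by rw [e2, one_mul]
  refine setIntegral_mono_on (integrable_slice_g1 hF ht x).abs hint measurableSet_Ioo ?_
  intro σ hσ
  have hσ1 : 0 < 1 - σ := by linarith [hσ.2]
  have hs := Adm.mul_mem ht hσ
  rw [abs_mul, abs_of_pos (Real.rpow_pos_of_pos hσ1 _)]
  refine mul_le_mul_of_nonneg_left ?_ (Real.rpow_pos_of_pos hσ1 _).le
  have hsl := continuous_evenExt (hF.slice hs)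
  have hs' : t * σ ∈ Ioo 0 t := by
    refine ⟨hs.1, ?_⟩
    have := hσ.2
    nlinarith
  have hm0 : 0 ≤ m (t * σ) := le_trans (abs_nonneg _) (hm _ hs' 0 ⟨le_refl _, by norm_num⟩)
  set c := √(t * (1 - σ))
  have hmeas : Measurable (fun _ : ℝ => κ (t * σ)) := measurable_const
  have h1 := cv_sub (k := g1) integrable_g1 hsl.measurable hmeas
    (fun y => abs_evenExt_le (hF.bd _ hs) y) (N := |κ (t * σ)|) (fun y => le_refl _) c x
  rw [cv_const, integral_g1, mul_zero, sub_zero] at h1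
  rw [← h1]
  have h2 := abs_cv_le (k := g1) integrable_g1 (φ := fun y => evenExt (F (t * σ)) y - κ (t * σ))
    (hsl.measurable.sub hmeas) (M := m (t * σ)) (fun y => hm _ hs' _ (tri_mem y)) c x
  refine h2.trans ?_
  calc m (t * σ) * ∫ z, |g1 z| ≤ m (t * σ) * 1 :=
        mul_le_mul_of_nonneg_left integral_abs_g1_le hm0
    _ = m (t * σ) := mul_one _

/-- Linearity. -/
theorem duh_sub {T : ℝ} {F G : ℝ → ℝ → ℝ} {M N : ℝ} (hF : Adm T F M) (hG : Adm T G N)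
    {t : ℝ} (ht : t ∈ Ioc 0 T) (x : ℝ) :
    duh (fun s y => F s y - G s y) t x = duh F t x - duh G t x := by
  rw [duh_eq, duh_eq, duh_eq, ← mul_sub,
    ← integral_sub (integrable_slice_g1 hF ht x) (integrable_slice_g1 hG ht x)]
  congr 1
  refine setIntegral_congr_fun measurableSet_Ioo fun σ hσ => ?_
  have hs := Adm.mul_mem ht hσ
  have h1 := cv_sub (k := g1) integrable_g1 (continuous_evenExt (hF.slice hs)).measurable
    (continuous_evenExt (hG.slice hs)).measurable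
    (fun y => abs_evenExt_le (hF.bd _ hs) y) (fun y => abs_evenExt_le (hG.bd _ hs) y)
    (√(t * (1 - σ))) x
  show (1 - σ) ^ (-(1 / 2) : ℝ) * cv g1 (√(t * (1 - σ)))
    (fun y => evenExt (F (t * σ)) y - evenExt (G (t * σ)) y) x = _
  rw [h1]
  ring

/-- Interpolation between the sup bound and the derivative bound. -/
theorem holder_interp {d M D r : ℝ} (hM : 0 ≤ M) (hD : 0 ≤ D) (hr : 0 ≤ r) (h1 : d ≤ 2 * M)
    (h2 : d ≤ M * D * r) : d ≤ √2 * M * (√D * √r) := by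
  by_cases hd : d ≤ 0
  · exact hd.trans (by positivity)
  · push Not at hd
    have h3 : d ^ 2 ≤ 2 * M ^ 2 * (D * r) := by
      calc d ^ 2 = d * d := by ring
        _ ≤ (2 * M) * (M * D * r) := mul_le_mul h1 h2 hd.le (by positivity)
        _ = _ := by ring
    have h4 : d ≤ √(2 * M ^ 2 * (D * r)) := Real.le_sqrt_of_sq_le h3
    refine h4.trans (le_of_eq ?_)
    rw [Real.sqrt_mul (by positivity), Real.sqrt_mul (by norm_num), Real.sqrt_sq hM,
      Real.sqrt_mul hD]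

theorem cv_holder {k k' : ℝ → ℝ} (hk : Integrable k)
    (hk' : ∫ z, |k' z| ≤ 1) (hk1 : ∫ z, |k z| ≤ 1) (hki : Integrable k')
    {φ : ℝ → ℝ} (hφ : Measurable φ) {M : ℝ} (hM : ∀ x, |φ x| ≤ M) {c : ℝ} (hc : 0 < c)
    (hd : ∀ x, HasDerivAt (cv k c φ) (c⁻¹ * cv k' c φ x) x) (x y : ℝ) :
    |cv k c φ x - cv k c φ y| ≤ √2 * M * (√c⁻¹ * √|x - y|) := by
  have hM0 : 0 ≤ M := le_trans (abs_nonneg _) (hM 0)
  have b1 : ∀ x, |cv k c φ x| ≤ M := fun x => (abs_cv_le hk hφ hM c x).trans (by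
    calc M * ∫ z, |k z| ≤ M * 1 := mul_le_mul_of_nonneg_left hk1 hM0
      _ = M := mul_one _)
  have b2 : ∀ x, ‖c⁻¹ * cv k' c φ x‖ ≤ M * c⁻¹ := fun x => by
    have := (abs_cv_le hki hφ hM c x).trans (by
      calc M * ∫ z, |k' z| ≤ M * 1 := mul_le_mul_of_nonneg_left hk' hM0
        _ = M := mul_one _)
    rw [norm_mul, Real.norm_eq_abs, Real.norm_eq_abs, abs_of_pos (inv_pos.2 hc), mul_comm]
    exact mul_le_mul_of_nonneg_right this (inv_pos.2 hc).le
  apply holder_interp hM0 (inv_pos.2 hc).le (abs_nonneg _)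
  · calc |cv k c φ x - cv k c φ y| ≤ |cv k c φ x| + |cv k c φ y| := abs_sub _ _
      _ ≤ 2 * M := by linarith [b1 x, b1 y]
  · have := Convex.norm_image_sub_le_of_norm_hasDerivWithin_le (f := cv k c φ)
      (f' := fun x => c⁻¹ * cv k' c φ x) (s := univ) (x := y) (y := x) (C := M * c⁻¹)
      (fun x _ => (hd x).hasDerivWithinAt) (fun x _ => b2 x) convex_univ (mem_univ _)
      (mem_univ _)
    rw [Real.norm_eq_abs, Real.norm_eq_abs] at this
    exact this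

theorem integral_abs_g0_le : ∫ z, |g0 z| ≤ 1 := by
  have : (fun z => |g0 z|) = g0 := by
    funext z; exact abs_of_pos (g0_pos z)
  rw [this, integral_g0]

theorem heat_holder {φ : ℝ → ℝ} (hφ : Measurable φ) {M : ℝ}
    (hM : ∀ x ∈ Icc (0 : ℝ) 1, |φ x| ≤ M) {t : ℝ} (ht : 0 < t) (x y : ℝ) :
    |heat t φ x - heat t φ y| ≤ 2 * M * t ^ (-(1 / 4) : ℝ) * √|x - y| := by
  have hM0 : 0 ≤ M := le_trans (abs_nonneg _) (hM 0 ⟨le_refl _, by norm_num⟩)
  have h := cv_holder (k := g0) (k' := g1) integrable_g0 integral_abs_g1_le integral_abs_g0_le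
    integrable_g1 (measurable_oddExt hφ) (fun x => abs_oddExt_le hM x) (Real.sqrt_pos.2 ht)
    (fun x => hasDerivAt_heat hφ hM ht x) x y
  refine (show |heat t φ x - heat t φ y| ≤ _ from h).trans ?_
  have e1 : √(√t)⁻¹ = t ^ (-(1 / 4) : ℝ) := by
    rw [Real.sqrt_inv, Real.sqrt_eq_rpow, Real.sqrt_eq_rpow, ← Real.rpow_mul ht.le,
      ← Real.rpow_neg ht.le]
    norm_num
  rw [e1]
  have h2 : √2 ≤ 2 := by
    rw [Real.sqrt_le_left (by norm_num)]; norm_num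
  have h3 : 0 ≤ t ^ (-(1 / 4) : ℝ) := (Real.rpow_pos_of_pos ht _).le
  calc √2 * M * (t ^ (-(1 / 4) : ℝ) * √|x - y|)
      = √2 * (M * (t ^ (-(1 / 4) : ℝ) * √|x - y|)) := by ring
    _ ≤ 2 * (M * (t ^ (-(1 / 4) : ℝ) * √|x - y|)) :=
        mul_le_mul_of_nonneg_right h2 (by positivity)
    _ = _ := by ring

theorem duh_holder {T : ℝ} {F : ℝ → ℝ → ℝ} {M : ℝ} (hF : Adm T F M) {t : ℝ} (ht : t ∈ Ioc 0 T)
    (x y : ℝ) : |duh F t x - duh F t y| ≤ 8 * M * t ^ ((1 / 4) : ℝ) * √|x - y| := by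
  have ht0 : 0 < t := ht.1
  have hM0 : 0 ≤ M := le_trans (abs_nonneg _) (hF.bd t ht 0 ⟨le_refl _, by norm_num⟩)
  rw [duh_eq, duh_eq, ← mul_sub,
    ← integral_sub (integrable_slice_g1 hF ht x) (integrable_slice_g1 hF ht y), abs_mul,
    abs_of_nonneg (Real.sqrt_nonneg _)]
  have hint : IntegrableOn (fun σ : ℝ => (1 - σ) ^ (-(3 / 4) : ℝ) *
      (√2 * M * t ^ (-(1 / 4) : ℝ) * √|x - y|)) (Ioo 0 1) :=
    (integrableOn_one_sub_rpow (by norm_num)).mul_const _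
  have h1 : |∫ σ in Ioo (0 : ℝ) 1,
      ((1 - σ) ^ (-(1 / 2) : ℝ) * cv g1 (√(t * (1 - σ))) (evenExt (F (t * σ))) x -
        (1 - σ) ^ (-(1 / 2) : ℝ) * cv g1 (√(t * (1 - σ))) (evenExt (F (t * σ))) y)| ≤
      ∫ σ in Ioo (0 : ℝ) 1, (1 - σ) ^ (-(3 / 4) : ℝ) *
        (√2 * M * t ^ (-(1 / 4) : ℝ) * √|x - y|) := by
    refine le_trans abs_integral_le_integral_abs ?_
    refine setIntegral_mono_on ((integrable_slice_g1 hF ht x).sub
      (integrable_slice_g1 hF ht y)).abs hint measurableSet_Ioo ?_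
    intro σ hσ
    have hσ1 : 0 < 1 - σ := by linarith [hσ.2]
    have hs := Adm.mul_mem ht hσ
    have hc := Adm.mul_mem_uIoo ht hσ
    have hsl := continuous_evenExt (hF.slice hs)
    have hbd : ∀ y, |evenExt (F (t * σ)) y| ≤ M := fun y => abs_evenExt_le (hF.bd _ hs) y
    have h := cv_holder (k := g1) (k' := g2) integrable_g1 integral_abs_g2_le
      integral_abs_g1_le integrable_g2 hsl.measurable hbd (Real.sqrt_pos.2 hc)
      (fun x => hasDerivAt_cv_g1 hsl.measurable hbd (Real.sqrt_pos.2 hc) x) x y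
    rw [← mul_sub, abs_mul, abs_of_pos (Real.rpow_pos_of_pos hσ1 _)]
    have e1 : √(√(t * (1 - σ)))⁻¹ = t ^ (-(1 / 4) : ℝ) * (1 - σ) ^ (-(1 / 4) : ℝ) := by
      rw [Real.sqrt_inv, Real.sqrt_eq_rpow, Real.sqrt_eq_rpow, ← Real.rpow_mul hc.le,
        ← Real.rpow_neg hc.le, Real.mul_rpow ht0.le hσ1.le]
      norm_num
    rw [e1] at h
    have e2 : (1 - σ) ^ (-(1 / 2) : ℝ) * (1 - σ) ^ (-(1 / 4) : ℝ) = (1 - σ) ^ (-(3 / 4) : ℝ) := by
      rw [← Real.rpow_add hσ1]; norm_num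
    calc (1 - σ) ^ (-(1 / 2) : ℝ) *
          |cv g1 (√(t * (1 - σ))) (evenExt (F (t * σ))) x -
            cv g1 (√(t * (1 - σ))) (evenExt (F (t * σ))) y|
        ≤ (1 - σ) ^ (-(1 / 2) : ℝ) * (√2 * M * (t ^ (-(1 / 4) : ℝ) *
            (1 - σ) ^ (-(1 / 4) : ℝ) * √|x - y|)) :=
          mul_le_mul_of_nonneg_left h (Real.rpow_pos_of_pos hσ1 _).le
      _ = ((1 - σ) ^ (-(1 / 2) : ℝ) * (1 - σ) ^ (-(1 / 4) : ℝ)) *
            (√2 * M * t ^ (-(1 / 4) : ℝ) * √|x - y|) := by ring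
      _ = _ := by rw [e2]
  have h2 : ∫ σ in Ioo (0 : ℝ) 1, (1 - σ) ^ (-(3 / 4) : ℝ) = 4 := by
    rw [← integral_Ioc_eq_integral_Ioo, ← intervalIntegral.integral_of_le (by norm_num)]
    have := intervalIntegral.integral_comp_sub_left (fun u : ℝ => u ^ (-(3 / 4) : ℝ)) (a := 0)
      (b := 1) 1
    rw [this, sub_self, sub_zero, integral_rpow (Or.inl (by norm_num))]
    norm_num
  rw [integral_mul_const, h2] at h1
  have e3 : √t * t ^ (-(1 / 4) : ℝ) = t ^ (1 / 4 : ℝ) := by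
    rw [Real.sqrt_eq_rpow, ← Real.rpow_add ht0]; norm_num
  have h5 : √2 ≤ 2 := by
    rw [Real.sqrt_le_left (by norm_num)]; norm_num
  have h6 : 0 < t ^ (1 / 4 : ℝ) := Real.rpow_pos_of_pos ht0 _
  calc √t * _ ≤ √t * (4 * (√2 * M * t ^ (-(1 / 4) : ℝ) * √|x - y|)) :=
        mul_le_mul_of_nonneg_left h1 (Real.sqrt_nonneg _)
    _ = √2 * (4 * M * (√t * t ^ (-(1 / 4) : ℝ)) * √|x - y|) := by ring
    _ = √2 * (4 * M * t ^ (1 / 4 : ℝ) * √|x - y|) := by rw [e3]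
    _ ≤ 2 * (4 * M * t ^ (1 / 4 : ℝ) * √|x - y|) :=
        mul_le_mul_of_nonneg_right h5 (by positivity)
    _ = _ := by ring

/-- Sine coefficients of the Duhamel term. -/
theorem duh_coeff {T : ℝ} {F : ℝ → ℝ → ℝ} {M : ℝ} (hF : Adm T F M) {t : ℝ} (ht : t ∈ Ioc 0 T)
    (j : ℕ) :
    ∫ x in (0 : ℝ)..1, duh F t x * Real.sin (j * π * x) =
      -(j * π) * ∫ s in (0 : ℝ)..t, Real.exp (-(π ^ 2 * j ^ 2 * (t - s))) *
        ∫ x in (0 : ℝ)..1, F s x * Real.cos (j * π * x) := by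
  have ht0 : 0 < t := ht.1
  have hM0 : 0 ≤ M := le_trans (abs_nonneg _) (hF.bd t ht 0 ⟨le_refl _, by norm_num⟩)
  set H : ℝ → ℝ → ℝ := fun x σ => (1 - σ) ^ (-(1 / 2) : ℝ) *
    cv g1 (√(t * (1 - σ))) (evenExt (F (t * σ))) x * Real.sin (j * π * x) with hH
  have hcontH : ContinuousOn (Function.uncurry H) (Ioo (0 : ℝ) 1 ×ˢ Ioo (0 : ℝ) 1) := by
    have h1 : ContinuousOn (fun p : ℝ × ℝ => (1 - p.2) ^ (-(1 / 2) : ℝ))
        (Ioo (0 : ℝ) 1 ×ˢ Ioo (0 : ℝ) 1) := by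
      apply ContinuousOn.rpow_const (by fun_prop)
      intro p hp
      left
      have := hp.2.2
      linarith
    have h2 : ContinuousOn (fun p : ℝ × ℝ => (p.2, t, p.1))
        (Ioo (0 : ℝ) 1 ×ˢ Ioo (0 : ℝ) 1) := by fun_prop
    have h3 := (continuousOn_cv_slice integrable_g1 hF).comp h2
      (fun p hp => ⟨hp.2, ht, mem_univ _⟩)
    have h4 : ContinuousOn (fun p : ℝ × ℝ => Real.sin (j * π * p.1))
        (Ioo (0 : ℝ) 1 ×ˢ Ioo (0 : ℝ) 1) := by fun_prop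
    exact (h1.mul h3).mul h4
  have hint : Integrable (Function.uncurry H)
      ((volume.restrict (Ioo (0 : ℝ) 1)).prod (volume.restrict (Ioo (0 : ℝ) 1))) := by
    have hb : Integrable (fun p : ℝ × ℝ => (1 : ℝ) * ((1 - p.2) ^ (-(1 / 2) : ℝ) * M))
        ((volume.restrict (Ioo (0 : ℝ) 1)).prod (volume.restrict (Ioo (0 : ℝ) 1))) := by
      have c1 : Integrable (fun _ : ℝ => (1 : ℝ)) (volume.restrict (Ioo (0 : ℝ) 1)) :=
        integrable_const _
      have c2 : Integrable (fun σ : ℝ => (1 - σ) ^ (-(1 / 2) : ℝ) * M)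
          (volume.restrict (Ioo (0 : ℝ) 1)) :=
        (integrableOn_one_sub_rpow (by norm_num)).mul_const _
      exact c1.mul_prod c2
    refine Integrable.mono' hb ?_ ?_
    · rw [Measure.prod_restrict]
      exact hcontH.aestronglyMeasurable (measurableSet_Ioo.prod measurableSet_Ioo)
    · rw [Measure.prod_restrict]
      refine (ae_restrict_iff' (measurableSet_Ioo.prod measurableSet_Ioo)).2
        (Filter.Eventually.of_forall fun p hp => ?_)
      have hσ := hp.2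
      have hσ1 : 0 < 1 - p.2 := by linarith [hσ.2]
      have hs := Adm.mul_mem ht hσ
      have hsl := continuous_evenExt (hF.slice hs)
      have hbd : ∀ y, |evenExt (F (t * p.2)) y| ≤ M := fun y => abs_evenExt_le (hF.bd _ hs) y
      have h1 : |cv g1 (√(t * (1 - p.2))) (evenExt (F (t * p.2))) p.1| ≤ M :=
        (abs_cv_le integrable_g1 hsl.measurable hbd _ _).trans (by
          calc M * ∫ z, |g1 z| ≤ M * 1 := mul_le_mul_of_nonneg_left integral_abs_g1_le hM0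
            _ = M := mul_one _)
      show ‖(1 - p.2) ^ (-(1 / 2) : ℝ) * cv g1 (√(t * (1 - p.2))) (evenExt (F (t * p.2))) p.1 *
        Real.sin (j * π * p.1)‖ ≤ 1 * ((1 - p.2) ^ (-(1 / 2) : ℝ) * M)
      rw [norm_mul, norm_mul, Real.norm_eq_abs, Real.norm_eq_abs, Real.norm_eq_abs,
        abs_of_pos (Real.rpow_pos_of_pos hσ1 _), one_mul]
      have h2 := Real.abs_sin_le_one (j * π * p.1)
      have h3 : 0 ≤ (1 - p.2) ^ (-(1 / 2) : ℝ) := (Real.rpow_pos_of_pos hσ1 _).le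
      calc (1 - p.2) ^ (-(1 / 2) : ℝ) * |cv g1 (√(t * (1 - p.2))) (evenExt (F (t * p.2))) p.1| *
            |Real.sin (j * π * p.1)|
          ≤ (1 - p.2) ^ (-(1 / 2) : ℝ) * M * 1 := by
            apply mul_le_mul _ h2 (abs_nonneg _) (by positivity)
            exact mul_le_mul_of_nonneg_left h1 h3
        _ = _ := mul_one _
  have hL : ∫ x in (0 : ℝ)..1, duh F t x * Real.sin (j * π * x) =
      √t * ∫ x in Ioo (0 : ℝ) 1, ∫ σ in Ioo (0 : ℝ) 1, H x σ := by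
    rw [intervalIntegral.integral_of_le (by norm_num), integral_Ioc_eq_integral_Ioo,
      ← integral_const_mul]
    refine setIntegral_congr_fun measurableSet_Ioo fun x _ => ?_
    show duh F t x * Real.sin (j * π * x) = √t * ∫ σ in Ioo (0 : ℝ) 1, H x σ
    rw [duh_eq, mul_assoc, ← integral_mul_const]
  rw [hL, integral_integral_swap hint]
  have hR := intervalIntegral.integral_comp_mul_left
    (fun s => Real.exp (-(π ^ 2 * j ^ 2 * (t - s))) *
        ∫ x in (0 : ℝ)..1, F s x * Real.cos (j * π * x)) (a := 0) (b := 1) ht0.ne'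
  simp only [mul_zero, mul_one, smul_eq_mul] at hR
  have h2 : ∫ s in (0 : ℝ)..t, Real.exp (-(π ^ 2 * j ^ 2 * (t - s))) *
        ∫ x in (0 : ℝ)..1, F s x * Real.cos (j * π * x) =
      t * ∫ σ in (0 : ℝ)..1, Real.exp (-(π ^ 2 * j ^ 2 * (t - t * σ))) *
        ∫ x in (0 : ℝ)..1, F (t * σ) x * Real.cos (j * π * x) := by
    rw [hR]; field_simp
  rw [h2]
  rw [intervalIntegral.integral_of_le (by norm_num : (0 : ℝ) ≤ 1)
    (f := fun σ => Real.exp (-(π ^ 2 * j ^ 2 * (t - t * σ))) *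
        ∫ x in (0 : ℝ)..1, F (t * σ) x * Real.cos (j * π * x)), integral_Ioc_eq_integral_Ioo,
    ← integral_const_mul, ← integral_const_mul, ← integral_const_mul]
  refine setIntegral_congr_fun measurableSet_Ioo fun σ hσ => ?_
  have hσ1 : 0 < 1 - σ := by linarith [hσ.2]
  have hs := Adm.mul_mem ht hσ
  have hc := Adm.mul_mem_uIoo ht hσ
  have h3 := cv_g1_coeff (hF.slice hs) (√(t * (1 - σ))) j
  show √t * ∫ x in Ioo (0 : ℝ) 1, H x σ = _
  have h4 : ∫ x in Ioo (0 : ℝ) 1, H x σ = (1 - σ) ^ (-(1 / 2) : ℝ) *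
      ∫ x in (0 : ℝ)..1, cv g1 (√(t * (1 - σ))) (evenExt (F (t * σ))) x *
        Real.sin (j * π * x) := by
    rw [intervalIntegral.integral_of_le (by norm_num), integral_Ioc_eq_integral_Ioo,
      ← integral_const_mul]
    refine setIntegral_congr_fun measurableSet_Ioo fun x _ => ?_
    show (1 - σ) ^ (-(1 / 2) : ℝ) * cv g1 (√(t * (1 - σ))) (evenExt (F (t * σ))) x *
      Real.sin (j * π * x) = _
    ring
  rw [h4, h3]
  have e1 : √t * ((1 - σ) ^ (-(1 / 2) : ℝ) * √(t * (1 - σ))) = t := by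
    rw [Real.sqrt_mul ht0.le, Real.rpow_neg hσ1.le, ← Real.sqrt_eq_rpow]
    have a2 : √(1 - σ) ≠ 0 := (Real.sqrt_pos.2 hσ1).ne'
    calc √t * ((√(1 - σ))⁻¹ * (√t * √(1 - σ)))
        = (√t * √t) * ((√(1 - σ))⁻¹ * √(1 - σ)) := by ring
      _ = t := by rw [inv_mul_cancel₀ a2, Real.mul_self_sqrt ht0.le, mul_one]
  have e2 : (j * π * √(t * (1 - σ))) ^ 2 = π ^ 2 * j ^ 2 * (t - t * σ) := by
    rw [mul_pow, Real.sq_sqrt hc.le]; ring
  rw [e2]
  calc √t * ((1 - σ) ^ (-(1 / 2) : ℝ) * (-(j * π * √(t * (1 - σ))) *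
        Real.exp (-(π ^ 2 * j ^ 2 * (t - t * σ))) *
          ∫ x in (0 : ℝ)..1, F (t * σ) x * Real.cos (j * π * x)))
      = (√t * ((1 - σ) ^ (-(1 / 2) : ℝ) * √(t * (1 - σ)))) * (-(j * π) *
          (Real.exp (-(π ^ 2 * j ^ 2 * (t - t * σ))) *
          ∫ x in (0 : ℝ)..1, F (t * σ) x * Real.cos (j * π * x))) := by ring
    _ = _ := by rw [e1]; ring

end Pool.Agent.Burg
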