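import Pool.Agent.Helper46_Burg.DuhDefs

/-!
Module DUH-B: joint continuity and space derivative of the Duhamel term.
-/

set_option autoImplicit false

open MeasureTheory Set Filter Topology
open scoped Real ENNReal

noncomputable section

namespace Pool.Agent.Burg

theorem Adm.slice {T : ℝ} {F : ℝ → ℝ → ℝ} {M : ℝ} (hF : Adm T F M) {t : ℝ}
    (ht : t ∈ Ioc 0 T) : ContinuousOn (F t) (Icc 0 1) := by
  have h : ContinuousOn (fun x : ℝ => (t, x)) (Icc 0 1) := by fun_prop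
  exact hF.cont.comp h (fun x hx => ⟨ht, hx⟩)

theorem Adm.mul_mem {T t σ : ℝ} (ht : t ∈ Ioc 0 T) (hσ : σ ∈ Ioo (0 : ℝ) 1) :
    t * σ ∈ Ioc 0 T := by
  obtain ⟨h1, h2⟩ := ht
  obtain ⟨h3, h4⟩ := hσ
  refine ⟨by positivity, ?_⟩
  nlinarith

theorem Adm.mul_mem_uIoo {T t σ : ℝ} (ht : t ∈ Ioc 0 T) (hσ : σ ∈ Ioo (0 : ℝ) 1) :
    0 < t * (1 - σ) := by
  obtain ⟨h1, h2⟩ := ht
  obtain ⟨h3, h4⟩ := hσ
  have : 0 < 1 - σ := by linarith
  positivity

/-- Joint continuity of a slice. -/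
theorem continuousOn_cv_slice {k : ℝ → ℝ} (hk : Integrable k) {T : ℝ}
    {F : ℝ → ℝ → ℝ} {M : ℝ} (hF : Adm T F M) :
    ContinuousOn (fun p : ℝ × ℝ × ℝ =>
      cv k (√(p.2.1 * (1 - p.1))) (evenExt (F (p.2.1 * p.1))) p.2.2)
      (Ioo 0 1 ×ˢ Ioc 0 T ×ˢ univ) := by
  unfold cv
  apply continuousOn_of_dominated (bound := fun z => M * |k z|)
  · intro p hp
    obtain ⟨h1, h2, -⟩ := hp
    have hs := hF.slice (Adm.mul_mem h2 h1)
    have hc := continuous_evenExt hs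
    exact hk.aestronglyMeasurable.mul (by
      apply Continuous.aestronglyMeasurable
      fun_prop)
  · intro p hp
    obtain ⟨h1, h2, -⟩ := hp
    refine Filter.Eventually.of_forall fun z => ?_
    rw [norm_mul, Real.norm_eq_abs, Real.norm_eq_abs, mul_comm]
    exact mul_le_mul_of_nonneg_right
      (abs_evenExt_le (hF.bd _ (Adm.mul_mem h2 h1)) _) (abs_nonneg _)
  · exact (hk.abs).const_mul M
  · refine Filter.Eventually.of_forall fun z => ?_
    apply ContinuousOn.mul continuousOn_const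
    have he : (fun p : ℝ × ℝ × ℝ => evenExt (F (p.2.1 * p.1)) (p.2.2 - √(p.2.1 * (1 - p.1)) * z)) =
        fun p => (Function.uncurry F) (p.2.1 * p.1, tri (p.2.2 - √(p.2.1 * (1 - p.1)) * z)) := rfl
    rw [he]
    apply hF.cont.comp
    · apply ContinuousOn.prodMk
      · fun_prop
      · have := continuous_tri
        fun_prop
    · intro p hp
      obtain ⟨h1, h2, -⟩ := hp
      exact ⟨Adm.mul_mem h2 h1, tri_mem _⟩

theorem aesm_slice {k : ℝ → ℝ} (hk : Integrable k) {T : ℝ}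
    {F : ℝ → ℝ → ℝ} {M : ℝ} (hF : Adm T F M) {t : ℝ} (ht : t ∈ Ioc 0 T) (x e : ℝ) :
    AEStronglyMeasurable (fun σ : ℝ =>
      (1 - σ) ^ e * cv k (√(t * (1 - σ))) (evenExt (F (t * σ))) x)
      (volume.restrict (Ioo 0 1)) := by
  apply ContinuousOn.aestronglyMeasurable _ measurableSet_Ioo
  apply ContinuousOn.mul
  · apply ContinuousOn.rpow_const (by fun_prop)
    intro σ hσ
    left
    have := hσ.2
    linarith
  · have h : ContinuousOn (fun σ : ℝ => (σ, t, x)) (Ioo 0 1) := by fun_prop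
    exact (continuousOn_cv_slice hk hF).comp h (fun σ hσ => ⟨hσ, ht, mem_univ _⟩)

theorem contOn_slice {k : ℝ → ℝ} (hk : Integrable k) {T : ℝ}
    {F : ℝ → ℝ → ℝ} {M : ℝ} (hF : Adm T F M) {σ : ℝ} (hσ : σ ∈ Ioo (0 : ℝ) 1) (e : ℝ) :
    ContinuousOn (fun p : ℝ × ℝ =>
      (1 - σ) ^ e * cv k (√(p.1 * (1 - σ))) (evenExt (F (p.1 * σ))) p.2)
      (Ioc 0 T ×ˢ univ) := by
  apply ContinuousOn.mul continuousOn_const
  have h : ContinuousOn (fun p : ℝ × ℝ => (σ, p.1, p.2)) (Ioc 0 T ×ˢ univ) := by fun_prop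
  exact (continuousOn_cv_slice hk hF).comp h (fun p hp => ⟨hσ, hp.1, mem_univ _⟩)

/-- Integrability of `(1-σ)^e`, `e > -1`. -/
theorem integrableOn_one_sub_rpow {e : ℝ} (he : -1 < e) :
    IntegrableOn (fun σ : ℝ => (1 - σ) ^ e) (Ioo 0 1) := by
  have h : IntervalIntegrable (fun x : ℝ => x ^ e) volume 0 1 :=
    intervalIntegral.intervalIntegrable_rpow' he
  have h2 := h.comp_sub_left 1
  simp only [sub_zero, sub_self] at h2
  have h3 := h2.symm
  rw [intervalIntegrable_iff_integrableOn_Ioo_of_le (by norm_num)] at h3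
  exact h3

theorem integrableOn_rpow_Ioo {e : ℝ} (he : -1 < e) :
    IntegrableOn (fun σ : ℝ => σ ^ e) (Ioo 0 1) := by
  have h : IntervalIntegrable (fun x : ℝ => x ^ e) volume 0 1 :=
    intervalIntegral.intervalIntegrable_rpow' he
  rw [intervalIntegrable_iff_integrableOn_Ioo_of_le (by norm_num)] at h
  exact h

/-- Integrability of the beta weight. -/
theorem integrableOn_beta :
    IntegrableOn (fun σ : ℝ => σ ^ (-(1 / 4) : ℝ) * (1 - σ) ^ (-(3 / 4) : ℝ)) (Ioo 0 1) := by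
  have hb : IntegrableOn (fun σ : ℝ => 2 * (σ ^ (-(1 / 4) : ℝ) + (1 - σ) ^ (-(3 / 4) : ℝ)))
      (Ioo 0 1) := by
    exact ((integrableOn_rpow_Ioo (by norm_num)).add
      (integrableOn_one_sub_rpow (by norm_num))).const_mul 2
  refine Integrable.mono' hb ?_ ?_
  · apply ContinuousOn.aestronglyMeasurable _ measurableSet_Ioo
    apply ContinuousOn.mul
    · apply ContinuousOn.rpow_const (by fun_prop)
      intro σ hσ
      left
      have := hσ.1
      linarith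
    · apply ContinuousOn.rpow_const (by fun_prop)
      intro σ hσ
      left
      have := hσ.2
      linarith
  · refine (ae_restrict_iff' measurableSet_Ioo).2 (Filter.Eventually.of_forall fun σ hσ => ?_)
    have h1 := hσ.1
    have h2 : 0 < 1 - σ := by linarith [hσ.2]
    have p1 : 0 < σ ^ (-(1 / 4) : ℝ) := by positivity
    have p2 : 0 < (1 - σ) ^ (-(3 / 4) : ℝ) := by positivity
    rw [Real.norm_eq_abs, abs_of_pos (by positivity)]
    have key : ∀ x : ℝ, 1 / 2 ≤ x → ∀ e : ℝ, -1 ≤ e → e ≤ 0 → x ^ e ≤ 2 := by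
      intro x hx e he he0
      have hx0 : 0 < x := by linarith
      calc x ^ e ≤ (1 / 2 : ℝ) ^ e := Real.rpow_le_rpow_of_nonpos (by norm_num) hx he0
        _ ≤ (1 / 2 : ℝ) ^ (-1 : ℝ) :=
            Real.rpow_le_rpow_of_exponent_ge (by norm_num) (by norm_num) he
        _ = 2 := by rw [Real.rpow_neg_one]; norm_num
    by_cases hh : σ ≤ 1 / 2
    · have := key (1 - σ) (by linarith) (-(3 / 4)) (by norm_num) (by norm_num)
      nlinarith
    · have := key σ (by linarith) (-(1 / 4)) (by norm_num) (by norm_num)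
      nlinarith

theorem continuousOn_duh {T : ℝ} {F : ℝ → ℝ → ℝ} {M : ℝ} (hF : Adm T F M) :
    ContinuousOn (Function.uncurry (duh F)) (Ioc 0 T ×ˢ univ) := by
  have he : Function.uncurry (duh F) = fun p : ℝ × ℝ => √p.1 * ∫ σ in Ioo (0 : ℝ) 1,
      (1 - σ) ^ (-(1 / 2) : ℝ) * cv g1 (√(p.1 * (1 - σ))) (evenExt (F (p.1 * σ))) p.2 := by
    funext p
    simp only [Function.uncurry, duh]
    rw [intervalIntegral.integral_of_le (by norm_num), integral_Ioc_eq_integral_Ioo]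
  rw [he]
  apply ContinuousOn.mul (by fun_prop)
  apply continuousOn_of_dominated
    (bound := fun σ => (1 - σ) ^ (-(1 / 2) : ℝ) * (M * ∫ z, |g1 z|))
  · intro p hp
    exact aesm_slice integrable_g1 hF hp.1 _ _
  · intro p hp
    refine (ae_restrict_iff' measurableSet_Ioo).2 (Filter.Eventually.of_forall fun σ hσ => ?_)
    have h2 : 0 < 1 - σ := by linarith [hσ.2]
    rw [norm_mul, Real.norm_eq_abs, abs_of_pos (by positivity)]
    refine mul_le_mul_of_nonneg_left ?_ (by positivity)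
    have hs := hF.slice (Adm.mul_mem hp.1 hσ)
    exact abs_cv_le integrable_g1 (continuous_evenExt hs).measurable
      (fun x => abs_evenExt_le (hF.bd _ (Adm.mul_mem hp.1 hσ)) x) _ _
  · exact (integrableOn_one_sub_rpow (by norm_num)).mul_const _
  · refine (ae_restrict_iff' measurableSet_Ioo).2 (Filter.Eventually.of_forall fun σ hσ => ?_)
    exact contOn_slice integrable_g1 hF hσ _

/-- The constant in the Hölder hypothesis is nonnegative. -/
theorem holder_const_nonneg {T : ℝ} {F : ℝ → ℝ → ℝ} {K : ℝ}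
    (hK : ∀ s ∈ Ioc 0 T, ∀ x ∈ Icc (0 : ℝ) 1, ∀ y ∈ Icc (0 : ℝ) 1,
      |F s x - F s y| ≤ K * s ^ (-(1 / 4) : ℝ) * √|x - y|)
    {t : ℝ} (ht : t ∈ Ioc 0 T) : 0 ≤ K := by
  have h := hK t ht 1 ⟨by norm_num, le_refl _⟩ 0 ⟨le_refl _, by norm_num⟩
  have h2 : 0 ≤ K * t ^ (-(1 / 4) : ℝ) := by
    have : √|(1 : ℝ) - 0| = 1 := by norm_num
    rw [this, mul_one] at h
    exact le_trans (abs_nonneg _) h
  have h3 : 0 < t ^ (-(1 / 4) : ℝ) := Real.rpow_pos_of_pos ht.1 _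
  by_contra hn
  push Not at hn
  nlinarith

/-- Bound of the slice of the derivative. -/
theorem abs_cv_g2_le {T : ℝ} {F : ℝ → ℝ → ℝ} {M K : ℝ} (hF : Adm T F M)
    (hK : ∀ s ∈ Ioc 0 T, ∀ x ∈ Icc (0 : ℝ) 1, ∀ y ∈ Icc (0 : ℝ) 1,
      |F s x - F s y| ≤ K * s ^ (-(1 / 4) : ℝ) * √|x - y|)
    {t : ℝ} (ht : t ∈ Ioc 0 T) {σ : ℝ} (hσ : σ ∈ Ioo (0 : ℝ) 1) (x : ℝ) :
    |(1 - σ) ^ (-1 : ℝ) * cv g2 (√(t * (1 - σ))) (evenExt (F (t * σ))) x| ≤
      σ ^ (-(1 / 4) : ℝ) * (1 - σ) ^ (-(3 / 4) : ℝ) * (K * ∫ z, √|z| * |g2 z|) := by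
  have hs := Adm.mul_mem ht hσ
  have hc := Adm.mul_mem_uIoo ht hσ
  have hσ0 : 0 < σ := hσ.1
  have hσ1 : 0 < 1 - σ := by linarith [hσ.2]
  have ht0 : 0 < t := ht.1
  set s := t * σ with hsdef
  set c := √(t * (1 - σ)) with hcdef
  have hc0 : 0 < c := Real.sqrt_pos.2 hc
  have hcont := continuous_evenExt (hF.slice hs)
  have hbd : ∀ y, |evenExt (F s) y| ≤ M := fun y => abs_evenExt_le (hF.bd _ hs) y
  have e1 : cv g2 c (evenExt (F s)) x =
      ∫ z, g2 z * (evenExt (F s) (x - c * z) - evenExt (F s) x) := by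
    have h1 := integrable_cv integrable_g2 hcont.measurable hbd c x
    have h2 : Integrable (fun z => g2 z * evenExt (F s) x) := integrable_g2.mul_const _
    have h3 : (fun z => g2 z * (evenExt (F s) (x - c * z) - evenExt (F s) x)) =
        fun z => g2 z * evenExt (F s) (x - c * z) - g2 z * evenExt (F s) x := by
      funext z; ring
    rw [h3, integral_sub h1 h2, integral_mul_const, integral_g2, zero_mul, sub_zero]
    rfl
  have hK0 := holder_const_nonneg hK ht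
  have e2 : |cv g2 c (evenExt (F s)) x| ≤
      ∫ z, (K * s ^ (-(1 / 4) : ℝ) * √c) * (√|z| * |g2 z|) := by
    rw [e1]
    refine le_trans (abs_integral_le_integral_abs) ?_
    apply integral_mono_of_nonneg
    · exact Filter.Eventually.of_forall fun z => abs_nonneg _
    · exact integrable_sqrt_mul_abs_g2.const_mul _
    · refine Filter.Eventually.of_forall fun z => ?_
      show |g2 z * (evenExt (F s) (x - c * z) - evenExt (F s) x)| ≤
        (K * s ^ (-(1 / 4) : ℝ) * √c) * (√|z| * |g2 z|)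
      rw [abs_mul]
      have h4 : |evenExt (F s) (x - c * z) - evenExt (F s) x| ≤
          K * s ^ (-(1 / 4) : ℝ) * √|tri (x - c * z) - tri x| :=
        hK s hs _ (tri_mem _) _ (tri_mem _)
      have h5 : √|tri (x - c * z) - tri x| ≤ √c * √|z| := by
        rw [← Real.sqrt_mul hc0.le]
        apply Real.sqrt_le_sqrt
        have := abs_tri_sub_le (x - c * z) x
        have h6 : |x - c * z - x| = c * |z| := by
          have : x - c * z - x = -(c * z) := by ring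
          rw [this, abs_neg, abs_mul, abs_of_pos hc0]
        rw [h6] at this
        exact this
      have hsp : 0 < s ^ (-(1 / 4) : ℝ) := Real.rpow_pos_of_pos hs.1 _
      have h7 : K * s ^ (-(1 / 4) : ℝ) * √|tri (x - c * z) - tri x| ≤
          K * s ^ (-(1 / 4) : ℝ) * (√c * √|z|) :=
        mul_le_mul_of_nonneg_left h5 (by positivity)
      calc |g2 z| * |evenExt (F s) (x - c * z) - evenExt (F s) x|
          ≤ |g2 z| * (K * s ^ (-(1 / 4) : ℝ) * (√c * √|z|)) :=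
            mul_le_mul_of_nonneg_left (h4.trans h7) (abs_nonneg _)
        _ = (K * s ^ (-(1 / 4) : ℝ) * √c) * (√|z| * |g2 z|) := by ring
  rw [integral_const_mul] at e2
  rw [abs_mul, abs_of_pos (Real.rpow_pos_of_pos hσ1 _)]
  have hI : 0 ≤ ∫ z, √|z| * |g2 z| := integral_nonneg fun z => by positivity
  calc (1 - σ) ^ (-1 : ℝ) * |cv g2 c (evenExt (F s)) x|
      ≤ (1 - σ) ^ (-1 : ℝ) * (K * s ^ (-(1 / 4) : ℝ) * √c * ∫ z, √|z| * |g2 z|) :=
        mul_le_mul_of_nonneg_left e2 (by positivity)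
    _ = ((1 - σ) ^ (-1 : ℝ) * (s ^ (-(1 / 4) : ℝ) * √c)) * (K * ∫ z, √|z| * |g2 z|) := by ring
    _ = σ ^ (-(1 / 4) : ℝ) * (1 - σ) ^ (-(3 / 4) : ℝ) * (K * ∫ z, √|z| * |g2 z|) := by
        congr 1
        have hsc : √c = t ^ (1 / 4 : ℝ) * (1 - σ) ^ (1 / 4 : ℝ) := by
          rw [hcdef, Real.sqrt_eq_rpow, Real.sqrt_eq_rpow, ← Real.rpow_mul hc.le,
            Real.mul_rpow ht0.le hσ1.le]
          norm_num
        rw [hsc, hsdef, Real.mul_rpow ht0.le hσ0.le]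
        have a1 : t ^ (-(1 / 4) : ℝ) * t ^ (1 / 4 : ℝ) = 1 := by
          rw [← Real.rpow_add ht0]; norm_num
        have a2 : (1 - σ) ^ (-1 : ℝ) * (1 - σ) ^ (1 / 4 : ℝ) = (1 - σ) ^ (-(3 / 4) : ℝ) := by
          rw [← Real.rpow_add hσ1]; norm_num
        calc (1 - σ) ^ (-1 : ℝ) * (t ^ (-(1 / 4) : ℝ) * σ ^ (-(1 / 4) : ℝ) *
              (t ^ (1 / 4 : ℝ) * (1 - σ) ^ (1 / 4 : ℝ)))
            = (t ^ (-(1 / 4) : ℝ) * t ^ (1 / 4 : ℝ)) * (σ ^ (-(1 / 4) : ℝ) *
                ((1 - σ) ^ (-1 : ℝ) * (1 - σ) ^ (1 / 4 : ℝ))) := by ring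
          _ = σ ^ (-(1 / 4) : ℝ) * (1 - σ) ^ (-(3 / 4) : ℝ) := by rw [a1, a2, one_mul]

theorem integrable_slice_g1 {T : ℝ} {F : ℝ → ℝ → ℝ} {M : ℝ} (hF : Adm T F M) {t : ℝ}
    (ht : t ∈ Ioc 0 T) (x : ℝ) :
    IntegrableOn (fun σ : ℝ =>
      (1 - σ) ^ (-(1 / 2) : ℝ) * cv g1 (√(t * (1 - σ))) (evenExt (F (t * σ))) x) (Ioo 0 1) := by
  refine Integrable.mono' ((integrableOn_one_sub_rpow (e := -(1 / 2))
    (by norm_num)).mul_const (M * ∫ z, |g1 z|)) (aesm_slice integrable_g1 hF ht _ _) ?_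
  refine (ae_restrict_iff' measurableSet_Ioo).2 (Filter.Eventually.of_forall fun σ hσ => ?_)
  have h2 : 0 < 1 - σ := by linarith [hσ.2]
  rw [norm_mul, Real.norm_eq_abs, abs_of_pos (by positivity)]
  refine mul_le_mul_of_nonneg_left ?_ (by positivity)
  have hs := hF.slice (Adm.mul_mem ht hσ)
  exact abs_cv_le integrable_g1 (continuous_evenExt hs).measurable
    (fun x => abs_evenExt_le (hF.bd _ (Adm.mul_mem ht hσ)) x) _ _

theorem hasDerivAt_duh {T : ℝ} {F : ℝ → ℝ → ℝ} {M K : ℝ} (hF : Adm T F M)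
    (hK : ∀ s ∈ Ioc 0 T, ∀ x ∈ Icc (0 : ℝ) 1, ∀ y ∈ Icc (0 : ℝ) 1,
      |F s x - F s y| ≤ K * s ^ (-(1 / 4) : ℝ) * √|x - y|)
    {t : ℝ} (ht : t ∈ Ioc 0 T) (x : ℝ) : HasDerivAt (duh F t) (duh' F t x) x := by
  have ht0 : 0 < t := ht.1
  have he : duh F t = fun y => ∫ σ in Ioo (0 : ℝ) 1, √t *
      ((1 - σ) ^ (-(1 / 2) : ℝ) * cv g1 (√(t * (1 - σ))) (evenExt (F (t * σ))) y) := by
    funext y
    rw [integral_const_mul]
    simp only [duh]
    rw [intervalIntegral.integral_of_le (by norm_num), integral_Ioc_eq_integral_Ioo]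
  have he' : duh' F t x = ∫ σ in Ioo (0 : ℝ) 1,
      (1 - σ) ^ (-1 : ℝ) * cv g2 (√(t * (1 - σ))) (evenExt (F (t * σ))) x := by
    simp only [duh']
    rw [intervalIntegral.integral_of_le (by norm_num), integral_Ioc_eq_integral_Ioo]
  rw [he, he']
  refine (hasDerivAt_integral_of_dominated_loc_of_deriv_le (μ := volume.restrict (Ioo (0 : ℝ) 1))
    (s := univ)
    (F := fun y σ => √t *
      ((1 - σ) ^ (-(1 / 2) : ℝ) * cv g1 (√(t * (1 - σ))) (evenExt (F (t * σ))) y))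
    (F' := fun y σ => (1 - σ) ^ (-1 : ℝ) * cv g2 (√(t * (1 - σ))) (evenExt (F (t * σ))) y)
    (bound := fun σ => σ ^ (-(1 / 4) : ℝ) * (1 - σ) ^ (-(3 / 4) : ℝ) *
      (K * ∫ z, √|z| * |g2 z|)) univ_mem ?_ ?_ ?_ ?_ ?_ ?_).2
  · exact Filter.Eventually.of_forall fun y => (aesm_slice integrable_g1 hF ht _ _).const_mul _
  · exact (integrable_slice_g1 hF ht x).const_mul _
  · exact aesm_slice integrable_g2 hF ht _ _
  · refine (ae_restrict_iff' measurableSet_Ioo).2 (Filter.Eventually.of_forall fun σ hσ y _ => ?_)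
    exact abs_cv_g2_le hF hK ht hσ y
  · exact integrableOn_beta.mul_const _
  · refine (ae_restrict_iff' measurableSet_Ioo).2 (Filter.Eventually.of_forall fun σ hσ y _ => ?_)
    have hs := Adm.mul_mem ht hσ
    have hc := Adm.mul_mem_uIoo ht hσ
    have hσ1 : 0 < 1 - σ := by linarith [hσ.2]
    have h := hasDerivAt_cv_g1 (continuous_evenExt (hF.slice hs)).measurable
      (fun x => abs_evenExt_le (hF.bd _ hs) x) (Real.sqrt_pos.2 hc) y
    have h2 := (h.const_mul ((1 - σ) ^ (-(1 / 2) : ℝ))).const_mul (√t)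
    refine h2.congr_deriv ?_
    have e1 : √t * ((1 - σ) ^ (-(1 / 2) : ℝ) * (√(t * (1 - σ)))⁻¹) = (1 - σ) ^ (-1 : ℝ) := by
      rw [Real.sqrt_mul ht0.le, Real.rpow_neg hσ1.le, Real.rpow_neg_one, ← Real.sqrt_eq_rpow]
      have a1 : √t ≠ 0 := (Real.sqrt_pos.2 ht0).ne'
      have a2 : √(1 - σ) ≠ 0 := (Real.sqrt_pos.2 hσ1).ne'
      have a3 : √(1 - σ) * √(1 - σ) = 1 - σ := Real.mul_self_sqrt hσ1.le
      rw [mul_inv]
      calc √t * ((√(1 - σ))⁻¹ * ((√t)⁻¹ * (√(1 - σ))⁻¹))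
          = (√t * (√t)⁻¹) * (√(1 - σ) * √(1 - σ))⁻¹ := by rw [mul_inv]; ring
        _ = (1 - σ)⁻¹ := by rw [mul_inv_cancel₀ a1, a3, one_mul]
    calc √t * ((1 - σ) ^ (-(1 / 2) : ℝ) * ((√(t * (1 - σ)))⁻¹ *
          cv g2 (√(t * (1 - σ))) (evenExt (F (t * σ))) y))
        = (√t * ((1 - σ) ^ (-(1 / 2) : ℝ) * (√(t * (1 - σ)))⁻¹)) *
          cv g2 (√(t * (1 - σ))) (evenExt (F (t * σ))) y := by ring
      _ = _ := by rw [e1]

theorem continuousOn_duh' {T : ℝ} {F : ℝ → ℝ → ℝ} {M K : ℝ} (hF : Adm T F M)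
    (hK : ∀ s ∈ Ioc 0 T, ∀ x ∈ Icc (0 : ℝ) 1, ∀ y ∈ Icc (0 : ℝ) 1,
      |F s x - F s y| ≤ K * s ^ (-(1 / 4) : ℝ) * √|x - y|) :
    ContinuousOn (Function.uncurry (duh' F)) (Ioc 0 T ×ˢ univ) := by
  have he : Function.uncurry (duh' F) = fun p : ℝ × ℝ => ∫ σ in Ioo (0 : ℝ) 1,
      (1 - σ) ^ (-1 : ℝ) * cv g2 (√(p.1 * (1 - σ))) (evenExt (F (p.1 * σ))) p.2 := by
    funext p
    simp only [Function.uncurry, duh']
    rw [intervalIntegral.integral_of_le (by norm_num), integral_Ioc_eq_integral_Ioo]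
  rw [he]
  apply continuousOn_of_dominated
    (bound := fun σ => σ ^ (-(1 / 4) : ℝ) * (1 - σ) ^ (-(3 / 4) : ℝ) *
      (K * ∫ z, √|z| * |g2 z|))
  · intro p hp
    exact aesm_slice integrable_g2 hF hp.1 _ _
  · intro p hp
    refine (ae_restrict_iff' measurableSet_Ioo).2 (Filter.Eventually.of_forall fun σ hσ => ?_)
    exact abs_cv_g2_le hF hK hp.1 hσ p.2
  · exact integrableOn_beta.mul_const _
  · refine (ae_restrict_iff' measurableSet_Ioo).2 (Filter.Eventually.of_forall fun σ hσ => ?_)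
    exact contOn_slice integrable_g2 hF hσ _

end Pool.Agent.Burg
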