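import Pool.Agent.Helper46_Burg.Ext

/-!
Definitions for module DUH.
-/

set_option autoImplicit false

open MeasureTheory Set Filter Topology
open scoped Real ENNReal

noncomputable section

namespace Pool.Agent.Burg

/-- Bounded functions, continuous on `(0,T] × [0,1]`. -/
structure Adm (T : ℝ) (F : ℝ → ℝ → ℝ) (M : ℝ) : Prop where
  cont : ContinuousOn (Function.uncurry F) (Ioc 0 T ×ˢ Icc 0 1)
  bd : ∀ t ∈ Ioc 0 T, ∀ x ∈ Icc (0 : ℝ) 1, |F t x| ≤ M

/-- Space derivative of `duh`. -/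
def duh' (F : ℝ → ℝ → ℝ) (t x : ℝ) : ℝ :=
  ∫ σ in (0 : ℝ)..1, (1 - σ) ^ (-1 : ℝ) * cv g2 (√(t * (1 - σ))) (evenExt (F (t * σ))) x

end Pool.Agent.Burg
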