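import Pool.Agent.Helper46_Burg.Exist
import Pool.Agent.Helper46_Burg.Flux
import Pool.Agent.Helper46_Burg.Tools

/-!
Module ENERGY: weighted energy identity for pieces, and the a priori sup bound.
(proofs by helper5)
-/

set_option autoImplicit false

open MeasureTheory Set Filter Topology
open scoped Real ENNReal NNReal

noncomputable section

namespace Pool.Agent.Burg

theorem continuousOn_slice₂ {s₁ s₂ : ℝ} {W V : ℝ → ℝ → ℝ}
    (hW : ContinuousOn (Function.uncurry W) (Icc s₁ s₂ ×ˢ Icc 0 1))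
    (hV : ContinuousOn (Function.uncurry V) (Icc s₁ s₂ ×ˢ Icc 0 1)) :
    ContinuousOn (fun p : ℝ × ℝ => ∫ x in (0 : ℝ)..1, W p.1 x * V p.2 x)
      (Icc s₁ s₂ ×ˢ Icc s₁ s₂) := by
  have : CompactSpace (Icc s₁ s₂ ×ˢ Icc s₁ s₂ : Set (ℝ × ℝ)) :=
    isCompact_iff_compactSpace.1 (isCompact_Icc.prod isCompact_Icc)
  rw [continuousOn_iff_continuous_domRestrict]
  let G : (Icc s₁ s₂ ×ˢ Icc s₁ s₂ : Set (ℝ × ℝ)) → ℝ → ℝ := fun p x =>
    W p.1.1 (projIcc (0:ℝ) 1 zero_le_one x) * V p.1.2 (projIcc (0:ℝ) 1 zero_le_one x)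
  have hG : Continuous (Function.uncurry G) := by
    have hpr : Continuous fun x : ℝ => ((projIcc (0:ℝ) 1 zero_le_one x : Icc (0:ℝ) 1) : ℝ) :=
      continuous_subtype_val.comp continuous_projIcc
    have h1 : Continuous fun p : (Icc s₁ s₂ ×ˢ Icc s₁ s₂ : Set (ℝ × ℝ)) × ℝ =>
        (p.1.1.1, ((projIcc (0:ℝ) 1 zero_le_one p.2 : Icc (0:ℝ) 1) : ℝ)) := by
      refine Continuous.prodMk ?_ (hpr.comp continuous_snd)
      exact continuous_fst.comp (continuous_subtype_val.comp continuous_fst)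
    have h2 : Continuous fun p : (Icc s₁ s₂ ×ˢ Icc s₁ s₂ : Set (ℝ × ℝ)) × ℝ =>
        (p.1.1.2, ((projIcc (0:ℝ) 1 zero_le_one p.2 : Icc (0:ℝ) 1) : ℝ)) := by
      refine Continuous.prodMk ?_ (hpr.comp continuous_snd)
      exact continuous_snd.comp (continuous_subtype_val.comp continuous_fst)
    exact (hW.comp_continuous h1 fun p => ⟨p.1.2.1, (projIcc (0:ℝ) 1 zero_le_one p.2).2⟩).mul
      (hV.comp_continuous h2 fun p => ⟨p.1.2.2, (projIcc (0:ℝ) 1 zero_le_one p.2).2⟩)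
  have h2 := continuous_parametric_integral_of_continuous (μ := volume) hG
    (isCompact_Icc (a := (0:ℝ)) (b := 1))
  convert h2 using 2 with t
  simp only [Set.domRestrict_apply]
  rw [intervalIntegral.integral_of_le zero_le_one, integral_Icc_eq_integral_Ioc]
  refine setIntegral_congr_fun measurableSet_Ioc fun x hx => ?_
  have : projIcc (0:ℝ) 1 zero_le_one x = ⟨x, Ioc_subset_Icc_self hx⟩ := projIcc_of_mem _ _
  simp only [G, this]

/-- Abstract energy identity. -/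
theorem energy_aux {s₁ s₂ : ℝ} (h12 : s₁ ≤ s₂) {W V : ℝ → ℝ → ℝ} {E : ℝ → ℝ}
    (hW : ContinuousOn (Function.uncurry W) (Icc s₁ s₂ ×ˢ Icc 0 1))
    (hV : ContinuousOn (Function.uncurry V) (Icc s₁ s₂ ×ˢ Icc 0 1))
    (hEc : ContinuousOn E (Icc s₁ s₂))
    (hE : ∀ s ∈ Icc s₁ s₂, ∀ t ∈ Icc s₁ s₂, s ≤ t →
      E t - E s = ∫ τ in s..t, ∫ x in (0:ℝ)..1, W τ x * (V s x + V t x)) :
    E s₂ - E s₁ = 2 * ∫ t in s₁..s₂, ∫ x in (0:ℝ)..1, W t x * V t x := by
  set J : ℝ × ℝ → ℝ := fun p => ∫ x in (0 : ℝ)..1, W p.1 x * V p.2 x with hJ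
  have hJc : ContinuousOn J (Icc s₁ s₂ ×ˢ Icc s₁ s₂) := continuousOn_slice₂ hW hV
  have hsplit : ∀ τ ∈ Icc s₁ s₂, ∀ s ∈ Icc s₁ s₂, ∀ t ∈ Icc s₁ s₂,
      (∫ x in (0:ℝ)..1, W τ x * (V s x + V t x)) = J (τ, s) + J (τ, t) := by
    intro τ hτ s hs t ht
    have hi : ∀ s ∈ Icc s₁ s₂, IntervalIntegrable (fun x => W τ x * V s x) volume 0 1 := by
      intro s hs
      apply ContinuousOn.intervalIntegrable
      rw [uIcc_of_le zero_le_one]
      exact (continuousOn_row hW hτ).mul (continuousOn_row hV hs)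
    rw [hJ]
    simp only
    rw [← intervalIntegral.integral_add (hi s hs) (hi t ht)]
    refine intervalIntegral.integral_congr fun x _ => ?_
    ring
  have hdiag : ContinuousOn (fun t => J (t, t)) (Icc s₁ s₂) :=
    hJc.comp (by fun_prop : Continuous fun t : ℝ => (t, t)).continuousOn fun t ht => ⟨ht, ht⟩
  have hder : ∀ t ∈ Ioo s₁ s₂, HasDerivWithinAt E (2 * J (t, t)) (Ioi t) t := by
    intro t ht
    have htI : t ∈ Icc s₁ s₂ := Ioo_subset_Icc_self ht
    rw [hasDerivWithinAt_iff_isLittleO, Asymptotics.isLittleO_iff]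
    intro ε hε
    have hct := hJc (t, t) ⟨htI, htI⟩
    rw [Metric.continuousWithinAt_iff] at hct
    obtain ⟨δ, hδ, hδ'⟩ := hct (ε / 2) (by positivity)
    have hmem : Ioo t (min s₂ (t + δ)) ∈ 𝓝[>] t :=
      Ioo_mem_nhdsGT (lt_min ht.2 (by linarith))
    filter_upwards [hmem] with s hs
    have hs2 : s < s₂ := lt_of_lt_of_le hs.2 (min_le_left _ _)
    have hs3 : s < t + δ := lt_of_lt_of_le hs.2 (min_le_right _ _)
    have hsI : s ∈ Icc s₁ s₂ := ⟨by linarith [ht.1, hs.1], hs2.le⟩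
    have hne : ∀ τ ∈ Icc t s, τ ∈ Icc s₁ s₂ := fun τ hτ =>
      ⟨by linarith [ht.1, hτ.1], by linarith [hτ.2]⟩
    have hcJ : ∀ u ∈ Icc s₁ s₂, ContinuousOn (fun τ => J (τ, u)) (Icc t s) := fun u hu =>
      hJc.comp (by fun_prop : Continuous fun τ : ℝ => (τ, u)).continuousOn
        fun τ hτ => ⟨hne τ hτ, hu⟩
    have hiJ : ∀ u ∈ Icc s₁ s₂, IntervalIntegrable (fun τ => J (τ, u)) volume t s := by
      intro u hu
      apply ContinuousOn.intervalIntegrable
      rw [uIcc_of_le hs.1.le]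
      exact hcJ u hu
    have h1 : E s - E t = ∫ τ in t..s, (J (τ, t) + J (τ, s)) := by
      rw [hE t htI s hsI hs.1.le]
      refine intervalIntegral.integral_congr fun τ hτ => ?_
      rw [uIcc_of_le hs.1.le] at hτ
      exact hsplit τ (hne τ hτ) t htI s hsI
    have h2 : E s - E t - (s - t) • (2 * J (t, t)) =
        ∫ τ in t..s, (J (τ, t) + J (τ, s) - 2 * J (t, t)) := by
      rw [intervalIntegral.integral_sub ((hiJ t htI).add (hiJ s hsI)) intervalIntegrable_const,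
        ← h1]
      simp only [smul_eq_mul, intervalIntegral.integral_const]
    rw [h2]
    have h3 := intervalIntegral.norm_integral_le_of_norm_le_const (a := t) (b := s) (C := ε)
      (f := fun τ => (J (τ, t) + J (τ, s) - 2 * J (t, t))) ?_
    · simpa [Real.norm_eq_abs] using h3
    · intro τ hτ
      rw [uIoc_of_le hs.1.le] at hτ
      have hτI : τ ∈ Icc s₁ s₂ := hne τ (Ioc_subset_Icc_self hτ)
      have hd1 : dist (τ, t) (t, t) < δ := by
        simp only [Prod.dist_eq, dist_self, max_lt_iff]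
        refine ⟨?_, hδ⟩
        rw [Real.dist_eq, abs_of_nonneg (by linarith [hτ.1])]
        linarith [hτ.2]
      have hd2 : dist (τ, s) (t, t) < δ := by
        simp only [Prod.dist_eq, max_lt_iff]
        refine ⟨?_, ?_⟩
        · rw [Real.dist_eq, abs_of_nonneg (by linarith [hτ.1])]
          linarith [hτ.2]
        · rw [Real.dist_eq, abs_of_nonneg (by linarith [hs.1])]
          linarith
      have e1 := hδ' (x := (τ, t)) ⟨hτI, htI⟩ hd1
      have e2 := hδ' (x := (τ, s)) ⟨hτI, hsI⟩ hd2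
      rw [Real.dist_eq, abs_lt] at e1 e2
      rw [Real.norm_eq_abs, abs_le]
      constructor <;> linarith [e1.1, e1.2, e2.1, e2.2]
  have hint : IntervalIntegrable (fun t => 2 * J (t, t)) volume s₁ s₂ := by
    apply ContinuousOn.intervalIntegrable
    rw [uIcc_of_le h12]
    exact continuousOn_const.mul hdiag
  have := intervalIntegral.integral_eq_sub_of_hasDeriv_right_of_le h12 hEc hder hint
  rw [← this, intervalIntegral.integral_const_mul]

theorem Piece.contF {f : ℝ → ℝ} {a b : ℝ} {r0 : ℝ → ℝ} {B r g : ℝ → ℝ → ℝ}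
    (hP : Piece f a b r0 B r g) (hf : Continuous f)
    (hB : ContinuousOn (Function.uncurry B) (Icc a b ×ˢ Icc 0 1)) :
    ContinuousOn (Function.uncurry fun t x => f (B t x + r t x)) (Ioc a b ×ˢ Icc 0 1) := by
  have h1 : ContinuousOn (Function.uncurry B) (Ioc a b ×ˢ Icc 0 1) :=
    hB.mono (prod_mono Ioc_subset_Icc_self subset_rfl)
  exact hf.comp_continuousOn (h1.add hP.contR)

theorem Piece.energy {f : ℝ → ℝ} {a b : ℝ} {r0 : ℝ → ℝ} {B r g : ℝ → ℝ → ℝ}
    (hP : Piece f a b r0 B r g) (hf : Continuous f)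
    (hB : ContinuousOn (Function.uncurry B) (Icc a b ×ˢ Icc 0 1)) {ρ ρ' : ℝ → ℝ}
    (hρ : ∀ x ∈ Icc (0 : ℝ) 1, HasDerivWithinAt ρ (ρ' x) (Icc 0 1) x)
    (hρ' : ContinuousOn ρ' (Icc 0 1)) {t₁ t₂ : ℝ} (h1 : a < t₁) (h12 : t₁ ≤ t₂) (h2 : t₂ ≤ b) :
    (∫ x in (0 : ℝ)..1, ρ x * r t₂ x ^ 2) - (∫ x in (0 : ℝ)..1, ρ x * r t₁ x ^ 2) =
      2 * ∫ t in t₁..t₂, ∫ x in (0 : ℝ)..1,
        (f (B t x + r t x) - g t x) * (ρ' x * r t x + ρ x * g t x) := by
  have hsub : Icc t₁ t₂ ⊆ Ioc a b := fun t ht => ⟨lt_of_lt_of_le h1 ht.1, ht.2.trans h2⟩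
  have hsub2 : Icc t₁ t₂ ×ˢ Icc (0:ℝ) 1 ⊆ Ioc a b ×ˢ Icc 0 1 := prod_mono hsub subset_rfl
  have hρc : ContinuousOn ρ (Icc 0 1) := fun x hx => (hρ x hx).continuousWithinAt
  have hF := (hP.contF hf hB).mono hsub2
  have hr := hP.contR.mono hsub2
  have hg := hP.contG.mono hsub2
  have hρ2 : ContinuousOn (fun p : ℝ × ℝ => ρ p.2) (Icc t₁ t₂ ×ˢ Icc (0:ℝ) 1) :=
    hρc.comp continuousOn_snd fun p hp => hp.2
  have hρ'2 : ContinuousOn (fun p : ℝ × ℝ => ρ' p.2) (Icc t₁ t₂ ×ˢ Icc (0:ℝ) 1) :=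
    hρ'.comp continuousOn_snd fun p hp => hp.2
  have hW : ContinuousOn (Function.uncurry fun t x => f (B t x + r t x) - g t x)
      (Icc t₁ t₂ ×ˢ Icc 0 1) := hF.sub hg
  have hV : ContinuousOn (Function.uncurry fun t x => ρ' x * r t x + ρ x * g t x)
      (Icc t₁ t₂ ×ˢ Icc 0 1) := (hρ'2.mul hr).add (hρ2.mul hg)
  have hE : ContinuousOn (fun t => ∫ x in (0 : ℝ)..1, ρ x * r t x ^ 2) (Icc t₁ t₂) := by
    apply continuousOn_slice_Icc
    exact hρ2.mul (hr.pow 2)
  refine energy_aux h12 hW hV hE fun s hs t ht hst => ?_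
  have hs' := hsub hs
  have ht' := hsub ht
  have htest : IsTest (fun x => ρ x * (r s x + r t x))
      (fun x => (ρ' x * r s x + ρ x * g s x) + (ρ' x * r t x + ρ x * g t x)) := by
    refine ⟨fun x hx => ?_, ?_, ?_, ?_⟩
    · have := (hρ x hx).mul ((hP.der s hs' x hx).add (hP.der t ht' x hx))
      refine this.congr_deriv ?_
      simp only [Pi.add_apply]
      ring
    · exact ((hρ'.mul (continuousOn_row hP.contR hs')).add
        (hρc.mul (continuousOn_row hP.contG hs'))).add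
        ((hρ'.mul (continuousOn_row hP.contR ht')).add
        (hρc.mul (continuousOn_row hP.contG ht')))
    · simp [hP.zero0 s hs', hP.zero0 t ht']
    · simp [hP.zero1 s hs', hP.zero1 t ht']
  have hw := hP.weak s t hs'.1 hst ht'.2 _ _ htest
  rw [← hw]
  have hi : ∀ u ∈ Ioc a b, ∀ v ∈ Ioc a b, IntervalIntegrable
      (fun x => r u x * (ρ x * (r s x + r t x))) volume 0 1 := by
    intro u hu v hv
    apply ContinuousOn.intervalIntegrable
    rw [uIcc_of_le zero_le_one]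
    exact (continuousOn_row hP.contR hu).mul (hρc.mul ((continuousOn_row hP.contR hs').add
      (continuousOn_row hP.contR ht')))
  have hi2 : ∀ u ∈ Ioc a b, IntervalIntegrable (fun x => ρ x * r u x ^ 2) volume 0 1 := by
    intro u hu
    apply ContinuousOn.intervalIntegrable
    rw [uIcc_of_le zero_le_one]
    exact hρc.mul ((continuousOn_row hP.contR hu).pow 2)
  rw [← intervalIntegral.integral_sub (hi t ht' s hs') (hi s hs' s hs'),
    ← intervalIntegral.integral_sub (hi2 t ht') (hi2 s hs')]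
  refine intervalIntegral.integral_congr fun x _ => ?_
  ring

/-- Basic energy bound (weight `1`). -/
theorem Piece.energy_one {f : ℝ → ℝ} {a b : ℝ} {r0 : ℝ → ℝ} {B r g : ℝ → ℝ → ℝ}
    (hP : Piece f a b r0 B r g) (hf : Continuous f)
    (hB : ContinuousOn (Function.uncurry B) (Icc a b ×ˢ Icc 0 1)) {t₁ t₂ : ℝ} (h1 : a < t₁)
    (h12 : t₁ ≤ t₂) (h2 : t₂ ≤ b) :
    (∫ x in (0 : ℝ)..1, r t₂ x ^ 2) + (∫ t in t₁..t₂, ∫ x in (0 : ℝ)..1, g t x ^ 2) ≤
      (∫ x in (0 : ℝ)..1, r t₁ x ^ 2) +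
        ∫ t in t₁..t₂, ∫ x in (0 : ℝ)..1, f (B t x + r t x) ^ 2 := by
  have hE := hP.energy hf hB (ρ := fun _ => 1) (ρ' := fun _ => 0)
    (fun x _ => hasDerivWithinAt_const x _ _) continuousOn_const h1 h12 h2
  have hsub : Icc t₁ t₂ ⊆ Ioc a b := fun t ht => ⟨lt_of_lt_of_le h1 ht.1, ht.2.trans h2⟩
  have hsub2 : Icc t₁ t₂ ×ˢ Icc (0:ℝ) 1 ⊆ Ioc a b ×ˢ Icc 0 1 := prod_mono hsub subset_rfl
  have hF := (hP.contF hf hB).mono hsub2
  have hg := hP.contG.mono hsub2
  simp only [one_mul, zero_mul, zero_add] at hE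
  have hcF2 : ContinuousOn (Function.uncurry fun t x => f (B t x + r t x) ^ 2)
      (Icc t₁ t₂ ×ˢ Icc 0 1) := hF.pow 2
  have hcg2 : ContinuousOn (Function.uncurry fun t x => g t x ^ 2)
      (Icc t₁ t₂ ×ˢ Icc 0 1) := hg.pow 2
  have hcW : ContinuousOn (Function.uncurry fun t x => (f (B t x + r t x) - g t x) * g t x)
      (Icc t₁ t₂ ×ˢ Icc 0 1) := (hF.sub hg).mul hg
  have hint : ∀ {H : ℝ → ℝ → ℝ}, ContinuousOn (Function.uncurry H) (Icc t₁ t₂ ×ˢ Icc 0 1) →
      IntervalIntegrable (fun t => ∫ x in (0:ℝ)..1, H t x) volume t₁ t₂ := by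
    intro H hH
    apply ContinuousOn.intervalIntegrable
    rw [uIcc_of_le h12]
    exact continuousOn_slice_Icc hH
  have hint2 : ∀ {H : ℝ → ℝ → ℝ}, ContinuousOn (Function.uncurry H) (Icc t₁ t₂ ×ˢ Icc 0 1) →
      ∀ t ∈ Icc t₁ t₂, IntervalIntegrable (H t) volume 0 1 := by
    intro H hH t ht
    apply ContinuousOn.intervalIntegrable
    rw [uIcc_of_le zero_le_one]
    exact continuousOn_row hH ht
  have key : 2 * (∫ t in t₁..t₂, ∫ x in (0 : ℝ)..1, (f (B t x + r t x) - g t x) * g t x) +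
      (∫ t in t₁..t₂, ∫ x in (0 : ℝ)..1, g t x ^ 2) ≤
      ∫ t in t₁..t₂, ∫ x in (0 : ℝ)..1, f (B t x + r t x) ^ 2 := by
    rw [← intervalIntegral.integral_const_mul,
      ← intervalIntegral.integral_add ((hint hcW).const_mul 2) (hint hcg2)]
    refine intervalIntegral.integral_mono_on h12 (((hint hcW).const_mul 2).add (hint hcg2))
      (hint hcF2) fun t ht => ?_
    rw [← intervalIntegral.integral_const_mul,
      ← intervalIntegral.integral_add ((hint2 hcW t ht).const_mul 2) (hint2 hcg2 t ht)]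
    refine intervalIntegral.integral_mono_on zero_le_one
      (((hint2 hcW t ht).const_mul 2).add (hint2 hcg2 t ht)) (hint2 hcF2 t ht) fun x hx => ?_
    nlinarith [sq_nonneg (f (B t x + r t x) - g t x)]
  linarith

theorem integral_sub_rpow {a t e : ℝ} (he : -1 < e) (_hat : a ≤ t) :
    IntervalIntegrable (fun s => (t - s) ^ e) volume a t ∧
      ∫ s in a..t, (t - s) ^ e = (t - a) ^ (e + 1) / (e + 1) := by
  constructor
  · have h := (intervalIntegral.intervalIntegrable_rpow' (a := 0) (b := t - a) he).comp_sub_left t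
    simpa using h.symm
  · rw [intervalIntegral.integral_comp_sub_left (fun s => s ^ e) t, sub_self,
      integral_rpow (Or.inl he), Real.zero_rpow (by linarith), sub_zero]

/-- The sup norm near the initial time. -/
theorem Piece.eventually_le {f : ℝ → ℝ} {a b : ℝ} {r0 : ℝ → ℝ} {B r g : ℝ → ℝ → ℝ}
    (hP : Piece f a b r0 B r g) (hab : a < b) (hf : Continuous f)
    (hB : ContinuousOn (Function.uncurry B) (Icc a b ×ˢ Icc 0 1)) (hr0 : Measurable r0) {R : ℝ}
    (hR : ∀ x ∈ Icc (0 : ℝ) 1, |r0 x| ≤ R) {ε : ℝ} (hε : 0 < ε) :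
    ∀ᶠ t in 𝓝[>] a, ∀ x ∈ Icc (0 : ℝ) 1, |r t x| ≤ R + ε := by
  obtain ⟨M, hM⟩ := hP.bdd
  obtain ⟨B0, hB0⟩ := exists_bound_Icc hB
  obtain ⟨K, hK⟩ := (isCompact_Icc (a := -(B0 + M)) (b := B0 + M)).exists_bound_of_continuousOn
    hf.continuousOn
  have hFK : ∀ s ∈ Ioc a b, ∀ x ∈ Icc (0:ℝ) 1, |f (B s x + r s x)| ≤ K := by
    intro s hs x hx
    apply hK
    have e1 := hB0 s (Ioc_subset_Icc_self hs) x hx
    have e2 := hM s hs x hx
    have := (abs_add_le (B s x) (r s x)).trans (add_le_add e1 e2)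
    exact abs_le.1 this
  have hlim : Tendsto (fun t : ℝ => 2 * K * (t - a) ^ (1 / 2 : ℝ)) (𝓝[>] a) (𝓝 0) := by
    have hc : Continuous fun t : ℝ => 2 * K * (t - a) ^ (1 / 2 : ℝ) :=
      continuous_const.mul ((continuous_id.sub continuous_const).rpow_const
        fun _ => Or.inr (by norm_num))
    have := hc.tendsto a
    simp only [sub_self] at this
    rw [Real.zero_rpow (by norm_num), mul_zero] at this
    exact this.mono_left nhdsWithin_le_nhds
  have hmem : Ioo a b ∈ 𝓝[>] a := Ioo_mem_nhdsGT hab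
  filter_upwards [hmem, hlim.eventually (gt_mem_nhds hε)] with t ht hlt x hx
  have htI : t ∈ Ioc a b := Ioo_subset_Ioc_self ht
  obtain ⟨hi, hv⟩ := integral_sub_rpow (a := a) (t := t) (e := -(1/2)) (by norm_num) ht.1.le
  have hm := hP.mild t htI (fun _ => K) (fun _ => 0) (fun s hs x hx => by
    rw [sub_zero]
    exact hFK s ⟨hs.1, hs.2.le.trans htI.2⟩ x hx) (hi.mul_const K) x hx
  rw [intervalIntegral.integral_mul_const, hv] at hm
  have hh := abs_heat_le hr0 hR (t - a) x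
  have : (t - a) ^ (-(1 / 2) + 1 : ℝ) / (-(1 / 2) + 1) * K = 2 * K * (t - a) ^ (1 / 2 : ℝ) := by
    norm_num
    ring
  rw [this] at hm
  have h3 := abs_sub_abs_le_abs_sub (r t x) (heat (t - a) r0 x)
  linarith

theorem young_aux {u Y : ℝ} (hu : 0 < u) (hY : 0 ≤ Y) :
    Y ^ (3 / 4 : ℝ) ≤ u ^ (1 / 2 : ℝ) * (u ^ (-(4 / 5) : ℝ) + Y ^ 2) := by
  have h := Real.young_inequality_of_nonneg (a := u ^ (-(1/2) : ℝ)) (b := Y ^ (3 / 4 : ℝ))
    (p := 8 / 5) (q := 8 / 3) (by positivity) (by positivity)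
    (by rw [Real.holderConjugate_iff]; norm_num)
  rw [← Real.rpow_mul hu.le, ← Real.rpow_mul hY] at h
  have e1 : (-(1/2) : ℝ) * (8 / 5) = -(4 / 5) := by norm_num
  have e2 : (3 / 4 : ℝ) * (8 / 3) = (2 : ℕ) := by norm_num
  rw [e1, e2, Real.rpow_natCast] at h
  have h2 : u ^ (-(1/2) : ℝ) * Y ^ (3 / 4 : ℝ) ≤ u ^ (-(4 / 5) : ℝ) + Y ^ 2 := by
    have : 0 ≤ u ^ (-(4 / 5) : ℝ) := by positivity
    have : 0 ≤ Y ^ 2 := by positivity
    nlinarith
  have h3 : u ^ (1 / 2 : ℝ) * u ^ (-(1/2) : ℝ) = 1 := by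
    rw [← Real.rpow_add hu]
    norm_num
  calc Y ^ (3 / 4 : ℝ) = u ^ (1 / 2 : ℝ) * (u ^ (-(1/2) : ℝ) * Y ^ (3 / 4 : ℝ)) := by
        rw [← mul_assoc, h3, one_mul]
    _ ≤ _ := mul_le_mul_of_nonneg_left h2 (by positivity)

theorem quartic_aux {A C X : ℝ} (hA : 0 ≤ A) (hC : 0 ≤ C) (hX : 0 ≤ X)
    (h : X ≤ A + C * X ^ (3 / 4 : ℝ)) : X ≤ (1 + A + C) ^ 4 := by
  set Z := X ^ (1 / 4 : ℝ) with hZ
  have hZ0 : 0 ≤ Z := by positivity
  have hX4 : X = Z ^ 4 := by
    rw [hZ, ← Real.rpow_natCast, ← Real.rpow_mul hX]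
    norm_num
  have hX3 : X ^ (3 / 4 : ℝ) = Z ^ 3 := by
    rw [hZ, ← Real.rpow_natCast (X ^ (1 / 4 : ℝ)) 3, ← Real.rpow_mul hX]
    norm_num
  rw [hX3] at h
  rw [hX4] at h ⊢
  apply pow_le_pow_left₀ hZ0
  by_contra hlt
  push Not at hlt
  have h1 : 1 ≤ Z := by linarith
  have h3 : 1 ≤ Z ^ 3 := one_le_pow₀ h1
  nlinarith [mul_le_mul_of_nonneg_left h3 hA]

/-- A priori sup bound, independent of the flux. -/
theorem exists_apriori {γ : ℝ} (hγ1 : 1 < γ) (hγ2 : γ ≤ 3 / 2) (T R B0 C : ℝ) :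
    ∃ N : ℝ, ∀ (f : ℝ → ℝ) (a b : ℝ) (r0 : ℝ → ℝ) (B r g : ℝ → ℝ → ℝ),
      (∀ s, |f s| ≤ |s| ^ γ) → a < b → b - a ≤ T → Measurable r0 →
      (∀ x ∈ Icc (0 : ℝ) 1, |r0 x| ≤ R) →
      (∀ t ∈ Icc a b, ∀ x ∈ Icc (0 : ℝ) 1, |B t x| ≤ B0) →
      Piece f a b r0 B r g →
      (∀ t₁ ∈ Ioc a b, ∫ t in t₁..b, ∫ x in (0 : ℝ)..1, g t x ^ 2 ≤ C) →
      ∀ t ∈ Ioc a b, ∀ x ∈ Icc (0 : ℝ) 1, |r t x| ≤ N := by
  refine ⟨(1 + (B0 + 1 + R) + (5 * T ^ (1 / 5 : ℝ) + (2 * (B0 + 1) ^ 2 * T + 2 * C))) ^ 4, ?_⟩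
  intro f a b r0 B r g hf hab hT hr0 hR hB hP hC t₀ ht₀ x₀ hx₀
  -- signs
  have h0I : (0:ℝ) ∈ Icc (0:ℝ) 1 := ⟨le_rfl, zero_le_one⟩
  have hB00 : 0 ≤ B0 := (abs_nonneg _).trans (hB b ⟨hab.le, le_rfl⟩ 0 h0I)
  have hR0 : 0 ≤ R := (abs_nonneg _).trans (hR 0 h0I)
  have hT0 : 0 < T := by linarith
  -- the slice norm
  set q : ℝ → ℝ := fun t => ∫ x in (0 : ℝ)..1, g t x ^ 2 with hq
  have hq0 : ∀ t, 0 ≤ q t := fun t =>
    intervalIntegral.integral_nonneg zero_le_one fun x _ => sq_nonneg _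
  have hqc : ContinuousOn q (Ioc a b) := continuousOn_slice_Ioc (hP.contG.pow 2)
  have hC0 : 0 ≤ C := by
    have h1 := hC b ⟨hab, le_rfl⟩
    simpa using h1
  -- integrability of q
  have hqI : IntegrableOn q (Ioc a b) := by
    have hlim : Tendsto (fun n : ℕ => a + (b - a) / ((n : ℝ) + 1)) atTop (𝓝 a) := by
      have h1 : Tendsto (fun n : ℕ => (b - a) / ((n : ℝ) + 1)) atTop (𝓝 0) :=
        tendsto_const_div_atTop_nhds_zero_nat (b - a) |>.comp (tendsto_add_atTop_nat 1) |>.congr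
          fun n => by simp
      simpa using h1.const_add a
    have hin : ∀ n : ℕ, a + (b - a) / ((n : ℝ) + 1) ∈ Ioc a b := by
      intro n
      have h1 : 0 < (b - a) / ((n : ℝ) + 1) := div_pos (by linarith) (by positivity)
      have h2 : (b - a) / ((n : ℝ) + 1) ≤ b - a := div_le_self (by linarith) (by linarith [n.cast_nonneg (α := ℝ)])
      exact ⟨by linarith, by linarith⟩
    refine integrableOn_Ioc_of_intervalIntegral_norm_bounded_left (I := C) (l := atTop)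
      (a := fun n : ℕ => a + (b - a) / ((n : ℝ) + 1)) (fun n => ?_) hlim
      (Eventually.of_forall fun n => ?_)
    · have hsub : Icc (a + (b - a) / ((n : ℝ) + 1)) b ⊆ Ioc a b :=
        fun s hs => ⟨lt_of_lt_of_le (hin n).1 hs.1, hs.2⟩
      exact ((hqc.mono hsub).integrableOn_Icc).mono_set Ioc_subset_Icc_self
    · have h1 := hC _ (hin n)
      rw [intervalIntegral.integral_of_le (hin n).2] at h1
      refine le_trans (le_of_eq ?_) h1
      refine setIntegral_congr_fun measurableSet_Ioc fun s _ => ?_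
      simp only [Real.norm_eq_abs]
      exact abs_of_nonneg (hq0 s)
  have hqC : ∀ t ∈ Ioc a b, ∫ s in a..t, q s ≤ C := by
    intro t ht
    have hIb : IntervalIntegrable q volume a b :=
      (intervalIntegrable_iff_integrableOn_Ioc_of_le hab.le).2 hqI
    have hmono : ∫ s in a..t, q s ≤ ∫ s in a..b, q s := by
      rw [intervalIntegral.integral_of_le ht.1.le, intervalIntegral.integral_of_le hab.le]
      exact setIntegral_mono_set hqI (ae_of_all _ hq0)
        (Ioc_subset_Ioc_right ht.2).eventuallyLE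
    refine hmono.trans ?_
    -- limit from the left end
    have hcont : ContinuousOn (fun u => ∫ s in u..b, q s) (Icc a b) := by
      have h1 := intervalIntegral.continuousOn_primitive_interval_left (f := q) (a := a) (b := b)
        (μ := volume) (by rw [uIcc_of_le hab.le]; exact (integrableOn_Icc_iff_integrableOn_Ioc).2 hqI)
      rwa [uIcc_of_le hab.le] at h1
    have hct := (hcont a ⟨le_rfl, hab.le⟩).mono_left
      (nhdsWithin_mono a (Ioc_subset_Icc_self (a := a) (b := b)))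
    have hne : (𝓝[Ioc a b] a).NeBot := by
      rw [nhdsWithin_Ioc_eq_nhdsGT hab]
      infer_instance
    refine le_of_tendsto hct ?_
    filter_upwards [self_mem_nhdsWithin] with u hu
    exact hC u hu
  -- pointwise bound by the slice norm
  have hrq : ∀ t ∈ Ioc a b, ∀ x ∈ Icc (0:ℝ) 1, |r t x| ≤ √(q t) := by
    intro t ht x hx
    have hgc := continuousOn_row hP.contG ht
    have hgi : ∀ x ∈ Icc (0:ℝ) 1, IntervalIntegrable (g t) volume 0 x := fun x hx => by
      apply ContinuousOn.intervalIntegrable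
      rw [uIcc_of_le hx.1]
      exact hgc.mono (Icc_subset_Icc_right hx.2)
    have h1 : ∫ y in (0:ℝ)..x, g t y = r t x - r t 0 := by
      refine intervalIntegral.integral_eq_sub_of_hasDeriv_right_of_le hx.1 ?_ ?_ (hgi x hx)
      · exact (continuousOn_row hP.contR ht).mono (Icc_subset_Icc_right hx.2)
      · intro y hy
        have hy' : y ∈ Icc (0:ℝ) 1 := ⟨hy.1.le, hy.2.le.trans hx.2⟩
        refine (hP.der t ht y hy').mono_of_mem_nhdsWithin ?_
        exact mem_of_superset (Ioo_mem_nhdsGT (lt_of_lt_of_le hy.2 hx.2))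
          (fun z hz => ⟨by linarith [hy.1, hz.1], hz.2.le⟩)
    rw [hP.zero0 t ht, sub_zero] at h1
    have habs : IntervalIntegrable (fun y => |g t y|) volume 0 1 := (hgi 1 ⟨zero_le_one, le_rfl⟩).abs
    have h2 : |r t x| ≤ ∫ y in (0:ℝ)..1, |g t y| := by
      rw [← h1]
      refine (intervalIntegral.abs_integral_le_integral_abs hx.1).trans ?_
      rw [intervalIntegral.integral_of_le hx.1, intervalIntegral.integral_of_le zero_le_one]
      refine setIntegral_mono_set ?_ (ae_of_all _ fun y => abs_nonneg _)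
        (Ioc_subset_Ioc_right hx.2).eventuallyLE
      exact (intervalIntegrable_iff_integrableOn_Ioc_of_le zero_le_one).1 habs
    have hsq : IntervalIntegrable (fun y => g t y ^ 2) volume 0 1 := by
      apply ContinuousOn.intervalIntegrable
      rw [uIcc_of_le zero_le_one]
      exact hgc.pow 2
    -- Cauchy–Schwarz on the unit interval
    set I := ∫ y in (0:ℝ)..1, |g t y| with hI
    have hI0 : 0 ≤ I := intervalIntegral.integral_nonneg zero_le_one fun y _ => abs_nonneg _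
    have h3 : I ^ 2 ≤ q t := by
      have h4 : 0 ≤ ∫ y in (0:ℝ)..1, (|g t y| - I) ^ 2 :=
        intervalIntegral.integral_nonneg zero_le_one fun y _ => sq_nonneg _
      have h5 : ∫ y in (0:ℝ)..1, (|g t y| - I) ^ 2 = q t - 2 * I * I + I ^ 2 := by
        have : ∀ y, (|g t y| - I) ^ 2 = g t y ^ 2 - 2 * I * |g t y| + I ^ 2 := by
          intro y
          rw [sub_sq, sq_abs]
          ring
        simp only [this]
        rw [intervalIntegral.integral_add (hsq.sub (habs.const_mul _)) intervalIntegrable_const,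
          intervalIntegral.integral_sub hsq (habs.const_mul _),
          intervalIntegral.integral_const_mul]
        simp [hq, hI]
      nlinarith
    exact h2.trans (Real.le_sqrt_of_sq_le h3)
  -- the sup
  obtain ⟨M, hM⟩ := hP.bdd
  set A : Set ℝ := (fun p : ℝ × ℝ => |r p.1 p.2|) '' (Ioc a b ×ˢ Icc (0:ℝ) 1) with hA
  have hAb : BddAbove A := ⟨M, by
    rintro _ ⟨p, hp, rfl⟩
    exact hM p.1 hp.1 p.2 hp.2⟩
  set S := sSup A with hS
  have hSr : ∀ t ∈ Ioc a b, ∀ x ∈ Icc (0:ℝ) 1, |r t x| ≤ S := fun t ht x hx =>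
    le_csSup hAb ⟨(t, x), ⟨ht, hx⟩, rfl⟩
  have hS0 : 0 ≤ S := (abs_nonneg _).trans (hSr t₀ ht₀ x₀ hx₀)
  set X := B0 + 1 + S with hX
  have hX1 : 1 ≤ X := by linarith
  set C1 := 5 * T ^ (1 / 5 : ℝ) + (2 * (B0 + 1) ^ 2 * T + 2 * C) with hC1
  have hC10 : 0 ≤ C1 := by positivity
  -- main estimate
  have main : ∀ t ∈ Ioc a b, ∀ x ∈ Icc (0:ℝ) 1, |r t x| ≤ R + C1 * X ^ (3 / 4 : ℝ) := by
    intro t ht x hx
    set m : ℝ → ℝ := fun s => (t - s) ^ (1 / 2 : ℝ) *
      (((t - s) ^ (-(4 / 5) : ℝ) + (2 * (B0 + 1) ^ 2 + 2 * q s)) * X ^ (3 / 4 : ℝ)) with hm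
    have hFm : ∀ s ∈ Ioo a t, ∀ x ∈ Icc (0:ℝ) 1, |f (B s x + r s x) - (fun _ => (0:ℝ)) s| ≤ m s := by
      intro s hs x hx
      have hsI : s ∈ Ioc a b := ⟨hs.1, hs.2.le.trans ht.2⟩
      have hu : 0 < t - s := by linarith [hs.2]
      rw [sub_zero]
      have h1 : |B s x + r s x| ≤ B0 + |r s x| :=
        (abs_add_le _ _).trans (by linarith [hB s (Ioc_subset_Icc_self hsI) x hx])
      set Y := B0 + 1 + √(q s) with hY
      have hY1 : 1 ≤ Y := by linarith [Real.sqrt_nonneg (q s)]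
      have hw1 : 1 ≤ B0 + 1 + |r s x| := by linarith [abs_nonneg (r s x)]
      have h2 : |f (B s x + r s x)| ≤ (B0 + 1 + |r s x|) ^ (3 / 2 : ℝ) := by
        refine (hf _).trans ?_
        refine (Real.rpow_le_rpow (abs_nonneg _) (h1.trans (by linarith)) (by linarith)).trans
          (Real.rpow_le_rpow_of_exponent_le hw1 hγ2)
      have h3 : (B0 + 1 + |r s x|) ^ (3 / 2 : ℝ) ≤ X ^ (3 / 4 : ℝ) * Y ^ (3 / 4 : ℝ) := by
        have e : (3 / 2 : ℝ) = 3 / 4 + 3 / 4 := by norm_num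
        rw [e, Real.rpow_add (by linarith)]
        refine mul_le_mul ?_ ?_ (by positivity) (by positivity)
        · exact Real.rpow_le_rpow (by linarith) (by linarith [hSr s hsI x hx]) (by norm_num)
        · exact Real.rpow_le_rpow (by linarith) (by linarith [hrq s hsI x hx]) (by norm_num)
      have h4 := young_aux hu (Y := Y) (by linarith)
      have h5 : Y ^ 2 ≤ 2 * (B0 + 1) ^ 2 + 2 * q s := by
        have : √(q s) ^ 2 = q s := Real.sq_sqrt (hq0 s)
        rw [hY]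
        nlinarith [sq_nonneg (B0 + 1 - √(q s))]
      have h6 : X ^ (3 / 4 : ℝ) * Y ^ (3 / 4 : ℝ) ≤ m s := by
        rw [hm]
        simp only
        have hXp : 0 ≤ X ^ (3 / 4 : ℝ) := by positivity
        calc X ^ (3 / 4 : ℝ) * Y ^ (3 / 4 : ℝ)
            ≤ X ^ (3 / 4 : ℝ) * ((t - s) ^ (1 / 2 : ℝ) * ((t - s) ^ (-(4 / 5) : ℝ) + Y ^ 2)) :=
              mul_le_mul_of_nonneg_left h4 hXp
          _ ≤ X ^ (3 / 4 : ℝ) * ((t - s) ^ (1 / 2 : ℝ) *
              ((t - s) ^ (-(4 / 5) : ℝ) + (2 * (B0 + 1) ^ 2 + 2 * q s))) := by gcongr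
          _ = _ := by ring
      exact h2.trans (h3.trans h6)
    obtain ⟨hi, hv⟩ := integral_sub_rpow (a := a) (t := t) (e := -(4/5)) (by norm_num) ht.1.le
    have hqt : IntervalIntegrable q volume a t :=
      (intervalIntegrable_iff_integrableOn_Ioc_of_le ht.1.le).2
        (hqI.mono_set (Ioc_subset_Ioc_right ht.2))
    have hint2 : IntervalIntegrable (fun s => ((t - s) ^ (-(4 / 5) : ℝ) +
        (2 * (B0 + 1) ^ 2 + 2 * q s)) * X ^ (3 / 4 : ℝ)) volume a t :=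
      (hi.add (intervalIntegrable_const.add (hqt.const_mul 2))).mul_const _
    have hcongr : ∀ s ∈ Ioo a t, ((t - s) ^ (-(4 / 5) : ℝ) +
        (2 * (B0 + 1) ^ 2 + 2 * q s)) * X ^ (3 / 4 : ℝ) = (t - s) ^ (-(1 / 2) : ℝ) * m s := by
      intro s hs
      have hu : 0 < t - s := by linarith [hs.2]
      rw [hm]
      simp only
      rw [← mul_assoc, ← Real.rpow_add hu]
      norm_num
    have hcongr2 : EqOn (fun s => ((t - s) ^ (-(4 / 5) : ℝ) +
        (2 * (B0 + 1) ^ 2 + 2 * q s)) * X ^ (3 / 4 : ℝ))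
        (fun s => (t - s) ^ (-(1 / 2) : ℝ) * m s) (Ioo a t) := hcongr
    have hint : IntervalIntegrable (fun s => (t - s) ^ (-(1 / 2) : ℝ) * m s) volume a t := by
      rw [intervalIntegrable_iff_integrableOn_Ioc_of_le ht.1.le,
        integrableOn_Ioc_iff_integrableOn_Ioo] at hint2 ⊢
      exact hint2.congr_fun hcongr2 measurableSet_Ioo
    have hval : ∫ s in a..t, (t - s) ^ (-(1 / 2) : ℝ) * m s =
        ∫ s in a..t, ((t - s) ^ (-(4 / 5) : ℝ) +
        (2 * (B0 + 1) ^ 2 + 2 * q s)) * X ^ (3 / 4 : ℝ) := by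
      rw [intervalIntegral.integral_of_le ht.1.le, intervalIntegral.integral_of_le ht.1.le,
        integral_Ioc_eq_integral_Ioo, integral_Ioc_eq_integral_Ioo]
      exact (setIntegral_congr_fun measurableSet_Ioo hcongr2).symm
    have hml := hP.mild t ht m (fun _ => 0) hFm hint x hx
    have hsum : ∫ s in a..t, (2 * (B0 + 1) ^ 2 + 2 * q s) =
        (t - a) • (2 * (B0 + 1) ^ 2) + 2 * ∫ s in a..t, q s := by
      rw [intervalIntegral.integral_add intervalIntegrable_const (hqt.const_mul 2),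
        intervalIntegral.integral_const, intervalIntegral.integral_const_mul]
    rw [hval, intervalIntegral.integral_mul_const,
      intervalIntegral.integral_add hi (intervalIntegrable_const.add (hqt.const_mul 2)),
      hsum, hv] at hml
    have hh := abs_heat_le hr0 hR (t - a) x
    have h3 := abs_sub_abs_le_abs_sub (r t x) (heat (t - a) r0 x)
    have h4 : (t - a) ^ (-(4 / 5) + 1 : ℝ) / (-(4 / 5) + 1) ≤ 5 * T ^ (1 / 5 : ℝ) := by
      have e : (-(4 / 5) + 1 : ℝ) = 1 / 5 := by norm_num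
      rw [e]
      have : (t - a) ^ (1 / 5 : ℝ) ≤ T ^ (1 / 5 : ℝ) :=
        Real.rpow_le_rpow (by linarith [ht.1]) (by linarith [ht.2]) (by norm_num)
      linarith
    have h5 : (t - a) • (2 * (B0 + 1) ^ 2) ≤ 2 * (B0 + 1) ^ 2 * T := by
      rw [smul_eq_mul, mul_comm]
      exact mul_le_mul_of_nonneg_left (by linarith [ht.2]) (by positivity)
    have h6 := hqC t ht
    have h7 : ((t - a) ^ (-(4 / 5) + 1 : ℝ) / (-(4 / 5) + 1) +
        ((t - a) • (2 * (B0 + 1) ^ 2) + 2 * ∫ s in a..t, q s)) * X ^ (3 / 4 : ℝ) ≤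
        C1 * X ^ (3 / 4 : ℝ) := by
      apply mul_le_mul_of_nonneg_right _ (by positivity)
      rw [hC1]
      linarith
    linarith
  have hSle : S ≤ R + C1 * X ^ (3 / 4 : ℝ) := by
    have hne : A.Nonempty := ⟨_, ⟨(t₀, x₀), ⟨ht₀, hx₀⟩, rfl⟩⟩
    apply csSup_le hne
    rintro _ ⟨p, hp, rfl⟩
    exact main p.1 hp.1 p.2 hp.2
  have hfin := quartic_aux (A := B0 + 1 + R) (C := C1) (X := X) (by linarith) hC10 (by linarith)
    (by linarith)
  exact (hSr t₀ ht₀ x₀ hx₀).trans ((by linarith : S ≤ X).trans hfin)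

end Pool.Agent.Burg
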