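import Pool.Agent.Helper46_Burg.Ext

/-!
Module INIT: the heat flow attains its initial value in `L²(0,1)`.
-/

set_option autoImplicit false

open MeasureTheory Set Filter Topology
open scoped Real ENNReal

noncomputable section

namespace Pool.Agent.Burg

/-- The modulus of continuity in `L¹(0,1)` of a bounded measurable function. -/
def omg (Φ : ℝ → ℝ) (h : ℝ) : ℝ := ∫ x in Ioc (0 : ℝ) 1, |Φ (x - h) - Φ x|

theorem omg_nonneg (Φ : ℝ → ℝ) (h : ℝ) : 0 ≤ omg Φ h := integral_nonneg fun _ => abs_nonneg _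

theorem integrableOn_bdd {f : ℝ → ℝ} (hf : Measurable f) {C : ℝ} (hC : ∀ x, |f x| ≤ C)
    (a b : ℝ) : IntegrableOn f (Icc a b) := by
  refine Integrable.mono' (g := fun _ => C) (integrableOn_const (by simp)) hf.aestronglyMeasurable
    (Filter.Eventually.of_forall hC)

theorem omg_le {Φ : ℝ → ℝ} {M : ℝ} (hM : ∀ x, |Φ x| ≤ M) (h : ℝ) :
    omg Φ h ≤ 2 * M := by
  have h1 : omg Φ h ≤ ∫ x in Ioc (0 : ℝ) 1, 2 * M := by
    refine integral_mono_of_nonneg (Filter.Eventually.of_forall fun x => abs_nonneg _)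
      (integrableOn_const (by simp)) (Filter.Eventually.of_forall fun x => ?_)
    calc |Φ (x - h) - Φ x| ≤ |Φ (x - h)| + |Φ x| := abs_sub _ _
      _ ≤ 2 * M := by linarith [hM (x - h), hM x]
  simpa using h1

theorem measurable_omg {Φ : ℝ → ℝ} (hΦ : Measurable Φ) : Measurable (omg Φ) := by
  have h1 : Measurable fun p : ℝ × ℝ => |Φ (p.2 - p.1) - Φ p.2| := by fun_prop
  exact (h1.stronglyMeasurable.integral_prod_right' (ν := volume.restrict (Ioc (0 : ℝ) 1))).measurable

theorem tendsto_omg {Φ : ℝ → ℝ} (hΦ : Measurable Φ) {M : ℝ} (hM : ∀ x, |Φ x| ≤ M) :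
    Tendsto (omg Φ) (𝓝 0) (𝓝 0) := by
  rw [Metric.tendsto_nhds]
  intro ε hε
  -- the truncated function
  set Φ₁ : ℝ → ℝ := (Icc (-1 : ℝ) 2).indicator Φ with hΦ₁
  have hi : Integrable Φ₁ := (integrableOn_bdd hΦ hM _ _).integrable_indicator measurableSet_Icc
  obtain ⟨g, hgs, hgi, hgc, hgint⟩ := hi.exists_hasCompactSupport_integral_sub_le
    (ε := ε / 4) (by positivity)
  have hunif : UniformContinuous g := hgs.uniformContinuous_of_continuous hgc
  obtain ⟨δ, hδ, hgd⟩ := Metric.uniformContinuous_iff.mp hunif (ε / 4) (by positivity)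
  filter_upwards [Metric.ball_mem_nhds (0 : ℝ) (lt_min hδ one_pos)] with h hh
  rw [Metric.mem_ball, dist_zero_right, Real.norm_eq_abs, lt_min_iff] at hh
  rw [dist_zero_right, Real.norm_eq_abs, abs_of_nonneg (omg_nonneg _ _)]
  have hdiff : Integrable fun x => ‖Φ₁ x - g x‖ := (hi.sub hgint).norm
  have hdiff2 : Integrable fun x => ‖Φ₁ (x - h) - g (x - h)‖ := hdiff.comp_sub_right h
  have hb : omg Φ h ≤ ∫ x in Ioc (0 : ℝ) 1, (‖Φ₁ (x - h) - g (x - h)‖ + ε / 4 + ‖Φ₁ x - g x‖) := by
    refine integral_mono_of_nonneg (Filter.Eventually.of_forall fun x => abs_nonneg _)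
      ((hdiff2.integrableOn.add (integrableOn_const (by simp))).add hdiff.integrableOn) ?_
    refine (ae_restrict_iff' measurableSet_Ioc).mpr (Filter.Eventually.of_forall fun x hx => ?_)
    have hh1 := abs_lt.mp hh.2
    have e1 : Φ₁ x = Φ x := indicator_of_mem (by constructor <;> linarith [hx.1, hx.2]) _
    have e2 : Φ₁ (x - h) = Φ (x - h) :=
      indicator_of_mem (by constructor <;> linarith [hx.1, hx.2, hh1.1, hh1.2]) _
    have h3 : |g (x - h) - g x| < ε / 4 := by
      have := hgd (a := x - h) (b := x) (by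
        rw [Real.dist_eq]; simpa using hh.1)
      rwa [Real.dist_eq] at this
    simp only [Real.norm_eq_abs, e1, e2]
    calc |Φ (x - h) - Φ x| = |(Φ (x - h) - g (x - h)) + (g (x - h) - g x) + (-(Φ x - g x))| := by
          congr 1; ring
      _ ≤ |Φ (x - h) - g (x - h)| + |g (x - h) - g x| + |-(Φ x - g x)| := abs_add_three _ _ _
      _ ≤ _ := by rw [abs_neg]; linarith
  have h1 : ∫ x in Ioc (0 : ℝ) 1, (‖Φ₁ (x - h) - g (x - h)‖ + ε / 4 + ‖Φ₁ x - g x‖) =
      (∫ x in Ioc (0 : ℝ) 1, ‖Φ₁ (x - h) - g (x - h)‖) + ε / 4 +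
        ∫ x in Ioc (0 : ℝ) 1, ‖Φ₁ x - g x‖ := by
    have hc : IntegrableOn (fun _ : ℝ => ε / 4) (Ioc 0 1) := integrableOn_const (by simp)
    have hs : IntegrableOn (fun x => ‖Φ₁ (x - h) - g (x - h)‖ + ε / 4) (Ioc 0 1) :=
      hdiff2.integrableOn.add hc
    rw [integral_add hs hdiff.integrableOn, integral_add hdiff2.integrableOn hc]
    simp
  have h2 : ∫ x in Ioc (0 : ℝ) 1, ‖Φ₁ x - g x‖ ≤ ε / 4 :=
    (setIntegral_le_integral hdiff (Filter.Eventually.of_forall fun x => norm_nonneg _)).trans hgi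
  have h3 : ∫ x in Ioc (0 : ℝ) 1, ‖Φ₁ (x - h) - g (x - h)‖ ≤ ε / 4 := by
    refine (setIntegral_le_integral hdiff2
      (Filter.Eventually.of_forall fun x => norm_nonneg _)).trans ?_
    rw [integral_sub_right_eq_self (fun x => ‖Φ₁ x - g x‖) h]
    exact hgi
  linarith

/-- The `L¹` distance of the heat flow to its initial value. -/
theorem heat_l1_le {φ : ℝ → ℝ} (hφ : Measurable φ) {M : ℝ}
    (hM : ∀ x ∈ Icc (0 : ℝ) 1, |φ x| ≤ M) (t : ℝ) :
    ∫ x in Ioc (0 : ℝ) 1, |heat t φ x - φ x| ≤ ∫ z, g0 z * omg (oddExt φ) (√t * z) := by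
  set Φ := oddExt φ with hΦ
  have hΦm : Measurable Φ := measurable_oddExt hφ
  have hΦM : ∀ x, |Φ x| ≤ M := abs_oddExt_le hM
  have hgi := integrable_g0
  -- joint integrability
  have hint : Integrable (Function.uncurry fun x z => g0 z * |Φ (x - √t * z) - Φ x|)
      ((volume.restrict (Ioc (0 : ℝ) 1)).prod volume) := by
    have hb : Integrable (fun p : ℝ × ℝ => (2 * M) * g0 p.2)
        ((volume.restrict (Ioc (0 : ℝ) 1)).prod volume) :=
      (integrable_const (2 * M)).mul_prod hgi
    refine hb.mono' ?_ (Filter.Eventually.of_forall fun p => ?_)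
    · have : Measurable (Function.uncurry fun x z => g0 z * |Φ (x - √t * z) - Φ x|) := by
        have hg : Measurable g0 := continuous_g0.measurable
        simp only [Function.uncurry_def]
        fun_prop
      exact this.aestronglyMeasurable
    · simp only [Function.uncurry, norm_mul, Real.norm_eq_abs, abs_abs, abs_of_pos (g0_pos _)]
      rw [mul_comm]
      refine mul_le_mul_of_nonneg_right ?_ (g0_pos _).le
      calc |Φ (p.1 - √t * p.2) - Φ p.1| ≤ |Φ (p.1 - √t * p.2)| + |Φ p.1| := abs_sub _ _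
        _ ≤ 2 * M := by linarith [hΦM (p.1 - √t * p.2), hΦM p.1]
  have h1 : ∫ x in Ioc (0 : ℝ) 1, |heat t φ x - φ x| ≤
      ∫ x in Ioc (0 : ℝ) 1, ∫ z, g0 z * |Φ (x - √t * z) - Φ x| := by
    refine integral_mono_of_nonneg (Filter.Eventually.of_forall fun x => abs_nonneg _)
      hint.integral_prod_left ?_
    rw [EventuallyLE, ← restrict_Ioo_eq_restrict_Ioc,
      ae_restrict_iff' measurableSet_Ioo]
    refine Filter.Eventually.of_forall fun x hx => ?_
    have e1 : heat t φ x - φ x = ∫ z, g0 z * (Φ (x - √t * z) - Φ x) := by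
      have e2 : φ x = ∫ z, g0 z * Φ x := by
        rw [integral_mul_const, integral_g0, one_mul, hΦ, oddExt_of_mem hx]
      have e3 : heat t φ x = ∫ z, g0 z * Φ (x - √t * z) := rfl
      rw [e3, e2, ← integral_sub (integrable_cv hgi hΦm hΦM _ _) (hgi.mul_const _)]
      congr 1; ext z; ring
    show |heat t φ x - φ x| ≤ ∫ z, g0 z * |Φ (x - √t * z) - Φ x|
    rw [e1]
    refine abs_integral_le_integral_abs.trans (le_of_eq ?_)
    congr 1; ext z
    rw [abs_mul, abs_of_pos (g0_pos z)]
  refine h1.trans (le_of_eq ?_)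
  rw [integral_integral_swap hint]
  congr 1
  ext z
  rw [integral_const_mul]
  rfl

theorem tendsto_heat_init {φ : ℝ → ℝ} (hφ : Measurable φ) {M : ℝ}
    (hM : ∀ x ∈ Icc (0 : ℝ) 1, |φ x| ≤ M) :
    Tendsto (fun t => ∫ x in (0 : ℝ)..1, (heat t φ x - φ x) ^ 2) (𝓝[>] 0) (𝓝 0) := by
  set Φ := oddExt φ with hΦ
  have hΦm : Measurable Φ := measurable_oddExt hφ
  have hΦM : ∀ x, |Φ x| ≤ M := abs_oddExt_le hM
  have hM0 : 0 ≤ M := (abs_nonneg _).trans (hM 0 (left_mem_Icc.mpr zero_le_one))
  -- dominated convergence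
  have h1 : Tendsto (fun t => ∫ z, g0 z * omg Φ (√t * z)) (𝓝[>] 0) (𝓝 0) := by
    have h2 : Tendsto (fun t => ∫ z, g0 z * omg Φ (√t * z)) (𝓝[>] 0)
        (𝓝 (∫ z : ℝ, g0 z * 0)) := by
      apply tendsto_integral_filter_of_dominated_convergence (fun z => g0 z * (2 * M))
      · refine Filter.Eventually.of_forall fun t => ?_
        exact (continuous_g0.measurable.mul ((measurable_omg hΦm).comp
          (measurable_const_mul _))).aestronglyMeasurable
      · refine Filter.Eventually.of_forall fun t => Filter.Eventually.of_forall fun z => ?_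
        rw [norm_mul, Real.norm_of_nonneg (g0_pos z).le, Real.norm_of_nonneg (omg_nonneg _ _)]
        exact mul_le_mul_of_nonneg_left (omg_le hΦM _) (g0_pos z).le
      · exact integrable_g0.mul_const _
      · refine Filter.Eventually.of_forall fun z => ?_
        apply Tendsto.const_mul
        refine (tendsto_omg hΦm hΦM).comp ?_
        have : Tendsto (fun t : ℝ => √t * z) (𝓝 0) (𝓝 (√0 * z)) :=
          (Real.continuous_sqrt.tendsto 0).mul_const z
        rw [Real.sqrt_zero, zero_mul] at this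
        exact this.mono_left nhdsWithin_le_nhds
    simpa using h2
  have h3 : Tendsto (fun t => (2 * M) * ∫ z, g0 z * omg Φ (√t * z)) (𝓝[>] 0) (𝓝 0) := by
    simpa using h1.const_mul (2 * M)
  refine squeeze_zero' (Filter.Eventually.of_forall fun t => ?_) ?_ h3
  · exact intervalIntegral.integral_nonneg zero_le_one fun x _ => sq_nonneg _
  · filter_upwards [self_mem_nhdsWithin] with t ht
    have ht0 : 0 < t := ht
    have hhc : Continuous (heat t φ) := by
      refine continuous_iff_continuousAt.mpr fun y => (hasDerivAt_heat hφ hM ht0 y).continuousAt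
    have hb : ∀ x ∈ Ioc (0 : ℝ) 1, |heat t φ x - φ x| ≤ 2 * M := by
      intro x hx
      calc |heat t φ x - φ x| ≤ |heat t φ x| + |φ x| := abs_sub _ _
        _ ≤ 2 * M := by linarith [abs_heat_le hφ hM t x, hM x (Ioc_subset_Icc_self hx)]
    have hi : IntegrableOn (fun x => |heat t φ x - φ x|) (Ioc 0 1) := by
      refine Integrable.mono' (g := fun _ => 2 * M) (integrableOn_const (by simp))
        ((hhc.measurable.sub hφ).abs.aestronglyMeasurable) ?_
      refine (ae_restrict_iff' measurableSet_Ioc).mpr (Filter.Eventually.of_forall fun x hx => ?_)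
      rw [Real.norm_eq_abs, abs_abs]
      exact hb x hx
    rw [intervalIntegral.integral_of_le zero_le_one]
    calc ∫ x in Ioc (0 : ℝ) 1, (heat t φ x - φ x) ^ 2
        ≤ ∫ x in Ioc (0 : ℝ) 1, (2 * M) * |heat t φ x - φ x| := by
          refine integral_mono_of_nonneg (Filter.Eventually.of_forall fun x => sq_nonneg _)
            (hi.const_mul _) ?_
          refine (ae_restrict_iff' measurableSet_Ioc).mpr
            (Filter.Eventually.of_forall fun x hx => ?_)
          show (heat t φ x - φ x) ^ 2 ≤ (2 * M) * |heat t φ x - φ x|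
          rw [← sq_abs, pow_two]
          exact mul_le_mul_of_nonneg_right (hb x hx) (abs_nonneg _)
      _ = (2 * M) * ∫ x in Ioc (0 : ℝ) 1, |heat t φ x - φ x| := integral_const_mul _ _
      _ ≤ _ := mul_le_mul_of_nonneg_left (heat_l1_le hφ hM t) (by positivity)

end Pool.Agent.Burg
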