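import Pool.Agent.Helper46_Burg.Mild
import Pool.Agent.Helper46_Burg.Dens
import Pool.Agent.Helper46_Burg.Init
import Pool.Agent.Helper46_Burg.Tools

/-!
Module EXIST: existence of pieces for a globally Lipschitz flux, and elementary operations on
pieces.
-/

set_option autoImplicit false

open MeasureTheory Set Filter Topology
open scoped Real ENNReal NNReal

noncomputable section

namespace Pool.Agent.Burg

/-- Shift of a jointly continuous function. -/
theorem continuousOn_shift {a b : ℝ} {H : ℝ → ℝ → ℝ}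
    (hH : ContinuousOn (Function.uncurry H) (Ioc 0 (b - a) ×ˢ Icc 0 1)) :
    ContinuousOn (Function.uncurry fun t x => H (t - a) x) (Ioc a b ×ˢ Icc 0 1) := by
  have h1 : ContinuousOn (fun p : ℝ × ℝ => (p.1 - a, p.2)) (Ioc a b ×ˢ Icc 0 1) :=
    (by fun_prop : Continuous fun p : ℝ × ℝ => (p.1 - a, p.2)).continuousOn
  have h2 : MapsTo (fun p : ℝ × ℝ => (p.1 - a, p.2)) (Ioc a b ×ˢ Icc 0 1)
      (Ioc 0 (b - a) ×ˢ Icc 0 1) := by
    intro p hp
    exact ⟨⟨by linarith [hp.1.1], by linarith [hp.1.2]⟩, hp.2⟩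
  have h3 := hH.comp h1 h2
  have e : (Function.uncurry fun t x => H (t - a) x) =
      Function.uncurry H ∘ fun p : ℝ × ℝ => (p.1 - a, p.2) := by
    funext p
    rfl
  rw [e]
  exact h3

/-- `∫₀ᵗ (t-s)^(-1/2) ds` -/
theorem integral_rpow_sub {t : ℝ} (_ht : 0 < t) (N : ℝ) :
    IntervalIntegrable (fun s => (t - s) ^ (-(1 / 2) : ℝ) * N) volume 0 t ∧
      ∫ s in (0 : ℝ)..t, (t - s) ^ (-(1 / 2) : ℝ) * N = 2 * √t * N := by
  have h0 : IntervalIntegrable (fun s : ℝ => s ^ (-(1 / 2) : ℝ)) volume 0 t :=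
    intervalIntegral.intervalIntegrable_rpow' (by norm_num)
  have h1 : IntervalIntegrable (fun s : ℝ => (t - s) ^ (-(1 / 2) : ℝ)) volume 0 t := by
    have := (h0.comp_sub_left t).symm
    simpa using this
  refine ⟨h1.mul_const N, ?_⟩
  rw [intervalIntegral.integral_mul_const,
    intervalIntegral.integral_comp_sub_left (fun s : ℝ => s ^ (-(1 / 2) : ℝ)) t]
  rw [sub_self, sub_zero, integral_rpow (Or.inl (by norm_num))]
  rw [Real.zero_rpow (by norm_num), Real.sqrt_eq_rpow, show (-(1 / 2) : ℝ) + 1 = 1 / 2 by norm_num]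
  ring

/-- The analytic core: properties of the mild solution on `(0,T]`. -/
theorem exists_core {f : ℝ → ℝ} {L : ℝ≥0} (hf : LipschitzWith L f) {T : ℝ} (hT : 0 < T)
    {r0 : ℝ → ℝ} (hr0 : Measurable r0) {R : ℝ} (hR : ∀ x ∈ Icc (0 : ℝ) 1, |r0 x| ≤ R)
    {B : ℝ → ℝ → ℝ} (hB : ContinuousOn (Function.uncurry B) (Icc 0 T ×ˢ Icc 0 1)) {K : ℝ}
    (hK : ∀ t ∈ Icc 0 T, ∀ x ∈ Icc (0 : ℝ) 1, ∀ y ∈ Icc (0 : ℝ) 1,
      |B t x - B t y| ≤ K * |x - y|) :
    ∃ (r g : ℝ → ℝ → ℝ) (M N : ℝ), Adm T r M ∧ Adm T (fun s y => f (B s y + r s y)) N ∧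
      ContinuousOn (Function.uncurry g) (Ioc 0 T ×ˢ Icc 0 1) ∧
      (∀ t ∈ Ioc 0 T, ∀ x ∈ Icc (0 : ℝ) 1, HasDerivWithinAt (r t) (g t x) (Icc 0 1) x) ∧
      (∀ t ∈ Ioc 0 T, ∀ x ∈ Icc (0 : ℝ) 1,
        r t x = heat t r0 x - duh (fun s y => f (B s y + r s y)) t x) := by
  have hR0 : 0 ≤ R := (abs_nonneg _).trans (hR 0 (by simp))
  obtain ⟨r, ⟨M, hM⟩, hr⟩ := exists_mild hf hT hr0 hR hB
  set F : ℝ → ℝ → ℝ := fun s y => f (B s y + r s y) with hFdef
  have hM0 : 0 ≤ M := (abs_nonneg _).trans (hM.bd T ⟨hT, le_rfl⟩ 0 (by simp))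
  obtain ⟨b, hb⟩ := exists_bound_Icc hB
  have hb0 : 0 ≤ b := (abs_nonneg _).trans (hb T ⟨hT.le, le_rfl⟩ 0 (by simp))
  have hBc : ContinuousOn (Function.uncurry B) (Ioc 0 T ×ˢ Icc 0 1) :=
    hB.mono (prod_mono Ioc_subset_Icc_self Subset.rfl)
  have hlip : ∀ u v : ℝ, |f u - f v| ≤ L * |u - v| := by
    intro u v
    have := hf.dist_le_mul u v
    rwa [Real.dist_eq, Real.dist_eq] at this
  set N : ℝ := |f 0| + L * (b + M) with hN
  have hFN : Adm T F N := by
    refine ⟨?_, ?_⟩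
    · have h1 : ContinuousOn (fun p : ℝ × ℝ => Function.uncurry B p + Function.uncurry r p)
        (Ioc 0 T ×ˢ Icc 0 1) := hBc.add hM.cont
      exact hf.continuous.comp_continuousOn h1
    · intro t ht x hx
      have h1 := hlip (B t x + r t x) 0
      have h2 : |B t x + r t x| ≤ b + M :=
        (abs_add_le _ _).trans (add_le_add (hb t ⟨ht.1.le, ht.2⟩ x hx) (hM.bd t ht x hx))
      have h3 : |f (B t x + r t x)| ≤ |f 0| + |f (B t x + r t x) - f 0| := by
        have := abs_add_le (f 0) (f (B t x + r t x) - f 0)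
        rwa [add_sub_cancel] at this
      rw [sub_zero] at h1
      calc |f (B t x + r t x)| ≤ |f 0| + |f (B t x + r t x) - f 0| := h3
        _ ≤ |f 0| + L * (b + M) := by gcongr; exact h1.trans (by gcongr)
  have hN0 : 0 ≤ N := (abs_nonneg _).trans (hFN.bd T ⟨hT, le_rfl⟩ 0 (by simp))
  -- Hölder bound for `F`
  have hquart : ∀ s ∈ Ioc 0 T, 1 ≤ T ^ ((1 / 4) : ℝ) * s ^ (-(1 / 4) : ℝ) := by
    intro s hs
    have h1 : s ^ ((1 / 4) : ℝ) ≤ T ^ ((1 / 4) : ℝ) :=
      Real.rpow_le_rpow hs.1.le hs.2 (by norm_num)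
    have h2 : s ^ ((1 / 4) : ℝ) * s ^ (-(1 / 4) : ℝ) = 1 := by
      rw [← Real.rpow_add hs.1]
      norm_num
    calc (1 : ℝ) = s ^ ((1 / 4) : ℝ) * s ^ (-(1 / 4) : ℝ) := h2.symm
      _ ≤ T ^ ((1 / 4) : ℝ) * s ^ (-(1 / 4) : ℝ) :=
        mul_le_mul_of_nonneg_right h1 (Real.rpow_nonneg hs.1.le _)
  set K' : ℝ := L * (|K| * T ^ ((1 / 4) : ℝ) + 2 * R + 8 * N * T ^ ((1 / 2) : ℝ)) with hK'
  have hFK : ∀ s ∈ Ioc 0 T, ∀ x ∈ Icc (0 : ℝ) 1, ∀ y ∈ Icc (0 : ℝ) 1,
      |F s x - F s y| ≤ K' * s ^ (-(1 / 4) : ℝ) * √|x - y| := by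
    intro s hs x hx y hy
    have hs4 : 0 ≤ s ^ (-(1 / 4) : ℝ) := Real.rpow_nonneg hs.1.le _
    have hT4 : 0 ≤ T ^ ((1 / 4) : ℝ) := Real.rpow_nonneg hT.le _
    have hsq : |x - y| ≤ √|x - y| := by
      have h1 : |x - y| ≤ 1 := by
        rw [abs_le]
        constructor <;> linarith [hx.1, hx.2, hy.1, hy.2]
      apply Real.le_sqrt_of_sq_le
      nlinarith [abs_nonneg (x - y)]
    have h1 := hlip (B s x + r s x) (B s y + r s y)
    have h2 : |B s x - B s y| ≤ |K| * T ^ ((1 / 4) : ℝ) * s ^ (-(1 / 4) : ℝ) * √|x - y| := by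
      calc |B s x - B s y| ≤ K * |x - y| := hK s ⟨hs.1.le, hs.2⟩ x hx y hy
        _ ≤ |K| * √|x - y| := by
          calc K * |x - y| ≤ |K| * |x - y| := by gcongr; exact le_abs_self K
            _ ≤ |K| * √|x - y| := by gcongr
        _ ≤ (|K| * √|x - y|) * (T ^ ((1 / 4) : ℝ) * s ^ (-(1 / 4) : ℝ)) :=
          le_mul_of_one_le_right (by positivity) (hquart s hs)
        _ = _ := by ring
    have h3 := heat_holder hr0 hR hs.1 x y
    have h4 := duh_holder hFN hs x y
    have h5 : s ^ ((1 / 4) : ℝ) ≤ T ^ ((1 / 2) : ℝ) * s ^ (-(1 / 4) : ℝ) := by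
      have e1 : s ^ ((1 / 4) : ℝ) = s ^ ((1 / 2) : ℝ) * s ^ (-(1 / 4) : ℝ) := by
        rw [← Real.rpow_add hs.1]
        norm_num
      rw [e1]
      exact mul_le_mul_of_nonneg_right (Real.rpow_le_rpow hs.1.le hs.2 (by norm_num)) hs4
    have h6 : |r s x - r s y| ≤ (2 * R + 8 * N * T ^ ((1 / 2) : ℝ)) * s ^ (-(1 / 4) : ℝ) *
        √|x - y| := by
      rw [hr s hs x hx, hr s hs y hy]
      have e1 : heat s r0 x - duh F s x - (heat s r0 y - duh F s y) =
        (heat s r0 x - heat s r0 y) - (duh F s x - duh F s y) := by ring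
      rw [e1]
      calc |(heat s r0 x - heat s r0 y) - (duh F s x - duh F s y)| ≤
          |heat s r0 x - heat s r0 y| + |duh F s x - duh F s y| := abs_sub _ _
        _ ≤ 2 * R * s ^ (-(1 / 4) : ℝ) * √|x - y| + 8 * N * s ^ ((1 / 4) : ℝ) * √|x - y| :=
          add_le_add h3 h4
        _ ≤ 2 * R * s ^ (-(1 / 4) : ℝ) * √|x - y| +
            8 * N * (T ^ ((1 / 2) : ℝ) * s ^ (-(1 / 4) : ℝ)) * √|x - y| := by gcongr
        _ = _ := by ring
    calc |F s x - F s y| ≤ L * |B s x + r s x - (B s y + r s y)| := h1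
      _ ≤ L * (|B s x - B s y| + |r s x - r s y|) := by
        gcongr
        have e1 : B s x + r s x - (B s y + r s y) = (B s x - B s y) + (r s x - r s y) := by ring
        rw [e1]
        exact abs_add_le _ _
      _ ≤ L * (|K| * T ^ ((1 / 4) : ℝ) * s ^ (-(1 / 4) : ℝ) * √|x - y| +
          (2 * R + 8 * N * T ^ ((1 / 2) : ℝ)) * s ^ (-(1 / 4) : ℝ) * √|x - y|) := by
        gcongr
      _ = _ := by rw [hK']; ring
  refine ⟨r, fun t x => (√t)⁻¹ * cv g1 (√t) (oddExt r0) x - duh' F t x, M, N, hM, hFN, ?_, ?_, hr⟩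
  · have h1 := continuousOn_cv_g1 (measurable_oddExt hr0) (abs_oddExt_le hR)
    have h2 : ContinuousOn (fun p : ℝ × ℝ => (√p.1, p.2)) (Ioc 0 T ×ˢ Icc 0 1) :=
      (by fun_prop : Continuous fun p : ℝ × ℝ => (√p.1, p.2)).continuousOn
    have h3 : MapsTo (fun p : ℝ × ℝ => (√p.1, p.2)) (Ioc 0 T ×ˢ Icc 0 1) (Ioi 0 ×ˢ univ) := by
      intro p hp
      have hp1 : 0 < p.1 := hp.1.1
      exact ⟨Real.sqrt_pos.2 hp1, mem_univ _⟩
    have h4 := h1.comp h2 h3
    have h5 : ContinuousOn (fun p : ℝ × ℝ => (√p.1)⁻¹) (Ioc 0 T ×ˢ Icc 0 1) := by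
      apply ContinuousOn.inv₀
      · exact (by fun_prop : Continuous fun p : ℝ × ℝ => √p.1).continuousOn
      · intro p hp
        exact (Real.sqrt_pos.2 hp.1.1).ne'
    have h6 := (continuousOn_duh' hFN hFK).mono (prod_mono Subset.rfl (subset_univ (Icc (0:ℝ) 1)))
    exact (h5.mul h4).sub h6
  · intro t ht x hx
    have h1 := hasDerivAt_heat hr0 hR ht.1 x
    have h2 := hasDerivAt_duh hFN hFK ht x
    have h3 := (h1.sub h2).hasDerivWithinAt (s := Icc (0 : ℝ) 1)
    exact h3.congr (fun y hy => hr t ht y hy) (hr t ht x hx)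

theorem exists_piece {f : ℝ → ℝ} {L : ℝ≥0} (hf : LipschitzWith L f) {a b : ℝ} (hab : a < b)
    {r0 : ℝ → ℝ} (hr0 : Measurable r0) {R : ℝ} (hR : ∀ x ∈ Icc (0 : ℝ) 1, |r0 x| ≤ R)
    {B : ℝ → ℝ → ℝ} (hB : ContinuousOn (Function.uncurry B) (Icc a b ×ˢ Icc 0 1)) {K : ℝ}
    (hK : ∀ t ∈ Icc a b, ∀ x ∈ Icc (0 : ℝ) 1, ∀ y ∈ Icc (0 : ℝ) 1,
      |B t x - B t y| ≤ K * |x - y|) :
    ∃ r g : ℝ → ℝ → ℝ, Piece f a b r0 B r g := by
  set T : ℝ := b - a with hTdef
  have hT : 0 < T := sub_pos.2 hab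
  have hB' : ContinuousOn (Function.uncurry fun t x => B (a + t) x) (Icc 0 T ×ˢ Icc 0 1) := by
    have h1 : ContinuousOn (fun p : ℝ × ℝ => (a + p.1, p.2)) (Icc 0 T ×ˢ Icc 0 1) :=
      (by fun_prop : Continuous fun p : ℝ × ℝ => (a + p.1, p.2)).continuousOn
    have h2 : MapsTo (fun p : ℝ × ℝ => (a + p.1, p.2)) (Icc 0 T ×ˢ Icc 0 1)
        (Icc a b ×ˢ Icc 0 1) := by
      intro p hp
      exact ⟨⟨by linarith [hp.1.1], by linarith [hp.1.2]⟩, hp.2⟩
    exact hB.comp h1 h2
  have hK' : ∀ t ∈ Icc 0 T, ∀ x ∈ Icc (0 : ℝ) 1, ∀ y ∈ Icc (0 : ℝ) 1,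
      |B (a + t) x - B (a + t) y| ≤ K * |x - y| := fun t ht =>
    hK (a + t) ⟨by linarith [ht.1], by linarith [ht.2]⟩
  obtain ⟨r, g, M, N, hM, hN, hg, hder, hr⟩ :=
    exists_core hf hT hr0 hR (B := fun t x => B (a + t) x) hB' hK'
  set F : ℝ → ℝ → ℝ := fun s y => f (B (a + s) y + r s y) with hF
  have hmem : ∀ {t : ℝ}, t ∈ Ioc a b → t - a ∈ Ioc 0 T := by
    intro t ht
    exact ⟨by linarith [ht.1], by linarith [ht.2]⟩
  have hFs : ∀ s x, F (s - a) x = f (B s x + r (s - a) x) := by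
    intro s x
    simp only [hF, add_sub_cancel]
  have h0 : ∀ t ∈ Ioc 0 T, r t 0 = 0 := by
    intro t ht
    rw [hr t ht 0 (by simp), heat_zero, duh_zero, sub_zero]
  have h1 : ∀ t ∈ Ioc 0 T, r t 1 = 0 := by
    intro t ht
    rw [hr t ht 1 (by simp), heat_one, duh_one, sub_zero]
  have hN0 : 0 ≤ N := (abs_nonneg _).trans (hN.bd T ⟨hT, le_rfl⟩ 0 (by simp))
  refine ⟨fun t x => r (t - a) x, fun t x => g (t - a) x, ?_, ?_, ?_, ?_, ?_, ?_, ?_, ?_, ?_⟩
  · exact continuousOn_shift hM.cont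
  · exact continuousOn_shift hg
  · exact ⟨M, fun t ht x hx => hM.bd (t - a) (hmem ht) x hx⟩
  · intro t ht x hx
    exact hder (t - a) (hmem ht) x hx
  · intro t ht
    exact h0 _ (hmem ht)
  · intro t ht
    exact h1 _ (hmem ht)
  · -- weak formulation
    intro t₁ t₂ ht₁ h12 ht₂ φ φ' hφ
    have hcoeff : ∀ j : ℕ, ∀ t ∈ Ioc 0 T, ∫ x in (0 : ℝ)..1, r t x * Real.sin (j * π * x) =
        Real.exp (-(π ^ 2 * j ^ 2 * t)) * (∫ x in (0 : ℝ)..1, r0 x * Real.sin (j * π * x)) +
          (j * π) * ∫ s in (0 : ℝ)..t, Real.exp (-(π ^ 2 * j ^ 2 * (t - s))) *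
            ∫ x in (0 : ℝ)..1, F s x * Real.cos (j * π * x) := by
      intro j t ht
      have e1 : ∫ x in (0 : ℝ)..1, r t x * Real.sin (j * π * x) =
          ∫ x in (0 : ℝ)..1, (heat t r0 x * Real.sin (j * π * x) -
            duh F t x * Real.sin (j * π * x)) := by
        refine intervalIntegral.integral_congr fun x hx => ?_
        rw [uIcc_of_le zero_le_one] at hx
        show r t x * Real.sin (j * π * x) = _
        rw [hr t ht x hx]
        ring
      have c1 : ContinuousOn (fun x => heat t r0 x * Real.sin (j * π * x)) (uIcc 0 1) := by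
        have : Continuous (heat t r0) :=
          continuous_iff_continuousAt.2 fun x => (hasDerivAt_heat hr0 hR ht.1 x).continuousAt
        exact (this.mul (by fun_prop)).continuousOn
      have c2 : ContinuousOn (fun x => duh F t x * Real.sin (j * π * x)) (uIcc 0 1) := by
        have h2 : Continuous (duh F t) := by
          have := continuousOn_duh hN
          have h3 : ContinuousOn (fun x : ℝ => (t, x)) univ :=
            (by fun_prop : Continuous fun x : ℝ => (t, x)).continuousOn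
          have h4 := this.comp h3 (fun x _ => ⟨ht, mem_univ _⟩)
          rw [← continuousOn_univ]
          exact h4
        exact (h2.mul (by fun_prop)).continuousOn
      rw [e1, intervalIntegral.integral_sub c1.intervalIntegrable c2.intervalIntegrable,
        heat_coeff hr0 hR ht.1, duh_coeff hN ht]
      ring
    have hw := weak_of_coeff hM hN hg hder h0 h1 _ hcoeff (t₁ := t₁ - a) (t₂ := t₂ - a)
      (by linarith) (by linarith) (by linarith) hφ
    show (∫ x in (0 : ℝ)..1, r (t₂ - a) x * φ x) - (∫ x in (0 : ℝ)..1, r (t₁ - a) x * φ x) = _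
    rw [hw, ← intervalIntegral.integral_comp_sub_right
      (fun t => ∫ x in (0 : ℝ)..1, (F t x - g t x) * φ' x) a]
    refine intervalIntegral.integral_congr fun t _ => ?_
    refine intervalIntegral.integral_congr fun x _ => ?_
    show (F (t - a) x - g (t - a) x) * φ' x = (f (B t x + r (t - a) x) - g (t - a) x) * φ' x
    rw [hFs]
  · -- initial value
    have hi := tendsto_heat_init hr0 hR
    have hshift : Tendsto (fun t : ℝ => t - a) (𝓝[>] a) (𝓝[>] 0) := by
      apply tendsto_nhdsWithin_of_tendsto_nhds_of_eventually_within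
      · have : Tendsto (fun t : ℝ => t - a) (𝓝 a) (𝓝 (a - a)) :=
          (continuous_id.sub continuous_const).tendsto a
        rw [sub_self] at this
        exact this.mono_left nhdsWithin_le_nhds
      · filter_upwards [self_mem_nhdsWithin] with t ht
        exact sub_pos.2 (mem_Ioi.1 ht)
    have key : Tendsto (fun t => ∫ x in (0 : ℝ)..1, (r t x - r0 x) ^ 2) (𝓝[>] 0) (𝓝 0) := by
      have hub : Tendsto (fun t => 2 * (∫ x in (0 : ℝ)..1, (heat t r0 x - r0 x) ^ 2) +
          2 * (2 * √t * N) ^ 2) (𝓝[>] 0) (𝓝 0) := by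
        have h2 : Tendsto (fun t : ℝ => 2 * (2 * √t * N) ^ 2) (𝓝[>] 0) (𝓝 0) := by
          have h3 : Continuous fun t : ℝ => 2 * (2 * √t * N) ^ 2 := by fun_prop
          have h4 := h3.tendsto 0
          simp only [Real.sqrt_zero, mul_zero, zero_mul, ne_eq, OfNat.ofNat_ne_zero,
            not_false_eq_true, zero_pow] at h4
          exact h4.mono_left nhdsWithin_le_nhds
        have h5 := (hi.const_mul 2).add h2
        simpa using h5
      refine tendsto_of_tendsto_of_tendsto_of_le_of_le' tendsto_const_nhds hub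
        (Eventually.of_forall fun t => intervalIntegral.integral_nonneg zero_le_one
          fun x _ => sq_nonneg _) ?_
      have hev : ∀ᶠ t in 𝓝[>] (0 : ℝ), t ∈ Ioc 0 T := Ioc_mem_nhdsGT hT
      filter_upwards [hev] with t ht
      obtain ⟨hint, hval⟩ := integral_rpow_sub ht.1 N
      have hduh : ∀ x, |duh F t x| ≤ 2 * √t * N := by
        intro x
        have := abs_duh_le hN ht (m := fun _ => N) (κ := fun _ => 0) (fun s hs y hy => by
          rw [sub_zero]
          exact hN.bd s ⟨hs.1, hs.2.le.trans ht.2⟩ y hy) hint x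
        rwa [hval] at this
      have hheatc : Continuous (heat t r0) :=
        continuous_iff_continuousAt.2 fun x => (hasDerivAt_heat hr0 hR ht.1 x).continuousAt
      -- integrability
      have hbd : ∀ x ∈ Icc (0 : ℝ) 1, |heat t r0 x - r0 x| ≤ R + R := fun x hx =>
        (abs_sub _ _).trans (add_le_add (abs_heat_le hr0 hR t x) (hR x hx))
      have i1 : IntervalIntegrable (fun x => (heat t r0 x - r0 x) ^ 2) volume 0 1 := by
        rw [intervalIntegrable_iff, uIoc_of_le zero_le_one]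
        refine Measure.integrableOn_of_bounded (M := (R + R) ^ 2) (by simp)
          ((hheatc.measurable.sub hr0).pow_const 2).aestronglyMeasurable ?_
        filter_upwards [ae_restrict_mem measurableSet_Ioc] with x hx
        rw [Real.norm_eq_abs, abs_pow]
        exact pow_le_pow_left₀ (abs_nonneg _) (hbd x (Ioc_subset_Icc_self hx)) 2
      have i2 : IntervalIntegrable (fun x => (r t x - r0 x) ^ 2) volume 0 1 := by
        rw [intervalIntegrable_iff, uIoc_of_le zero_le_one]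
        have hrc : ContinuousOn (r t) (Icc 0 1) := fun x hx =>
          (hder t ht x hx).continuousWithinAt
        refine Integrable.of_bound
          ((((hrc.mono Ioc_subset_Icc_self).aestronglyMeasurable measurableSet_Ioc).sub
            hr0.aestronglyMeasurable).pow 2) ((M + R) ^ 2) ?_
        filter_upwards [ae_restrict_mem measurableSet_Ioc] with x hx
        have hx' := Ioc_subset_Icc_self hx
        rw [Real.norm_eq_abs, abs_pow]
        exact pow_le_pow_left₀ (abs_nonneg _)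
          ((abs_sub _ _).trans (add_le_add (hM.bd t ht x hx') (hR x hx'))) 2
      calc ∫ x in (0 : ℝ)..1, (r t x - r0 x) ^ 2 ≤
          ∫ x in (0 : ℝ)..1, (2 * (heat t r0 x - r0 x) ^ 2 + 2 * (2 * √t * N) ^ 2) := by
            refine intervalIntegral.integral_mono_on zero_le_one i2
              ((i1.const_mul 2).add intervalIntegrable_const) fun x hx => ?_
            rw [hr t ht x hx]
            have h6 := hduh x
            have h7 : (duh F t x) ^ 2 ≤ (2 * √t * N) ^ 2 := by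
              rw [← sq_abs]
              exact pow_le_pow_left₀ (abs_nonneg _) h6 2
            nlinarith [sq_nonneg (heat t r0 x - r0 x + duh F t x)]
        _ = _ := by
            rw [intervalIntegral.integral_add (i1.const_mul 2) intervalIntegrable_const,
              intervalIntegral.integral_const_mul, intervalIntegral.integral_const]
            simp
    exact key.comp hshift
  · -- mild formula
    intro t ht m κ hm hi x hx
    have ht' := hmem ht
    have hi' : IntervalIntegrable (fun s => (t - a - s) ^ (-(1 / 2) : ℝ) * m (a + s)) volume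
        0 (t - a) := by
      have := hi.comp_add_left a
      simp only [sub_self] at this
      refine this.congr fun s _ => ?_
      show (t - (a + s)) ^ (-(1 / 2) : ℝ) * m (a + s) = (t - a - s) ^ (-(1 / 2) : ℝ) * m (a + s)
      rw [sub_add_eq_sub_sub]
    have h := abs_duh_le hN ht' (m := fun s => m (a + s)) (κ := fun s => κ (a + s))
      (fun s hs y hy => hm (a + s) ⟨by linarith [hs.1], by linarith [hs.2]⟩ y hy |> fun h => by
        simpa [hF, add_sub_cancel_left] using h) hi' x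
    have e1 : r (t - a) x - heat (t - a) r0 x = -duh F (t - a) x := by
      rw [hr (t - a) ht' x hx]
      ring
    show |r (t - a) x - heat (t - a) r0 x| ≤ _
    rw [e1, abs_neg]
    refine h.trans (le_of_eq ?_)
    have e2 := intervalIntegral.integral_comp_add_left
      (fun s => (t - s) ^ (-(1 / 2) : ℝ) * m s) a (a := 0) (b := t - a)
    rw [add_zero, add_sub_cancel] at e2
    rw [← e2]
    refine intervalIntegral.integral_congr fun s _ => ?_
    show (t - a - s) ^ (-(1 / 2) : ℝ) * m (a + s) = (t - (a + s)) ^ (-(1 / 2) : ℝ) * m (a + s)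
    rw [sub_add_eq_sub_sub]

/-- The flux may be changed outside the range of the solution. -/
theorem Piece.congr_flux {f f' : ℝ → ℝ} {a b : ℝ} {r0 : ℝ → ℝ} {B r g : ℝ → ℝ → ℝ}
    (hP : Piece f a b r0 B r g)
    (h : ∀ t ∈ Ioc a b, ∀ x ∈ Icc (0 : ℝ) 1, f (B t x + r t x) = f' (B t x + r t x)) :
    Piece f' a b r0 B r g := by
  refine ⟨hP.contR, hP.contG, hP.bdd, hP.der, hP.zero0, hP.zero1, ?_, hP.init, ?_⟩
  · intro t₁ t₂ h1 h12 h2 φ φ' hφ
    rw [hP.weak t₁ t₂ h1 h12 h2 φ φ' hφ]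
    refine intervalIntegral.integral_congr fun t ht => ?_
    rw [uIcc_of_le h12] at ht
    refine intervalIntegral.integral_congr fun x hx => ?_
    rw [uIcc_of_le zero_le_one] at hx
    show (f (B t x + r t x) - g t x) * φ' x = (f' (B t x + r t x) - g t x) * φ' x
    rw [h t ⟨lt_of_lt_of_le h1 ht.1, ht.2.trans h2⟩ x hx]
  · intro t ht m κ hm hi x hx
    refine hP.mild t ht m κ (fun s hs y hy => ?_) hi x hx
    rw [h s ⟨hs.1, hs.2.le.trans ht.2⟩ y hy]
    exact hm s hs y hy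

/-- Restriction to a shorter time interval. -/
theorem Piece.mono {f : ℝ → ℝ} {a b : ℝ} {r0 : ℝ → ℝ} {B r g : ℝ → ℝ → ℝ}
    (hP : Piece f a b r0 B r g) {c : ℝ} (_hac : a < c) (hcb : c ≤ b) :
    Piece f a c r0 B r g := by
  have hsub : Ioc a c ⊆ Ioc a b := Ioc_subset_Ioc_right hcb
  have hsub2 : Ioc a c ×ˢ Icc (0 : ℝ) 1 ⊆ Ioc a b ×ˢ Icc (0 : ℝ) 1 :=
    prod_mono hsub Subset.rfl
  refine ⟨hP.contR.mono hsub2, hP.contG.mono hsub2, ?_, fun t ht => hP.der t (hsub ht),
    fun t ht => hP.zero0 t (hsub ht), fun t ht => hP.zero1 t (hsub ht), ?_, hP.init,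
    fun t ht => hP.mild t (hsub ht)⟩
  · obtain ⟨M, hM⟩ := hP.bdd
    exact ⟨M, fun t ht => hM t (hsub ht)⟩
  · intro t₁ t₂ h1 h12 h2
    exact hP.weak t₁ t₂ h1 h12 (h2.trans hcb)

end Pool.Agent.Burg
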