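import Pool.Agent.Helper46_Burg.Kern

/-!
Module EXT: parity and periodicity of the extensions; boundary values and sup bound of the
Dirichlet heat flow.
-/

set_option autoImplicit false

open MeasureTheory Set Filter Topology
open scoped Real ENNReal

noncomputable section

namespace Pool.Agent.Burg

theorem tri_mem (x : ℝ) : tri x ∈ Icc (0 : ℝ) 1 := by
  refine ⟨norm_nonneg _, ?_⟩
  have := AddCircle.norm_le_half_period (2 : ℝ) (x := (x : AddCircle (2 : ℝ))) (by norm_num)
  simpa [tri] using this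

theorem tri_of_mem {x : ℝ} (hx : x ∈ Icc (0 : ℝ) 1) : tri x = x := by
  have := (AddCircle.norm_coe_eq_abs_iff (2 : ℝ) (x := x) (by norm_num)).2 (by
    rw [abs_of_nonneg hx.1]
    simpa using hx.2)
  unfold tri
  rw [this, abs_of_nonneg hx.1]

theorem tri_neg (x : ℝ) : tri (-x) = tri x := by
  unfold tri
  rw [AddCircle.coe_neg, norm_neg]

theorem tri_add_two (x : ℝ) : tri (x + 2) = tri x := by
  unfold tri
  rw [AddCircle.coe_add_period]

theorem abs_tri_sub_le (x y : ℝ) : |tri x - tri y| ≤ |x - y| := by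
  unfold tri
  refine (abs_norm_sub_norm_le _ _).trans ?_
  rw [← AddCircle.coe_sub, AddCircle.norm_eq]
  have h := round_le ((2 : ℝ)⁻¹ * (x - y)) 0
  have e1 : |x - y - round ((2 : ℝ)⁻¹ * (x - y)) * 2| =
      2 * |(2 : ℝ)⁻¹ * (x - y) - round ((2 : ℝ)⁻¹ * (x - y))| := by
    rw [← abs_of_pos (show (0 : ℝ) < 2 by norm_num), ← abs_mul,
      abs_of_pos (show (0 : ℝ) < 2 by norm_num)]
    congr 1
    ring
  rw [e1]
  have e2 : |(2 : ℝ)⁻¹ * (x - y)| = |x - y| / 2 := by
    rw [abs_mul, abs_of_pos (show (0 : ℝ) < 2⁻¹ by norm_num)]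
    ring
  rw [Int.cast_zero, sub_zero, e2] at h
  linarith

theorem continuous_tri : Continuous tri := by
  have : LipschitzWith 1 tri := LipschitzWith.of_dist_le_mul fun x y => by
    rw [Real.dist_eq, Real.dist_eq, NNReal.coe_one, one_mul]
    exact abs_tri_sub_le x y
  exact this.continuous

theorem measurable_sq : Measurable sq := by
  have h : Measurable Real.sign := by
    unfold Real.sign
    refine Measurable.ite measurableSet_Iio measurable_const ?_
    exact Measurable.ite measurableSet_Ioi measurable_const measurable_const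
  exact h.comp (by fun_prop)

theorem sq_of_mem {x : ℝ} (hx : x ∈ Ioo (0 : ℝ) 1) : sq x = 1 := by
  unfold sq
  apply Real.sign_of_pos
  apply Real.sin_pos_of_pos_of_lt_pi
  · exact mul_pos Real.pi_pos hx.1
  · nlinarith [Real.pi_pos, hx.2]

theorem sq_neg (x : ℝ) : sq (-x) = -sq x := by
  unfold sq
  rw [mul_neg, Real.sin_neg, Real.sign_neg]

theorem sq_add_two (x : ℝ) : sq (x + 2) = sq x := by
  unfold sq
  rw [show π * (x + 2) = π * x + 2 * π by ring, Real.sin_add_two_pi]

theorem abs_sq_le (x : ℝ) : |sq x| ≤ 1 := by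
  unfold sq
  rcases Real.sign_apply_eq (Real.sin (π * x)) with h | h | h <;> rw [h] <;> norm_num

theorem abs_sin_tri (x : ℝ) : |Real.sin (π * x)| = |Real.sin (π * tri x)| := by
  have h : tri x = |x - round ((2 : ℝ)⁻¹ * x) * 2| := by
    unfold tri
    rw [AddCircle.norm_eq]
  have h1 : Real.sin (π * (x - round ((2 : ℝ)⁻¹ * x) * 2)) = Real.sin (π * x) := by
    rw [show π * (x - round ((2 : ℝ)⁻¹ * x) * 2) =
      π * x - (round ((2 : ℝ)⁻¹ * x) : ℤ) * (2 * π) by ring, Real.sin_sub_int_mul_two_pi]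
  rw [h, ← h1]
  rcases abs_cases (x - round ((2 : ℝ)⁻¹ * x) * 2) with ⟨h2, _⟩ | ⟨h2, _⟩
  · rw [h2]
  · rw [h2, mul_neg, Real.sin_neg, abs_neg]

theorem sq_eq_zero_or (x : ℝ) : sq x = 0 ∨ tri x ∈ Ioo (0 : ℝ) 1 := by
  by_cases h : sq x = 0
  · exact Or.inl h
  · right
    have h1 : Real.sin (π * x) ≠ 0 := by
      intro h2
      apply h
      unfold sq
      rw [h2, Real.sign_zero]
    have h3 : Real.sin (π * tri x) ≠ 0 := by
      rw [← abs_ne_zero, ← abs_sin_tri, abs_ne_zero]
      exact h1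
    have h4 := tri_mem x
    refine ⟨lt_of_le_of_ne h4.1 ?_, lt_of_le_of_ne h4.2 ?_⟩
    · intro e
      rw [← e] at h3
      simp at h3
    · intro e
      rw [e] at h3
      simp at h3

theorem measurable_oddExt {φ : ℝ → ℝ} (hφ : Measurable φ) : Measurable (oddExt φ) :=
  measurable_sq.mul (hφ.comp continuous_tri.measurable)

theorem measurable_evenExt {φ : ℝ → ℝ} (hφ : Measurable φ) : Measurable (evenExt φ) :=
  hφ.comp continuous_tri.measurable

theorem continuous_evenExt {φ : ℝ → ℝ} (hφ : ContinuousOn φ (Icc 0 1)) :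
    Continuous (evenExt φ) :=
  hφ.comp_continuous continuous_tri tri_mem

theorem oddExt_neg (φ : ℝ → ℝ) (x : ℝ) : oddExt φ (-x) = -oddExt φ x := by
  unfold oddExt
  rw [sq_neg, tri_neg]
  ring

theorem oddExt_add_two (φ : ℝ → ℝ) (x : ℝ) : oddExt φ (x + 2) = oddExt φ x := by
  unfold oddExt
  rw [sq_add_two, tri_add_two]

theorem evenExt_neg (φ : ℝ → ℝ) (x : ℝ) : evenExt φ (-x) = evenExt φ x := by
  unfold evenExt
  rw [tri_neg]

theorem evenExt_add_two (φ : ℝ → ℝ) (x : ℝ) : evenExt φ (x + 2) = evenExt φ x := by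
  unfold evenExt
  rw [tri_add_two]

theorem oddExt_of_mem {φ : ℝ → ℝ} {x : ℝ} (hx : x ∈ Ioo (0 : ℝ) 1) : oddExt φ x = φ x := by
  unfold oddExt
  rw [sq_of_mem hx, tri_of_mem (Ioo_subset_Icc_self hx), one_mul]

theorem evenExt_of_mem {φ : ℝ → ℝ} {x : ℝ} (hx : x ∈ Icc (0 : ℝ) 1) : evenExt φ x = φ x := by
  unfold evenExt
  rw [tri_of_mem hx]

theorem abs_oddExt_le {φ : ℝ → ℝ} {M : ℝ} (h : ∀ x ∈ Icc (0 : ℝ) 1, |φ x| ≤ M) (x : ℝ) :
    |oddExt φ x| ≤ M := by
  unfold oddExt
  rw [abs_mul]
  have h1 := h _ (tri_mem x)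
  have h2 := abs_sq_le x
  calc |sq x| * |φ (tri x)| ≤ 1 * |φ (tri x)| := by gcongr
    _ ≤ M := by rwa [one_mul]

theorem abs_evenExt_le {φ : ℝ → ℝ} {M : ℝ} (h : ∀ x ∈ Icc (0 : ℝ) 1, |φ x| ≤ M) (x : ℝ) :
    |evenExt φ x| ≤ M := h _ (tri_mem x)

/-- the integral of an odd function vanishes -/
theorem integral_odd {f : ℝ → ℝ} (h : ∀ z, f (-z) = -f z) : ∫ z, f z = 0 := by
  have h1 : ∫ z, f (-z) = ∫ z, f z := integral_neg_eq_self f volume
  simp_rw [h] at h1
  rw [integral_neg] at h1
  linarith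

theorem cv_g0_oddExt_zero (c : ℝ) (φ : ℝ → ℝ) : cv g0 c (oddExt φ) 0 = 0 := by
  apply integral_odd
  intro z
  rw [g0_neg, show 0 - c * -z = -(0 - c * z) by ring, oddExt_neg]
  ring

theorem cv_g0_oddExt_one (c : ℝ) (φ : ℝ → ℝ) : cv g0 c (oddExt φ) 1 = 0 := by
  apply integral_odd
  intro z
  rw [g0_neg, show 1 - c * -z = -(1 - c * z) + 2 by ring, oddExt_add_two, oddExt_neg]
  ring

theorem cv_g1_evenExt_zero (c : ℝ) (φ : ℝ → ℝ) : cv g1 c (evenExt φ) 0 = 0 := by
  apply integral_odd
  intro z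
  rw [g1_neg, show 0 - c * -z = -(0 - c * z) by ring, evenExt_neg]
  ring

theorem cv_g1_evenExt_one (c : ℝ) (φ : ℝ → ℝ) : cv g1 c (evenExt φ) 1 = 0 := by
  apply integral_odd
  intro z
  rw [g1_neg, show 1 - c * -z = -(1 - c * z) + 2 by ring, evenExt_add_two, evenExt_neg]
  ring

theorem heat_zero (t : ℝ) (φ : ℝ → ℝ) : heat t φ 0 = 0 := cv_g0_oddExt_zero _ _

theorem heat_one (t : ℝ) (φ : ℝ → ℝ) : heat t φ 1 = 0 := cv_g0_oddExt_one _ _

theorem abs_heat_le {φ : ℝ → ℝ} (hφ : Measurable φ) {M : ℝ}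
    (hM : ∀ x ∈ Icc (0 : ℝ) 1, |φ x| ≤ M) (t x : ℝ) : |heat t φ x| ≤ M := by
  have h := abs_cv_le integrable_g0 (measurable_oddExt hφ) (abs_oddExt_le hM) (√t) x
  have h1 : ∫ z, |g0 z| = 1 := by
    rw [← integral_g0]
    exact integral_congr_ae (Eventually.of_forall fun z => abs_of_pos (g0_pos z))
  rwa [h1, mul_one] at h

theorem heat_sub {φ ψ : ℝ → ℝ} (hφ : Measurable φ) (hψ : Measurable ψ) {M N : ℝ}
    (hM : ∀ x ∈ Icc (0 : ℝ) 1, |φ x| ≤ M) (hN : ∀ x ∈ Icc (0 : ℝ) 1, |ψ x| ≤ N) (t x : ℝ) :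
    heat t (fun y => φ y - ψ y) x = heat t φ x - heat t ψ x := by
  unfold heat
  rw [← cv_sub integrable_g0 (measurable_oddExt hφ) (measurable_oddExt hψ) (abs_oddExt_le hM)
    (abs_oddExt_le hN)]
  congr 1
  funext y
  unfold oddExt
  ring

/-- Two functions which agree on `(0,1)` have the same heat flow. -/
theorem heat_congr {φ ψ : ℝ → ℝ} (h : ∀ x ∈ Ioo (0 : ℝ) 1, φ x = ψ x) {t : ℝ} (_ht : 0 < t)
    (x : ℝ) : heat t φ x = heat t ψ x := by
  unfold heat
  congr 1
  funext y
  unfold oddExt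
  rcases sq_eq_zero_or y with h1 | h1
  · rw [h1, zero_mul, zero_mul]
  · rw [h _ h1]

theorem continuousOn_heat {φ : ℝ → ℝ} (hφ : Measurable φ) {M : ℝ}
    (hM : ∀ x ∈ Icc (0 : ℝ) 1, |φ x| ≤ M) :
    ContinuousOn (Function.uncurry fun t x => heat t φ x) (Ioi 0 ×ˢ univ) := by
  have h := continuousOn_cv_g0 (measurable_oddExt hφ) (abs_oddExt_le hM)
  have h1 : ContinuousOn (fun p : ℝ × ℝ => (√p.1, p.2)) (Ioi 0 ×ˢ univ) :=
    (by fun_prop : Continuous fun p : ℝ × ℝ => (√p.1, p.2)).continuousOn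
  have h3 : MapsTo (fun p : ℝ × ℝ => (√p.1, p.2)) (Ioi 0 ×ˢ univ) (Ioi 0 ×ˢ univ) := by
    intro p hp
    have hp1 : 0 < p.1 := hp.1
    exact ⟨Real.sqrt_pos.2 hp1, mem_univ _⟩
  have h4 := h.comp h1 h3
  have e : (Function.uncurry fun t x => heat t φ x) =
      (fun p : ℝ × ℝ => cv g0 p.1 (oddExt φ) p.2) ∘ (fun p : ℝ × ℝ => (√p.1, p.2)) := by
    funext p
    rfl
  rw [e]
  exact h4

theorem heat_eq (t : ℝ) (φ : ℝ → ℝ) : heat t φ = cv g0 (√t) (oddExt φ) := by
  funext x
  rfl

/-- Space derivative of the heat flow. -/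
theorem hasDerivAt_heat {φ : ℝ → ℝ} (hφ : Measurable φ) {M : ℝ}
    (hM : ∀ x ∈ Icc (0 : ℝ) 1, |φ x| ≤ M) {t : ℝ} (ht : 0 < t) (x : ℝ) :
    HasDerivAt (heat t φ) ((√t)⁻¹ * cv g1 (√t) (oddExt φ) x) x := by
  have h := hasDerivAt_cv_g0 (measurable_oddExt hφ) (abs_oddExt_le hM) (Real.sqrt_pos.2 ht) x
  rw [heat_eq]
  exact h

/-- even functions on `[-1,1]` -/
theorem integral_even' {f : ℝ → ℝ} (hf : IntervalIntegrable f volume (-1) 1)
    (h : ∀ x, f (-x) = f x) : ∫ x in (-1 : ℝ)..1, f x = 2 * ∫ x in (0 : ℝ)..1, f x := by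
  have i1 : IntervalIntegrable f volume (-1) 0 :=
    hf.mono_set (by
      rw [uIcc_of_le (by norm_num), uIcc_of_le (by norm_num)]
      exact Icc_subset_Icc_right (by norm_num))
  have i2 : IntervalIntegrable f volume 0 1 :=
    hf.mono_set (by
      rw [uIcc_of_le (by norm_num), uIcc_of_le (by norm_num)]
      exact Icc_subset_Icc_left (by norm_num))
  rw [← intervalIntegral.integral_add_adjacent_intervals i1 i2]
  have h1 : ∫ x in (-1 : ℝ)..0, f x = ∫ x in (0 : ℝ)..1, f x := by
    have := intervalIntegral.integral_comp_neg (a := (0 : ℝ)) (b := 1) f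
    simp only [h, neg_zero] at this
    exact this.symm
  rw [h1]
  ring

theorem integral_odd' {f : ℝ → ℝ} (h : ∀ x, f (-x) = -f x) : ∫ x in (-1 : ℝ)..1, f x = 0 := by
  have := intervalIntegral.integral_comp_neg (a := (-1 : ℝ)) (b := 1) f
  simp only [h, neg_neg, intervalIntegral.integral_neg] at this
  linarith

theorem intervalIntegrable_of_bdd {f : ℝ → ℝ} (hf : Measurable f) {M : ℝ} (hM : ∀ x, |f x| ≤ M)
    (a b : ℝ) : IntervalIntegrable f volume a b := by
  rw [intervalIntegrable_iff]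
  refine Measure.integrableOn_of_bounded (M := M) (by simp) hf.aestronglyMeasurable ?_
  exact Eventually.of_forall fun x => hM x

/-- Trigonometric moments of a scaled convolution with a periodic function. -/
theorem cv_sin_integral {k Φ : ℝ → ℝ} (hk : Integrable k) (hΦ : Measurable Φ) {M : ℝ}
    (hM : ∀ x, |Φ x| ≤ M) (hper : ∀ x, Φ (x + 2) = Φ x) (c : ℝ) (j : ℕ) :
    ∫ x in (-1 : ℝ)..1, cv k c Φ x * Real.sin (j * π * x) =
      (∫ z, k z * Real.cos (j * π * c * z)) * (∫ x in (-1 : ℝ)..1, Φ x * Real.sin (j * π * x)) +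
      (∫ z, k z * Real.sin (j * π * c * z)) *
        (∫ x in (-1 : ℝ)..1, Φ x * Real.cos (j * π * x)) := by
  have hM0 : 0 ≤ M := (abs_nonneg _).trans (hM 0)
  -- Fubini
  have hF : Integrable (Function.uncurry fun (x z : ℝ) =>
      k z * Φ (x - c * z) * Real.sin (j * π * x))
      ((volume.restrict (Ioc (-1 : ℝ) 1)).prod volume) := by
    have h1 : Integrable (fun p : ℝ × ℝ => k p.2)
        ((volume.restrict (Ioc (-1 : ℝ) 1)).prod volume) := hk.comp_snd _
    have h2 : Integrable (fun p : ℝ × ℝ => k p.2 * (Φ (p.1 - c * p.2) * Real.sin (j * π * p.1)))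
        ((volume.restrict (Ioc (-1 : ℝ) 1)).prod volume) := by
      refine h1.mul_bdd (c := M) ?_ (Eventually.of_forall fun p => ?_)
      · have m1 : Measurable fun p : ℝ × ℝ => Φ (p.1 - c * p.2) := hΦ.comp (by fun_prop)
        have m2 : Measurable fun p : ℝ × ℝ => Real.sin (j * π * p.1) := by fun_prop
        exact (m1.mul m2).aestronglyMeasurable
      · rw [Real.norm_eq_abs, abs_mul]
        calc |Φ (p.1 - c * p.2)| * |Real.sin (j * π * p.1)| ≤ M * 1 := by
              gcongr
              · exact hM _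
              · exact Real.abs_sin_le_one _
          _ = M := mul_one M
    refine h2.congr (Eventually.of_forall fun p => ?_)
    simp only [Function.uncurry]
    ring
  have e1 : ∫ x in (-1 : ℝ)..1, cv k c Φ x * Real.sin (j * π * x) =
      ∫ z, k z * ∫ x in (-1 : ℝ)..1, Φ (x - c * z) * Real.sin (j * π * x) := by
    rw [intervalIntegral.integral_of_le (by norm_num)]
    have e2 : ∀ x, cv k c Φ x * Real.sin (j * π * x) =
        ∫ z, k z * Φ (x - c * z) * Real.sin (j * π * x) := by
      intro x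
      unfold cv
      rw [integral_mul_const]
    simp_rw [e2]
    rw [integral_integral_swap hF]
    refine integral_congr_ae (Eventually.of_forall fun z => ?_)
    show ∫ x in Ioc (-1 : ℝ) 1, k z * Φ (x - c * z) * Real.sin (j * π * x) =
      k z * ∫ x in (-1 : ℝ)..1, Φ (x - c * z) * Real.sin (j * π * x)
    rw [intervalIntegral.integral_of_le (by norm_num), ← integral_const_mul]
    refine integral_congr_ae (Eventually.of_forall fun x => ?_)
    show k z * Φ (x - c * z) * Real.sin (j * π * x) = k z * (Φ (x - c * z) * Real.sin (j * π * x))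
    ring
  set A := ∫ x in (-1 : ℝ)..1, Φ x * Real.sin (j * π * x) with hA
  set B := ∫ x in (-1 : ℝ)..1, Φ x * Real.cos (j * π * x) with hB
  have iA : IntervalIntegrable (fun x => Φ x * Real.sin (j * π * x)) volume (-1) 1 := by
    refine intervalIntegrable_of_bdd (hΦ.mul (by fun_prop)) (M := M) (fun x => ?_) _ _
    show |Φ x * Real.sin (j * π * x)| ≤ M
    rw [abs_mul]
    calc |Φ x| * |Real.sin (j * π * x)| ≤ M * 1 := by
          gcongr
          · exact hM _
          · exact Real.abs_sin_le_one _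
      _ = M := mul_one M
  have iB : IntervalIntegrable (fun x => Φ x * Real.cos (j * π * x)) volume (-1) 1 := by
    refine intervalIntegrable_of_bdd (hΦ.mul (by fun_prop)) (M := M) (fun x => ?_) _ _
    show |Φ x * Real.cos (j * π * x)| ≤ M
    rw [abs_mul]
    calc |Φ x| * |Real.cos (j * π * x)| ≤ M * 1 := by
          gcongr
          · exact hM _
          · exact Real.abs_cos_le_one _
      _ = M := mul_one M
  have e3 : ∀ z, ∫ x in (-1 : ℝ)..1, Φ (x - c * z) * Real.sin (j * π * x) =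
      A * Real.cos (j * π * c * z) + B * Real.sin (j * π * c * z) := by
    intro z
    have h1 : ∫ x in (-1 : ℝ)..1, Φ (x - c * z) * Real.sin (j * π * x) =
        ∫ x in (-1 - c * z : ℝ)..(1 - c * z), Φ x * Real.sin (j * π * (x + c * z)) := by
      rw [← intervalIntegral.integral_comp_sub_right
        (fun x => Φ x * Real.sin (j * π * (x + c * z))) (c * z)]
      simp only [sub_add_cancel]
    have hp : Function.Periodic (fun x => Φ x * Real.sin (j * π * (x + c * z))) 2 := by
      intro x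
      show Φ (x + 2) * Real.sin (j * π * (x + 2 + c * z)) = _
      rw [hper, show j * π * (x + 2 + c * z) = j * π * (x + c * z) + (j : ℕ) * (2 * π) by ring,
        Real.sin_add_nat_mul_two_pi]
    have h2 := hp.intervalIntegral_add_eq (-1 - c * z) (-1)
    rw [show (-1 - c * z + 2 : ℝ) = 1 - c * z by ring, show (-1 + 2 : ℝ) = 1 by norm_num] at h2
    rw [h1, h2]
    have h3 : ∀ x, Φ x * Real.sin (j * π * (x + c * z)) =
        (Φ x * Real.sin (j * π * x)) * Real.cos (j * π * c * z) +
        (Φ x * Real.cos (j * π * x)) * Real.sin (j * π * c * z) := by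
      intro x
      rw [show j * π * (x + c * z) = j * π * x + j * π * c * z by ring, Real.sin_add]
      ring
    simp_rw [h3]
    rw [intervalIntegral.integral_add (iA.mul_const _) (iB.mul_const _),
      intervalIntegral.integral_mul_const, intervalIntegral.integral_mul_const]
  rw [e1]
  simp_rw [e3]
  have i1 : Integrable (fun z => k z * Real.cos (j * π * c * z)) :=
    hk.mul_bdd (c := 1) (by fun_prop) (Eventually.of_forall fun z => Real.abs_cos_le_one _)
  have i2 : Integrable (fun z => k z * Real.sin (j * π * c * z)) :=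
    hk.mul_bdd (c := 1) (by fun_prop) (Eventually.of_forall fun z => Real.abs_sin_le_one _)
  have e4 : ∀ z, k z * (A * Real.cos (j * π * c * z) + B * Real.sin (j * π * c * z)) =
      (k z * Real.cos (j * π * c * z)) * A + (k z * Real.sin (j * π * c * z)) * B := by
    intro z
    ring
  simp_rw [e4]
  rw [integral_add (i1.mul_const A) (i2.mul_const B), integral_mul_const, integral_mul_const]

/-- Sine coefficients of the heat flow. -/
theorem heat_coeff {φ : ℝ → ℝ} (hφ : Measurable φ) {M : ℝ}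
    (hM : ∀ x ∈ Icc (0 : ℝ) 1, |φ x| ≤ M) {t : ℝ} (ht : 0 < t) (j : ℕ) :
    ∫ x in (0 : ℝ)..1, heat t φ x * Real.sin (j * π * x) =
      Real.exp (-(π ^ 2 * j ^ 2 * t)) * ∫ x in (0 : ℝ)..1, φ x * Real.sin (j * π * x) := by
  have hΦ := measurable_oddExt hφ
  have hΦM := abs_oddExt_le hM
  have hM0 : 0 ≤ M := (abs_nonneg _).trans (hM 0 (by simp))
  have hoddheat : ∀ x, heat t φ (-x) = -heat t φ x := by
    intro x
    unfold heat cv
    rw [← integral_neg_eq_self, ← integral_neg]
    refine integral_congr_ae (Eventually.of_forall fun z => ?_)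
    show g0 (-z) * oddExt φ (-x - √t * -z) = -(g0 z * oddExt φ (x - √t * z))
    rw [g0_neg, show -x - √t * -z = -(x - √t * z) by ring, oddExt_neg]
    ring
  have hHM := abs_heat_le hφ hM t
  have hHc : Continuous (heat t φ) :=
    continuous_iff_continuousAt.2 fun x => (hasDerivAt_heat hφ hM ht x).continuousAt
  have h1 := cv_sin_integral integrable_g0 hΦ hΦM (oddExt_add_two φ) (√t) j
  have h2 : ∫ x in (-1 : ℝ)..1, heat t φ x * Real.sin (j * π * x) =
      2 * ∫ x in (0 : ℝ)..1, heat t φ x * Real.sin (j * π * x) := by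
    apply integral_even'
    · exact (by fun_prop : Continuous fun x => heat t φ x * Real.sin (j * π * x)).intervalIntegrable
        _ _
    · intro x
      rw [hoddheat, mul_neg, Real.sin_neg]
      ring
  have h3 : ∫ x in (-1 : ℝ)..1, oddExt φ x * Real.sin (j * π * x) =
      2 * ∫ x in (0 : ℝ)..1, φ x * Real.sin (j * π * x) := by
    rw [integral_even']
    · congr 1
      rw [intervalIntegral.integral_of_le zero_le_one, intervalIntegral.integral_of_le zero_le_one,
        integral_Ioc_eq_integral_Ioo, integral_Ioc_eq_integral_Ioo]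
      refine setIntegral_congr_fun measurableSet_Ioo fun x hx => ?_
      show oddExt φ x * Real.sin (j * π * x) = φ x * Real.sin (j * π * x)
      rw [oddExt_of_mem hx]
    · refine intervalIntegrable_of_bdd (hΦ.mul (by fun_prop)) (M := M) (fun x => ?_) _ _
      show |oddExt φ x * Real.sin (j * π * x)| ≤ M
      rw [abs_mul]
      calc |oddExt φ x| * |Real.sin (j * π * x)| ≤ M * 1 := by
            gcongr
            · exact hΦM _
            · exact Real.abs_sin_le_one _
        _ = M := mul_one M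
    · intro x
      rw [oddExt_neg, mul_neg, Real.sin_neg]
      ring
  have h4 : ∫ z, g0 z * Real.sin (j * π * √t * z) = 0 := by
    apply integral_odd
    intro z
    rw [g0_neg, mul_neg, Real.sin_neg]
    ring
  rw [h3, h4, zero_mul, add_zero, integral_g0_cos] at h1
  have h5 : ∫ x in (-1 : ℝ)..1, cv g0 (√t) (oddExt φ) x * Real.sin (j * π * x) =
      ∫ x in (-1 : ℝ)..1, heat t φ x * Real.sin (j * π * x) := rfl
  rw [h5, h2] at h1
  have h6 : -(j * π * √t) ^ 2 = -(π ^ 2 * j ^ 2 * t) := by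
    rw [mul_pow, mul_pow, Real.sq_sqrt ht.le]
    ring
  rw [h6] at h1
  linarith

/-- Sine coefficients of one slice of the Duhamel term. -/
theorem cv_g1_coeff {ψ : ℝ → ℝ} (hψ : ContinuousOn ψ (Icc 0 1)) (c : ℝ) (j : ℕ) :
    ∫ x in (0 : ℝ)..1, cv g1 c (evenExt ψ) x * Real.sin (j * π * x) =
      -(j * π * c) * Real.exp (-(j * π * c) ^ 2) *
        ∫ x in (0 : ℝ)..1, ψ x * Real.cos (j * π * x) := by
  have hc := continuous_evenExt hψ
  obtain ⟨M, hM⟩ := isCompact_Icc.exists_bound_of_continuousOn hψ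
  have hM' : ∀ x, |evenExt ψ x| ≤ M := fun x => hM _ (tri_mem x)
  have hM0 : 0 ≤ M := (abs_nonneg _).trans (hM' 0)
  have h1 := cv_sin_integral integrable_g1 hc.measurable hM' (evenExt_add_two ψ) c j
  have hodd : ∀ x, cv g1 c (evenExt ψ) (-x) = -cv g1 c (evenExt ψ) x := by
    intro x
    unfold cv
    rw [← integral_neg_eq_self, ← integral_neg]
    refine integral_congr_ae (Eventually.of_forall fun z => ?_)
    show g1 (-z) * evenExt ψ (-x - c * -z) = -(g1 z * evenExt ψ (x - c * z))
    rw [g1_neg, show -x - c * -z = -(x - c * z) by ring, evenExt_neg]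
    ring
  have hcont : Continuous (cv g1 c (evenExt ψ)) := by
    unfold cv
    refine continuous_iff_continuousAt.2 fun x₀ => ?_
    refine continuousAt_of_dominated (bound := fun z => |g1 z| * M) ?_ ?_ ?_ ?_
    · exact Eventually.of_forall fun x =>
        (integrable_cv integrable_g1 hc.measurable hM' c x).aestronglyMeasurable
    · refine Eventually.of_forall fun x => Eventually.of_forall fun z => ?_
      rw [norm_mul]
      gcongr
      · exact le_of_eq rfl
      · exact hM' _
    · exact integrable_g1.abs.mul_const M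
    · refine Eventually.of_forall fun z => ?_
      fun_prop
  have h2 : ∫ x in (-1 : ℝ)..1, cv g1 c (evenExt ψ) x * Real.sin (j * π * x) =
      2 * ∫ x in (0 : ℝ)..1, cv g1 c (evenExt ψ) x * Real.sin (j * π * x) := by
    apply integral_even'
    · exact (by fun_prop :
        Continuous fun x => cv g1 c (evenExt ψ) x * Real.sin (j * π * x)).intervalIntegrable _ _
    · intro x
      rw [hodd, mul_neg, Real.sin_neg]
      ring
  have h3 : ∫ x in (-1 : ℝ)..1, evenExt ψ x * Real.cos (j * π * x) =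
      2 * ∫ x in (0 : ℝ)..1, ψ x * Real.cos (j * π * x) := by
    rw [integral_even']
    · congr 1
      rw [intervalIntegral.integral_of_le zero_le_one, intervalIntegral.integral_of_le zero_le_one]
      refine setIntegral_congr_fun measurableSet_Ioc fun x hx => ?_
      show evenExt ψ x * Real.cos (j * π * x) = ψ x * Real.cos (j * π * x)
      rw [evenExt_of_mem (Ioc_subset_Icc_self hx)]
    · exact (by fun_prop :
        Continuous fun x => evenExt ψ x * Real.cos (j * π * x)).intervalIntegrable _ _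
    · intro x
      rw [evenExt_neg, mul_neg, Real.cos_neg]
  have h4 : ∫ x in (-1 : ℝ)..1, evenExt ψ x * Real.sin (j * π * x) = 0 := by
    apply integral_odd'
    intro x
    rw [evenExt_neg, mul_neg, Real.sin_neg]
    ring
  rw [h3, h4, mul_zero, zero_add, h2, integral_g1_sin] at h1
  linarith

end Pool.Agent.Burg
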