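import Pool.Agent.Helper46_Burg.Flux
import Pool.Agent.Helper46_Burg.Tools

/-!
Module PHASE1, part A: the weighted energy estimate at a fixed time, and a Gronwall lemma.
-/

set_option autoImplicit false
set_option maxHeartbeats 1000000

open MeasureTheory Set Filter Topology
open scoped Real ENNReal NNReal

noncomputable section

namespace Pool.Agent.Burg

/-- Fundamental theorem of calculus on a subinterval of `[0,1]`. -/
theorem ftc01 {F F' : ℝ → ℝ} (hF : ∀ x ∈ Icc (0 : ℝ) 1, HasDerivWithinAt F (F' x) (Icc 0 1) x)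
    (hF' : ContinuousOn F' (Icc 0 1)) {x : ℝ} (hx : x ∈ Icc (0 : ℝ) 1) :
    ∫ y in (0 : ℝ)..x, F' y = F x - F 0 := by
  have hsub : Icc (0 : ℝ) x ⊆ Icc 0 1 := Icc_subset_Icc le_rfl hx.2
  refine intervalIntegral.integral_eq_sub_of_hasDerivAt_of_le hx.1
    (fun y hy => ((hF y (hsub hy)).continuousWithinAt).mono hsub) (fun y hy => ?_) ?_
  · have hy' : y ∈ Ioo (0 : ℝ) 1 := ⟨hy.1, hy.2.trans_le hx.2⟩
    exact (hF y (Ioo_subset_Icc_self hy')).hasDerivAt (Icc_mem_nhds hy'.1 hy'.2)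
  · rw [← uIcc_of_le hx.1] at hsub
    exact (hF'.mono hsub).intervalIntegrable

theorem ii01 {F : ℝ → ℝ} (hF : ContinuousOn F (Icc 0 1)) :
    IntervalIntegrable F volume 0 1 := by
  rw [← uIcc_of_le (zero_le_one (α := ℝ))] at hF
  exact hF.intervalIntegrable

/-- Sup bound by the `L²` norm of the derivative. -/
theorem sq_le_integral_sq {r g : ℝ → ℝ}
    (hr : ∀ x ∈ Icc (0 : ℝ) 1, HasDerivWithinAt r (g x) (Icc 0 1) x)
    (hg : ContinuousOn g (Icc 0 1)) (hr0 : r 0 = 0) {x : ℝ} (hx : x ∈ Icc (0 : ℝ) 1) :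
    r x ^ 2 ≤ ∫ y in (0 : ℝ)..1, g y ^ 2 := by
  have h1 := ftc01 hr hg hx
  rw [hr0, sub_zero] at h1
  have hsub : Icc (0 : ℝ) x ⊆ Icc 0 1 := Icc_subset_Icc le_rfl hx.2
  have hgx : ContinuousOn g (uIcc 0 x) := by rw [uIcc_of_le hx.1]; exact hg.mono hsub
  have i1 : IntervalIntegrable (fun y => g y ^ 2) volume 0 x := (hgx.pow 2).intervalIntegrable
  have i2 : IntervalIntegrable (fun y => 2 * r x * g y) volume 0 x :=
    (continuousOn_const.mul hgx).intervalIntegrable
  have i3 : IntervalIntegrable (fun _ : ℝ => r x ^ 2) volume 0 x := intervalIntegrable_const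
  have h2 : 0 ≤ ∫ y in (0 : ℝ)..x, (g y - r x) ^ 2 :=
    intervalIntegral.integral_nonneg hx.1 (fun y _ => sq_nonneg _)
  have h3 : ∫ y in (0 : ℝ)..x, (g y - r x) ^ 2 =
      (∫ y in (0 : ℝ)..x, g y ^ 2) - 2 * r x * r x + x * r x ^ 2 := by
    have e : (fun y => (g y - r x) ^ 2) = fun y => (g y ^ 2 - 2 * r x * g y) + r x ^ 2 := by
      funext y; ring
    rw [e, intervalIntegral.integral_add (i1.sub i2) i3, intervalIntegral.integral_sub i1 i2,
      intervalIntegral.integral_const_mul, h1, intervalIntegral.integral_const]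
    simp
  have h4 : ∫ y in (0 : ℝ)..x, g y ^ 2 ≤ ∫ y in (0 : ℝ)..1, g y ^ 2 :=
    intervalIntegral.integral_mono_interval le_rfl hx.1 hx.2
      (Filter.Eventually.of_forall (fun y => sq_nonneg (g y))) (ii01 (hg.pow 2))
  nlinarith [sq_nonneg (r x), hx.2]

theorem rpow_le_one_add {z p : ℝ} (hz : 0 ≤ z) (hp0 : 0 ≤ p) (hp1 : p ≤ 1) :
    z ^ p ≤ 1 + z := by
  rcases le_total z 1 with h | h
  · exact (Real.rpow_le_one hz h hp0).trans (by linarith)
  · calc z ^ p ≤ z ^ (1 : ℝ) := Real.rpow_le_rpow_of_exponent_le h hp1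
      _ = z := Real.rpow_one z
      _ ≤ 1 + z := by linarith

/-- The error made by replacing `Y - S` by `Y` in the flux. -/
theorem flux_error {γ M A Y S q D : ℝ} (hγ1 : 1 < γ) (hγ2 : γ ≤ 3 / 2) (hM : 0 ≤ M)
    (hYA : |Y| ≤ A) (hSA : |S| ≤ A) (hq : q ^ 2 ≤ D) :
    2 * (fluxT γ M ((Y - S) + q) - fluxT γ M (Y + q)) ^ 2 ≤ 5 * (2 + 2 * A + D) * S ^ 2 := by
  have hA : 0 ≤ A := (abs_nonneg Y).trans hYA
  have h1 := abs_fluxT_sub_le hγ1 hM ((Y - S) + q) (Y + q)
  have e1 : |((Y - S) + q) - (Y + q)| = |S| := by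
    rw [show ((Y - S) + q) - (Y + q) = -S by ring, abs_neg]
  rw [e1] at h1
  have hmax : max |(Y - S) + q| |Y + q| ≤ 2 * A + |q| := by
    apply max_le
    · calc |(Y - S) + q| ≤ |Y - S| + |q| := abs_add_le _ _
        _ ≤ (|Y| + |S|) + |q| := by gcongr; exact abs_sub _ _
        _ ≤ 2 * A + |q| := by linarith
    · calc |Y + q| ≤ |Y| + |q| := abs_add_le _ _
        _ ≤ 2 * A + |q| := by linarith
  set z := 2 * A + |q| with hz
  have hz0 : 0 ≤ z := by positivity
  have h2 : |fluxT γ M ((Y - S) + q) - fluxT γ M (Y + q)| ≤ γ * z ^ (γ - 1) * |S| := by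
    refine h1.trans ?_
    have : (max |(Y - S) + q| |Y + q|) ^ (γ - 1) ≤ z ^ (γ - 1) :=
      Real.rpow_le_rpow (le_max_of_le_left (abs_nonneg _)) hmax (by linarith)
    gcongr
  have h3 : (fluxT γ M ((Y - S) + q) - fluxT γ M (Y + q)) ^ 2 ≤ (γ * z ^ (γ - 1) * |S|) ^ 2 := by
    rw [← sq_abs (fluxT γ M ((Y - S) + q) - fluxT γ M (Y + q))]
    exact pow_le_pow_left₀ (abs_nonneg _) h2 2
  have h4 : (z ^ (γ - 1)) ^ 2 ≤ 1 + z := by
    have : (z ^ (γ - 1)) ^ 2 = z ^ ((γ - 1) * 2) := by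
      rw [Real.rpow_mul hz0]; norm_num
    rw [this]
    exact rpow_le_one_add hz0 (by linarith) (by linarith)
  have h5 : 1 + z ≤ 2 + 2 * A + D := by
    have : |q| ≤ 1 + q ^ 2 := by
      rw [← sq_abs q]; nlinarith [sq_nonneg (|q| - 1), abs_nonneg q]
    rw [hz]; linarith
  have h6 : γ ^ 2 ≤ 9 / 4 := by nlinarith
  have h7 : (γ * z ^ (γ - 1) * |S|) ^ 2 = γ ^ 2 * (z ^ (γ - 1)) ^ 2 * S ^ 2 := by
    rw [mul_pow, mul_pow, sq_abs]
  have h8 : 0 ≤ 2 + 2 * A + D := by linarith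
  have h9 : γ ^ 2 * (z ^ (γ - 1)) ^ 2 ≤ 9 / 4 * (2 + 2 * A + D) :=
    mul_le_mul h6 (h4.trans h5) (by positivity) (by norm_num)
  have h10 : γ ^ 2 * (z ^ (γ - 1)) ^ 2 * S ^ 2 ≤ 9 / 4 * (2 + 2 * A + D) * S ^ 2 :=
    mul_le_mul_of_nonneg_right h9 (sq_nonneg S)
  nlinarith [mul_nonneg h8 (sq_nonneg S)]

theorem weighted_est {γ M A Y σ : ℝ} (hγ1 : 1 < γ) (hγ2 : γ ≤ 3 / 2) (hM : 0 ≤ M)
    (hYA : |Y| ≤ A) (hYM : |Y| ≤ 2 * M) {r g S : ℝ → ℝ}
    (hr : ∀ x ∈ Icc (0 : ℝ) 1, HasDerivWithinAt r (g x) (Icc 0 1) x)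
    (hg : ContinuousOn g (Icc 0 1)) (hr0 : r 0 = 0) (hr1 : r 1 = 0)
    (hS : ContinuousOn S (Icc 0 1)) (hSA : ∀ x ∈ Icc (0 : ℝ) 1, |S x| ≤ A)
    (hσ : ∫ x in (0 : ℝ)..1, S x ^ 2 ≤ σ) :
    2 * ∫ x in (0 : ℝ)..1, (fluxT γ M ((Y - S x) + r x) - g x) *
        (-Real.exp (-x) * r x + Real.exp (-x) * g x) ≤
      (2 - 2 * (γ / 18 * (|Y| / 2) ^ (γ - 1))) * (∫ x in (0 : ℝ)..1, Real.exp (-x) * r x ^ 2) +
        5 * (2 + 2 * A) * σ - (Real.exp (-1) - 5 * σ) * ∫ x in (0 : ℝ)..1, g x ^ 2 := by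
  have hA : 0 ≤ A := (abs_nonneg Y).trans hYA
  set f := fluxT γ M with hf_def
  have hfd : ∀ s, HasDerivAt f (dflux γ M s) s := fun s => hasDerivAt_fluxT hγ1 hM s
  have hfc : Continuous f := continuous_iff_continuousAt.2 fun s => (hfd s).continuousAt
  have hrc : ContinuousOn r (Icc 0 1) := fun x hx => (hr x hx).continuousWithinAt
  set c := γ / 18 * (|Y| / 2) ^ (γ - 1) with hc
  set D := ∫ x in (0 : ℝ)..1, g x ^ 2 with hD
  have hD0 : 0 ≤ D := intervalIntegral.integral_nonneg zero_le_one (fun x _ => sq_nonneg _)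
  have hexpc : Continuous fun x : ℝ => Real.exp (-x) := Real.continuous_exp.comp continuous_neg
  have hexpd : ∀ x : ℝ, HasDerivAt (fun x : ℝ => Real.exp (-x)) (-Real.exp (-x)) x := by
    intro x
    have := (hasDerivAt_neg x).exp
    simpa using this
  -- the primitive W
  have hwc : Continuous fun s : ℝ => s * dflux γ M (Y + s) :=
    continuous_id.mul ((continuous_dflux hγ1 hM).comp (continuous_const.add continuous_id))
  set W : ℝ → ℝ := fun q => ∫ s in (0 : ℝ)..q, s * dflux γ M (Y + s) with hW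
  have hWd : ∀ q, HasDerivAt W (q * dflux γ M (Y + q)) q := fun q =>
    (hwc.integral_hasStrictDerivAt 0 q).hasDerivAt
  have hWc : Continuous W := continuous_iff_continuousAt.2 fun q => (hWd q).continuousAt
  have hkey : ∀ q, c * q ^ 2 ≤ W q := fun q => key_ineq hγ1 hYM q
  set Φ : ℝ → ℝ := fun q => q * (f (Y + q) - f Y) - W q with hΦ
  have hΦd : ∀ q, HasDerivAt Φ (f (Y + q) - f Y) q := by
    intro q
    have h1 : HasDerivAt (fun q : ℝ => f (Y + q) - f Y) (dflux γ M (Y + q)) q := by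
      have := (hfd (Y + q)).comp_const_add Y q
      exact this.sub_const _
    have h2 := ((hasDerivAt_id' q).mul h1).sub (hWd q)
    have h3 : 1 * (f (Y + q) - f Y) + q * dflux γ M (Y + q) - q * dflux γ M (Y + q) =
      f (Y + q) - f Y := by ring
    rw [h3] at h2
    exact h2
  have hΦc : Continuous Φ := continuous_iff_continuousAt.2 fun q => (hΦd q).continuousAt
  have hΦ0 : Φ 0 = 0 := by simp [hΦ, hW]
  -- three exact derivatives
  set u1 : ℝ → ℝ := fun x => -Real.exp (-x) * Φ (r x) +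
    Real.exp (-x) * ((f (Y + r x) - f Y) * g x) with hu1
  set u2 : ℝ → ℝ := fun x => -Real.exp (-x) * r x + Real.exp (-x) * g x with hu2
  set u3 : ℝ → ℝ := fun x => -Real.exp (-x) * r x ^ 2 + Real.exp (-x) * (2 * r x * g x) with hu3
  have hfyc : ContinuousOn (fun x => f (Y + r x)) (Icc 0 1) :=
    hfc.comp_continuousOn (continuousOn_const.add hrc)
  have cu1 : ContinuousOn u1 (Icc 0 1) :=
    ((hexpc.neg.continuousOn).mul (hΦc.comp_continuousOn hrc)).add
      (hexpc.continuousOn.mul ((hfyc.sub continuousOn_const).mul hg))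
  have cu2 : ContinuousOn u2 (Icc 0 1) :=
    ((hexpc.neg.continuousOn).mul hrc).add (hexpc.continuousOn.mul hg)
  have cu3 : ContinuousOn u3 (Icc 0 1) :=
    ((hexpc.neg.continuousOn).mul (hrc.pow 2)).add
      (hexpc.continuousOn.mul ((continuousOn_const.mul hrc).mul hg))
  have one_mem : (1 : ℝ) ∈ Icc (0 : ℝ) 1 := ⟨zero_le_one, le_rfl⟩
  have I1 : ∫ x in (0 : ℝ)..1, u1 x = 0 := by
    have h := ftc01 (F := fun x => Real.exp (-x) * Φ (r x)) (F' := u1) (fun x hx => ?_) cu1 one_mem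
    · rw [h]; simp [hr0, hr1, hΦ0]
    · have h1 := ((hΦd (r x)).comp_hasDerivWithinAt x (hr x hx))
      exact ((hexpd x).hasDerivWithinAt).mul h1
  have I2 : ∫ x in (0 : ℝ)..1, u2 x = 0 := by
    have h := ftc01 (F := fun x => Real.exp (-x) * r x) (F' := u2) (fun x hx => ?_) cu2 one_mem
    · rw [h]; simp [hr0, hr1]
    · exact ((hexpd x).hasDerivWithinAt).mul (hr x hx)
  have I3 : ∫ x in (0 : ℝ)..1, u3 x = 0 := by
    have h := ftc01 (F := fun x => Real.exp (-x) * r x ^ 2) (F' := u3) (fun x hx => ?_) cu3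
      one_mem
    · rw [h]; simp [hr0, hr1]
    · have h1 := (hr x hx).fun_pow 2
      have h2 := ((hexpd x).hasDerivWithinAt).mul h1
      have h3 : -Real.exp (-x) * r x ^ 2 + Real.exp (-x) * (((2 : ℕ) : ℝ) * r x ^ (2 - 1) * g x)
          = u3 x := by
        simp [hu3]
      rw [h3] at h2
      exact h2
  set u4 : ℝ → ℝ := fun x => Real.exp (-x) * r x ^ 2 with hu4
  have cu4 : ContinuousOn u4 (Icc 0 1) := hexpc.continuousOn.mul (hrc.pow 2)
  have cg2 : ContinuousOn (fun x => g x ^ 2) (Icc 0 1) := hg.pow 2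
  have cS2 : ContinuousOn (fun x => S x ^ 2) (Icc 0 1) := hS.pow 2
  -- pointwise inequality
  have hpt : ∀ x ∈ Icc (0 : ℝ) 1,
      2 * ((f ((Y - S x) + r x) - g x) * (-Real.exp (-x) * r x + Real.exp (-x) * g x)) ≤
      2 * u1 x + 2 * f Y * u2 x + u3 x + (2 - 2 * c) * u4 x + (-Real.exp (-1)) * g x ^ 2 +
        5 * (2 + 2 * A + D) * S x ^ 2 := by
    intro x hx
    have hq : r x ^ 2 ≤ D := sq_le_integral_sq hr hg hr0 hx
    have hG := flux_error (M := M) hγ1 hγ2 hM hYA (hSA x hx) hq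
    have hρ0 : 0 < Real.exp (-x) := Real.exp_pos _
    have hρ1 : Real.exp (-x) ≤ 1 := by
      rw [Real.exp_le_one_iff]; linarith [hx.1]
    have hρ2 : Real.exp (-1) ≤ Real.exp (-x) := by
      apply Real.exp_le_exp.mpr; linarith [hx.2]
    set ρ := Real.exp (-x) with hρ
    set G := f ((Y - S x) + r x) - f (Y + r x) with hGdef
    have hk := hkey (r x)
    have e1 : f ((Y - S x) + r x) = G + f (Y + r x) := by rw [hGdef]; ring
    rw [e1]
    have e2 : u1 x = ρ * (g x - r x) * (f (Y + r x) - f Y) + ρ * W (r x) := by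
      simp only [hu1, hΦ, ← hρ]; ring
    have e3 : u2 x = ρ * (g x - r x) := by simp only [hu2, ← hρ]; ring
    have e4 : u3 x = ρ * (2 * r x * g x - r x ^ 2) := by simp only [hu3, ← hρ]; ring
    have e5 : u4 x = ρ * r x ^ 2 := by simp only [hu4, ← hρ]
    rw [e2, e3, e4, e5]
    have h1 : 2 * ρ * (g x - r x) * G ≤ ρ * g x ^ 2 + ρ * r x ^ 2 + ρ * (2 * G ^ 2) := by
      have : 2 * (g x - r x) * G ≤ g x ^ 2 + r x ^ 2 + 2 * G ^ 2 := by
        nlinarith [sq_nonneg (g x - G), sq_nonneg (r x + G)]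
      linarith [mul_le_mul_of_nonneg_left this hρ0.le]
    have h2 : ρ * (2 * G ^ 2) ≤ 5 * (2 + 2 * A + D) * S x ^ 2 := by
      have h3 : ρ * (2 * G ^ 2) ≤ 1 * (2 * G ^ 2) :=
        mul_le_mul_of_nonneg_right hρ1 (by positivity)
      linarith
    have h4 : Real.exp (-1) * g x ^ 2 ≤ ρ * g x ^ 2 :=
      mul_le_mul_of_nonneg_right hρ2 (sq_nonneg _)
    have h5 : ρ * (c * r x ^ 2) ≤ ρ * W (r x) := mul_le_mul_of_nonneg_left hk hρ0.le
    linarith [h1, h2, h4, h5]
  -- integrate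
  have hfc2 : ContinuousOn (fun x => f ((Y - S x) + r x)) (Icc 0 1) :=
    hfc.comp_continuousOn ((continuousOn_const.sub hS).add hrc)
  have cL : ContinuousOn (fun x => (f ((Y - S x) + r x) - g x) *
      (-Real.exp (-x) * r x + Real.exp (-x) * g x)) (Icc 0 1) := (hfc2.sub hg).mul cu2
  have j1 : IntervalIntegrable (fun x => 2 * u1 x) volume 0 1 := ii01 (continuousOn_const.mul cu1)
  have j2 : IntervalIntegrable (fun x => 2 * f Y * u2 x) volume 0 1 :=
    ii01 (continuousOn_const.mul cu2)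
  have j3 : IntervalIntegrable u3 volume 0 1 := ii01 cu3
  have j4 : IntervalIntegrable (fun x => (2 - 2 * c) * u4 x) volume 0 1 :=
    ii01 (continuousOn_const.mul cu4)
  have j5 : IntervalIntegrable (fun x => (-Real.exp (-1)) * g x ^ 2) volume 0 1 :=
    ii01 (continuousOn_const.mul cg2)
  have j6 : IntervalIntegrable (fun x => 5 * (2 + 2 * A + D) * S x ^ 2) volume 0 1 :=
    ii01 (continuousOn_const.mul cS2)
  have j0 : IntervalIntegrable (fun x => 2 * ((f ((Y - S x) + r x) - g x) *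
      (-Real.exp (-x) * r x + Real.exp (-x) * g x))) volume 0 1 :=
    ii01 (continuousOn_const.mul cL)
  have hmono := intervalIntegral.integral_mono_on zero_le_one
    j0 (((((j1.add j2).add j3).add j4).add j5).add j6) hpt
  rw [intervalIntegral.integral_const_mul] at hmono
  rw [intervalIntegral.integral_add ((((j1.add j2).add j3).add j4).add j5) j6,
    intervalIntegral.integral_add (((j1.add j2).add j3).add j4) j5,
    intervalIntegral.integral_add ((j1.add j2).add j3) j4,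
    intervalIntegral.integral_add (j1.add j2) j3,
    intervalIntegral.integral_add j1 j2,
    intervalIntegral.integral_const_mul, intervalIntegral.integral_const_mul,
    intervalIntegral.integral_const_mul, intervalIntegral.integral_const_mul,
    intervalIntegral.integral_const_mul, I1, I2, I3] at hmono
  have h6 : 5 * (2 + 2 * A + D) * ∫ x in (0 : ℝ)..1, S x ^ 2 ≤ 5 * (2 + 2 * A + D) * σ :=
    mul_le_mul_of_nonneg_left hσ (by positivity)
  have h7 : 5 * (2 + 2 * A + D) * σ = 5 * (2 + 2 * A) * σ + 5 * σ * D := by ring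
  have h8 : (Real.exp (-1) - 5 * σ) * D = Real.exp (-1) * D - 5 * σ * D := by ring
  rw [h8]
  linarith

/-- A Gronwall lemma. -/
theorem gronwall1 {a b : ℝ} {E J k : ℝ → ℝ} (hJ : ContinuousOn J (Icc a b))
    (hk : Continuous k) (hE : ∀ t ∈ Icc a b, E t = E a + ∫ s in a..t, J s) {η L : ℝ}
    (hη : 0 ≤ η) (hJk : ∀ t ∈ Icc a b, J t ≤ k t * E t + η)
    (hL : ∀ t ∈ Icc a b, -(∫ s in a..t, k s) ≤ L) {t : ℝ} (ht : t ∈ Icc a b) :
    E t ≤ Real.exp (∫ s in a..t, k s) * (E a + η * Real.exp L * (t - a)) := by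
  have hab : a ≤ b := ht.1.trans ht.2
  have ha : a ∈ Icc a b := ⟨le_rfl, hab⟩
  set K : ℝ → ℝ := fun t => ∫ s in a..t, k s with hK
  have hKd : ∀ t, HasDerivAt K (k t) t := fun t => (hk.integral_hasStrictDerivAt a t).hasDerivAt
  have hKc : Continuous K := continuous_iff_continuousAt.2 fun t => (hKd t).continuousAt
  have hprim : ContinuousOn (fun t => E a + ∫ s in a..t, J s) (Icc a b) := by
    refine continuousOn_const.add ?_
    have hint : IntegrableOn J (uIcc a b) := by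
      rw [uIcc_of_le hab]; exact hJ.integrableOn_Icc
    have := intervalIntegral.continuousOn_primitive_interval hint
    rwa [uIcc_of_le hab] at this
  have hEc : ContinuousOn E (Icc a b) := hprim.congr hE
  have hEd : ∀ t ∈ Ioo a b, HasDerivAt E (J t) t := by
    intro t ht
    have h1 : HasDerivAt (fun t => E a + ∫ s in a..t, J s) (J t) t := by
      refine HasDerivAt.const_add _ ?_
      refine intervalIntegral.integral_hasDerivAt_right ?_ ?_ ?_
      · refine ContinuousOn.intervalIntegrable ?_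
        rw [uIcc_of_le ht.1.le]
        exact hJ.mono (Icc_subset_Icc le_rfl ht.2.le)
      · exact (hJ.mono Ioo_subset_Icc_self).stronglyMeasurableAtFilter isOpen_Ioo t ht
      · exact hJ.continuousAt (Icc_mem_nhds ht.1 ht.2)
    refine h1.congr_of_eventuallyEq ?_
    filter_upwards [Icc_mem_nhds ht.1 ht.2] with s hs using hE s hs
  set H : ℝ → ℝ := fun t => Real.exp (-K t) * E t - η * Real.exp L * (t - a) with hH
  have hHc : ContinuousOn H (Icc a b) :=
    (((Real.continuous_exp.comp hKc.neg).continuousOn).mul hEc).sub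
      ((continuous_const.mul (continuous_id.sub continuous_const)).continuousOn)
  have hHd : ∀ t ∈ Ioo a b, HasDerivAt H
      ((Real.exp (-K t) * -k t) * E t + Real.exp (-K t) * J t - η * Real.exp L * 1) t := by
    intro t ht
    exact (((hKd t).fun_neg.exp).mul (hEd t ht)).sub
      (((hasDerivAt_id' t).sub_const a).const_mul (η * Real.exp L))
  have hanti : AntitoneOn H (Icc a b) := by
    refine antitoneOn_of_deriv_nonpos (convex_Icc a b) hHc ?_ ?_
    · intro t ht
      rw [interior_Icc] at ht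
      exact (hHd t ht).differentiableAt.differentiableWithinAt
    · intro t ht
      rw [interior_Icc] at ht
      rw [(hHd t ht).deriv]
      have h1 := hJk t (Ioo_subset_Icc_self ht)
      have h2 : 0 < Real.exp (-K t) := Real.exp_pos _
      have h3 : Real.exp (-K t) ≤ Real.exp L :=
        Real.exp_le_exp.mpr (hL t (Ioo_subset_Icc_self ht))
      have h4 : Real.exp (-K t) * (J t - k t * E t) ≤ Real.exp (-K t) * η :=
        mul_le_mul_of_nonneg_left (by linarith) h2.le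
      have h5 : Real.exp (-K t) * η ≤ Real.exp L * η := mul_le_mul_of_nonneg_right h3 hη
      nlinarith
  have h1 := hanti ha ht ht.1
  have hKa : K a = 0 := by simp [hK]
  simp only [hH, hKa, neg_zero, Real.exp_zero, one_mul, sub_self, mul_zero, sub_zero] at h1
  have h2 : Real.exp (-K t) * E t ≤ E a + η * Real.exp L * (t - a) := by linarith
  have h3 := mul_le_mul_of_nonneg_left h2 (Real.exp_pos (K t)).le
  rw [← mul_assoc, ← Real.exp_add, add_neg_cancel, Real.exp_zero, one_mul] at h3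
  exact h3

end Pool.Agent.Burg
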