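import Pool.Agent.Helper46_Burg.Phase1A

/-!
Module PHASE1, part B: elementary facts on the Stokes layer.
-/

set_option autoImplicit false
set_option maxHeartbeats 1000000

open MeasureTheory Set Filter Topology
open scoped Real ENNReal NNReal

noncomputable section

namespace Pool.Agent.Burg

/-- The wall layer part of `stokes`. -/
def layer (A κ t x : ℝ) : ℝ :=
  A * (Real.exp (-(κ * (1 - x))) * Real.sin (2 * κ ^ 2 * t - κ * (1 - x)))

theorem stokes_eq (A κ t x : ℝ) :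
    stokes A κ t x = A * Real.sin (2 * κ ^ 2 * t) - layer A κ t x := rfl

theorem continuous_layer (A κ : ℝ) : Continuous (Function.uncurry (layer A κ)) := by
  unfold layer Function.uncurry
  fun_prop

theorem continuous_stokes (A κ : ℝ) : Continuous (Function.uncurry (stokes A κ)) := by
  unfold stokes Function.uncurry
  fun_prop

theorem abs_layer_le {A κ : ℝ} (hA : 0 ≤ A) (t x : ℝ) :
    |layer A κ t x| ≤ A * Real.exp (-(κ * (1 - x))) := by
  unfold layer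
  rw [abs_mul, abs_mul, abs_of_nonneg hA, abs_of_pos (Real.exp_pos _)]
  have h := Real.abs_sin_le_one (2 * κ ^ 2 * t - κ * (1 - x))
  have h2 : Real.exp (-(κ * (1 - x))) * |Real.sin (2 * κ ^ 2 * t - κ * (1 - x))| ≤
      Real.exp (-(κ * (1 - x))) * 1 := mul_le_mul_of_nonneg_left h (Real.exp_pos _).le
  rw [mul_one] at h2
  exact mul_le_mul_of_nonneg_left h2 hA

theorem abs_layer_le' {A κ : ℝ} (hA : 0 ≤ A) (hκ : 0 ≤ κ) (t : ℝ) {x : ℝ}
    (hx : x ∈ Icc (0 : ℝ) 1) : |layer A κ t x| ≤ A := by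
  refine (abs_layer_le hA t x).trans ?_
  have : Real.exp (-(κ * (1 - x))) ≤ 1 := by
    rw [Real.exp_le_one_iff]
    have : 0 ≤ κ * (1 - x) := mul_nonneg hκ (by linarith [hx.2])
    linarith
  nlinarith

theorem abs_stokes_le {A κ : ℝ} (hA : 0 ≤ A) (hκ : 0 ≤ κ) (t : ℝ) {x : ℝ}
    (hx : x ∈ Icc (0 : ℝ) 1) : |stokes A κ t x| ≤ 2 * A := by
  rw [stokes_eq]
  have h1 : |A * Real.sin (2 * κ ^ 2 * t)| ≤ A := by
    rw [abs_mul, abs_of_nonneg hA]
    nlinarith [Real.abs_sin_le_one (2 * κ ^ 2 * t)]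
  calc |A * Real.sin (2 * κ ^ 2 * t) - layer A κ t x|
      ≤ |A * Real.sin (2 * κ ^ 2 * t)| + |layer A κ t x| := abs_sub _ _
    _ ≤ 2 * A := by linarith [abs_layer_le' hA hκ t hx]

theorem integral_layer_sq {A κ : ℝ} (hA : 0 ≤ A) (hκ : 0 < κ) (t : ℝ) :
    ∫ x in (0 : ℝ)..1, layer A κ t x ^ 2 ≤ A ^ 2 / (2 * κ) := by
  have hd : ∀ x : ℝ, HasDerivAt (fun x => A ^ 2 * Real.exp (-(2 * κ * (1 - x))) / (2 * κ))
      (A ^ 2 * Real.exp (-(2 * κ * (1 - x)))) x := by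
    intro x
    have h1 : HasDerivAt (fun x : ℝ => -(2 * κ * (1 - x))) (2 * κ) x := by
      have := (((hasDerivAt_id' x).const_sub 1).const_mul (2 * κ)).fun_neg
      simpa using this
    have h2 := ((h1.exp).const_mul (A ^ 2)).div_const (2 * κ)
    have h3 : A ^ 2 * (Real.exp (-(2 * κ * (1 - x))) * (2 * κ)) / (2 * κ) =
        A ^ 2 * Real.exp (-(2 * κ * (1 - x))) := by field_simp
    rw [h3] at h2
    exact h2
  have hc : Continuous fun x : ℝ => A ^ 2 * Real.exp (-(2 * κ * (1 - x))) := by fun_prop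
  have h1 : ∫ x in (0 : ℝ)..1, A ^ 2 * Real.exp (-(2 * κ * (1 - x))) =
      A ^ 2 * Real.exp (-(2 * κ * (1 - 1))) / (2 * κ) -
        A ^ 2 * Real.exp (-(2 * κ * (1 - 0))) / (2 * κ) :=
    intervalIntegral.integral_eq_sub_of_hasDerivAt (fun x _ => hd x) (hc.intervalIntegrable _ _)
  have hlc : Continuous fun x => layer A κ t x ^ 2 := by
    unfold layer
    fun_prop
  have h2 : ∫ x in (0 : ℝ)..1, layer A κ t x ^ 2 ≤
      ∫ x in (0 : ℝ)..1, A ^ 2 * Real.exp (-(2 * κ * (1 - x))) := by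
    refine intervalIntegral.integral_mono_on zero_le_one (hlc.intervalIntegrable _ _)
      (hc.intervalIntegrable _ _) (fun x _ => ?_)
    have h3 := abs_layer_le (κ := κ) hA t x
    have h4 : layer A κ t x ^ 2 ≤ (A * Real.exp (-(κ * (1 - x)))) ^ 2 := by
      rw [← sq_abs]; exact pow_le_pow_left₀ (abs_nonneg _) h3 2
    refine h4.trans (le_of_eq ?_)
    rw [mul_pow, ← Real.exp_nat_mul]
    congr 2
    push_cast
    ring
  refine h2.trans ?_
  rw [h1]
  have h5 : 0 ≤ A ^ 2 * Real.exp (-(2 * κ * (1 - 0))) / (2 * κ) := by positivity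
  have h6 : A ^ 2 * Real.exp (-(2 * κ * (1 - 1))) / (2 * κ) = A ^ 2 / (2 * κ) := by simp
  linarith

theorem stokes_lipschitz {A κ : ℝ} (hA : 0 ≤ A) (hκ : 0 ≤ κ) (t : ℝ) {x y : ℝ}
    (hx : x ∈ Icc (0 : ℝ) 1) (hy : y ∈ Icc (0 : ℝ) 1) :
    |stokes A κ t x - stokes A κ t y| ≤ (A * (2 * κ)) * |x - y| := by
  have hd : ∀ z : ℝ, HasDerivAt (fun z => stokes A κ t z)
      (-(A * ((Real.exp (-(κ * (1 - z))) * κ) * Real.sin (2 * κ ^ 2 * t - κ * (1 - z)) +
        Real.exp (-(κ * (1 - z))) * (Real.cos (2 * κ ^ 2 * t - κ * (1 - z)) * κ)))) z := by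
    intro z
    have h1 : HasDerivAt (fun z : ℝ => -(κ * (1 - z))) κ z := by
      have := (((hasDerivAt_id' z).const_sub 1).const_mul κ).fun_neg
      simpa using this
    have h2 : HasDerivAt (fun z : ℝ => 2 * κ ^ 2 * t - κ * (1 - z)) κ z := by
      have := h1.const_add (2 * κ ^ 2 * t)
      simpa [sub_eq_add_neg] using this
    have h3 := ((h1.exp.mul h2.sin).const_mul A).const_sub (A * Real.sin (2 * κ ^ 2 * t))
    exact h3
  have hb : ∀ z ∈ Icc (0 : ℝ) 1, ‖(-(A * ((Real.exp (-(κ * (1 - z))) * κ) *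
      Real.sin (2 * κ ^ 2 * t - κ * (1 - z)) +
        Real.exp (-(κ * (1 - z))) * (Real.cos (2 * κ ^ 2 * t - κ * (1 - z)) * κ))))‖ ≤
        A * (2 * κ) := by
    intro z hz
    rw [norm_neg, norm_mul, Real.norm_of_nonneg hA]
    refine mul_le_mul_of_nonneg_left ?_ hA
    have he : Real.exp (-(κ * (1 - z))) ≤ 1 := by
      rw [Real.exp_le_one_iff]
      have : 0 ≤ κ * (1 - z) := mul_nonneg hκ (by linarith [hz.2])
      linarith
    have he0 := (Real.exp_pos (-(κ * (1 - z)))).le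
    have hs := Real.abs_sin_le_one (2 * κ ^ 2 * t - κ * (1 - z))
    have hc := Real.abs_cos_le_one (2 * κ ^ 2 * t - κ * (1 - z))
    refine (norm_add_le _ _).trans ?_
    rw [norm_mul, norm_mul, norm_mul, norm_mul, Real.norm_of_nonneg he0, Real.norm_of_nonneg hκ,
      Real.norm_eq_abs, Real.norm_eq_abs]
    have h1 : Real.exp (-(κ * (1 - z))) * κ * |Real.sin (2 * κ ^ 2 * t - κ * (1 - z))| ≤
        1 * κ * 1 := by gcongr
    have h2 : Real.exp (-(κ * (1 - z))) * (|Real.cos (2 * κ ^ 2 * t - κ * (1 - z))| * κ) ≤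
        1 * (1 * κ) := by gcongr
    linarith
  have := (convex_Icc (0 : ℝ) 1).norm_image_sub_le_of_norm_hasDerivWithin_le
    (fun z hz => (hd z).hasDerivWithinAt) hb hy hx
  simpa [Real.norm_eq_abs] using this

/-- Boundedness implies integrability. -/
theorem ii_of_bdd {φ : ℝ → ℝ} (hφ : Measurable φ) {C : ℝ}
    (hC : ∀ x ∈ Icc (0 : ℝ) 1, |φ x| ≤ C) : IntervalIntegrable φ volume 0 1 := by
  rw [intervalIntegrable_iff_integrableOn_Ioc_of_le zero_le_one]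
  refine Measure.integrableOn_of_bounded (M := C) (by simp) hφ.aestronglyMeasurable ?_
  filter_upwards [ae_restrict_mem measurableSet_Ioc] with x hx
  exact hC x (Ioc_subset_Icc_self hx)

/-- The velocity of the oscillation. -/
def vel (γ A κ t : ℝ) : ℝ := γ / 18 * (|A * Real.sin (2 * κ ^ 2 * t)| / 2) ^ (γ - 1)

theorem continuous_vel {γ : ℝ} (hγ : 1 < γ) (A κ : ℝ) : Continuous (vel γ A κ) := by
  unfold vel
  refine continuous_const.mul (Continuous.rpow_const ?_ (fun _ => Or.inr (by linarith)))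
  fun_prop

theorem vel_eq {γ A κ t : ℝ} (hA : 0 ≤ A) :
    vel γ A κ t = γ / 18 * (A / 2) ^ (γ - 1) * |Real.sin (2 * κ ^ 2 * t)| ^ (γ - 1) := by
  unfold vel
  rw [abs_mul, abs_of_nonneg hA, mul_div_right_comm,
    Real.mul_rpow (by positivity) (abs_nonneg _)]
  ring

theorem vel_nonneg {γ A κ t : ℝ} (hγ : 1 < γ) : 0 ≤ vel γ A κ t := by
  unfold vel
  positivity

theorem vel_le {γ A κ t : ℝ} (hγ : 1 < γ) (hA : 0 ≤ A) :
    vel γ A κ t ≤ γ / 18 * (A / 2) ^ (γ - 1) := by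
  rw [vel_eq hA]
  have h : |Real.sin (2 * κ ^ 2 * t)| ^ (γ - 1) ≤ 1 :=
    Real.rpow_le_one (abs_nonneg _) (Real.abs_sin_le_one _) (by linarith)
  have h2 : 0 ≤ γ / 18 * (A / 2) ^ (γ - 1) := by positivity
  nlinarith

theorem le_vel {γ A κ t : ℝ} (hγ : 1 < γ) (hγ2 : γ ≤ 3 / 2) (hA : 0 ≤ A) :
    γ / 18 * (A / 2) ^ (γ - 1) * Real.sin (2 * κ ^ 2 * t) ^ 2 ≤ vel γ A κ t := by
  rw [vel_eq hA]
  refine mul_le_mul_of_nonneg_left ?_ (by positivity)
  have h := Real.rpow_le_rpow_of_exponent_ge' (abs_nonneg (Real.sin (2 * κ ^ 2 * t)))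
    (Real.abs_sin_le_one _) (z := γ - 1) (y := 2) (by linarith) (by linarith)
  have h2 : |Real.sin (2 * κ ^ 2 * t)| ^ (2 : ℝ) = Real.sin (2 * κ ^ 2 * t) ^ 2 := by
    rw [Real.rpow_two, sq_abs]
  rwa [h2] at h

theorem integral_sin_sq_ge {κ T t₁ : ℝ} (hT : 0 < T) (hκ : 0 < κ) (hκT : 2 / T ≤ κ ^ 2)
    (ht : t₁ ≤ T / 4) :
    T / 4 ≤ ∫ t in t₁..T, Real.sin (2 * κ ^ 2 * t) ^ 2 := by
  have hk2 : 0 < κ ^ 2 := by positivity
  have hd : ∀ t : ℝ, HasDerivAt (fun t => t / 2 - Real.sin (4 * κ ^ 2 * t) / (8 * κ ^ 2))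
      (Real.sin (2 * κ ^ 2 * t) ^ 2) t := by
    intro t
    have h1 : HasDerivAt (fun t : ℝ => 4 * κ ^ 2 * t) (4 * κ ^ 2) t := by
      simpa using (hasDerivAt_id' t).const_mul (4 * κ ^ 2)
    have h2 := ((hasDerivAt_id' t).div_const 2).sub (h1.sin.div_const (8 * κ ^ 2))
    have h3 : 1 / 2 - Real.cos (4 * κ ^ 2 * t) * (4 * κ ^ 2) / (8 * κ ^ 2) =
        Real.sin (2 * κ ^ 2 * t) ^ 2 := by
      have h4 : Real.cos (4 * κ ^ 2 * t) = 1 - 2 * Real.sin (2 * κ ^ 2 * t) ^ 2 := by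
        have h5 : 4 * κ ^ 2 * t = 2 * (2 * κ ^ 2 * t) := by ring
        rw [h5, Real.cos_two_mul, Real.cos_sq']
        ring
      rw [h4]
      field_simp
      ring
    rw [h3] at h2
    exact h2
  have hint : IntervalIntegrable (fun t : ℝ => Real.sin (2 * κ ^ 2 * t) ^ 2) volume t₁ T :=
    Continuous.intervalIntegrable (by fun_prop) _ _
  rw [intervalIntegral.integral_eq_sub_of_hasDerivAt (fun t _ => hd t) hint]
  have h1 : Real.sin (4 * κ ^ 2 * T) / (8 * κ ^ 2) ≤ 1 / (8 * κ ^ 2) := by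
    gcongr; exact Real.sin_le_one _
  have h2 : -(1 / (8 * κ ^ 2)) ≤ Real.sin (4 * κ ^ 2 * t₁) / (8 * κ ^ 2) := by
    rw [← neg_div]; gcongr; exact Real.neg_one_le_sin _
  have h3 : 1 / (8 * κ ^ 2) ≤ T / 16 := by
    rw [div_le_div_iff₀ (by positivity) (by norm_num)]
    have h4 : 2 ≤ κ ^ 2 * T := by
      rw [div_le_iff₀ hT] at hκT; exact hκT
    nlinarith
  linarith

end Pool.Agent.Burg
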