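import Pool.Agent.Helper46_Burg.Energy
import Pool.Agent.Helper46_Burg.Phase1A
import Pool.Agent.Helper46_Burg.Phase1B

/-!
Module PHASE1: the oscillating uniform control brings the state to small `L²` norm; module
PHASE15: after that, the uncontrolled evolution has small sup norm at some time.
-/

set_option autoImplicit false
set_option maxHeartbeats 1000000

open MeasureTheory Set Filter Topology
open scoped Real ENNReal NNReal

noncomputable section

namespace Pool.Agent.Burg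

/-- The `L²` norm shortly after the initial time. -/
theorem Piece.exists_small_time {f : ℝ → ℝ} {a b : ℝ} {r0 : ℝ → ℝ} {B r g : ℝ → ℝ → ℝ}
    (hP : Piece f a b r0 B r g) (hab : a < b) (hr0 : Measurable r0) {R : ℝ}
    (hR : ∀ x ∈ Icc (0 : ℝ) 1, |r0 x| ≤ R) {ε : ℝ} (hε : 0 < ε) {c : ℝ} (hc : a < c) :
    ∃ t₁, a < t₁ ∧ t₁ < c ∧ t₁ ≤ b ∧
      ∫ x in (0 : ℝ)..1, r t₁ x ^ 2 ≤ 2 * (∫ x in (0 : ℝ)..1, r0 x ^ 2) + ε := by
  have h1 : ∀ᶠ t in 𝓝[>] a, ∫ x in (0 : ℝ)..1, (r t x - r0 x) ^ 2 < ε / 2 :=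
    hP.init.eventually (gt_mem_nhds (by linarith))
  have h2 : ∀ᶠ t in 𝓝[>] a, t ∈ Ioo a (min b c) := Ioo_mem_nhdsGT (lt_min hab hc)
  obtain ⟨t, ht1, ht2⟩ := (h1.and h2).exists
  have htb : t < b := ht2.2.trans_le (min_le_left _ _)
  have htc : t < c := ht2.2.trans_le (min_le_right _ _)
  refine ⟨t, ht2.1, htc, htb.le, ?_⟩
  have htm : t ∈ Ioc a b := ⟨ht2.1, htb.le⟩
  have hrc : ContinuousOn (r t) (Icc 0 1) := continuousOn_row hP.contR htm
  have i0 : IntervalIntegrable r0 volume 0 1 := ii_of_bdd hr0 hR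
  have i02 : IntervalIntegrable (fun x => r0 x ^ 2) volume 0 1 := by
    refine ii_of_bdd (hr0.pow_const 2) (C := R ^ 2) (fun x hx => ?_)
    rw [abs_pow]
    exact pow_le_pow_left₀ (abs_nonneg _) (hR x hx) 2
  have ir2 : IntervalIntegrable (fun x => r t x ^ 2) volume 0 1 := ii01 (hrc.pow 2)
  have irr : IntervalIntegrable (fun x => r t x * r0 x) volume 0 1 := by
    refine i0.continuousOn_mul ?_
    rwa [uIcc_of_le zero_le_one]
  have ix : IntervalIntegrable (fun x => (r t x - r0 x) ^ 2) volume 0 1 := by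
    have e : (fun x => (r t x - r0 x) ^ 2) =
        fun x => (r t x ^ 2 - 2 * (r t x * r0 x)) + r0 x ^ 2 := by
      funext x; ring
    rw [e]
    exact (ir2.sub (irr.const_mul 2)).add i02
  have h3 : ∫ x in (0 : ℝ)..1, r t x ^ 2 ≤
      ∫ x in (0 : ℝ)..1, (2 * (r t x - r0 x) ^ 2 + 2 * r0 x ^ 2) := by
    refine intervalIntegral.integral_mono_on zero_le_one ir2
      ((ix.const_mul 2).add (i02.const_mul 2)) (fun x _ => ?_)
    nlinarith [sq_nonneg (r t x - 2 * r0 x)]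
  rw [intervalIntegral.integral_add (ix.const_mul 2) (i02.const_mul 2),
    intervalIntegral.integral_const_mul, intervalIntegral.integral_const_mul] at h3
  linarith

/-- Energy estimates for the first phase, uniform in the truncation. -/
theorem phase1_energy {γ M A κ T : ℝ} (hγ1 : 1 < γ) (hγ2 : γ ≤ 3 / 2) (hA : 0 ≤ A)
    (hM : A ≤ 2 * M) (hκ : 0 < κ) {σ : ℝ} (hσ : A ^ 2 / (2 * κ) = σ)
    (hσ1 : 5 * σ ≤ Real.exp (-1) / 2) {r0 : ℝ → ℝ} {r g : ℝ → ℝ → ℝ}
    (hP : Piece (fluxT γ M) 0 T r0 (stokes A κ) r g) {t₁ : ℝ} (h1 : 0 < t₁) (h1T : t₁ ≤ T) :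
    (∀ t ∈ Icc t₁ T, ∫ x in (0 : ℝ)..1, Real.exp (-x) * r t x ^ 2 ≤
      Real.exp (∫ s in t₁..t, (2 - 2 * vel γ A κ s)) *
        ((∫ x in (0 : ℝ)..1, Real.exp (-x) * r t₁ x ^ 2) + 5 * (2 + 2 * A) * σ *
          Real.exp (2 * (γ / 18 * (A / 2) ^ (γ - 1)) * T) * T)) ∧
    (∫ t in t₁..T, ∫ x in (0 : ℝ)..1, g t x ^ 2) ≤
      2 * Real.exp 1 * ((∫ x in (0 : ℝ)..1, Real.exp (-x) * r t₁ x ^ 2) +
        T * (2 * (Real.exp (2 * T) * ((∫ x in (0 : ℝ)..1, Real.exp (-x) * r t₁ x ^ 2) +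
          5 * (2 + 2 * A) * σ * Real.exp (2 * (γ / 18 * (A / 2) ^ (γ - 1)) * T) * T)) +
            5 * (2 + 2 * A) * σ)) := by
  have hM0 : 0 ≤ M := by linarith
  have hT0 : 0 < T := h1.trans_le h1T
  have hσ0 : 0 ≤ σ := by rw [← hσ]; positivity
  set m := γ / 18 * (A / 2) ^ (γ - 1) with hm
  have hm0 : 0 ≤ m := by positivity
  set η := 5 * (2 + 2 * A) * σ with hη
  have hη0 : 0 ≤ η := by positivity
  set f := fluxT γ M with hf
  have hfc : Continuous f :=
    continuous_iff_continuousAt.2 fun s => (hasDerivAt_fluxT hγ1 hM0 s).continuousAt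
  have hBc : ContinuousOn (Function.uncurry (stokes A κ)) (Icc 0 T ×ˢ Icc 0 1) :=
    (continuous_stokes A κ).continuousOn
  have hexpc : Continuous fun x : ℝ => Real.exp (-x) := Real.continuous_exp.comp continuous_neg
  have hexpd : ∀ x ∈ Icc (0 : ℝ) 1,
      HasDerivWithinAt (fun x : ℝ => Real.exp (-x)) (-Real.exp (-x)) (Icc 0 1) x := by
    intro x _
    have := (hasDerivAt_neg x).exp
    have h2 : HasDerivAt (fun x : ℝ => Real.exp (-x)) (-Real.exp (-x)) x := by simpa using this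
    exact h2.hasDerivWithinAt
  set E : ℝ → ℝ := fun t => ∫ x in (0 : ℝ)..1, Real.exp (-x) * r t x ^ 2 with hE
  set Dg : ℝ → ℝ := fun t => ∫ x in (0 : ℝ)..1, g t x ^ 2 with hDg
  set J : ℝ → ℝ := fun t => 2 * ∫ x in (0 : ℝ)..1, (f (stokes A κ t x + r t x) - g t x) *
      (-Real.exp (-x) * r t x + Real.exp (-x) * g t x) with hJ
  have hsub : Icc t₁ T ⊆ Ioc 0 T := fun t ht => ⟨h1.trans_le ht.1, ht.2⟩
  have hcR : ContinuousOn (Function.uncurry r) (Icc t₁ T ×ˢ Icc 0 1) :=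
    hP.contR.mono (prod_mono hsub le_rfl)
  have hcG : ContinuousOn (Function.uncurry g) (Icc t₁ T ×ˢ Icc 0 1) :=
    hP.contG.mono (prod_mono hsub le_rfl)
  have hcB : ContinuousOn (Function.uncurry (stokes A κ)) (Icc t₁ T ×ˢ Icc 0 1) :=
    (continuous_stokes A κ).continuousOn
  have hcexp : ContinuousOn (fun p : ℝ × ℝ => Real.exp (-p.2)) (Icc t₁ T ×ˢ Icc 0 1) := by
    fun_prop
  have hJc : ContinuousOn J (Icc t₁ T) := by
    refine continuousOn_const.mul (continuousOn_slice_Icc ?_)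
    have e : (Function.uncurry fun t x => (f (stokes A κ t x + r t x) - g t x) *
        (-Real.exp (-x) * r t x + Real.exp (-x) * g t x)) = fun p : ℝ × ℝ =>
        (f (Function.uncurry (stokes A κ) p + Function.uncurry r p) - Function.uncurry g p) *
        (-Real.exp (-p.2) * Function.uncurry r p + Real.exp (-p.2) * Function.uncurry g p) := by
      funext p; rfl
    rw [e]
    exact ((hfc.comp_continuousOn (hcB.add hcR)).sub hcG).mul
      ((hcexp.neg.mul hcR).add (hcexp.mul hcG))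
  have hDgc : ContinuousOn Dg (Icc t₁ T) := continuousOn_slice_Icc (H := fun t x => g t x ^ 2)
    (hcG.pow 2)
  have hEeq : ∀ t ∈ Icc t₁ T, E t = E t₁ + ∫ s in t₁..t, J s := by
    intro t ht
    have h2 := hP.energy hfc hBc (ρ := fun x => Real.exp (-x)) (ρ' := fun x => -Real.exp (-x))
      hexpd (hexpc.neg.continuousOn) h1 ht.1 ht.2
    simp only [hE, hJ]
    rw [intervalIntegral.integral_const_mul, ← h2]
    ring
  have hE0 : ∀ t, 0 ≤ E t := fun t =>
    intervalIntegral.integral_nonneg zero_le_one (fun x _ => by positivity)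
  have hD0 : ∀ t, 0 ≤ Dg t := fun t =>
    intervalIntegral.integral_nonneg zero_le_one (fun x _ => by positivity)
  have hJle : ∀ t ∈ Icc t₁ T, J t ≤ (2 - 2 * vel γ A κ t) * E t + η -
      (Real.exp (-1) / 2) * Dg t := by
    intro t ht
    have htm := hsub ht
    have hYA : |A * Real.sin (2 * κ ^ 2 * t)| ≤ A := by
      rw [abs_mul, abs_of_nonneg hA]
      nlinarith [Real.abs_sin_le_one (2 * κ ^ 2 * t)]
    have hSc : ContinuousOn (layer A κ t) (Icc 0 1) := by
      have : Continuous (layer A κ t) := by unfold layer; fun_prop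
      exact this.continuousOn
    have h3 := weighted_est (M := M) (σ := σ) hγ1 hγ2 hM0 hYA (hYA.trans hM) (hP.der t htm)
      (continuousOn_row hP.contG htm) (hP.zero0 t htm) (hP.zero1 t htm) hSc
      (fun x hx => abs_layer_le' hA hκ.le t hx) (by rw [← hσ]; exact integral_layer_sq hA hκ t)
    have h4 : J t ≤ (2 - 2 * vel γ A κ t) * E t + η - (Real.exp (-1) - 5 * σ) * Dg t := h3
    have h5 : (Real.exp (-1) / 2) * Dg t ≤ (Real.exp (-1) - 5 * σ) * Dg t :=
      mul_le_mul_of_nonneg_right (by linarith) (hD0 t)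
    linarith
  have hkc : Continuous fun s => 2 - 2 * vel γ A κ s :=
    continuous_const.sub (continuous_const.mul (continuous_vel hγ1 A κ))
  have hE0' : 0 < Real.exp (-1 : ℝ) := Real.exp_pos _
  have hL : ∀ t ∈ Icc t₁ T, -(∫ s in t₁..t, (2 - 2 * vel γ A κ s)) ≤ 2 * m * T := by
    intro t ht
    have h2 : ∫ s in t₁..t, (-(2 * m)) ≤ ∫ s in t₁..t, (2 - 2 * vel γ A κ s) := by
      refine intervalIntegral.integral_mono_on ht.1 intervalIntegrable_const
        (hkc.intervalIntegrable _ _) (fun s _ => ?_)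
      have := vel_le (κ := κ) (t := s) hγ1 hA
      linarith
    rw [intervalIntegral.integral_const, smul_eq_mul] at h2
    have h3 : (t - t₁) * (2 * m) ≤ T * (2 * m) :=
      mul_le_mul_of_nonneg_right (by linarith [ht.2]) (by positivity)
    linarith
  have hK2 : ∀ t ∈ Icc t₁ T, ∫ s in t₁..t, (2 - 2 * vel γ A κ s) ≤ 2 * T := by
    intro t ht
    have h2 : ∫ s in t₁..t, (2 - 2 * vel γ A κ s) ≤ ∫ s in t₁..t, (2 : ℝ) := by
      refine intervalIntegral.integral_mono_on ht.1 (hkc.intervalIntegrable _ _)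
        intervalIntegrable_const (fun s _ => ?_)
      have := vel_nonneg (A := A) (κ := κ) (t := s) hγ1
      linarith
    rw [intervalIntegral.integral_const, smul_eq_mul] at h2
    linarith [ht.2]
  have hgr : ∀ t ∈ Icc t₁ T, E t ≤ Real.exp (∫ s in t₁..t, (2 - 2 * vel γ A κ s)) *
      (E t₁ + η * Real.exp (2 * m * T) * T) := by
    intro t ht
    have h2 := gronwall1 (E := E) (J := J) (k := fun s => 2 - 2 * vel γ A κ s) hJc hkc hEeq hη0
      (fun s hs => by
        have := hJle s hs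
        have h3 : 0 ≤ Real.exp (-1) / 2 * Dg s := mul_nonneg (by positivity) (hD0 s)
        linarith) hL ht
    refine h2.trans ?_
    refine mul_le_mul_of_nonneg_left ?_ (Real.exp_pos _).le
    have h3 : η * Real.exp (2 * m * T) * (t - t₁) ≤ η * Real.exp (2 * m * T) * T :=
      mul_le_mul_of_nonneg_left (by linarith [ht.2]) (by positivity)
    linarith
  refine ⟨hgr, ?_⟩
  set Em := Real.exp (2 * T) * (E t₁ + η * Real.exp (2 * m * T) * T) with hEm
  have hEm' : ∀ t ∈ Icc t₁ T, E t ≤ Em := by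
    intro t ht
    refine (hgr t ht).trans ?_
    refine mul_le_mul_of_nonneg_right (Real.exp_le_exp.mpr (hK2 t ht)) ?_
    have := hE0 t₁
    positivity
  have hTm : T ∈ Icc t₁ T := ⟨h1T, le_rfl⟩
  have hintJ : IntervalIntegrable J volume t₁ T := by
    refine ContinuousOn.intervalIntegrable ?_
    rwa [uIcc_of_le h1T]
  have hintD : IntervalIntegrable Dg volume t₁ T := by
    refine ContinuousOn.intervalIntegrable ?_
    rwa [uIcc_of_le h1T]
  have h2 : ∫ s in t₁..T, J s ≤ ∫ s in t₁..T, ((2 * Em + η) - (Real.exp (-1) / 2) * Dg s) := by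
    refine intervalIntegral.integral_mono_on h1T hintJ
      (intervalIntegrable_const.sub (hintD.const_mul _)) (fun s hs => ?_)
    have h3 := hJle s hs
    have h4 := hEm' s hs
    have h5 := vel_nonneg (A := A) (κ := κ) (t := s) hγ1
    have h6 := hE0 s
    nlinarith [mul_nonneg h5 h6]
  have hcm : ∫ s in t₁..T, Real.exp (-1) / 2 * Dg s = Real.exp (-1) / 2 * ∫ s in t₁..T, Dg s :=
    intervalIntegral.integral_const_mul _ _
  rw [intervalIntegral.integral_sub intervalIntegrable_const (hintD.const_mul _),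
    intervalIntegral.integral_const, hcm, smul_eq_mul] at h2
  have h3 := hEeq T hTm
  have h4 := hE0 T
  have h5 : 0 ≤ 2 * Em + η := by
    have := (hE0 t₁).trans (hEm' t₁ ⟨le_rfl, h1T⟩)
    linarith
  have h6 : (T - t₁) * (2 * Em + η) ≤ T * (2 * Em + η) :=
    mul_le_mul_of_nonneg_right (by linarith) h5
  have h7 : Real.exp (-1) / 2 * ∫ s in t₁..T, Dg s ≤ E t₁ + T * (2 * Em + η) := by linarith
  have h8 := mul_le_mul_of_nonneg_left h7 (by positivity : (0 : ℝ) ≤ 2 * Real.exp 1)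
  have h9 : 2 * Real.exp 1 * (Real.exp (-1) / 2 * ∫ s in t₁..T, Dg s) = ∫ s in t₁..T, Dg s := by
    have : Real.exp 1 * Real.exp (-1) = 1 := by rw [← Real.exp_add]; simp
    linear_combination (∫ s in t₁..T, Dg s) * this
  rw [h9] at h8
  exact h8

theorem phase1 {γ : ℝ} (hγ1 : 1 < γ) (hγ2 : γ ≤ 3 / 2) {T : ℝ} (hT : 0 < T) {y0 : ℝ → ℝ}
    (hy0 : Measurable y0) {R : ℝ} (hR : ∀ x ∈ Icc (0 : ℝ) 1, |y0 x| ≤ R) {δ : ℝ} (hδ : 0 < δ) :
    ∃ A κ : ℝ, 0 < κ ∧ ∃ r g : ℝ → ℝ → ℝ,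
      Piece (flux γ) 0 T (fun x => y0 x - stokes A κ 0 x) (stokes A κ) r g ∧
      ∫ x in (0 : ℝ)..1, (stokes A κ T x + r T x) ^ 2 ≤ δ := by
  have hR0 : 0 ≤ R := (abs_nonneg _).trans (hR 0 ⟨le_rfl, zero_le_one⟩)
  -- choice of the amplitude
  set Q := Real.exp (2 * T + 1) * (4 * R ^ 2 + 5) * (4 / δ) with hQ
  have hQ0 : 0 < Q := by positivity
  set m := 2 * Q / T with hm
  have hm0 : 0 < m := by positivity
  set A := 2 * (18 * m / γ) ^ (1 / (γ - 1)) with hAdef
  have hA0 : 0 < A := by positivity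
  have hmA : γ / 18 * (A / 2) ^ (γ - 1) = m := by
    rw [hAdef, mul_div_cancel_left₀ _ (two_ne_zero), ← Real.rpow_mul (by positivity),
      one_div_mul_cancel (by linarith : γ - 1 ≠ 0), Real.rpow_one]
    field_simp
  set Λ := Real.exp (2 * m * T) with hΛ
  have hΛ0 : 0 < Λ := Real.exp_pos _
  -- choice of the frequency
  set σ₀ := min (1 / 100) (min (δ / 4) (1 / (5 * (2 + 2 * A) * Λ * T))) with hσ₀
  have hσ₀0 : 0 < σ₀ := by positivity
  set κ₀ := max (A ^ 2 / (2 * σ₀)) (max 1 (2 / T)) with hκ₀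
  have hκ₀1 : 1 ≤ κ₀ := (le_max_left _ _).trans (le_max_right _ _)
  obtain ⟨n, hn⟩ := exists_nat_ge (κ₀ ^ 2 * (2 * T / π))
  have hnpos : (0 : ℝ) < n := lt_of_lt_of_le (by positivity) hn
  set κ := √(n * π / (2 * T)) with hκdef
  have hκsq : κ ^ 2 = n * π / (2 * T) := Real.sq_sqrt (by positivity)
  have hκ0 : 0 < κ := Real.sqrt_pos.mpr (by positivity)
  have hκκ₀ : κ₀ ≤ κ := by
    rw [hκdef]
    apply Real.le_sqrt_of_sq_le
    rw [le_div_iff₀ (by positivity)]
    have h1 := mul_le_mul_of_nonneg_right hn Real.pi_pos.le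
    have h2 : κ₀ ^ 2 * (2 * T / π) * π = κ₀ ^ 2 * (2 * T) := by
      field_simp
    rw [h2] at h1
    exact h1
  have hκ1 : 1 ≤ κ := hκ₀1.trans hκκ₀
  have hκT : 2 / T ≤ κ ^ 2 := by
    have h1 : 2 / T ≤ κ := ((le_max_right _ _).trans (le_max_right _ _)).trans hκκ₀
    nlinarith
  have hsin : Real.sin (2 * κ ^ 2 * T) = 0 := by
    rw [hκsq]
    have : 2 * (↑n * π / (2 * T)) * T = n * π := by field_simp
    rw [this]
    exact Real.sin_nat_mul_pi n
  set σ := A ^ 2 / (2 * κ) with hσ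
  have hσ0 : 0 < σ := by positivity
  have hσσ₀ : σ ≤ σ₀ := by
    have h1 : A ^ 2 / (2 * σ₀) ≤ κ := (le_max_left _ _).trans hκκ₀
    rw [hσ, div_le_iff₀ (by positivity)]
    rw [div_le_iff₀ (by positivity)] at h1
    linarith
  have hσ1 : σ ≤ 1 / 100 := hσσ₀.trans (min_le_left _ _)
  have hσ2 : σ ≤ δ / 4 := hσσ₀.trans ((min_le_right _ _).trans (min_le_left _ _))
  have hσ3 : 5 * (2 + 2 * A) * σ * Λ * T ≤ 1 := by
    have h1 : σ ≤ 1 / (5 * (2 + 2 * A) * Λ * T) :=
      hσσ₀.trans ((min_le_right _ _).trans (min_le_right _ _))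
    rw [le_div_iff₀ (by positivity)] at h1
    linarith
  have hexp1 : (1 : ℝ) / 10 ≤ Real.exp (-1) / 2 := by
    have h1 := Real.exp_one_lt_d9
    rw [Real.exp_neg]
    have h2 : (1 : ℝ) / 3 ≤ (Real.exp 1)⁻¹ := by
      rw [one_div]
      exact inv_anti₀ (Real.exp_pos 1) (by linarith)
    linarith
  have hσ5 : 5 * σ ≤ Real.exp (-1) / 2 := by linarith
  -- the initial value
  set r0 : ℝ → ℝ := fun x => y0 x - stokes A κ 0 x with hr0def
  have hst0 : ∀ x, stokes A κ 0 x = -layer A κ 0 x := by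
    intro x; rw [stokes_eq]; simp
  have hst_meas : Measurable (stokes A κ 0) := by
    have : Continuous (stokes A κ 0) := by unfold stokes; fun_prop
    exact this.measurable
  have hr0m : Measurable r0 := hy0.sub hst_meas
  have hr0b : ∀ x ∈ Icc (0 : ℝ) 1, |r0 x| ≤ R + 2 * A := by
    intro x hx
    calc |y0 x - stokes A κ 0 x| ≤ |y0 x| + |stokes A κ 0 x| := abs_sub _ _
      _ ≤ R + 2 * A := add_le_add (hR x hx) (abs_stokes_le hA0.le hκ0.le 0 hx)
  have hr0sq : ∫ x in (0 : ℝ)..1, r0 x ^ 2 ≤ 2 * R ^ 2 + 2 * σ := by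
    have i1 : IntervalIntegrable (fun x => r0 x ^ 2) volume 0 1 := by
      refine ii_of_bdd (hr0m.pow_const 2) (C := (R + 2 * A) ^ 2) (fun x hx => ?_)
      rw [abs_pow]
      exact pow_le_pow_left₀ (abs_nonneg _) (hr0b x hx) 2
    have hlc : Continuous fun x => layer A κ 0 x ^ 2 := by
      unfold layer
      fun_prop
    have i2 : IntervalIntegrable (fun x => 2 * layer A κ 0 x ^ 2) volume 0 1 :=
      (continuous_const.mul hlc).intervalIntegrable _ _
    have h1 : ∫ x in (0 : ℝ)..1, r0 x ^ 2 ≤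
        ∫ x in (0 : ℝ)..1, (2 * R ^ 2 + 2 * layer A κ 0 x ^ 2) := by
      refine intervalIntegral.integral_mono_on zero_le_one i1
        (intervalIntegrable_const.add i2) (fun x hx => ?_)
      have h2 : y0 x ^ 2 ≤ R ^ 2 := by
        rw [← sq_abs (y0 x)]; exact pow_le_pow_left₀ (abs_nonneg _) (hR x hx) 2
      simp only [hr0def, hst0]
      nlinarith [sq_nonneg (y0 x - layer A κ 0 x)]
    rw [intervalIntegral.integral_add intervalIntegrable_const i2,
      intervalIntegral.integral_const, intervalIntegral.integral_const_mul] at h1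
    have h3 := integral_layer_sq hA0.le hκ0 0
    rw [← hσ] at h3
    simp only [sub_zero, one_smul] at h1
    linarith
  -- constants
  set Emax := Real.exp (2 * T) * ((4 * R ^ 2 + 4) + 5 * (2 + 2 * A) * σ * Λ * T) with hEmax
  set C := 2 * Real.exp 1 * ((4 * R ^ 2 + 4) + T * (2 * Emax + 5 * (2 + 2 * A) * σ)) with hC
  obtain ⟨N, hN⟩ := exists_apriori hγ1 hγ2 T (R + 2 * A) (2 * A) C
  set M := 2 * A + |N| with hM
  have hM0 : 0 ≤ M := by positivity
  have hAM : A ≤ 2 * M := by rw [hM]; linarith [abs_nonneg N]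
  have hBc : ContinuousOn (Function.uncurry (stokes A κ)) (Icc 0 T ×ˢ Icc 0 1) :=
    (continuous_stokes A κ).continuousOn
  obtain ⟨r, g, hP⟩ := exists_piece (lipschitz_fluxT hγ1 hM0) hT hr0m hr0b hBc
    (K := A * (2 * κ)) (fun t _ x hx y hy => stokes_lipschitz hA0.le hκ0.le t hx hy)
  -- small times
  have hsmall : ∀ c : ℝ, 0 < c → ∃ t₁, 0 < t₁ ∧ t₁ < c ∧ t₁ ≤ T ∧
      ∫ x in (0 : ℝ)..1, Real.exp (-x) * r t₁ x ^ 2 ≤ 4 * R ^ 2 + 4 := by
    intro c hc
    obtain ⟨t₁, h1, h2, h3, h4⟩ := hP.exists_small_time hT hr0m hr0b (ε := 1) one_pos hc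
    refine ⟨t₁, h1, h2, h3, ?_⟩
    have hrc : ContinuousOn (r t₁) (Icc 0 1) := continuousOn_row hP.contR ⟨h1, h3⟩
    have hexpc : Continuous fun x : ℝ => Real.exp (-x) :=
      Real.continuous_exp.comp continuous_neg
    have h5 : ∫ x in (0 : ℝ)..1, Real.exp (-x) * r t₁ x ^ 2 ≤
        ∫ x in (0 : ℝ)..1, r t₁ x ^ 2 := by
      refine intervalIntegral.integral_mono_on zero_le_one
        (ii01 (hexpc.continuousOn.mul (hrc.pow 2))) (ii01 (hrc.pow 2)) (fun x hx => ?_)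
      have : Real.exp (-x) ≤ 1 := by rw [Real.exp_le_one_iff]; linarith [hx.1]
      nlinarith [sq_nonneg (r t₁ x)]
    linarith
  have hηnn : 0 ≤ 5 * (2 + 2 * A) * σ * Λ * T := by positivity
  -- bound of the dissipation
  have hdiss : ∀ t₁ ∈ Ioc 0 T, ∫ t in t₁..T, ∫ x in (0 : ℝ)..1, g t x ^ 2 ≤ C := by
    intro t₁ ht₁
    obtain ⟨t₀, h1, h2, h3, h4⟩ := hsmall t₁ ht₁.1
    have h5 := (phase1_energy hγ1 hγ2 hA0.le hAM hκ0 hσ.symm hσ5 hP h1 h3).2
    rw [hmA, ← hΛ] at h5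
    have hDgc : ContinuousOn (fun t => ∫ x in (0 : ℝ)..1, g t x ^ 2) (Icc t₀ T) := by
      refine continuousOn_slice_Icc (H := fun t x => g t x ^ 2) ?_
      exact (hP.contG.mono (prod_mono (fun t ht => ⟨h1.trans_le ht.1, ht.2⟩) le_rfl)).pow 2
    have h6 : ∫ t in t₁..T, ∫ x in (0 : ℝ)..1, g t x ^ 2 ≤
        ∫ t in t₀..T, ∫ x in (0 : ℝ)..1, g t x ^ 2 := by
      refine intervalIntegral.integral_mono_interval h2.le ht₁.2 le_rfl ?_ ?_
      · exact Filter.Eventually.of_forall (fun t =>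
          intervalIntegral.integral_nonneg zero_le_one (fun x _ => sq_nonneg _))
      · refine ContinuousOn.intervalIntegrable ?_
        rwa [uIcc_of_le h3]
    refine h6.trans (h5.trans ?_)
    rw [hC, hEmax]
    have hE1 : 0 < Real.exp (2 * T) := Real.exp_pos _
    gcongr
  have hrN : ∀ t ∈ Ioc 0 T, ∀ x ∈ Icc (0 : ℝ) 1, |r t x| ≤ N :=
    hN (fluxT γ M) 0 T r0 (stokes A κ) r g (fun s => abs_fluxT_le hγ1 hM0 s) hT (by linarith)
      hr0m hr0b (fun t _ x hx => abs_stokes_le hA0.le hκ0.le t hx) hP hdiss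
  have hP' : Piece (flux γ) 0 T r0 (stokes A κ) r g := by
    refine hP.congr_flux (fun t ht x hx => fluxT_eq hγ1 hM0 ?_)
    calc |stokes A κ t x + r t x| ≤ |stokes A κ t x| + |r t x| := abs_add_le _ _
      _ ≤ 2 * A + |N| := add_le_add (abs_stokes_le hA0.le hκ0.le t hx)
          ((hrN t ht x hx).trans (le_abs_self N))
  refine ⟨A, κ, hκ0, r, g, hP', ?_⟩
  -- final estimate
  obtain ⟨t₀, h1, h2, h3, h4⟩ := hsmall (T / 4) (by linarith)
  have hTm : T ∈ Icc t₀ T := ⟨h3, le_rfl⟩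
  have h5 := (phase1_energy hγ1 hγ2 hA0.le hAM hκ0 hσ.symm hσ5 hP h1 h3).1 T hTm
  rw [hmA, ← hΛ] at h5
  have hK : ∫ s in t₀..T, (2 - 2 * vel γ A κ s) ≤ 2 * T - m * T / 2 := by
    have hkc : Continuous fun s => 2 - 2 * vel γ A κ s :=
      continuous_const.sub (continuous_const.mul (continuous_vel hγ1 A κ))
    have hsc : Continuous fun s : ℝ => 2 * m * Real.sin (2 * κ ^ 2 * s) ^ 2 := by fun_prop
    have h6 : ∫ s in t₀..T, (2 - 2 * vel γ A κ s) ≤
        ∫ s in t₀..T, (2 - 2 * m * Real.sin (2 * κ ^ 2 * s) ^ 2) := by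
      refine intervalIntegral.integral_mono_on h3 (hkc.intervalIntegrable _ _)
        ((continuous_const.sub hsc).intervalIntegrable _ _) (fun s _ => ?_)
      have := le_vel (A := A) (κ := κ) (t := s) hγ1 hγ2 hA0.le
      rw [hmA] at this
      linarith
    rw [intervalIntegral.integral_sub intervalIntegrable_const (hsc.intervalIntegrable _ _),
      intervalIntegral.integral_const, intervalIntegral.integral_const_mul, smul_eq_mul] at h6
    have h7 := integral_sin_sq_ge (t₁ := t₀) hT hκ0 hκT h2.le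
    have h8 : 2 * m * (T / 4) ≤ 2 * m * ∫ s in t₀..T, Real.sin (2 * κ ^ 2 * s) ^ 2 :=
      mul_le_mul_of_nonneg_left h7 (by positivity)
    linarith
  have hET : ∫ x in (0 : ℝ)..1, Real.exp (-x) * r T x ^ 2 ≤
      Real.exp (2 * T - m * T / 2) * (4 * R ^ 2 + 5) := by
    refine h5.trans ?_
    refine mul_le_mul (Real.exp_le_exp.mpr hK) (by linarith) ?_ (Real.exp_pos _).le
    have : 0 ≤ ∫ x in (0 : ℝ)..1, Real.exp (-x) * r t₀ x ^ 2 :=
      intervalIntegral.integral_nonneg zero_le_one (fun x _ => by positivity)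
    linarith
  have hmT : m * T / 2 = Q := by rw [hm]; field_simp
  have hQexp : Real.exp (2 * T - Q) * (4 * R ^ 2 + 5) * Real.exp 1 ≤ δ / 4 := by
    have h6 : Q ≤ Real.exp Q := by linarith [Real.add_one_le_exp Q]
    have h7 : Real.exp (2 * T - Q) * (4 * R ^ 2 + 5) * Real.exp 1 =
        (Real.exp (2 * T + 1) * (4 * R ^ 2 + 5)) * (Real.exp Q)⁻¹ := by
      rw [Real.exp_sub, Real.exp_add]; ring
    have h8 : Real.exp (2 * T + 1) * (4 * R ^ 2 + 5) = Q * (δ / 4) := by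
      rw [hQ]; field_simp
    rw [h7, h8]
    have h9 : Q * (Real.exp Q)⁻¹ ≤ 1 := by
      rw [mul_inv_le_iff₀ (Real.exp_pos Q)]; linarith
    have h10 : Q * (δ / 4) * (Real.exp Q)⁻¹ = (Q * (Real.exp Q)⁻¹) * (δ / 4) := by ring
    rw [h10]
    nlinarith
  have hTm' : T ∈ Ioc 0 T := ⟨hT, le_rfl⟩
  have hrc : ContinuousOn (r T) (Icc 0 1) := continuousOn_row hP.contR hTm'
  have hexpc : Continuous fun x : ℝ => Real.exp (-x) := Real.continuous_exp.comp continuous_neg
  have hrT : ∫ x in (0 : ℝ)..1, r T x ^ 2 ≤ δ / 4 := by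
    have h6 : ∫ x in (0 : ℝ)..1, r T x ^ 2 ≤
        ∫ x in (0 : ℝ)..1, Real.exp 1 * (Real.exp (-x) * r T x ^ 2) := by
      refine intervalIntegral.integral_mono_on zero_le_one (ii01 (hrc.pow 2))
        (ii01 (continuousOn_const.mul (hexpc.continuousOn.mul (hrc.pow 2)))) (fun x hx => ?_)
      have h7 : 1 ≤ Real.exp 1 * Real.exp (-x) := by
        rw [← Real.exp_add]
        apply Real.one_le_exp
        linarith [hx.2]
      nlinarith [mul_le_mul_of_nonneg_right h7 (sq_nonneg (r T x))]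
    rw [intervalIntegral.integral_const_mul] at h6
    have h7 := mul_le_mul_of_nonneg_left hET (Real.exp_pos 1).le
    rw [hmT] at h7
    linarith
  have hlT : ∫ x in (0 : ℝ)..1, layer A κ T x ^ 2 ≤ δ / 4 := by
    have h6 := integral_layer_sq hA0.le hκ0 T
    rw [← hσ] at h6
    linarith
  have hlc : Continuous fun x => layer A κ T x := by
    unfold layer
    fun_prop
  have h6 : ∫ x in (0 : ℝ)..1, (stokes A κ T x + r T x) ^ 2 ≤
      ∫ x in (0 : ℝ)..1, (2 * layer A κ T x ^ 2 + 2 * r T x ^ 2) := by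
    have e : ∀ x, stokes A κ T x = -layer A κ T x := by
      intro x; rw [stokes_eq, hsin]; ring
    have hcst : ContinuousOn (fun x => stokes A κ T x + r T x) (Icc 0 1) := by
      have : Continuous (fun x => stokes A κ T x) := by unfold stokes; fun_prop
      exact this.continuousOn.add hrc
    refine intervalIntegral.integral_mono_on zero_le_one (ii01 (hcst.pow 2))
      (ii01 ((continuousOn_const.mul (hlc.continuousOn.pow 2)).add
        (continuousOn_const.mul (hrc.pow 2)))) (fun x _ => ?_)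
    rw [e]
    nlinarith [sq_nonneg (layer A κ T x + r T x)]
  have k1 : IntervalIntegrable (fun x => 2 * layer A κ T x ^ 2) volume 0 1 :=
    ii01 (continuousOn_const.mul (hlc.continuousOn.pow 2))
  have k2 : IntervalIntegrable (fun x => 2 * r T x ^ 2) volume 0 1 :=
    ii01 (continuousOn_const.mul (hrc.pow 2))
  rw [intervalIntegral.integral_add k1 k2, intervalIntegral.integral_const_mul,
    intervalIntegral.integral_const_mul] at h6
  linarith

theorem phase15 {γ : ℝ} (hγ1 : 1 < γ) (hγ2 : γ ≤ 3 / 2) {τ : ℝ} (hτ : 0 < τ) {ε : ℝ}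
    (hε : 0 < ε) :
    ∃ δ : ℝ, 0 < δ ∧ ∀ (y1 : ℝ → ℝ) (R a : ℝ), Measurable y1 →
      (∀ x ∈ Icc (0 : ℝ) 1, |y1 x| ≤ R) → ∫ x in (0 : ℝ)..1, y1 x ^ 2 ≤ δ →
      ∃ r g : ℝ → ℝ → ℝ, Piece (flux γ) a (a + τ) y1 (fun _ _ => 0) r g ∧
        ∃ t ∈ Ioc a (a + τ), ∀ x ∈ Icc (0 : ℝ) 1, |r t x| ≤ ε := by
  set δ := ε ^ 2 * τ / 4 with hδdef
  have hδ : 0 < δ := by positivity
  refine ⟨δ, hδ, fun y1 R a hy1 hR hsq => ?_⟩
  have hab : a < a + τ := by linarith
  have hR0 : 0 ≤ R := (abs_nonneg _).trans (hR 0 ⟨le_rfl, zero_le_one⟩)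
  obtain ⟨N, hN⟩ := exists_apriori hγ1 hγ2 τ R 0 (2 * δ)
  set M := |N| with hM
  have hM0 : 0 ≤ M := abs_nonneg N
  set f := fluxT γ M with hf
  have hfc : Continuous f :=
    continuous_iff_continuousAt.2 fun s => (hasDerivAt_fluxT hγ1 hM0 s).continuousAt
  have hBc : ContinuousOn (Function.uncurry (fun _ _ => (0 : ℝ) : ℝ → ℝ → ℝ))
      (Icc a (a + τ) ×ˢ Icc 0 1) := by
    have : (Function.uncurry (fun _ _ => (0 : ℝ) : ℝ → ℝ → ℝ)) = fun _ => 0 := by
      funext p; rfl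
    rw [this]
    exact continuousOn_const
  obtain ⟨r, g, hP⟩ := exists_piece (lipschitz_fluxT hγ1 hM0) hab hy1 hR hBc
    (K := 0) (fun t _ x _ y _ => by simp)
  -- dissipation identity
  have hen : ∀ t₁, a < t₁ → t₁ ≤ a + τ →
      2 * (∫ t in t₁..(a + τ), ∫ x in (0 : ℝ)..1, g t x ^ 2) ≤
        ∫ x in (0 : ℝ)..1, r t₁ x ^ 2 := by
    intro t₁ h1 h2
    have h3 := hP.energy hfc hBc (ρ := fun _ => 1) (ρ' := fun _ => 0)
      (fun x _ => (hasDerivAt_const x (1 : ℝ)).hasDerivWithinAt) continuousOn_const h1 h2 le_rfl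
    have h4 : ∀ t ∈ Icc t₁ (a + τ), (∫ x in (0 : ℝ)..1, (f ((fun _ _ => (0 : ℝ)) t x + r t x) -
        g t x) * (0 * r t x + 1 * g t x)) = -∫ x in (0 : ℝ)..1, g t x ^ 2 := by
      intro t ht
      have htm : t ∈ Ioc a (a + τ) := ⟨h1.trans_le ht.1, ht.2⟩
      have hrc := continuousOn_row hP.contR htm
      have hgc := continuousOn_row hP.contG htm
      have hFd : ∀ q, HasDerivAt (fun q => ∫ s in (0 : ℝ)..q, f s) (f q) q := fun q =>
        (hfc.integral_hasStrictDerivAt 0 q).hasDerivAt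
      have cfg : ContinuousOn (fun x => f (r t x) * g t x) (Icc 0 1) :=
        (hfc.comp_continuousOn hrc).mul hgc
      have h5 : ∫ x in (0 : ℝ)..1, f (r t x) * g t x = 0 := by
        have h6 := ftc01 (F := fun x => ∫ s in (0 : ℝ)..(r t x), f s)
          (F' := fun x => f (r t x) * g t x)
          (fun x hx => (hFd (r t x)).comp_hasDerivWithinAt x (hP.der t htm x hx)) cfg
          (x := 1) ⟨zero_le_one, le_rfl⟩
        rw [h6]
        simp [hP.zero0 t htm, hP.zero1 t htm]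
      have e : (fun x => (f ((fun _ _ => (0 : ℝ)) t x + r t x) - g t x) *
          (0 * r t x + 1 * g t x)) = fun x => f (r t x) * g t x - g t x ^ 2 := by
        funext x
        simp only [zero_add, zero_mul, one_mul]
        ring
      have k3 : IntervalIntegrable (fun x => g t x ^ 2) volume 0 1 := ii01 (hgc.pow 2)
      rw [e, intervalIntegral.integral_sub (ii01 cfg) k3, h5]
      ring
    have h5 : ∫ t in t₁..(a + τ), (∫ x in (0 : ℝ)..1, (f ((fun _ _ => (0 : ℝ)) t x + r t x) -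
        g t x) * (0 * r t x + 1 * g t x)) =
        ∫ t in t₁..(a + τ), (-∫ x in (0 : ℝ)..1, g t x ^ 2) := by
      refine intervalIntegral.integral_congr (fun t ht => ?_)
      rw [uIcc_of_le h2] at ht
      exact h4 t ht
    have h6 : (∫ x in (0 : ℝ)..1, r (a + τ) x ^ 2) - (∫ x in (0 : ℝ)..1, r t₁ x ^ 2) =
        2 * ∫ t in t₁..(a + τ), (-∫ x in (0 : ℝ)..1, g t x ^ 2) := by
      rw [← h5, ← h3]
      simp only [one_mul]
    rw [intervalIntegral.integral_neg] at h6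
    have h7 : 0 ≤ ∫ x in (0 : ℝ)..1, r (a + τ) x ^ 2 :=
      intervalIntegral.integral_nonneg zero_le_one (fun x _ => sq_nonneg _)
    linarith
  have hDgc : ContinuousOn (fun t => ∫ x in (0 : ℝ)..1, g t x ^ 2) (Ioc a (a + τ)) :=
    continuousOn_slice_Ioc (H := fun t x => g t x ^ 2) (hP.contG.pow 2)
  have hD0 : ∀ t, 0 ≤ ∫ x in (0 : ℝ)..1, g t x ^ 2 := fun t =>
    intervalIntegral.integral_nonneg zero_le_one (fun x _ => sq_nonneg _)
  have hdiss' : ∀ t₁ ∈ Ioc a (a + τ),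
      ∫ t in t₁..(a + τ), ∫ x in (0 : ℝ)..1, g t x ^ 2 ≤ 3 / 2 * δ := by
    intro t₁ ht₁
    obtain ⟨t₀, h1, h2, h3, h4⟩ := hP.exists_small_time hab hy1 hR (ε := δ) hδ ht₁.1
    have h5 := hen t₀ h1 h3
    have h6 : ∫ t in t₁..(a + τ), ∫ x in (0 : ℝ)..1, g t x ^ 2 ≤
        ∫ t in t₀..(a + τ), ∫ x in (0 : ℝ)..1, g t x ^ 2 := by
      refine intervalIntegral.integral_mono_interval h2.le ht₁.2 le_rfl ?_ ?_
      · exact Filter.Eventually.of_forall hD0
      · refine ContinuousOn.intervalIntegrable ?_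
        rw [uIcc_of_le h3]
        exact hDgc.mono (fun t ht => ⟨h1.trans_le ht.1, ht.2⟩)
    linarith
  have hdiss : ∀ t₁ ∈ Ioc a (a + τ),
      ∫ t in t₁..(a + τ), ∫ x in (0 : ℝ)..1, g t x ^ 2 ≤ 2 * δ := fun t₁ ht₁ =>
    (hdiss' t₁ ht₁).trans (by linarith)
  have hrN : ∀ t ∈ Ioc a (a + τ), ∀ x ∈ Icc (0 : ℝ) 1, |r t x| ≤ N :=
    hN (fluxT γ M) a (a + τ) y1 (fun _ _ => 0) r g (fun s => abs_fluxT_le hγ1 hM0 s) hab
      (by linarith) hy1 hR (fun t _ x _ => by simp) hP hdiss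
  have hP' : Piece (flux γ) a (a + τ) y1 (fun _ _ => 0) r g := by
    refine hP.congr_flux (fun t ht x hx => fluxT_eq hγ1 hM0 ?_)
    rw [zero_add]
    exact (hrN t ht x hx).trans (le_abs_self N)
  refine ⟨r, g, hP', ?_⟩
  -- a good time
  have hmid : a + τ / 2 ∈ Ioc a (a + τ) := ⟨by linarith, by linarith⟩
  have hex : ∃ t ∈ Icc (a + τ / 2) (a + τ), ∫ x in (0 : ℝ)..1, g t x ^ 2 ≤ ε ^ 2 := by
    by_contra hcon
    push Not at hcon
    have h1 : ∫ t in (a + τ / 2)..(a + τ), ε ^ 2 ≤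
        ∫ t in (a + τ / 2)..(a + τ), ∫ x in (0 : ℝ)..1, g t x ^ 2 := by
      refine intervalIntegral.integral_mono_on (by linarith) intervalIntegrable_const ?_
        (fun t ht => (hcon t ht).le)
      refine ContinuousOn.intervalIntegrable ?_
      rw [uIcc_of_le (by linarith)]
      exact hDgc.mono (fun t ht => ⟨by linarith [ht.1], ht.2⟩)
    rw [intervalIntegral.integral_const, smul_eq_mul] at h1
    have h2 := hdiss' _ hmid
    have h3 : (a + τ - (a + τ / 2)) * ε ^ 2 = 2 * δ := by rw [hδdef]; ring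
    rw [h3] at h1
    linarith
  obtain ⟨t, ht, hle⟩ := hex
  have htm : t ∈ Ioc a (a + τ) := ⟨by linarith [ht.1], ht.2⟩
  refine ⟨t, htm, fun x hx => ?_⟩
  have h1 := sq_le_integral_sq (hP.der t htm) (continuousOn_row hP.contG htm)
    (hP.zero0 t htm) hx
  exact abs_le_of_sq_le_sq (h1.trans hle) hε.le

end Pool.Agent.Burg
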