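import Pool.Agent.Helper46_Burg.Block
import Pool.Agent.Helper46_Burg.Phase1
import Pool.Agent.Helper46_Burg.Tools
/-!
Module FINAL: the statement and the assembly.
-/

set_option autoImplicit false

open MeasureTheory Set Filter Topology
open scoped Real ENNReal NNReal ContDiff

noncomputable section

namespace Pool.Agent.Burg

theorem isTest_of_C1 {φ : ℝ → ℝ} (h1 : ContDiff ℝ 1 φ) (h2 : φ 0 = 0) (h3 : φ 1 = 0) :
    IsTest φ (deriv φ) := by
  refine ⟨fun x _ => ?_, ?_, h2, h3⟩
  · exact (h1.differentiable (by simp) x).hasDerivAt.hasDerivWithinAt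
  · exact (h1.continuous_deriv (by simp)).continuousOn

theorem memLp_two_prod {a b : ℝ} {g : ℝ → ℝ → ℝ} (hg : Measurable (Function.uncurry g))
    (h : ∫⁻ t in Ioc a b, ∫⁻ x in Icc (0 : ℝ) 1, ENNReal.ofReal (g t x ^ 2) < ⊤) :
    MemLp (Function.uncurry g) 2
      ((volume.restrict (Ioo a b)).prod (volume.restrict (Ioo 0 1))) := by
  rw [memLp_two_iff_integrable_sq hg.aestronglyMeasurable]
  refine ⟨(hg.pow_const 2).aestronglyMeasurable, ?_⟩
  rw [hasFiniteIntegral_iff_ofReal (ae_of_all _ fun p => sq_nonneg _)]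
  rw [lintegral_prod _ (hg.pow_const 2).ennreal_ofReal.aemeasurable]
  have e1 : volume.restrict (Ioo a b) = volume.restrict (Ioc a b) := restrict_Ioo_eq_restrict_Ioc
  have e2 : volume.restrict (Ioo (0:ℝ) 1) = volume.restrict (Icc (0:ℝ) 1) :=
    restrict_Ioo_eq_restrict_Icc
  rw [e1, e2]
  exact h

theorem intervalIntegrable_slice {a b : ℝ} (hab : a ≤ b) {H : ℝ → ℝ → ℝ}
    (hH : Integrable (Function.uncurry H)
      ((volume.restrict (Ioc a b)).prod (volume.restrict (Ioc 0 1)))) :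
    IntervalIntegrable (fun s => ∫ x in (0 : ℝ)..1, H s x) volume a b := by
  rw [intervalIntegrable_iff_integrableOn_Ioc_of_le hab]
  simp only [intervalIntegral.integral_of_le zero_le_one]
  exact hH.integral_prod_left

theorem Sol.isSolution {γ T : ℝ} (hγ : 1 < γ) (hT : 0 < T) {u v : ℝ → ℝ}
    {y g : ℝ → ℝ → ℝ} (h : Sol (flux γ) 0 T u v y g) {y0 : ℝ → ℝ}
    (h0 : y 0 =ᵐ[volume.restrict (Ioo 0 1)] y0) : IsSolution γ T y0 u v y := by
  obtain ⟨M, hM⟩ := h.bdd
  have hyt : ∀ t, Measurable (y t) := fun t => h.measY.comp measurable_prodMk_left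
  have hgt : ∀ t, Measurable (g t) := fun t => h.measG.comp measurable_prodMk_left
  have hLp : ∀ t ∈ Icc 0 T, MemLp (y t) 2 (volume.restrict (Ioo 0 1)) := fun t ht => by
    refine MemLp.of_bound (hyt t).aestronglyMeasurable M ?_
    exact ae_restrict_of_forall_mem measurableSet_Ioo fun x hx => hM t ht x (Ioo_subset_Icc_self hx)
  refine ⟨?_, hLp, ?_, h0, ?_⟩
  · refine memLp_top_of_bound h.measY.aestronglyMeasurable M ?_
    rw [Measure.prod_restrict]
    refine ae_restrict_of_forall_mem (measurableSet_Ioo.prod measurableSet_Ioo) ?_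
    rintro ⟨t, x⟩ ⟨ht, hx⟩
    exact hM t (Ioo_subset_Icc_self ht) x (Ioo_subset_Icc_self hx)
  · intro t₀ ht₀
    have h1 := h.cont t₀ ht₀
    have key : ∀ t ∈ Icc 0 T, eLpNorm (fun x => y t x - y t₀ x) 2 (volume.restrict (Ioo 0 1)) =
        ENNReal.ofReal (√(∫ x in (0 : ℝ)..1, (y t x - y t₀ x) ^ 2)) := by
      intro t ht
      change eLpNorm (y t - y t₀) 2 (volume.restrict (Ioo 0 1)) = _
      rw [MemLp.eLpNorm_eq_integral_rpow_norm (by norm_num) (by norm_num)
        ((hLp t ht).sub (hLp t₀ ht₀))]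
      congr 1
      rw [Real.sqrt_eq_rpow, intervalIntegral.integral_of_le zero_le_one,
        ← restrict_Ioo_eq_restrict_Ioc]
      simp
    have h2 : Tendsto (fun t => ENNReal.ofReal (√(∫ x in (0 : ℝ)..1, (y t x - y t₀ x) ^ 2)))
        (𝓝[Icc 0 T] t₀) (𝓝 0) := by
      have h3 := (Real.continuous_sqrt.tendsto _).comp h1
      have h4 := (ENNReal.continuous_ofReal.tendsto _).comp h3
      simp only [Real.sqrt_zero, ENNReal.ofReal_zero] at h4
      exact h4
    refine h2.congr' ?_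
    filter_upwards [self_mem_nhdsWithin] with t ht
    exact (key t ht).symm
  · refine ⟨g, memLp_two_prod h.measG h.sqG, ?_, ?_⟩
    · refine ae_restrict_of_forall_mem measurableSet_Ioo fun t ht => ?_
      have ht' : t ∈ Ioc 0 T := Ioo_subset_Ioc_self ht
      refine ⟨fun x hx => ?_, h.right t ht'⟩
      have hsub : Icc 0 x ⊆ Icc (0:ℝ) 1 := Icc_subset_Icc le_rfl hx.2
      have e := intervalIntegral.integral_eq_sub_of_hasDerivAt_of_le hx.1 (f := y t) (f' := g t)
        (fun z hz => ((h.der t ht' z (hsub hz)).continuousWithinAt.mono hsub))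
        (fun z hz => (h.der t ht' z ⟨hz.1.le, hz.2.le.trans hx.2⟩).hasDerivAt
          (Icc_mem_nhds hz.1 (hz.2.trans_le hx.2)))
        ((h.contG t ht').mono (by rw [uIcc_of_le hx.1]; exact hsub)).intervalIntegrable
      rw [e, h.left t ht']
      ring
    · intro φ hφ1 hφ2 hφ3 t ht
      have hT' := isTest_of_C1 hφ1 hφ2 hφ3
      have hw := h.weak φ (deriv φ) hT' t ht
      have hφc : Continuous φ := hφ1.continuous
      have hφ'c : Continuous (deriv φ) := hφ1.continuous_deriv (by simp)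
      have e0 : ∫ x in (0 : ℝ)..1, y 0 x * φ x = ∫ x in (0 : ℝ)..1, y0 x * φ x := by
        rw [intervalIntegral.integral_of_le zero_le_one, intervalIntegral.integral_of_le zero_le_one,
          ← restrict_Ioo_eq_restrict_Ioc]
        exact integral_congr_ae (h0.mono fun x hx => by simp only [hx])
      rw [e0] at hw
      -- slice identity
      have hs : ∀ s ∈ Ioc 0 T, ∫ x in (0 : ℝ)..1, (flux γ (y s x) - g s x) * deriv φ x =
          -∫ x in (0 : ℝ)..1, (γ * |y s x| ^ (γ - 1) * g s x * φ x + g s x * deriv φ x) := by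
        intro s hs
        have hyc : ContinuousOn (y s) (Icc 0 1) := fun z hz => (h.der s hs z hz).continuousWithinAt
        have hgc := h.contG s hs
        have c1 : ContinuousOn (fun x => flux γ (y s x)) (Icc 0 1) :=
          (continuous_flux hγ).comp_continuousOn hyc
        have c2 : ContinuousOn (fun x => γ * |y s x| ^ (γ - 1) * g s x) (Icc 0 1) := by
          refine ContinuousOn.mul (continuousOn_const.mul ?_) hgc
          exact hyc.abs.rpow_const fun x _ => Or.inr (by linarith)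
        have hu : uIcc (0:ℝ) 1 = Icc 0 1 := uIcc_of_le zero_le_one
        have ibp := intervalIntegral.integral_mul_deriv_eq_deriv_mul_of_hasDerivWithinAt
          (a := 0) (b := 1) (u := fun x => flux γ (y s x)) (v := φ)
          (u' := fun x => γ * |y s x| ^ (γ - 1) * g s x) (v' := deriv φ)
          (by
            intro x hx
            rw [hu] at hx ⊢
            exact (hasDerivAt_flux hγ (y s x)).comp_hasDerivWithinAt x (h.der s hs x hx))
          (by
            intro x hx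
            rw [hu] at hx ⊢
            exact hT'.der x hx)
          (by rw [← hu] at c2; exact c2.intervalIntegrable)
          hφ'c.continuousOn.intervalIntegrable
        rw [hT'.zero0, hT'.zero1] at ibp
        have i1 : IntervalIntegrable (fun x => flux γ (y s x) * deriv φ x) volume 0 1 := by
          rw [← hu] at c1; exact (c1.mul hφ'c.continuousOn).intervalIntegrable
        have i2 : IntervalIntegrable (fun x => g s x * deriv φ x) volume 0 1 := by
          rw [← hu] at hgc; exact (hgc.mul hφ'c.continuousOn).intervalIntegrable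
        have i3 : IntervalIntegrable (fun x => γ * |y s x| ^ (γ - 1) * g s x * φ x) volume 0 1 := by
          rw [← hu] at c2; exact (c2.mul hφc.continuousOn).intervalIntegrable
        simp only [sub_mul]
        rw [intervalIntegral.integral_sub i1 i2, ibp, intervalIntegral.integral_add i3 i2]
        ring
      rw [hw]
      have h0t : (0:ℝ) ≤ t := ht.1
      have hsub : Ioc 0 t ⊆ Ioc 0 T := Ioc_subset_Ioc le_rfl ht.2
      have e1 : ∫ s in (0 : ℝ)..t, ((∫ x in (0 : ℝ)..1, (flux γ (y s x) - g s x) * deriv φ x) +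
          u s * ∫ x in (0 : ℝ)..1, φ x) =
          ∫ s in (0 : ℝ)..t, ((u s * ∫ x in (0 : ℝ)..1, φ x) -
            ∫ x in (0 : ℝ)..1, (γ * |y s x| ^ (γ - 1) * g s x * φ x + g s x * deriv φ x)) := by
        refine intervalIntegral.integral_congr_ae ?_
        refine ae_of_all _ fun s hs' => ?_
        rw [uIoc_of_le h0t] at hs'
        rw [hs s (hsub hs')]
        ring
      have iu : IntervalIntegrable (fun s => u s * ∫ x in (0 : ℝ)..1, φ x) volume 0 t := by
        refine (h.intU.mono_set ?_).mul_const _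
        rw [uIcc_of_le h0t, uIcc_of_le hT.le]
        exact Icc_subset_Icc le_rfl ht.2
      have ig : IntervalIntegrable (fun s => ∫ x in (0 : ℝ)..1,
          (γ * |y s x| ^ (γ - 1) * g s x * φ x + g s x * deriv φ x)) volume 0 t := by
        refine intervalIntegrable_slice h0t
          (H := fun s x => γ * |y s x| ^ (γ - 1) * g s x * φ x + g s x * deriv φ x) ?_
        have hgi : Integrable (Function.uncurry g)
            ((volume.restrict (Ioc 0 t)).prod (volume.restrict (Ioc 0 1))) := by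
          have hg2 := memLp_two_prod h.measG h.sqG
          have hle : ((volume.restrict (Ioc 0 t)).prod (volume.restrict (Ioc (0:ℝ) 1))) ≤
              ((volume.restrict (Ioo 0 T)).prod (volume.restrict (Ioo (0:ℝ) 1))) := by
            rw [restrict_Ioo_eq_restrict_Ioc, restrict_Ioo_eq_restrict_Ioc]
            rw [Measure.prod_restrict, Measure.prod_restrict]
            exact Measure.restrict_mono (prod_mono hsub le_rfl) le_rfl
          exact (hg2.mono_measure hle).integrable (by norm_num)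
        obtain ⟨C1, hC1⟩ := (isCompact_Icc (a := (0:ℝ)) (b := 1)).exists_bound_of_continuousOn
          hφc.continuousOn
        obtain ⟨C2, hC2⟩ := (isCompact_Icc (a := (0:ℝ)) (b := 1)).exists_bound_of_continuousOn
          hφ'c.continuousOn
        have hm : Measurable (Function.uncurry fun s x =>
            γ * |y s x| ^ (γ - 1) * g s x * φ x + g s x * deriv φ x) := by
          have hy' : Measurable fun p : ℝ × ℝ => y p.1 p.2 := h.measY
          have hg' : Measurable fun p : ℝ × ℝ => g p.1 p.2 := h.measG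
          have h1' : Measurable fun p : ℝ × ℝ => |y p.1 p.2| ^ (γ - 1) := by fun_prop
          have h2' : Measurable fun p : ℝ × ℝ => φ p.2 := hφc.measurable.comp measurable_snd
          have h3' : Measurable fun p : ℝ × ℝ => deriv φ p.2 :=
            hφ'c.measurable.comp measurable_snd
          exact (((measurable_const.mul h1').mul hg').mul h2').add (hg'.mul h3')
        refine (hgi.norm.const_mul (γ * |M| ^ (γ - 1) * C1 + C2)).mono' hm.aestronglyMeasurable ?_
        rw [Measure.prod_restrict]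
        refine ae_restrict_of_forall_mem (measurableSet_Ioc.prod measurableSet_Ioc) ?_
        rintro ⟨s, x⟩ ⟨hs', hx⟩
        have hx' : x ∈ Icc (0:ℝ) 1 := Ioc_subset_Icc_self hx
        have b1 := hC1 x hx'
        have b2 := hC2 x hx'
        have b3 : |y s x| ≤ |M| := (hM s (Ioc_subset_Icc_self (hsub hs')) x hx').trans (le_abs_self M)
        have b4 : |y s x| ^ (γ - 1) ≤ |M| ^ (γ - 1) :=
          Real.rpow_le_rpow (abs_nonneg _) b3 (by linarith)
        simp only [Function.uncurry]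
        calc ‖γ * |y s x| ^ (γ - 1) * g s x * φ x + g s x * deriv φ x‖
            ≤ ‖γ * |y s x| ^ (γ - 1) * g s x * φ x‖ + ‖g s x * deriv φ x‖ := norm_add_le _ _
          _ = γ * |y s x| ^ (γ - 1) * ‖g s x‖ * ‖φ x‖ + ‖g s x‖ * ‖deriv φ x‖ := by
              rw [norm_mul, norm_mul, norm_mul, norm_mul, Real.norm_of_nonneg (by linarith),
                Real.norm_of_nonneg (Real.rpow_nonneg (abs_nonneg _) _)]
          _ ≤ γ * |M| ^ (γ - 1) * ‖g s x‖ * C1 + ‖g s x‖ * C2 := by gcongr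
          _ = (γ * |M| ^ (γ - 1) * C1 + C2) * ‖g s x‖ := by ring
      rw [e1, intervalIntegral.integral_sub iu ig]
      ring

/-- A bound for the squared gradient up to the initial time. -/
theorem Piece.exists_grad_bound {f : ℝ → ℝ} {a b : ℝ} {r0 : ℝ → ℝ} {B Bx r g : ℝ → ℝ → ℝ}
    (hP : Piece f a b r0 B r g) (hf : Continuous f)
    (hB : Continuous (Function.uncurry B)) (hBx : Continuous (Function.uncurry Bx)) :
    ∃ C, ∀ t₁ ∈ Ioc a b, ∫ t in t₁..b, ∫ x in (0 : ℝ)..1, (Bx t x + g t x) ^ 2 ≤ C := by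
  obtain ⟨M, hM⟩ := hP.bdd
  obtain ⟨K, hK⟩ := exists_bound_Icc (a := a) (b := b) hB.continuousOn
  obtain ⟨K', hK'⟩ := exists_bound_Icc (a := a) (b := b) hBx.continuousOn
  obtain ⟨N, hN⟩ := (isCompact_Icc (a := -(|K| + |M|)) (b := |K| + |M|)).exists_bound_of_continuousOn
    hf.continuousOn
  refine ⟨2 * (K' ^ 2 * (b - a)) + 2 * (M ^ 2 + N ^ 2 * (b - a)), fun t₁ ht₁ => ?_⟩
  have hsub : Icc t₁ b ⊆ Ioc a b := fun t ht => ⟨ht₁.1.trans_le ht.1, ht.2⟩
  have hsub' : Icc t₁ b ⊆ Icc a b := hsub.trans Ioc_subset_Icc_self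
  have hg1 : ContinuousOn (Function.uncurry g) (Icc t₁ b ×ˢ Icc 0 1) :=
    hP.contG.mono (prod_mono hsub le_rfl)
  have hr1 : ContinuousOn (Function.uncurry r) (Icc t₁ b ×ˢ Icc 0 1) :=
    hP.contR.mono (prod_mono hsub le_rfl)
  have hBr : ContinuousOn (Function.uncurry fun t x => f (B t x + r t x) ^ 2)
      (Icc t₁ b ×ˢ Icc 0 1) :=
    (hf.comp_continuousOn (hB.continuousOn.add hr1)).pow 2
  have hG2 : ContinuousOn (Function.uncurry fun t x => g t x ^ 2) (Icc t₁ b ×ˢ Icc 0 1) :=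
    hg1.pow 2
  have hS : ContinuousOn (Function.uncurry fun t x => (Bx t x + g t x) ^ 2)
      (Icc t₁ b ×ˢ Icc 0 1) := (hBx.continuousOn.add hg1).pow 2
  have he := hP.energy_one hf hB.continuousOn ht₁.1 ht₁.2 le_rfl
  have h1 : 0 ≤ ∫ x in (0 : ℝ)..1, r b x ^ 2 :=
    intervalIntegral.integral_nonneg zero_le_one fun x _ => sq_nonneg _
  have bound1 : ∀ (F : ℝ → ℝ) (c : ℝ), (∀ x ∈ Icc (0:ℝ) 1, F x ≤ c) → ContinuousOn F (Icc 0 1) →
      ∫ x in (0 : ℝ)..1, F x ≤ c := by
    intro F c hF hFc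
    have hFi : IntervalIntegrable F volume 0 1 :=
      ContinuousOn.intervalIntegrable (by rw [uIcc_of_le zero_le_one]; exact hFc)
    have := intervalIntegral.integral_mono_on zero_le_one hFi
      (intervalIntegrable_const (c := c)) hF
    simpa using this
  have h2 : ∫ x in (0 : ℝ)..1, r t₁ x ^ 2 ≤ M ^ 2 := by
    refine bound1 _ _ (fun x hx => ?_) ((continuousOn_row hP.contR ht₁).pow 2)
    exact sq_le_sq' (by linarith [(abs_le.1 (hM t₁ ht₁ x hx)).1]) (abs_le.1 (hM t₁ ht₁ x hx)).2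
  have h3 : ∫ t in t₁..b, ∫ x in (0 : ℝ)..1, f (B t x + r t x) ^ 2 ≤ N ^ 2 * (b - a) := by
    have hc := continuousOn_slice_Icc hBr
    have hi : IntervalIntegrable (fun t => ∫ x in (0 : ℝ)..1, f (B t x + r t x) ^ 2)
        volume t₁ b := ContinuousOn.intervalIntegrable (by rw [uIcc_of_le ht₁.2]; exact hc)
    have := intervalIntegral.integral_mono_on ht₁.2 hi (intervalIntegrable_const (c := N ^ 2))
      (fun t ht => bound1 _ _ (fun x hx => ?_) (continuousOn_row hBr ht))
    · refine this.trans ?_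
      rw [intervalIntegral.integral_const, smul_eq_mul, mul_comm]
      exact mul_le_mul_of_nonneg_left (by linarith [ht₁.1]) (sq_nonneg N)
    · have e1 := hM t (hsub ht) x hx
      have e2 := hK t (hsub' ht) x hx
      have e3 : |B t x + r t x| ≤ |K| + |M| :=
        (abs_add_le _ _).trans (add_le_add (e2.trans (le_abs_self _)) (e1.trans (le_abs_self _)))
      have e4 := hN (B t x + r t x) (abs_le.1 e3)
      exact sq_le_sq' (by linarith [(abs_le.1 e4).1]) (abs_le.1 e4).2
  have h4 : ∫ t in t₁..b, ∫ x in (0 : ℝ)..1, g t x ^ 2 ≤ M ^ 2 + N ^ 2 * (b - a) := by linarith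
  have h5 : ∀ t ∈ Icc t₁ b, ∫ x in (0 : ℝ)..1, (Bx t x + g t x) ^ 2 ≤
      2 * K' ^ 2 + 2 * ∫ x in (0 : ℝ)..1, g t x ^ 2 := by
    intro t ht
    have i1 : IntervalIntegrable (fun x => (Bx t x + g t x) ^ 2) volume 0 1 :=
      ContinuousOn.intervalIntegrable (by
        rw [uIcc_of_le zero_le_one]; exact continuousOn_row hS ht)
    have i2 : IntervalIntegrable (fun x => g t x ^ 2) volume 0 1 :=
      ContinuousOn.intervalIntegrable (by
        rw [uIcc_of_le zero_le_one]; exact continuousOn_row hG2 ht)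
    have := intervalIntegral.integral_mono_on zero_le_one i1
      ((intervalIntegrable_const (c := 2 * K' ^ 2)).add (i2.const_mul 2)) (fun x hx => ?_)
    · rw [intervalIntegral.integral_add intervalIntegrable_const (i2.const_mul 2),
        intervalIntegral.integral_const_mul] at this
      simpa using this
    · have e1 := hK' t (hsub' ht) x hx
      have e2 : Bx t x ^ 2 ≤ K' ^ 2 := sq_le_sq' (by linarith [(abs_le.1 e1).1]) (abs_le.1 e1).2
      nlinarith [sq_nonneg (Bx t x - g t x)]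
  have c1 := continuousOn_slice_Icc hS
  have c2 := continuousOn_slice_Icc hG2
  have i1 : IntervalIntegrable (fun t => ∫ x in (0 : ℝ)..1, (Bx t x + g t x) ^ 2)
      volume t₁ b := ContinuousOn.intervalIntegrable (by rw [uIcc_of_le ht₁.2]; exact c1)
  have i2 : IntervalIntegrable (fun t => ∫ x in (0 : ℝ)..1, g t x ^ 2)
      volume t₁ b := ContinuousOn.intervalIntegrable (by rw [uIcc_of_le ht₁.2]; exact c2)
  have := intervalIntegral.integral_mono_on ht₁.2 i1
    ((intervalIntegrable_const (c := 2 * K' ^ 2)).add (i2.const_mul 2)) h5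
  rw [intervalIntegral.integral_add intervalIntegrable_const (i2.const_mul 2),
    intervalIntegral.integral_const, smul_eq_mul] at this
  have e7 : ∫ t in t₁..b, 2 * ∫ x in (0 : ℝ)..1, g t x ^ 2 =
      2 * ∫ t in t₁..b, ∫ x in (0 : ℝ)..1, g t x ^ 2 := intervalIntegral.integral_const_mul _ _
  rw [e7] at this
  have h6 : (b - t₁) * (2 * K' ^ 2) ≤ 2 * (K' ^ 2 * (b - a)) := by
    nlinarith [mul_nonneg (sub_nonneg.2 ht₁.1.le) (sq_nonneg K')]
  linarith

/-- A bounded measurable representative. -/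
theorem exists_repr {y0 : ℝ → ℝ} (hy0 : MemLp y0 ⊤ (volume.restrict (Ioo 0 1))) :
    ∃ (y : ℝ → ℝ) (R : ℝ), Measurable y ∧ (∀ x, |y x| ≤ R) ∧
      y =ᵐ[volume.restrict (Ioo 0 1)] y0 := by
  have hm := hy0.aestronglyMeasurable
  set R := (eLpNorm y0 ⊤ (volume.restrict (Ioo 0 1))).toReal with hR
  have hR0 : 0 ≤ R := ENNReal.toReal_nonneg
  refine ⟨fun x => max (-R) (min R (hm.mk y0 x)), R, ?_, fun x => ?_, ?_⟩
  · exact measurable_const.max (measurable_const.min hm.stronglyMeasurable_mk.measurable)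
  · rw [abs_le]
    exact ⟨le_max_left _ _, max_le (by linarith) (min_le_left _ _)⟩
  · have h1 : ∀ᵐ x ∂(volume.restrict (Ioo (0:ℝ) 1)), ‖y0 x‖ₑ ≤ eLpNorm y0 ⊤ (volume.restrict (Ioo 0 1)) := by
      rw [eLpNorm_exponent_top]
      exact ae_le_eLpNormEssSup
    filter_upwards [h1, hm.ae_eq_mk] with x hx1 hx2
    have h2 : |y0 x| ≤ R := by
      have := ENNReal.toReal_mono hy0.2.ne hx1
      rw [toReal_enorm] at this
      exact this
    rw [← hx2, min_eq_right (abs_le.1 h2).2, max_eq_right (abs_le.1 h2).1]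

theorem stokes_lip_bdd (A κ T : ℝ) : ∃ L M : ℝ,
    (∀ s ∈ Icc 0 T, ∀ t ∈ Icc 0 T, |stokes A κ t 0 - stokes A κ s 0| ≤ L * |t - s|) ∧
    ∀ t ∈ Icc 0 T, |stokes A κ t 0| ≤ M := by
  have hd : ∀ t, HasDerivAt (fun t => stokes A κ t 0)
      (A * (Real.cos (2 * κ ^ 2 * t) * (2 * κ ^ 2)) -
        A * (Real.exp (-(κ * (1 - 0))) *
          (Real.cos (2 * κ ^ 2 * t - κ * (1 - 0)) * (2 * κ ^ 2)))) t := by
    intro t
    have h1 : HasDerivAt (fun t : ℝ => 2 * κ ^ 2 * t) (2 * κ ^ 2) t := by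
      simpa using (hasDerivAt_id t).const_mul (2 * κ ^ 2)
    exact (h1.sin.const_mul A).sub (((h1.sub_const _).sin.const_mul _).const_mul A)
  have hc : Continuous fun t => A * (Real.cos (2 * κ ^ 2 * t) * (2 * κ ^ 2)) -
        A * (Real.exp (-(κ * (1 - 0))) *
          (Real.cos (2 * κ ^ 2 * t - κ * (1 - 0)) * (2 * κ ^ 2))) := by fun_prop
  obtain ⟨L, hL⟩ := (isCompact_Icc (a := (0:ℝ)) (b := T)).exists_bound_of_continuousOn hc.continuousOn
  have hc' : Continuous fun t => stokes A κ t 0 :=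
    continuous_iff_continuousAt.2 fun t => (hd t).continuousAt
  obtain ⟨M, hM⟩ := (isCompact_Icc (a := (0:ℝ)) (b := T)).exists_bound_of_continuousOn
    hc'.continuousOn
  refine ⟨L, M, fun s hs t ht => ?_, hM⟩
  exact (convex_Icc 0 T).norm_image_sub_le_of_norm_hasDerivWithin_le
    (fun x _ => (hd x).hasDerivWithinAt) hL hs ht

theorem main {γ : ℝ} (hγ1 : 1 < γ) (hγ2 : γ ≤ 3 / 2) {T : ℝ} (hT : 0 < T) {y0 : ℝ → ℝ}
    (hy0 : MemLp y0 ⊤ (volume.restrict (Ioo 0 1))) :
    ∃ (u v : ℝ → ℝ) (y : ℝ → ℝ → ℝ),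
      MemLp u ⊤ (volume.restrict (Ioo 0 T)) ∧
      MemLp v ⊤ (volume.restrict (Ioo 0 T)) ∧ MemH14 T v ∧
      IsSolution γ T y0 u v y ∧
      y T =ᵐ[volume.restrict (Ioo 0 1)] 0 := by
  have hf : Continuous (flux γ) := continuous_flux hγ1
  obtain ⟨z0, R, hz0m, hz0R, hz0⟩ := exists_repr hy0
  have hT3 : 0 < T / 3 := by linarith
  obtain ⟨ε, hε, h2⟩ := phase2 hγ1 hγ2 hT3
  obtain ⟨δ, hδ, h15⟩ := phase15 hγ1 hγ2 hT3 hε
  obtain ⟨A, κ, hκ, r₁, g₁, hP₁, hsmall⟩ := phase1 hγ1 hγ2 hT3 hz0m (fun x _ => hz0R x) hδ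
  -- first solution
  have hL₁ := lift_stokes A κ
  obtain ⟨C₁, hC₁⟩ := hP₁.exists_grad_bound hf hL₁.contB hL₁.contBx
  obtain ⟨y₁, G₁, hS₁, hi₁, hy₁, -⟩ := hP₁.sol hT3 hf hL₁ hz0m (fun x _ => hz0R x) hC₁
  obtain ⟨M₁, hM₁⟩ := hS₁.bdd
  have hT3m : T / 3 ∈ Ioc 0 (T / 3) := ⟨hT3, le_rfl⟩
  have hint : ∫ x in (0 : ℝ)..1, y₁ (T / 3) x ^ 2 ≤ δ := by
    refine le_trans (le_of_eq ?_) hsmall
    refine intervalIntegral.integral_congr fun x hx => ?_
    rw [uIcc_of_le zero_le_one] at hx
    simp only [hy₁ (T / 3) hT3m x hx]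
  obtain ⟨r₂, g₂, hP₂, ts, hts, hrs⟩ := h15 (y₁ (T / 3)) M₁ (T / 3)
    (hS₁.measY.comp measurable_prodMk_left) (fun x hx => hM₁ _ (Ioc_subset_Icc_self hT3m) x hx) hint
  have hP₂' := hP₂.mono hts.1 hts.2
  have hP₂'' : Piece (flux γ) (T / 3) ts (fun x => y₁ (T / 3) x - (fun _ _ => (0:ℝ)) (T / 3) x)
      (fun _ _ => 0) r₂ g₂ := by simpa using hP₂'
  obtain ⟨C₂, hC₂⟩ := hP₂''.exists_grad_bound (Bx := fun _ _ => 0) hf (by fun_prop) (by fun_prop)
  obtain ⟨y₂, G₂, hS₂, hi₂, hy₂, -⟩ := hP₂''.sol hts.1 hf lift_zero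
    (hS₁.measY.comp measurable_prodMk_left)
    (fun x hx => hM₁ _ (Ioc_subset_Icc_self hT3m) x hx) hC₂
  have htsm : ts ∈ Ioc (T / 3) ts := ⟨hts.1, le_rfl⟩
  obtain ⟨v₃, y₃, G₃, hS₃, hi₃, hf₃, ⟨W, hW⟩, hv₃⟩ := h2 ts T (y₂ ts) (by linarith [hts.2])
    (hS₂.measY.comp measurable_prodMk_left) (fun x hx => by
      rw [hy₂ ts htsm x hx, zero_add]; exact hrs x hx)
  have hT3le : T / 3 ≤ ts := hts.1.le
  have htsT : ts ≤ T := by linarith [hts.2]
  -- the controls
  set u : ℝ → ℝ := (Ioc 0 (T / 3)).indicator fun t => 2 * A * κ ^ 2 * Real.cos (2 * κ ^ 2 * t)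
    with hu
  set v : ℝ → ℝ := fun t => (Ioc 0 (T / 3)).indicator (fun t => stokes A κ t 0) t + v₃ t with hv
  have hA : Sol (flux γ) 0 (T / 3) u v y₁ G₁ := hS₁.congr hT3.le
    (fun t ht => by rw [hu, indicator_of_mem ht])
    (fun t ht => by rw [hv]; simp only [indicator_of_mem ht, hv₃ t (ht.2.trans hT3le), add_zero])
  have hB : Sol (flux γ) (T / 3) ts u v y₂ G₂ := hS₂.congr hT3le
    (fun t ht => by rw [hu, indicator_of_notMem (fun h => absurd h.2 (not_le.2 ht.1))])
    (fun t ht => by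
      rw [hv]
      simp only [indicator_of_notMem (fun h : t ∈ Ioc 0 (T / 3) => absurd h.2 (not_le.2 ht.1)),
        hv₃ t ht.2, add_zero])
  have hC : Sol (flux γ) ts T u v y₃ G₃ := hS₃.congr htsT
    (fun t ht => by
      rw [hu, indicator_of_notMem (fun h => absurd h.2 (not_le.2 (hT3le.trans_lt ht.1)))])
    (fun t ht => by
      rw [hv]
      simp only [indicator_of_notMem (fun h : t ∈ Ioc 0 (T / 3) =>
        absurd h.2 (not_le.2 (hT3le.trans_lt ht.1))), zero_add])
  have hBC := hB.trans hT3le htsT hf hC (fun x hx => (hi₃ x hx).symm)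
  have hABC := hA.trans hT3.le (hT3le.trans htsT) hf hBC (fun x hx => by
    simp only [if_pos hT3le]
    exact (hi₂ x hx).symm)
  have hBV : ∃ W', BVb v W' := by
    obtain ⟨L, M, hL, hM⟩ := stokes_lip_bdd A κ (T / 3)
    exact ⟨_, (BVb.lipschitz_indicator hT3.le hL hM).add hW⟩
  obtain ⟨W', hW'⟩ := hBV
  refine ⟨u, v, _, ?_, ?_, hW'.memH14 T, hABC.isSolution hγ1 hT ?_, ?_⟩
  · refine memLp_top_of_bound ?_ (|2 * A * κ ^ 2|) (ae_of_all _ fun t => ?_)
    · exact ((by fun_prop : Measurable fun t : ℝ =>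
        2 * A * κ ^ 2 * Real.cos (2 * κ ^ 2 * t)).indicator measurableSet_Ioc).aestronglyMeasurable
    · rw [hu]
      by_cases ht : t ∈ Ioc 0 (T / 3)
      · rw [indicator_of_mem ht, Real.norm_eq_abs, abs_mul]
        exact mul_le_of_le_one_right (abs_nonneg _) (Real.abs_cos_le_one _)
      · rw [indicator_of_notMem ht, norm_zero]; exact abs_nonneg _
  · exact memLp_top_of_bound hW'.measurable.aestronglyMeasurable (|v 0| + W')
      (ae_of_all _ fun t => hW'.abs_le t)
  · refine Filter.EventuallyEq.trans ?_ hz0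
    refine ae_restrict_of_forall_mem measurableSet_Ioo fun x hx => ?_
    simp only [if_pos hT3.le]
    exact hi₁ x (Ioo_subset_Icc_self hx)
  · refine ae_restrict_of_forall_mem measurableSet_Ioo fun x hx => ?_
    have h1 : ¬ T ≤ T / 3 := by linarith
    simp only [if_neg h1]
    by_cases h2 : T ≤ ts
    · have h3 : ts = T := le_antisymm htsT h2
      simp only [if_pos h2, Pi.zero_apply]
      have h4 := hf₃ x (Ioo_subset_Icc_self hx)
      have h5 := hi₃ x (Ioo_subset_Icc_self hx)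
      rw [h3] at h5
      rw [← h5, h4]
    · simp only [if_neg h2, Pi.zero_apply]
      exact hf₃ x (Ioo_subset_Icc_self hx)

end Pool.Agent.Burg
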