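import Pool.Agent.Helper46_Burg.Defs

/-!
Module KERN: the Gaussian profiles `g0, g1, g2` and the calculus of `cv`.
-/

set_option autoImplicit false

open MeasureTheory Set Filter Topology
open scoped Real ENNReal

noncomputable section

namespace Pool.Agent.Burg

theorem g0_pos (z : ℝ) : 0 < g0 z := by
  unfold g0
  have : 0 < √(4 * π) := Real.sqrt_pos.2 (by positivity)
  positivity

theorem g0_neg (z : ℝ) : g0 (-z) = g0 z := by
  unfold g0
  rw [neg_sq]

theorem g1_neg (z : ℝ) : g1 (-z) = -g1 z := by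
  unfold g1
  rw [g0_neg]
  ring

theorem g2_neg (z : ℝ) : g2 (-z) = g2 z := by
  unfold g2
  rw [g0_neg, neg_sq]

theorem hasDerivAt_g0 (z : ℝ) : HasDerivAt g0 (g1 z) z := by
  have h1 : HasDerivAt (fun z : ℝ => -(z ^ 2) / 4) (-(2 * z) / 4) z := by
    refine (((hasDerivAt_pow 2 z).neg).div_const 4).congr_deriv ?_
    norm_num
  have h2 := (h1.exp).const_mul ((√(4 * π))⁻¹)
  refine h2.congr_deriv ?_
  unfold g1 g0
  ring

theorem hasDerivAt_g1 (z : ℝ) : HasDerivAt g1 (g2 z) z := by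
  have h1 : HasDerivAt (fun z : ℝ => -(z / 2)) (-(1 / 2)) z := ((hasDerivAt_id z).div_const 2).neg
  have h2 := h1.mul (hasDerivAt_g0 z)
  refine h2.congr_deriv ?_
  unfold g2 g1
  ring

theorem continuous_g0 : Continuous g0 := by
  unfold g0
  fun_prop

theorem continuous_g1 : Continuous g1 := by
  unfold g1
  have := continuous_g0
  fun_prop

theorem continuous_g2 : Continuous g2 := by
  unfold g2
  have := continuous_g0
  fun_prop

/-- powers times the Gaussian are integrable -/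
theorem integrable_pow_mul_g0 (n : ℕ) : Integrable (fun z : ℝ => z ^ n * g0 z) := by
  have h := (integrable_rpow_mul_exp_neg_mul_sq (b := 1 / 4) (by norm_num) (s := n)
    (by have : (0 : ℝ) ≤ n := Nat.cast_nonneg n
        linarith)).const_mul ((√(4 * π))⁻¹)
  refine h.congr (Eventually.of_forall fun z => ?_)
  simp only [g0, Real.rpow_natCast]
  rw [show -(z ^ 2) / 4 = -(1 / 4) * z ^ 2 by ring]
  ring

theorem integrable_g0 : Integrable g0 := by
  simpa using integrable_pow_mul_g0 0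

theorem integrable_g1 : Integrable g1 := by
  have h := (integrable_pow_mul_g0 1).const_mul (-(1 / 2))
  refine h.congr (Eventually.of_forall fun z => ?_)
  simp only [g1]
  ring

theorem integrable_g2 : Integrable g2 := by
  have h := ((integrable_pow_mul_g0 2).const_mul (1 / 4)).sub (integrable_g0.const_mul (1 / 2))
  refine h.congr (Eventually.of_forall fun z => ?_)
  simp only [g2, Pi.sub_apply]
  ring

theorem integrable_sqrt_mul_abs_g2 : Integrable (fun z : ℝ => √|z| * |g2 z|) := by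
  have h : Integrable (fun z : ℝ => (1 / 4) * (z ^ 4 * g0 z) + (3 / 4) * (z ^ 2 * g0 z) +
      (1 / 2) * g0 z) :=
    (((integrable_pow_mul_g0 4).const_mul (1 / 4)).add
      ((integrable_pow_mul_g0 2).const_mul (3 / 4))).add (integrable_g0.const_mul (1 / 2))
  refine h.mono' ?_ (Eventually.of_forall fun z => ?_)
  · have := continuous_g2
    exact (by fun_prop : Continuous fun z : ℝ => √|z| * |g2 z|).aestronglyMeasurable
  · have hg := g0_pos z
    have h1 : √|z| ≤ 1 + z ^ 2 := by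
      rw [Real.sqrt_le_left (by positivity)]
      have h2 : |z| ^ 2 = z ^ 2 := sq_abs z
      nlinarith [sq_nonneg (|z| - 1), abs_nonneg z, sq_nonneg (z ^ 2)]
    have h2 : |g2 z| ≤ (z ^ 2 / 4 + 1 / 2) * g0 z := by
      unfold g2
      rw [abs_mul, abs_of_pos hg]
      refine mul_le_mul_of_nonneg_right ?_ hg.le
      rw [abs_le]
      constructor <;> nlinarith [sq_nonneg z]
    rw [Real.norm_eq_abs, abs_of_nonneg (by positivity)]
    calc √|z| * |g2 z| ≤ (1 + z ^ 2) * ((z ^ 2 / 4 + 1 / 2) * g0 z) := by gcongr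
      _ = _ := by ring

theorem integral_g0 : ∫ z, g0 z = 1 := by
  unfold g0
  rw [integral_const_mul]
  have h := integral_gaussian (1 / 4)
  have e : (fun z : ℝ => Real.exp (-(z ^ 2) / 4)) = fun z => Real.exp (-(1 / 4) * z ^ 2) := by
    funext z
    congr 1
    ring
  rw [e, h, show π / (1 / 4) = 4 * π by ring]
  have : √(4 * π) ≠ 0 := (Real.sqrt_pos.2 (by positivity)).ne'
  field_simp

theorem integral_g1 : ∫ z, g1 z = 0 :=
  integral_eq_zero_of_hasDerivAt_of_integrable hasDerivAt_g0 integrable_g1 integrable_g0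

theorem integral_g2 : ∫ z, g2 z = 0 :=
  integral_eq_zero_of_hasDerivAt_of_integrable hasDerivAt_g1 integrable_g2 integrable_g1

theorem integral_sq_mul_g0 : ∫ z, z ^ 2 * g0 z = 2 := by
  have h := integral_g2
  have e : g2 = fun z => (1 / 4) * (z ^ 2 * g0 z) - (1 / 2) * g0 z := by
    funext z
    unfold g2
    ring
  rw [e, integral_sub ((integrable_pow_mul_g0 2).const_mul _) (integrable_g0.const_mul _),
    integral_const_mul, integral_const_mul, integral_g0] at h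
  linarith

theorem integral_abs_g1_le : ∫ z, |g1 z| ≤ 1 := by
  have h1 : ∫ z, |g1 z| ≤ ∫ z, ((1 / 8) * (z ^ 2 * g0 z) + (1 / 2) * g0 z) := by
    refine integral_mono integrable_g1.abs
      (((integrable_pow_mul_g0 2).const_mul _).add (integrable_g0.const_mul _)) fun z => ?_
    have hg := g0_pos z
    show |g1 z| ≤ (1 / 8) * (z ^ 2 * g0 z) + (1 / 2) * g0 z
    unfold g1
    rw [abs_mul, abs_of_pos hg, abs_neg]
    have : |z / 2| ≤ z ^ 2 / 8 + 1 / 2 := by
      rw [abs_le]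
      constructor <;> nlinarith [sq_nonneg (z - 2), sq_nonneg (z + 2)]
    calc |z / 2| * g0 z ≤ (z ^ 2 / 8 + 1 / 2) * g0 z := by gcongr
      _ = _ := by ring
  rw [integral_add ((integrable_pow_mul_g0 2).const_mul _) (integrable_g0.const_mul _),
    integral_const_mul, integral_const_mul, integral_g0, integral_sq_mul_g0] at h1
  linarith

theorem integral_abs_g2_le : ∫ z, |g2 z| ≤ 1 := by
  have h1 : ∫ z, |g2 z| ≤ ∫ z, ((1 / 4) * (z ^ 2 * g0 z) + (1 / 2) * g0 z) := by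
    refine integral_mono integrable_g2.abs
      (((integrable_pow_mul_g0 2).const_mul _).add (integrable_g0.const_mul _)) fun z => ?_
    have hg := g0_pos z
    show |g2 z| ≤ (1 / 4) * (z ^ 2 * g0 z) + (1 / 2) * g0 z
    unfold g2
    rw [abs_mul, abs_of_pos hg]
    have : |z ^ 2 / 4 - 1 / 2| ≤ z ^ 2 / 4 + 1 / 2 := by
      rw [abs_le]
      constructor <;> nlinarith [sq_nonneg z]
    calc |z ^ 2 / 4 - 1 / 2| * g0 z ≤ (z ^ 2 / 4 + 1 / 2) * g0 z := by gcongr
      _ = _ := by ring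
  rw [integral_add ((integrable_pow_mul_g0 2).const_mul _) (integrable_g0.const_mul _),
    integral_const_mul, integral_const_mul, integral_g0, integral_sq_mul_g0] at h1
  linarith

/-- Fourier transform of the Gaussian. -/
theorem integral_g0_cos (a : ℝ) : ∫ z, g0 z * Real.cos (a * z) = Real.exp (-a ^ 2) := by
  have h := fourierIntegral_gaussian (b := (1 / 4 : ℂ)) (by norm_num) (a : ℂ)
  have e1 : ∀ z : ℝ, g0 z * Real.cos (a * z) = ((√(4 * π))⁻¹ *
      (Complex.exp (Complex.I * a * z) * Complex.exp (-(1 / 4 : ℂ) * z ^ 2)).re) := by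
    intro z
    have e2 : Complex.exp (-(1 / 4 : ℂ) * z ^ 2) = ((Real.exp (-(z ^ 2) / 4) : ℝ) : ℂ) := by
      rw [Complex.ofReal_exp]
      congr 1
      push_cast
      ring
    have e3 : Complex.exp (Complex.I * a * z) =
        (Real.cos (a * z) : ℝ) + (Real.sin (a * z) : ℝ) * Complex.I := by
      rw [show Complex.I * a * z = ((a * z : ℝ) : ℂ) * Complex.I by push_cast; ring,
        Complex.exp_mul_I]
      push_cast
      rfl
    rw [e2, e3, Complex.re_mul_ofReal]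
    simp only [Complex.add_re, Complex.ofReal_re, Complex.mul_re, Complex.ofReal_im, Complex.I_re,
      Complex.I_im, mul_zero, zero_mul, sub_zero, add_zero]
    unfold g0
    ring
  simp_rw [e1]
  rw [integral_const_mul]
  have hint : Integrable (fun z : ℝ =>
      Complex.exp (Complex.I * a * z) * Complex.exp (-(1 / 4 : ℂ) * z ^ 2)) := by
    have h1 : Integrable (fun z : ℝ => Complex.exp (-(1 / 4 : ℂ) * z ^ 2)) :=
      integrable_cexp_neg_mul_sq (by norm_num)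
    refine h1.norm.mono' (by fun_prop) (Eventually.of_forall fun z => ?_)
    rw [norm_mul, show Complex.I * a * z = ((a * z : ℝ) : ℂ) * Complex.I by push_cast; ring,
      Complex.norm_exp_ofReal_mul_I, one_mul]
  have h4 : ∫ z : ℝ, (Complex.exp (Complex.I * a * z) * Complex.exp (-(1 / 4 : ℂ) * z ^ 2)).re =
      (∫ z : ℝ, Complex.exp (Complex.I * a * z) * Complex.exp (-(1 / 4 : ℂ) * z ^ 2)).re := by
    have := integral_re hint
    simpa using this
  rw [h4, h]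
  have e5 : ((π : ℂ) / (1 / 4)) ^ (1 / 2 : ℂ) = ((√(4 * π) : ℝ) : ℂ) := by
    rw [Real.sqrt_eq_rpow, Complex.ofReal_cpow (by positivity)]
    push_cast
    congr 1
    ring
  have e6 : Complex.exp (-(a : ℂ) ^ 2 / (4 * (1 / 4))) = ((Real.exp (-a ^ 2) : ℝ) : ℂ) := by
    rw [Complex.ofReal_exp]
    congr 1
    push_cast
    ring
  rw [e5, e6, ← Complex.ofReal_mul, Complex.ofReal_re]
  have : √(4 * π) ≠ 0 := (Real.sqrt_pos.2 (by positivity)).ne'
  field_simp

theorem integral_g1_sin (a : ℝ) : ∫ z, g1 z * Real.sin (a * z) = -a * Real.exp (-a ^ 2) := by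
  have i0 : Integrable (fun z => g0 z * Real.sin (a * z)) := by
    refine integrable_g0.mul_bdd (c := 1) (by fun_prop) (Eventually.of_forall fun z => ?_)
    exact Real.abs_sin_le_one _
  have i1 : Integrable (fun z => g1 z * Real.sin (a * z)) := by
    refine integrable_g1.mul_bdd (c := 1) (by fun_prop) (Eventually.of_forall fun z => ?_)
    exact Real.abs_sin_le_one _
  have i2 : Integrable (fun z => g0 z * Real.cos (a * z)) := by
    refine integrable_g0.mul_bdd (c := 1) (by fun_prop) (Eventually.of_forall fun z => ?_)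
    exact Real.abs_cos_le_one _
  have hd : ∀ z, HasDerivAt (fun z => g0 z * Real.sin (a * z))
      (g1 z * Real.sin (a * z) + a * (g0 z * Real.cos (a * z))) z := by
    intro z
    have h1 : HasDerivAt (fun z : ℝ => Real.sin (a * z)) (Real.cos (a * z) * a) z := by
      have := ((hasDerivAt_id z).const_mul a).sin
      simpa using this
    have h2 := (hasDerivAt_g0 z).mul h1
    refine h2.congr_deriv ?_
    ring
  have h := integral_eq_zero_of_hasDerivAt_of_integrable hd (i1.add (i2.const_mul a)) i0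
  rw [integral_add i1 (i2.const_mul a), integral_const_mul, integral_g0_cos] at h
  linarith

/-- Integrability of the integrand of `cv`. -/
theorem integrable_cv {k φ : ℝ → ℝ} (hk : Integrable k) (hφ : Measurable φ) {M : ℝ}
    (hM : ∀ x, |φ x| ≤ M) (c x : ℝ) : Integrable (fun z => k z * φ (x - c * z)) := by
  refine hk.mul_bdd (c := M) ?_ (Eventually.of_forall fun z => hM _)
  exact (hφ.comp (by fun_prop)).aestronglyMeasurable

theorem abs_cv_le {k φ : ℝ → ℝ} (hk : Integrable k) (hφ : Measurable φ) {M : ℝ}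
    (hM : ∀ x, |φ x| ≤ M) (c x : ℝ) : |cv k c φ x| ≤ M * ∫ z, |k z| := by
  unfold cv
  rw [← integral_const_mul]
  refine (abs_integral_le_integral_abs).trans ?_
  refine integral_mono (integrable_cv hk hφ hM c x).abs (hk.abs.const_mul M) fun z => ?_
  show |k z * φ (x - c * z)| ≤ M * |k z|
  rw [abs_mul, mul_comm]
  gcongr
  exact hM _

theorem cv_const (k : ℝ → ℝ) (c m x : ℝ) : cv k c (fun _ => m) x = m * ∫ z, k z := by
  unfold cv
  rw [integral_mul_const, mul_comm]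

theorem cv_sub {k φ ψ : ℝ → ℝ} (hk : Integrable k) (hφ : Measurable φ) (hψ : Measurable ψ)
    {M N : ℝ} (hM : ∀ x, |φ x| ≤ M) (hN : ∀ x, |ψ x| ≤ N) (c x : ℝ) :
    cv k c (fun y => φ y - ψ y) x = cv k c φ x - cv k c ψ x := by
  unfold cv
  rw [← integral_sub (integrable_cv hk hφ hM c x) (integrable_cv hk hψ hN c x)]
  refine integral_congr_ae (Eventually.of_forall fun z => ?_)
  show k z * (φ (x - c * z) - ψ (x - c * z)) = k z * φ (x - c * z) - k z * ψ (x - c * z)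
  ring

/-- Continuous kernels with a Gaussian bound. -/
def GB (k : ℝ → ℝ) : Prop := Continuous k ∧ ∀ z, |k z| ≤ 2 * Real.exp (-(z ^ 2) / 8)

theorem inv_sqrt_le_one : (√(4 * π))⁻¹ ≤ 1 := by
  apply inv_le_one_of_one_le₀
  rw [Real.one_le_sqrt]
  have := Real.pi_gt_three
  linarith

theorem poly_g0_le (z : ℝ) {p : ℝ} (_hp0 : 0 ≤ p) (hp : p ≤ 2 * (z ^ 2 / 8 + 1)) :
    p * g0 z ≤ 2 * Real.exp (-(z ^ 2) / 8) := by
  have h1 : z ^ 2 / 8 + 1 ≤ Real.exp (z ^ 2 / 8) := Real.add_one_le_exp _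
  have h2 : g0 z ≤ Real.exp (-(z ^ 2) / 4) := by
    unfold g0
    calc (√(4 * π))⁻¹ * Real.exp (-(z ^ 2) / 4) ≤ 1 * Real.exp (-(z ^ 2) / 4) := by
          gcongr
          exact inv_sqrt_le_one
      _ = _ := one_mul _
  calc p * g0 z ≤ (2 * Real.exp (z ^ 2 / 8)) * Real.exp (-(z ^ 2) / 4) := by
        apply mul_le_mul _ h2 (g0_pos z).le (by positivity)
        linarith
    _ = 2 * (Real.exp (z ^ 2 / 8) * Real.exp (-(z ^ 2) / 4)) := by ring
    _ = 2 * Real.exp (-(z ^ 2) / 8) := by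
        rw [← Real.exp_add]
        congr 2
        ring

theorem GB.g0 : GB g0 := by
  refine ⟨continuous_g0, fun z => ?_⟩
  rw [abs_of_pos (g0_pos z)]
  have := poly_g0_le z (p := 1) zero_le_one (by nlinarith [sq_nonneg z])
  simpa using this

theorem GB.g1 : GB g1 := by
  refine ⟨continuous_g1, fun z => ?_⟩
  unfold Burg.g1
  rw [abs_mul, abs_of_pos (g0_pos z), abs_neg]
  refine poly_g0_le z (abs_nonneg _) ?_
  rw [abs_le]
  constructor <;> nlinarith [sq_nonneg (z - 2), sq_nonneg (z + 2)]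

theorem GB.g2 : GB g2 := by
  refine ⟨continuous_g2, fun z => ?_⟩
  unfold Burg.g2
  rw [abs_mul, abs_of_pos (g0_pos z)]
  refine poly_g0_le z (abs_nonneg _) ?_
  rw [abs_le]
  constructor <;> nlinarith [sq_nonneg z]

theorem cv_eq (k φ : ℝ → ℝ) {c : ℝ} (hc : 0 < c) (x : ℝ) :
    cv k c φ x = ∫ ξ, c⁻¹ * (k ((x - ξ) / c) * φ ξ) := by
  have h1 : cv k c φ x = ∫ z, (fun y => k (y / c) * φ (x - y)) (c * z) := by
    unfold cv
    refine integral_congr_ae (Eventually.of_forall fun z => ?_)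
    show k z * φ (x - c * z) = k (c * z / c) * φ (x - c * z)
    rw [mul_div_cancel_left₀ _ hc.ne']
  rw [h1, Measure.integral_comp_mul_left (fun y => k (y / c) * φ (x - y)) c]
  have h2 : ∫ y, k (y / c) * φ (x - y) = ∫ ξ, k ((x - ξ) / c) * φ ξ := by
    rw [← integral_sub_left_eq_self (fun y => k (y / c) * φ (x - y)) volume x]
    refine integral_congr_ae (Eventually.of_forall fun ξ => ?_)
    show k ((x - ξ) / c) * φ (x - (x - ξ)) = _
    rw [sub_sub_cancel]
  rw [h2, integral_const_mul, abs_of_pos (inv_pos.2 hc), smul_eq_mul]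

/-- local Gaussian bound -/
theorem GB.local {k : ℝ → ℝ} (hk : GB k) {c₀ x₀ c x ξ : ℝ} (hc₀ : 0 < c₀) (hc : 0 < c)
    (hc2 : c < 2 * c₀) (hx : |x - x₀| < 1) :
    |k ((x - ξ) / c)| ≤ 2 * Real.exp (1 / (32 * c₀ ^ 2)) *
      Real.exp (-(1 / (64 * c₀ ^ 2)) * (ξ - x₀) ^ 2) := by
  refine (hk.2 _).trans ?_
  rw [mul_assoc, ← Real.exp_add]
  gcongr
  have h1 : ((x - ξ) / c) ^ 2 ≥ (x - ξ) ^ 2 / (4 * c₀ ^ 2) := by
    rw [div_pow]
    apply div_le_div_of_nonneg_left (sq_nonneg _) (by positivity)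
    nlinarith
  have h2 : (x - ξ) ^ 2 ≥ (ξ - x₀) ^ 2 / 2 - 1 := by
    rw [abs_lt] at hx
    nlinarith [sq_nonneg ((ξ - x₀) - 2 * (x - x₀)), hx.1, hx.2]
  have h3 : (x - ξ) ^ 2 / (4 * c₀ ^ 2) ≥ ((ξ - x₀) ^ 2 / 2 - 1) / (4 * c₀ ^ 2) := by
    apply div_le_div_of_nonneg_right h2 (by positivity)
  have h4 : ((ξ - x₀) ^ 2 / 2 - 1) / (4 * c₀ ^ 2) =
      8 * ((1 / (64 * c₀ ^ 2)) * (ξ - x₀) ^ 2 - 1 / (32 * c₀ ^ 2)) := by
    field_simp
    ring
  linarith

theorem integrable_bound (C b x₀ : ℝ) (hb : 0 < b) :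
    Integrable fun ξ : ℝ => C * Real.exp (-b * (ξ - x₀) ^ 2) :=
  ((integrable_exp_neg_mul_sq hb).comp_sub_right x₀).const_mul C

theorem GB.continuousOn_cv {k : ℝ → ℝ} (hk : GB k) {φ : ℝ → ℝ} (hφ : Measurable φ) {M : ℝ}
    (hM : ∀ x, |φ x| ≤ M) :
    ContinuousOn (fun p : ℝ × ℝ => cv k p.1 φ p.2) (Ioi 0 ×ˢ univ) := by
  have hM0 : 0 ≤ M := (abs_nonneg _).trans (hM 0)
  have hkc := hk.1
  rintro ⟨c₀, x₀⟩ ⟨hc₀, -⟩
  simp only [mem_Ioi] at hc₀
  apply ContinuousAt.continuousWithinAt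
  have hev1 : ∀ᶠ p : ℝ × ℝ in 𝓝 (c₀, x₀), c₀ / 2 < p.1 ∧ p.1 < 2 * c₀ :=
    continuous_fst.continuousAt.eventually (Ioo_mem_nhds (by linarith) (by linarith))
  have hev2 : ∀ᶠ p : ℝ × ℝ in 𝓝 (c₀, x₀), |p.2 - x₀| < 1 := by
    have h0 : Tendsto (fun p : ℝ × ℝ => p.2) (𝓝 (c₀, x₀)) (𝓝 x₀) := continuousAt_snd
    filter_upwards [h0 (Metric.ball_mem_nhds x₀ one_pos)] with p hp
    rwa [mem_preimage, Metric.mem_ball, Real.dist_eq] at hp
  have hcong : (fun p : ℝ × ℝ => ∫ ξ, p.1⁻¹ * (k ((p.2 - ξ) / p.1) * φ ξ)) =ᶠ[𝓝 (c₀, x₀)]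
      fun p : ℝ × ℝ => cv k p.1 φ p.2 := by
    filter_upwards [hev1] with p hp
    exact (cv_eq k φ (by linarith) p.2).symm
  refine ContinuousAt.congr ?_ hcong
  refine continuousAt_of_dominated (bound := fun ξ =>
    (2 / c₀ * (2 * Real.exp (1 / (32 * c₀ ^ 2)) * M)) *
      Real.exp (-(1 / (64 * c₀ ^ 2)) * (ξ - x₀) ^ 2)) ?_ ?_ ?_ ?_
  · refine Eventually.of_forall fun p => ?_
    have h1 : Measurable fun ξ => k ((p.2 - ξ) / p.1) := (by fun_prop :
      Continuous fun ξ => k ((p.2 - ξ) / p.1)).measurable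
    exact ((h1.mul hφ).const_mul _).aestronglyMeasurable
  · filter_upwards [hev1, hev2] with p hp1 hp2
    refine Eventually.of_forall fun ξ => ?_
    have hp0 : 0 < p.1 := by linarith
    have h1 := hk.local (ξ := ξ) hc₀ hp0 hp1.2 hp2
    have h2 : p.1⁻¹ ≤ 2 / c₀ := by
      rw [inv_eq_one_div, div_le_div_iff₀ hp0 hc₀]
      linarith
    rw [Real.norm_eq_abs, abs_mul, abs_mul, abs_of_pos (inv_pos.2 hp0)]
    calc p.1⁻¹ * (|k ((p.2 - ξ) / p.1)| * |φ ξ|) ≤ 2 / c₀ *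
        ((2 * Real.exp (1 / (32 * c₀ ^ 2)) * Real.exp (-(1 / (64 * c₀ ^ 2)) * (ξ - x₀) ^ 2)) *
          M) := by
          gcongr
          exact hM ξ
      _ = _ := by ring
  · exact integrable_bound _ _ _ (by positivity)
  · refine Eventually.of_forall fun ξ => ?_
    have hne : ((c₀, x₀) : ℝ × ℝ).1 ≠ 0 := hc₀.ne'
    have h1 : ContinuousAt (fun p : ℝ × ℝ => p.1⁻¹) (c₀, x₀) := continuousAt_fst.inv₀ hne
    have h2 : ContinuousAt (fun p : ℝ × ℝ => (p.2 - ξ) / p.1) (c₀, x₀) :=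
      (continuousAt_snd.sub continuousAt_const).div continuousAt_fst hne
    have h3 : ContinuousAt (fun p : ℝ × ℝ => k ((p.2 - ξ) / p.1)) (c₀, x₀) :=
      ContinuousAt.comp' hkc.continuousAt h2
    exact h1.mul (h3.mul continuousAt_const)

theorem GB.hasDerivAt_cv {k k' : ℝ → ℝ} (hk : GB k) (hk' : GB k')
    (hd : ∀ z, HasDerivAt k (k' z) z) {φ : ℝ → ℝ} (hφ : Measurable φ) {M : ℝ}
    (hM : ∀ x, |φ x| ≤ M) {c : ℝ} (hc : 0 < c) (x₀ : ℝ) :
    HasDerivAt (cv k c φ) (c⁻¹ * cv k' c φ x₀) x₀ := by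
  have hM0 : 0 ≤ M := (abs_nonneg _).trans (hM 0)
  have hkc := hk.1
  have hkc' := hk'.1
  have h1 : cv k c φ = fun x => ∫ ξ, c⁻¹ * (k ((x - ξ) / c) * φ ξ) := by
    funext x
    exact cv_eq k φ hc x
  have h2 : c⁻¹ * cv k' c φ x₀ = ∫ ξ, c⁻¹ * (c⁻¹ * (k' ((x₀ - ξ) / c) * φ ξ)) := by
    rw [cv_eq k' φ hc x₀, ← integral_const_mul]
  rw [h1, h2]
  have hmeas : ∀ (q : ℝ → ℝ), Continuous q → ∀ x, AEStronglyMeasurable
      (fun ξ => q ((x - ξ) / c) * φ ξ) volume := by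
    intro q hq x
    have h1 : Measurable fun ξ => q ((x - ξ) / c) := (by fun_prop :
      Continuous fun ξ => q ((x - ξ) / c)).measurable
    exact (h1.mul hφ).aestronglyMeasurable
  have hbd : ∀ (q : ℝ → ℝ), GB q → ∀ x ∈ Metric.ball x₀ 1, ∀ ξ,
      |q ((x - ξ) / c) * φ ξ| ≤ (2 * Real.exp (1 / (32 * c ^ 2)) * M) *
        Real.exp (-(1 / (64 * c ^ 2)) * (ξ - x₀) ^ 2) := by
    intro q hq x hx ξ
    rw [Metric.mem_ball, Real.dist_eq] at hx
    have h1 := hq.local (ξ := ξ) hc hc (by linarith) hx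
    rw [abs_mul]
    calc |q ((x - ξ) / c)| * |φ ξ| ≤ (2 * Real.exp (1 / (32 * c ^ 2)) *
      Real.exp (-(1 / (64 * c ^ 2)) * (ξ - x₀) ^ 2)) * M := by
          gcongr
          exact hM ξ
      _ = _ := by ring
  refine (hasDerivAt_integral_of_dominated_loc_of_deriv_le
    (F := fun x ξ => c⁻¹ * (k ((x - ξ) / c) * φ ξ))
    (F' := fun x ξ => c⁻¹ * (c⁻¹ * (k' ((x - ξ) / c) * φ ξ)))
    (bound := fun ξ => (c⁻¹ * (c⁻¹ * (2 * Real.exp (1 / (32 * c ^ 2)) * M))) *
        Real.exp (-(1 / (64 * c ^ 2)) * (ξ - x₀) ^ 2))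
    (Metric.ball_mem_nhds x₀ one_pos) ?_ ?_ ?_ ?_ ?_ ?_).2
  · exact Eventually.of_forall fun x => (hmeas k hkc x).const_mul _
  · refine Integrable.const_mul ?_ _
    refine (integrable_bound (2 * Real.exp (1 / (32 * c ^ 2)) * M) (1 / (64 * c ^ 2)) x₀
      (by positivity)).mono' (hmeas k hkc x₀) (Eventually.of_forall fun ξ => ?_)
    exact hbd k hk x₀ (Metric.mem_ball_self one_pos) ξ
  · exact ((hmeas k' hkc' x₀).const_mul _).const_mul _
  · refine Eventually.of_forall fun ξ x hx => ?_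
    rw [Real.norm_eq_abs, abs_mul, abs_mul, abs_of_pos (inv_pos.2 hc)]
    calc c⁻¹ * (c⁻¹ * |k' ((x - ξ) / c) * φ ξ|) ≤ c⁻¹ * (c⁻¹ *
        ((2 * Real.exp (1 / (32 * c ^ 2)) * M) *
        Real.exp (-(1 / (64 * c ^ 2)) * (ξ - x₀) ^ 2))) := by
          gcongr
          exact hbd k' hk' x hx ξ
      _ = _ := by ring
  · exact integrable_bound _ _ _ (by positivity)
  · refine Eventually.of_forall fun ξ x hx => ?_
    have h3 : HasDerivAt (fun x : ℝ => (x - ξ) / c) (1 / c) x :=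
      ((hasDerivAt_id x).sub_const ξ).div_const c
    have h4 := (hd ((x - ξ) / c)).comp x h3
    have h5 := (h4.mul_const (φ ξ)).const_mul c⁻¹
    refine h5.congr_deriv ?_
    rw [one_div]
    ring

theorem continuousOn_cv_g0 {φ : ℝ → ℝ} (hφ : Measurable φ) {M : ℝ} (hM : ∀ x, |φ x| ≤ M) :
    ContinuousOn (fun p : ℝ × ℝ => cv g0 p.1 φ p.2) (Ioi 0 ×ˢ univ) :=
  GB.g0.continuousOn_cv hφ hM

theorem continuousOn_cv_g1 {φ : ℝ → ℝ} (hφ : Measurable φ) {M : ℝ} (hM : ∀ x, |φ x| ≤ M) :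
    ContinuousOn (fun p : ℝ × ℝ => cv g1 p.1 φ p.2) (Ioi 0 ×ˢ univ) :=
  GB.g1.continuousOn_cv hφ hM

theorem hasDerivAt_cv_g0 {φ : ℝ → ℝ} (hφ : Measurable φ) {M : ℝ} (hM : ∀ x, |φ x| ≤ M)
    {c : ℝ} (hc : 0 < c) (x : ℝ) : HasDerivAt (cv g0 c φ) (c⁻¹ * cv g1 c φ x) x :=
  GB.g0.hasDerivAt_cv GB.g1 hasDerivAt_g0 hφ hM hc x

theorem hasDerivAt_cv_g1 {φ : ℝ → ℝ} (hφ : Measurable φ) {M : ℝ} (hM : ∀ x, |φ x| ≤ M)
    {c : ℝ} (hc : 0 < c) (x : ℝ) : HasDerivAt (cv g1 c φ) (c⁻¹ * cv g2 c φ x) x :=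
  GB.g1.hasDerivAt_cv GB.g2 hasDerivAt_g1 hφ hM hc x

end Pool.Agent.Burg
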