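import Pool.Agent.Helper46_Burg.Vander
import Pool.Agent.Helper46_Burg.Energy

/-!
Module LINCTL: the linear control step by piecewise constant boundary data.
-/

set_option autoImplicit false

open MeasureTheory Set Filter Topology
open scoped Real ENNReal NNReal

noncomputable section

namespace Pool.Agent.Burg

/-- Linear evolution with boundary value `b i` on the `i`-th interval of length `h`. -/
def zit (h : ℝ) (b : ℕ → ℝ) (φ : ℝ → ℝ) : ℕ → ℝ → ℝ
  | 0 => φ
  | i + 1 => fun x => b i * (1 - x) + heat h (fun y => zit h b φ i y - b i * (1 - y)) x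

theorem measurable_heat {φ : ℝ → ℝ} (hφ : Measurable φ) (t : ℝ) : Measurable (heat t φ) := by
  have h1 : StronglyMeasurable (Function.uncurry fun (x z : ℝ) =>
      g0 z * oddExt φ (x - √t * z)) := by
    refine Measurable.stronglyMeasurable ?_
    have h2 : Measurable fun p : ℝ × ℝ => g0 p.2 := continuous_g0.measurable.comp measurable_snd
    have h3 : Measurable fun p : ℝ × ℝ => oddExt φ (p.1 - √t * p.2) :=
      (measurable_oddExt hφ).comp (by fun_prop)
    exact h2.mul h3
  exact (h1.integral_prod_right (ν := volume)).measurable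

theorem measurable_zit {h : ℝ} {b : ℕ → ℝ} {φ : ℝ → ℝ} (hφ : Measurable φ) (i : ℕ) :
    Measurable (zit h b φ i) := by
  induction i with
  | zero => exact hφ
  | succ i ih =>
    have h1 : Measurable fun y : ℝ => zit h b φ i y - b i * (1 - y) :=
      ih.sub (by fun_prop)
    have h2 := measurable_heat h1 h
    simp only [zit]
    exact Measurable.add (by fun_prop) h2

theorem abs_const_mul_one_sub_le (c : ℝ) {x : ℝ} (hx : x ∈ Icc (0 : ℝ) 1) :
    |c * (1 - x)| ≤ |c| := by
  rw [abs_mul]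
  refine mul_le_of_le_one_right (abs_nonneg _) ?_
  rw [abs_of_nonneg (by linarith [hx.2])]
  linarith [hx.1]

theorem abs_zit_le {h : ℝ} {b : ℕ → ℝ} {φ : ℝ → ℝ} (hφ : Measurable φ) {M : ℝ}
    (hM : ∀ x ∈ Icc (0 : ℝ) 1, |φ x| ≤ M) (i : ℕ) :
    ∀ x ∈ Icc (0 : ℝ) 1, |zit h b φ i x| ≤ M + 2 * ∑ k ∈ Finset.range i, |b k| := by
  induction i with
  | zero => simpa [zit] using hM
  | succ i ih =>
    intro x hx
    rw [Finset.sum_range_succ]
    have h1 : Measurable fun y : ℝ => zit h b φ i y - b i * (1 - y) :=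
      (measurable_zit hφ i).sub (by fun_prop)
    have h2 := abs_heat_le h1 (M := M + 2 * ∑ k ∈ Finset.range i, |b k| + |b i|)
      (fun y hy => (abs_sub _ _).trans
        (add_le_add (ih y hy) (abs_const_mul_one_sub_le _ hy))) h x
    have h3 := abs_const_mul_one_sub_le (b i) hx
    calc |zit h b φ (i + 1) x| ≤ |b i * (1 - x)| +
          |heat h (fun y => zit h b φ i y - b i * (1 - y)) x| := by
          simp only [zit]; exact abs_add_le _ _
      _ ≤ _ := by linarith

theorem integral_one_sub_mul_sin (j : ℕ) (hj : 1 ≤ j) :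
    ∫ x in (0 : ℝ)..1, (1 - x) * Real.sin (j * π * x) = 1 / (j * π) := by
  have hj' : (0:ℝ) < j := by exact_mod_cast hj
  have hjp : (j:ℝ) * π ≠ 0 := by positivity
  have hd : ∀ x : ℝ, HasDerivAt (fun x : ℝ => -((1 - x) * (Real.cos (j * π * x) / (j * π))) -
      Real.sin (j * π * x) / (j * π) ^ 2) ((1 - x) * Real.sin (j * π * x)) x := by
    intro x
    have h1 : HasDerivAt (fun x : ℝ => (j:ℝ) * π * x) (j * π) x := by
      simpa using (hasDerivAt_id x).const_mul ((j:ℝ) * π)
    have h2 := h1.cos.div_const ((j:ℝ) * π)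
    have h3 := h1.sin.div_const (((j:ℝ) * π) ^ 2)
    have h4 : HasDerivAt (fun x : ℝ => 1 - x) (-1) x := by
      simpa using (hasDerivAt_id x).const_sub 1
    have h5 := ((h4.mul h2).neg).sub h3
    refine h5.congr_deriv ?_
    field_simp
    ring
  rw [intervalIntegral.integral_eq_sub_of_hasDerivAt (fun x _ => hd x)
    (Continuous.intervalIntegrable (by fun_prop) _ _)]
  simp only [sub_self, zero_mul, neg_zero, mul_one, mul_zero, Real.cos_zero, Real.sin_zero,
    sub_zero, one_mul, zero_div, zero_sub, Real.sin_nat_mul_pi]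
  ring

theorem lin_control (n : ℕ) {h : ℝ} (hh : 0 < h) {φ : ℝ → ℝ} (hφ : Measurable φ) {M : ℝ}
    (hM : ∀ x ∈ Icc (0 : ℝ) 1, |φ x| ≤ M) :
    ∃ b : ℕ → ℝ,
      (∀ j : ℕ, j ≤ n → ∫ x in (0 : ℝ)..1, zit h b φ n x * Real.sin (j * π * x) = 0) ∧
      ∑ i ∈ Finset.range n, |b i| ≤ n * (M / h) * (2 + 1 / h) ^ n := by
  have hM0 : 0 ≤ M := (abs_nonneg _).trans (hM 0 ⟨le_rfl, zero_le_one⟩)
  have hpi : (1:ℝ) ≤ π := by linarith [Real.pi_gt_three]
  have hpi2 : (1:ℝ) ≤ π ^ 2 := one_le_pow₀ hpi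
  set a : ℝ := π ^ 2 * h with ha
  have ha0 : 0 < a := by positivity
  have hah : h ≤ a := by nlinarith
  set C0 : ℕ → ℝ := fun j => ∫ x in (0 : ℝ)..1, φ x * Real.sin (j * π * x) with hC0
  have hC0M : ∀ j, |C0 j| ≤ M := by
    intro j
    have : ‖∫ x in (0 : ℝ)..1, φ x * Real.sin (j * π * x)‖ ≤ M * |(1:ℝ) - 0| := by
      refine intervalIntegral.norm_integral_le_of_norm_le_const fun x hx => ?_
      rw [uIoc_of_le zero_le_one] at hx
      rw [Real.norm_eq_abs, abs_mul]
      calc |φ x| * |Real.sin (j * π * x)| ≤ M * 1 :=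
            mul_le_mul (hM x (Ioc_subset_Icc_self hx)) (Real.abs_sin_le_one _) (abs_nonneg _) hM0
        _ = M := mul_one _
    simpa using this
  set d : ℕ → ℝ := fun j => -(C0 j * (j * π)) / (Real.exp (a * (j:ℝ) ^ 2) - 1) with hd
  have hexp : ∀ j : ℕ, 1 ≤ j → a * (j:ℝ) ^ 2 ≤ Real.exp (a * (j:ℝ) ^ 2) - 1 := fun j _ => by
    linarith [Real.add_one_le_exp (a * (j:ℝ) ^ 2)]
  obtain ⟨b, hb1, hb2⟩ := exists_vander n ha0 d (D := M / h) (by positivity) (by
    intro j hj1 _
    have hj' : (1:ℝ) ≤ j := by exact_mod_cast hj1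
    have h1 := hexp j hj1
    have h0 : 0 < a * (j:ℝ) ^ 2 := by positivity
    rw [hd]
    simp only
    rw [abs_div, abs_neg, abs_mul, abs_of_pos (h0.trans_le h1),
      abs_of_pos (show (0:ℝ) < j * π by positivity)]
    rw [div_le_div_iff₀ (h0.trans_le h1) hh]
    calc |C0 j| * (j * π) * h ≤ M * (j * π) * h := by gcongr; exact hC0M j
      _ ≤ M * (a * (j:ℝ) ^ 2) := by
          have : (j:ℝ) * π * h ≤ a * (j:ℝ) ^ 2 := by
            rw [ha]
            have e : π ^ 2 * h * (j:ℝ) ^ 2 = ((j:ℝ) * π * h) * (π * j) := by ring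
            rw [e]
            refine le_mul_of_one_le_right (by positivity) ?_
            nlinarith
          calc M * (j * π) * h = M * (j * π * h) := by ring
            _ ≤ _ := mul_le_mul_of_nonneg_left this hM0
      _ ≤ _ := mul_le_mul_of_nonneg_left h1 hM0)
  refine ⟨b, ?_, ?_⟩
  · -- coefficient recursion
    have hrec : ∀ (j : ℕ), 1 ≤ j → ∀ i : ℕ,
        ∫ x in (0 : ℝ)..1, zit h b φ (i + 1) x * Real.sin (j * π * x) =
          b i * (1 / (j * π)) + Real.exp (-(π ^ 2 * j ^ 2 * h)) *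
            ((∫ x in (0 : ℝ)..1, zit h b φ i x * Real.sin (j * π * x)) -
              b i * (1 / (j * π))) := by
      intro j hj i
      have mz := measurable_zit (h := h) (b := b) hφ i
      have bz := abs_zit_le (h := h) (b := b) hφ hM i
      have h1 : Measurable fun y : ℝ => zit h b φ i y - b i * (1 - y) := mz.sub (by fun_prop)
      have h1b : ∀ y ∈ Icc (0:ℝ) 1, |zit h b φ i y - b i * (1 - y)| ≤
          M + 2 * ∑ k ∈ Finset.range i, |b k| + |b i| := fun y hy =>
        (abs_sub _ _).trans (add_le_add (bz y hy) (abs_const_mul_one_sub_le _ hy))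
      have h2 := heat_coeff h1 h1b hh j
      have hsinm : Measurable fun x : ℝ => Real.sin (j * π * x) := by fun_prop
      have hii : ∀ {H : ℝ → ℝ} {c : ℝ}, Measurable H → (∀ x ∈ Icc (0:ℝ) 1, |H x| ≤ c) →
          IntervalIntegrable (fun x => H x * Real.sin (j * π * x)) volume 0 1 := by
        intro H c hm hc
        rw [intervalIntegrable_iff_integrableOn_Ioc_of_le zero_le_one]
        refine Integrable.of_bound (hm.mul hsinm).aestronglyMeasurable c ?_
        refine ae_restrict_of_forall_mem measurableSet_Ioc fun x hx => ?_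
        rw [Real.norm_eq_abs, abs_mul]
        exact (mul_le_of_le_one_right (abs_nonneg _) (Real.abs_sin_le_one _)).trans
          (hc x (Ioc_subset_Icc_self hx))
      have i1 := hii mz bz
      have i2 : IntervalIntegrable (fun x => (1 - x) * Real.sin (j * π * x)) volume 0 1 :=
        Continuous.intervalIntegrable (by fun_prop) _ _
      have i3 := hii (measurable_heat h1 h) (fun x _ => abs_heat_le h1 h1b h x)
      have e1 : ∀ x, zit h b φ (i + 1) x * Real.sin (j * π * x) =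
          b i * ((1 - x) * Real.sin (j * π * x)) +
            heat h (fun y => zit h b φ i y - b i * (1 - y)) x * Real.sin (j * π * x) := by
        intro x; simp only [zit]; ring
      have e2 : ∀ x, (zit h b φ i x - b i * (1 - x)) * Real.sin (j * π * x) =
          zit h b φ i x * Real.sin (j * π * x) - b i * ((1 - x) * Real.sin (j * π * x)) := by
        intro x; ring
      rw [intervalIntegral.integral_congr fun x _ => e1 x,
        intervalIntegral.integral_add (i2.const_mul _) i3, h2,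
        intervalIntegral.integral_const_mul, integral_one_sub_mul_sin j hj]
      rw [intervalIntegral.integral_congr fun x _ => e2 x,
        intervalIntegral.integral_sub i1 (i2.const_mul _),
        intervalIntegral.integral_const_mul, integral_one_sub_mul_sin j hj]
    -- closed form
    have hclosed : ∀ (j : ℕ), 1 ≤ j → ∀ i : ℕ,
        Real.exp (a * (j:ℝ) ^ 2) ^ i *
          ∫ x in (0 : ℝ)..1, zit h b φ i x * Real.sin (j * π * x) =
          C0 j + (1 / (j * π)) * (Real.exp (a * (j:ℝ) ^ 2) - 1) *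
            ∑ k ∈ Finset.range i, b k * Real.exp (a * (j:ℝ) ^ 2) ^ k := by
      intro j hj i
      induction i with
      | zero => simp [zit, hC0]
      | succ i ih =>
        rw [hrec j hj i, Finset.sum_range_succ]
        have eX : Real.exp (-(π ^ 2 * j ^ 2 * h)) * Real.exp (a * (j:ℝ) ^ 2) = 1 := by
          rw [← Real.exp_add, ha, ← Real.exp_zero]; congr 1; ring
        set X := Real.exp (a * (j:ℝ) ^ 2) with hX
        set I := ∫ x in (0 : ℝ)..1, zit h b φ i x * Real.sin (j * π * x) with hI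
        set E := Real.exp (-(π ^ 2 * j ^ 2 * h)) with hE
        calc X ^ (i + 1) * (b i * (1 / (j * π)) + E * (I - b i * (1 / (j * π))))
            = X ^ i * (X * (b i * (1 / (j * π))) + (E * X) * (I - b i * (1 / (j * π)))) := by
              rw [pow_succ]; ring
          _ = X ^ i * I + X ^ i * ((X - 1) * (b i * (1 / (j * π)))) := by rw [eX]; ring
          _ = _ := by rw [ih]; ring
    intro j hjn
    rcases Nat.eq_zero_or_pos j with hj0 | hj0
    · subst hj0; simp
    · have hj1 : 1 ≤ j := hj0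
      have h1 := hclosed j hj1 n
      have hj' : (0:ℝ) < j := by exact_mod_cast hj0
      rw [hb1 j hj1 hjn] at h1
      have hX1 : 0 < Real.exp (a * (j:ℝ) ^ 2) - 1 :=
        lt_of_lt_of_le (by positivity) (hexp j hj1)
      have h2 : C0 j + 1 / (j * π) * (Real.exp (a * (j:ℝ) ^ 2) - 1) * d j = 0 := by
        have hpi0 := Real.pi_pos
        have hjp : (j:ℝ) * π ≠ 0 := by positivity
        have e1 : d j = -(C0 j * (j * π)) / (Real.exp (a * (j:ℝ) ^ 2) - 1) := rfl
        rw [e1]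
        generalize Real.exp (a * (j:ℝ) ^ 2) - 1 = X at hX1
        have := hX1.ne'
        field_simp
        ring
      rw [h2] at h1
      rcases mul_eq_zero.1 h1 with h3 | h3
      · exact absurd h3 (pow_ne_zero _ (Real.exp_pos _).ne')
      · exact h3
  · refine hb2.trans ?_
    have h1 : 2 + 2 / a ≤ 2 + 1 / h := by
      have : 2 / a ≤ 1 / h := by
        have h9 : (2:ℝ) ≤ π ^ 2 := by nlinarith [Real.pi_gt_three]
        rw [div_le_div_iff₀ ha0 hh, ha, one_mul]
        exact mul_le_mul_of_nonneg_right h9 hh.le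
      linarith
    have h2 : (2 + 2 / a) ^ n ≤ (2 + 1 / h) ^ n := pow_le_pow_left₀ (by positivity) h1 n
    exact mul_le_mul_of_nonneg_left h2 (by positivity)

/-- One short step of the nonlinear equation with small data and constant boundary value `c`. -/
theorem small_piece {γ : ℝ} (hγ1 : 1 < γ) (hγ2 : γ ≤ 3 / 2) {a h : ℝ} (hh : 0 < h)
    (hh' : h ≤ 1 / 36) {y1 : ℝ → ℝ} (hy1 : Measurable y1) {Y c : ℝ}
    (hY : ∀ x ∈ Icc (0 : ℝ) 1, |y1 x| ≤ Y) (hs : 2 * (2 * |c| + Y) ≤ 1) :
    ∃ r g : ℝ → ℝ → ℝ,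
      Piece (flux γ) a (a + h) (fun x => y1 x - c * (1 - x)) (fun _ x => c * (1 - x)) r g ∧
      (∀ t ∈ Ioc a (a + h), ∀ x ∈ Icc (0 : ℝ) 1,
        |c * (1 - x) + r t x| ≤ 2 * (2 * |c| + Y)) ∧
      (∀ t ∈ Ioc a (a + h), ∀ x ∈ Icc (0 : ℝ) 1,
        |r t x - heat (t - a) (fun y => y1 y - c * (1 - y)) x| ≤
          2 * √h * (2 * (2 * |c| + Y)) ^ γ) ∧
      (∀ t₁ ∈ Ioc a (a + h), ∫ t in t₁..(a + h), ∫ x in (0 : ℝ)..1, g t x ^ 2 ≤
        2 * (2 * (2 * |c| + Y)) ^ 2) := by
  have hY0 : 0 ≤ Y := (abs_nonneg _).trans (hY 0 ⟨le_rfl, zero_le_one⟩)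
  have hc0 : 0 ≤ |c| := abs_nonneg c
  set S : ℝ := 2 * |c| + Y with hS
  have hS0 : 0 ≤ S := by positivity
  have hab : a < a + h := by linarith
  have hsqrt : √h ≤ 1 / 6 := by
    rw [show (1 / 6 : ℝ) = √(1 / 36) by
      rw [show (1 / 36 : ℝ) = (1 / 6) ^ 2 by norm_num, Real.sqrt_sq (by norm_num)]]
    exact Real.sqrt_le_sqrt hh'
  have hm0 : Measurable fun x : ℝ => y1 x - c * (1 - x) := hy1.sub (by fun_prop)
  have hr0b : ∀ x ∈ Icc (0:ℝ) 1, |y1 x - c * (1 - x)| ≤ Y + |c| := fun x hx =>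
    (abs_sub _ _).trans (add_le_add (hY x hx) (abs_const_mul_one_sub_le _ hx))
  have hBc : Continuous (Function.uncurry fun (_ : ℝ) (x : ℝ) => c * (1 - x)) := by
    simp only [Function.uncurry_def]; fun_prop
  obtain ⟨r, g, hP⟩ := exists_piece (lipschitz_fluxT hγ1 (zero_le_one (α := ℝ))) hab hm0 hr0b
    (B := fun _ x => c * (1 - x)) hBc.continuousOn (K := |c|) (by
      intro t _ x _ y _
      have : c * (1 - x) - c * (1 - y) = c * (y - x) := by ring
      rw [this, abs_mul, abs_sub_comm y x])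
  -- the kernel integral
  have hker : ∀ t ∈ Ioc a (a + h), ∀ m : ℝ, 0 ≤ m →
      IntervalIntegrable (fun s => (t - s) ^ (-(1 / 2) : ℝ) * m) volume a t ∧
      ∫ s in a..t, (t - s) ^ (-(1 / 2) : ℝ) * m ≤ 2 * √h * m := by
    intro t ht m hm
    have hta : 0 < t - a := by linarith [ht.1]
    obtain ⟨k1, k2⟩ := integral_rpow_sub hta m
    have e1 : IntervalIntegrable (fun s => (t - s) ^ (-(1 / 2) : ℝ) * m) volume a t := by
      have := k1.comp_sub_right a
      simp only [zero_add, sub_add_cancel] at this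
      refine this.congr ?_
      intro s _
      ring_nf
    refine ⟨e1, ?_⟩
    have e2 : ∫ s in a..t, (t - s) ^ (-(1 / 2) : ℝ) * m =
        ∫ s in (0:ℝ)..(t - a), (t - a - s) ^ (-(1 / 2) : ℝ) * m := by
      have := intervalIntegral.integral_comp_sub_right (a := a) (b := t)
        (fun s => (t - a - s) ^ (-(1 / 2) : ℝ) * m) a
      rw [sub_self] at this
      rw [← this]
      refine intervalIntegral.integral_congr fun s _ => ?_
      congr 2
      ring
    rw [e2, k2]
    have : √(t - a) ≤ √h := Real.sqrt_le_sqrt (by linarith [ht.2])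
    gcongr
  -- mild estimate
  have hmild : ∀ N : ℝ, 0 ≤ N → (∀ t ∈ Ioc a (a + h), ∀ x ∈ Icc (0 : ℝ) 1,
      |fluxT γ 1 (c * (1 - x) + r t x)| ≤ N) → ∀ t ∈ Ioc a (a + h), ∀ x ∈ Icc (0 : ℝ) 1,
      |r t x - heat (t - a) (fun y => y1 y - c * (1 - y)) x| ≤ 2 * √h * N := by
    intro N hN hb t ht x hx
    obtain ⟨k1, k2⟩ := hker t ht N hN
    refine (hP.mild t ht (fun _ => N) (fun _ => 0) ?_ k1 x hx).trans k2
    intro s hs x hx
    rw [sub_zero]
    exact hb s ⟨hs.1, hs.2.le.trans ht.2⟩ x hx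
  -- sup bound
  obtain ⟨Mr, hMr⟩ := hP.bdd
  set A : Set ℝ := {v | ∃ t ∈ Ioc a (a + h), ∃ x ∈ Icc (0 : ℝ) 1, v = |c * (1 - x) + r t x|}
    with hA
  have hAne : A.Nonempty := ⟨_, a + h, ⟨hab, le_rfl⟩, 0, ⟨le_rfl, zero_le_one⟩, rfl⟩
  have hAb : BddAbove A := by
    refine ⟨|c| + Mr, ?_⟩
    rintro v ⟨t, ht, x, hx, rfl⟩
    exact (abs_add_le _ _).trans (add_le_add (abs_const_mul_one_sub_le _ hx) (hMr t ht x hx))
  set N := sSup A with hN
  have hleN : ∀ t ∈ Ioc a (a + h), ∀ x ∈ Icc (0 : ℝ) 1, |c * (1 - x) + r t x| ≤ N :=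
    fun t ht x hx => le_csSup hAb ⟨t, ht, x, hx, rfl⟩
  have hN0 : 0 ≤ N := (abs_nonneg _).trans
    (hleN (a + h) ⟨hab, le_rfl⟩ 0 ⟨le_rfl, zero_le_one⟩)
  have hlip : ∀ s : ℝ, |fluxT γ 1 s| ≤ 3 / 2 * |s| := by
    intro s
    have h1 := abs_fluxT_sub_le (M := 1) hγ1 zero_le_one s 0
    have h2 := (lipschitz_fluxT (M := 1) hγ1 zero_le_one).dist_le_mul s 0
    have h3 : fluxT γ 1 0 = 0 := by simp [fluxT]
    rw [Real.dist_eq, Real.dist_eq, h3, sub_zero, sub_zero, Real.one_rpow, mul_one,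
      Real.coe_toNNReal _ (by linarith)] at h2
    exact h2.trans (mul_le_mul_of_nonneg_right hγ2 (abs_nonneg _))
  have hfb : ∀ t ∈ Ioc a (a + h), ∀ x ∈ Icc (0 : ℝ) 1,
      |fluxT γ 1 (c * (1 - x) + r t x)| ≤ 3 / 2 * N := fun t ht x hx =>
    (hlip _).trans (mul_le_mul_of_nonneg_left (hleN t ht x hx) (by norm_num))
  have hNle : N ≤ S + N / 2 := by
    refine csSup_le hAne ?_
    rintro v ⟨t, ht, x, hx, rfl⟩
    have h1 := hmild (3 / 2 * N) (by positivity) hfb t ht x hx
    have h2 := abs_heat_le hm0 hr0b (t - a) x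
    have h3 := abs_const_mul_one_sub_le c hx
    have h4 : 2 * √h * (3 / 2 * N) ≤ N / 2 := by nlinarith
    have h5 : |r t x| ≤ |r t x - heat (t - a) (fun y => y1 y - c * (1 - y)) x| +
        |heat (t - a) (fun y => y1 y - c * (1 - y)) x| := by
      have := abs_add_le (r t x - heat (t - a) (fun y => y1 y - c * (1 - y)) x)
        (heat (t - a) (fun y => y1 y - c * (1 - y)) x)
      simpa using this
    calc |c * (1 - x) + r t x| ≤ |c * (1 - x)| + |r t x| := abs_add_le _ _
      _ ≤ |c| + (N / 2 + (Y + |c|)) := by linarith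
      _ = S + N / 2 := by rw [hS]; ring
  have hN2 : N ≤ 2 * S := by linarith
  have hbound : ∀ t ∈ Ioc a (a + h), ∀ x ∈ Icc (0 : ℝ) 1, |c * (1 - x) + r t x| ≤ 2 * S :=
    fun t ht x hx => (hleN t ht x hx).trans hN2
  have hcong : ∀ t ∈ Ioc a (a + h), ∀ x ∈ Icc (0 : ℝ) 1,
      fluxT γ 1 (c * (1 - x) + r t x) = flux γ (c * (1 - x) + r t x) := fun t ht x hx =>
    fluxT_eq hγ1 zero_le_one ((hbound t ht x hx).trans hs)
  have hflux : ∀ t ∈ Ioc a (a + h), ∀ x ∈ Icc (0 : ℝ) 1,
      |flux γ (c * (1 - x) + r t x)| ≤ (2 * S) ^ γ := by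
    intro t ht x hx
    rw [abs_flux hγ1]
    exact Real.rpow_le_rpow (abs_nonneg _) (hbound t ht x hx) (by linarith)
  have hP' := hP.congr_flux hcong
  refine ⟨r, g, hP', hbound, ?_, ?_⟩
  · refine hmild _ (by positivity) fun t ht x hx => ?_
    rw [hcong t ht x hx]
    exact hflux t ht x hx
  · intro t₁ ht₁
    have he := hP'.energy_one (continuous_flux hγ1) hBc.continuousOn ht₁.1 ht₁.2 le_rfl
    have h1 : 0 ≤ ∫ x in (0 : ℝ)..1, r (a + h) x ^ 2 :=
      intervalIntegral.integral_nonneg zero_le_one fun x _ => sq_nonneg _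
    have hrb : ∀ x ∈ Icc (0:ℝ) 1, |r t₁ x| ≤ 5 / 2 * S := by
      intro x hx
      have h2 := hbound t₁ ht₁ x hx
      have h3 := abs_const_mul_one_sub_le c hx
      have h4 : |r t₁ x| ≤ |c * (1 - x) + r t₁ x| + |c * (1 - x)| := by
        have := abs_sub (c * (1 - x) + r t₁ x) (c * (1 - x))
        simpa using this
      have h5 : |c| ≤ S / 2 := by rw [hS]; linarith
      linarith
    have h2 : ∫ x in (0 : ℝ)..1, r t₁ x ^ 2 ≤ (5 / 2 * S) ^ 2 := by
      have : ‖∫ x in (0 : ℝ)..1, r t₁ x ^ 2‖ ≤ (5 / 2 * S) ^ 2 * |(1:ℝ) - 0| := by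
        refine intervalIntegral.norm_integral_le_of_norm_le_const fun x hx => ?_
        rw [uIoc_of_le zero_le_one] at hx
        rw [Real.norm_eq_abs, abs_pow]
        exact pow_le_pow_left₀ (abs_nonneg _) (hrb x (Ioc_subset_Icc_self hx)) 2
      rw [sub_zero, abs_one, mul_one] at this
      exact (le_abs_self _).trans this
    have hpow : (2 * S) ^ γ ≤ 2 * S := by
      rcases eq_or_lt_of_le (show 0 ≤ 2 * S by positivity) with h0 | h0
      · rw [← h0, Real.zero_rpow (by linarith)]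
      · calc (2 * S) ^ γ ≤ (2 * S) ^ (1:ℝ) :=
            Real.rpow_le_rpow_of_exponent_ge h0 hs hγ1.le
          _ = 2 * S := Real.rpow_one _
    have h3 : ∫ t in t₁..(a + h), ∫ x in (0 : ℝ)..1, flux γ (c * (1 - x) + r t x) ^ 2 ≤
        (2 * S) ^ 2 * h := by
      have : ‖∫ t in t₁..(a + h), ∫ x in (0 : ℝ)..1, flux γ (c * (1 - x) + r t x) ^ 2‖ ≤
          (2 * S) ^ 2 * |a + h - t₁| := by
        refine intervalIntegral.norm_integral_le_of_norm_le_const fun t ht => ?_
        rw [uIoc_of_le ht₁.2] at ht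
        have ht' : t ∈ Ioc a (a + h) := ⟨ht₁.1.trans ht.1, ht.2⟩
        have : ‖∫ x in (0 : ℝ)..1, flux γ (c * (1 - x) + r t x) ^ 2‖ ≤
            (2 * S) ^ 2 * |(1:ℝ) - 0| := by
          refine intervalIntegral.norm_integral_le_of_norm_le_const fun x hx => ?_
          rw [uIoc_of_le zero_le_one] at hx
          rw [Real.norm_eq_abs, abs_pow]
          exact pow_le_pow_left₀ (abs_nonneg _)
            ((hflux t ht' x (Ioc_subset_Icc_self hx)).trans hpow) 2
        simpa using this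
      rw [abs_of_nonneg (by linarith [ht₁.2])] at this
      refine (le_abs_self _).trans (this.trans ?_)
      exact mul_le_mul_of_nonneg_left (by linarith [ht₁.1]) (by positivity)
    have h4 : (2 * S) ^ 2 * h ≤ (2 * S) ^ 2 * (1 / 36) :=
      mul_le_mul_of_nonneg_left hh' (by positivity)
    nlinarith [sq_nonneg S]

end Pool.Agent.Burg
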