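import Pool.Agent.Helper46_Burg.Duh

/-!
Module MILD: existence of the mild solution for a globally Lipschitz flux (Banach fixed point).
-/

set_option autoImplicit false

open MeasureTheory Set Filter Topology
open scoped Real ENNReal NNReal BoundedContinuousFunction

noncomputable section

namespace Pool.Agent.Burg

namespace MildAux

/-- The space-time domain. -/
abbrev Dom (T : ℝ) : Set (ℝ × ℝ) := Ioc 0 T ×ˢ Icc 0 1

open Classical in
/-- Extension by zero. -/
def ex {T : ℝ} (w : Dom T →ᵇ ℝ) (t x : ℝ) : ℝ :=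
  if h : (t, x) ∈ Dom T then w ⟨(t, x), h⟩ else 0

theorem ex_of_mem {T : ℝ} (w : Dom T →ᵇ ℝ) {t x : ℝ} (h : (t, x) ∈ Dom T) :
    ex w t x = w ⟨(t, x), h⟩ := by
  simp only [ex, dif_pos h]

theorem abs_ex_le {T : ℝ} (w : Dom T →ᵇ ℝ) (t x : ℝ) : |ex w t x| ≤ ‖w‖ := by
  by_cases h : (t, x) ∈ Dom T
  · rw [ex_of_mem w h]
    exact w.norm_coe_le_norm _
  · simp only [ex, dif_neg h, abs_zero]
    exact norm_nonneg _

theorem abs_ex_sub_le {T : ℝ} (w v : Dom T →ᵇ ℝ) (t x : ℝ) :
    |ex w t x - ex v t x| ≤ dist w v := by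
  by_cases h : (t, x) ∈ Dom T
  · rw [ex_of_mem w h, ex_of_mem v h, ← Real.dist_eq]
    exact BoundedContinuousFunction.dist_coe_le_dist _
  · simp only [ex, dif_neg h, sub_zero, abs_zero]
    exact dist_nonneg

theorem continuousOn_ex {T : ℝ} (w : Dom T →ᵇ ℝ) :
    ContinuousOn (Function.uncurry (ex w)) (Dom T) := by
  rw [continuousOn_iff_continuous_domRestrict]
  have : (Dom T).domRestrict (Function.uncurry (ex w)) = w := by
    funext p
    obtain ⟨⟨t, x⟩, hp⟩ := p
    exact ex_of_mem w hp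
  rw [this]
  exact w.continuous

/-- Weighted function. -/
def rr {T : ℝ} (lam : ℝ) (w : Dom T →ᵇ ℝ) (t x : ℝ) : ℝ := Real.exp (lam * t) * ex w t x

theorem adm_rr {T lam : ℝ} (hl : 0 ≤ lam) (w : Dom T →ᵇ ℝ) :
    Adm T (rr lam w) (Real.exp (lam * T) * ‖w‖) where
  cont := by
    have h : ContinuousOn (fun p : ℝ × ℝ => Real.exp (lam * p.1)) (Dom T) := by fun_prop
    exact h.mul (continuousOn_ex w)
  bd := by
    intro t ht x hx
    simp only [rr]
    rw [abs_mul, abs_of_pos (Real.exp_pos _)]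
    apply mul_le_mul _ (abs_ex_le w t x) (abs_nonneg _) (Real.exp_pos _).le
    exact Real.exp_le_exp.2 (mul_le_mul_of_nonneg_left ht.2 hl)

theorem adm_comp {f : ℝ → ℝ} {L : ℝ≥0} (hf : LipschitzWith L f) {T : ℝ}
    {B : ℝ → ℝ → ℝ} (hB : ContinuousOn (Function.uncurry B) (Icc 0 T ×ˢ Icc 0 1)) {b : ℝ}
    (hb : ∀ t ∈ Icc 0 T, ∀ x ∈ Icc (0 : ℝ) 1, |B t x| ≤ b) {r : ℝ → ℝ → ℝ} {M : ℝ}
    (hr : Adm T r M) : Adm T (fun s y => f (B s y + r s y)) (|f 0| + L * (b + M)) where
  cont := by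
    have h1 : ContinuousOn (Function.uncurry B) (Ioc 0 T ×ˢ Icc 0 1) :=
      hB.mono (prod_mono Ioc_subset_Icc_self (subset_refl _))
    exact hf.continuous.comp_continuousOn (h1.add hr.cont)
  bd := by
    intro t ht x hx
    have h1 := hf.dist_le_mul (B t x + r t x) 0
    rw [Real.dist_eq, Real.dist_eq, sub_zero] at h1
    have h2 : |B t x + r t x| ≤ b + M :=
      (abs_add_le _ _).trans (add_le_add (hb t ⟨ht.1.le, ht.2⟩ x hx) (hr.bd t ht x hx))
    have h3 : |f (B t x + r t x)| ≤ |f 0| + |f (B t x + r t x) - f 0| := by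
      have := abs_add_le (f 0) (f (B t x + r t x) - f 0)
      simpa using this
    have h4 : (L : ℝ) * |B t x + r t x| ≤ L * (b + M) :=
      mul_le_mul_of_nonneg_left h2 L.coe_nonneg
    show |f (B t x + r t x)| ≤ _
    linarith

theorem intervalIntegrable_kernel (t : ℝ) :
    IntervalIntegrable (fun s : ℝ => (t - s) ^ (-(1 / 2) : ℝ)) volume 0 t := by
  have h : IntervalIntegrable (fun x : ℝ => x ^ (-(1 / 2) : ℝ)) volume 0 t :=
    intervalIntegral.intervalIntegrable_rpow' (by norm_num)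
  have h2 := h.comp_sub_left t
  simp only [sub_zero, sub_self] at h2
  exact h2.symm

theorem integral_kernel {t : ℝ} (ht : 0 < t) :
    ∫ s in (0 : ℝ)..t, (t - s) ^ (-(1 / 2) : ℝ) = 2 * √t := by
  have := intervalIntegral.integral_comp_sub_left (fun u : ℝ => u ^ (-(1 / 2) : ℝ)) (a := 0)
    (b := t) t
  rw [this, sub_self, sub_zero, integral_rpow (Or.inl (by norm_num)), Real.sqrt_eq_rpow]
  norm_num
  ring

theorem abs_duh_le_const {T : ℝ} {F : ℝ → ℝ → ℝ} {M : ℝ} (hF : Adm T F M) {t : ℝ}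
    (ht : t ∈ Ioc 0 T) (x : ℝ) : |duh F t x| ≤ M * (2 * √t) := by
  have h := abs_duh_le hF ht (m := fun _ => M) (κ := fun _ => 0)
    (fun s hs x hx => by rw [sub_zero]; exact hF.bd s ⟨hs.1, hs.2.le.trans ht.2⟩ x hx)
    ((intervalIntegrable_kernel t).mul_const M) x
  rw [intervalIntegral.integral_mul_const, integral_kernel ht.1] at h
  linarith

/-- The exponentially weighted kernel. -/
theorem integral_exp_kernel {lam t : ℝ} (hl : 0 < lam) (ht : 0 < t) :
    ∫ s in (0 : ℝ)..t, (t - s) ^ (-(1 / 2) : ℝ) * Real.exp (-(lam * (t - s))) ≤ √(π / lam) := by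
  have h1 := intervalIntegral.integral_comp_sub_left
    (fun u : ℝ => u ^ (-(1 / 2) : ℝ) * Real.exp (-(lam * u))) (a := 0) (b := t) t
  rw [h1, sub_self, sub_zero]
  have h2 : ∫ u in Ioi (0 : ℝ), u ^ ((1 / 2 : ℝ) - 1) * Real.exp (-(lam * u)) =
      (1 / lam) ^ (1 / 2 : ℝ) * Real.Gamma (1 / 2) :=
    Real.integral_rpow_mul_exp_neg_mul_Ioi (by norm_num) hl
  have h3 : IntegrableOn (fun u : ℝ => u ^ ((1 / 2 : ℝ) - 1) * Real.exp (-(lam * u))) (Ioi 0) := by
    have := integrableOn_rpow_mul_exp_neg_mul_rpow (s := (1 / 2 : ℝ) - 1) (p := 1) (b := lam)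
      (by norm_num) (by norm_num) hl
    simpa using this
  rw [intervalIntegral.integral_of_le ht.le]
  have e : (-(1 / 2) : ℝ) = (1 / 2 : ℝ) - 1 := by norm_num
  rw [e]
  calc ∫ u in Ioc (0 : ℝ) t, u ^ ((1 / 2 : ℝ) - 1) * Real.exp (-(lam * u))
      ≤ ∫ u in Ioi (0 : ℝ), u ^ ((1 / 2 : ℝ) - 1) * Real.exp (-(lam * u)) := by
        apply setIntegral_mono_set h3
        · refine (ae_restrict_iff' measurableSet_Ioi).2
            (Filter.Eventually.of_forall fun u hu => ?_)
          have : (0 : ℝ) < u := hu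
          show 0 ≤ u ^ ((1 / 2 : ℝ) - 1) * Real.exp (-(lam * u))
          positivity
        · exact Filter.Eventually.of_forall Ioc_subset_Ioi_self
    _ = √(π / lam) := by
        rw [h2, Real.Gamma_one_half_eq, Real.sqrt_div Real.pi_pos.le, ← Real.sqrt_eq_rpow,
          Real.sqrt_div (by norm_num), Real.sqrt_one]
        ring

end MildAux

open MildAux in
theorem exists_mild {f : ℝ → ℝ} {L : ℝ≥0} (hf : LipschitzWith L f) {T : ℝ} (hT : 0 < T)
    {r0 : ℝ → ℝ} (hr0 : Measurable r0) {R : ℝ} (hR : ∀ x ∈ Icc (0 : ℝ) 1, |r0 x| ≤ R)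
    {B : ℝ → ℝ → ℝ} (hB : ContinuousOn (Function.uncurry B) (Icc 0 T ×ˢ Icc 0 1)) :
    ∃ r : ℝ → ℝ → ℝ, (∃ M, Adm T r M) ∧
      ∀ t ∈ Ioc 0 T, ∀ x ∈ Icc (0 : ℝ) 1,
        r t x = heat t r0 x - duh (fun s y => f (B s y + r s y)) t x := by
  -- bound for `B`
  obtain ⟨b, hb⟩ : ∃ b : ℝ, ∀ t ∈ Icc 0 T, ∀ x ∈ Icc (0 : ℝ) 1, |B t x| ≤ b := by
    obtain ⟨b, hb⟩ := (isCompact_Icc.prod isCompact_Icc).exists_bound_of_continuousOn hB
    exact ⟨b, fun t ht x hx => hb (t, x) ⟨ht, hx⟩⟩
  -- choice of the weight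
  obtain ⟨lam, hl, hlam⟩ : ∃ lam : ℝ, 0 < lam ∧ L * √(π / lam) ≤ 1 / 2 := by
    refine ⟨π * (2 * (L + 1)) ^ 2, by positivity, ?_⟩
    have h1 : π / (π * (2 * ((L : ℝ) + 1)) ^ 2) = ((2 * ((L : ℝ) + 1))⁻¹) ^ 2 := by
      have := Real.pi_pos.ne'
      field_simp
    rw [h1, Real.sqrt_sq (by positivity)]
    have : 0 ≤ (L : ℝ) := L.coe_nonneg
    rw [← div_eq_mul_inv, div_le_iff₀ (by positivity)]
    linarith
  set FF : (Dom T →ᵇ ℝ) → ℝ → ℝ → ℝ := fun w s y => f (B s y + rr lam w s y) with hFF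
  have hadm : ∀ w : Dom T →ᵇ ℝ, Adm T (FF w) (|f 0| + L * (b + Real.exp (lam * T) * ‖w‖)) :=
    fun w => adm_comp hf hB hb (adm_rr hl.le w)
  have hRbd : 0 ≤ R := (abs_nonneg _).trans (hR 0 ⟨le_refl _, by norm_num⟩)
  -- the map
  let Φ : (Dom T →ᵇ ℝ) → (Dom T →ᵇ ℝ) := fun w =>
    BoundedContinuousFunction.ofNormedAddCommGroup
      (fun p : Dom T => Real.exp (-(lam * p.1.1)) *
        (heat p.1.1 r0 p.1.2 - duh (FF w) p.1.1 p.1.2))
      (by
        have h1 : ContinuousOn (Function.uncurry fun t x => heat t r0 x) (Dom T) :=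
          (continuousOn_heat hr0 hR).mono (prod_mono (fun t ht => ht.1) (subset_univ _))
        have h2 : ContinuousOn (Function.uncurry (duh (FF w))) (Dom T) :=
          (continuousOn_duh (hadm w)).mono (prod_mono (subset_refl _) (subset_univ _))
        have h3 : ContinuousOn (fun p : ℝ × ℝ => Real.exp (-(lam * p.1))) (Dom T) := by
          fun_prop
        exact (h3.mul (h1.sub h2)).domRestrict)
      (R + (|f 0| + L * (b + Real.exp (lam * T) * ‖w‖)) * (2 * √T))
      (by
        rintro ⟨⟨t, x⟩, ht, hx⟩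
        simp only at ht hx
        have hN0 : 0 ≤ |f 0| + L * (b + Real.exp (lam * T) * ‖w‖) :=
          (abs_nonneg _).trans ((hadm w).bd t ht x hx)
        have h1 : |heat t r0 x| ≤ R := abs_heat_le hr0 hR t x
        have h2 := abs_duh_le_const (hadm w) ht x
        have h3 : √t ≤ √T := Real.sqrt_le_sqrt ht.2
        show ‖Real.exp (-(lam * t)) * (heat t r0 x - duh (FF w) t x)‖ ≤ _
        rw [norm_mul, Real.norm_eq_abs, Real.norm_eq_abs, abs_of_pos (Real.exp_pos _)]
        have h4 : Real.exp (-(lam * t)) ≤ 1 := by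
          apply Real.exp_le_one_iff.2
          have := ht.1
          have : 0 < lam * t := by positivity
          linarith
        have h5 : |heat t r0 x - duh (FF w) t x| ≤
            R + (|f 0| + L * (b + Real.exp (lam * T) * ‖w‖)) * (2 * √T) := by
          refine (abs_sub _ _).trans (add_le_add h1 (h2.trans ?_))
          exact mul_le_mul_of_nonneg_left (by linarith) hN0
        calc Real.exp (-(lam * t)) * |heat t r0 x - duh (FF w) t x|
            ≤ 1 * |heat t r0 x - duh (FF w) t x| :=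
              mul_le_mul_of_nonneg_right h4 (abs_nonneg _)
          _ ≤ _ := by rw [one_mul]; exact h5)
  have hΦ : ∀ w (t x : ℝ) (h : (t, x) ∈ Dom T), Φ w ⟨(t, x), h⟩ =
      Real.exp (-(lam * t)) * (heat t r0 x - duh (FF w) t x) := fun w t x h => rfl
  have hcontr : ∀ w v, dist (Φ w) (Φ v) ≤ (1 / 2) * dist w v := by
    intro w v
    rw [BoundedContinuousFunction.dist_le (by positivity)]
    rintro ⟨⟨t, x⟩, hp⟩
    have ht : t ∈ Ioc 0 T := hp.1
    have ht0 : 0 < t := ht.1
    rw [hΦ, hΦ, Real.dist_eq, ← mul_sub]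
    have e1 : heat t r0 x - duh (FF w) t x - (heat t r0 x - duh (FF v) t x) =
        -(duh (FF w) t x - duh (FF v) t x) := by ring
    rw [e1, ← duh_sub (hadm w) (hadm v) ht x, abs_mul, abs_neg, abs_of_pos (Real.exp_pos _)]
    have hadm2 : Adm T (fun s y => FF w s y - FF v s y)
        ((|f 0| + L * (b + Real.exp (lam * T) * ‖w‖)) +
          (|f 0| + L * (b + Real.exp (lam * T) * ‖v‖))) := by
      refine ⟨(hadm w).cont.sub (hadm v).cont, fun t ht x hx => ?_⟩
      exact (abs_sub _ _).trans (add_le_add ((hadm w).bd t ht x hx) ((hadm v).bd t ht x hx))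
    have hker : IntervalIntegrable (fun s : ℝ => (t - s) ^ (-(1 / 2) : ℝ) *
        (Real.exp (lam * s) * (L * dist w v))) volume 0 t := by
      apply (intervalIntegrable_kernel t).mul_continuousOn
      fun_prop
    have h2 := abs_duh_le hadm2 ht (m := fun s => Real.exp (lam * s) * (L * dist w v))
      (κ := fun _ => 0) (by
        intro s hs y hy
        rw [sub_zero]
        have h3 := hf.dist_le_mul (B s y + rr lam w s y) (B s y + rr lam v s y)
        rw [Real.dist_eq, Real.dist_eq] at h3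
        have e2 : B s y + rr lam w s y - (B s y + rr lam v s y) =
            Real.exp (lam * s) * (ex w s y - ex v s y) := by
          simp only [rr]; ring
        rw [e2, abs_mul, abs_of_pos (Real.exp_pos _)] at h3
        have h4 := abs_ex_sub_le w v s y
        have h5 : (L : ℝ) * (Real.exp (lam * s) * |ex w s y - ex v s y|) ≤
            L * (Real.exp (lam * s) * dist w v) := by
          apply mul_le_mul_of_nonneg_left _ L.coe_nonneg
          exact mul_le_mul_of_nonneg_left h4 (Real.exp_pos _).le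
        show |f (B s y + rr lam w s y) - f (B s y + rr lam v s y)| ≤
          Real.exp (lam * s) * (L * dist w v)
        linarith) hker x
    have h6 : Real.exp (-(lam * t)) * ∫ s in (0 : ℝ)..t, (t - s) ^ (-(1 / 2) : ℝ) *
        (Real.exp (lam * s) * (L * dist w v)) =
        (∫ s in (0 : ℝ)..t, (t - s) ^ (-(1 / 2) : ℝ) * Real.exp (-(lam * (t - s)))) *
          (L * dist w v) := by
      rw [← intervalIntegral.integral_const_mul, ← intervalIntegral.integral_mul_const]
      congr 1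
      funext s
      have : Real.exp (-(lam * (t - s))) = Real.exp (-(lam * t)) * Real.exp (lam * s) := by
        rw [← Real.exp_add]; congr 1; ring
      rw [this]; ring
    calc Real.exp (-(lam * t)) * |duh (fun s y => FF w s y - FF v s y) t x|
        ≤ Real.exp (-(lam * t)) * ∫ s in (0 : ℝ)..t, (t - s) ^ (-(1 / 2) : ℝ) *
            (Real.exp (lam * s) * (L * dist w v)) :=
          mul_le_mul_of_nonneg_left h2 (Real.exp_pos _).le
      _ = (∫ s in (0 : ℝ)..t, (t - s) ^ (-(1 / 2) : ℝ) * Real.exp (-(lam * (t - s)))) *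
          (L * dist w v) := h6
      _ ≤ √(π / lam) * (L * dist w v) :=
          mul_le_mul_of_nonneg_right (integral_exp_kernel hl ht0) (by positivity)
      _ = (L * √(π / lam)) * dist w v := by ring
      _ ≤ (1 / 2) * dist w v := mul_le_mul_of_nonneg_right hlam dist_nonneg
  have hC : ContractingWith (1 / 2 : ℝ≥0) Φ := by
    refine ⟨by
      rw [← NNReal.coe_lt_coe]; norm_num, LipschitzWith.of_dist_le_mul fun w v => ?_⟩
    have : ((1 / 2 : ℝ≥0) : ℝ) = 1 / 2 := by norm_num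
    rw [this]
    exact hcontr w v
  set w := ContractingWith.fixedPoint Φ hC with hw
  have hfix : Φ w = w := hC.fixedPoint_isFixedPt
  refine ⟨rr lam w, ⟨_, adm_rr hl.le w⟩, fun t ht x hx => ?_⟩
  have hmem : (t, x) ∈ Dom T := ⟨ht, hx⟩
  have h1 : ex w t x = Real.exp (-(lam * t)) * (heat t r0 x - duh (FF w) t x) := by
    rw [ex_of_mem w hmem]
    conv_lhs => rw [← hfix]
    exact hΦ w t x hmem
  show Real.exp (lam * t) * ex w t x = _
  rw [h1, ← mul_assoc, ← Real.exp_add]
  have : lam * t + -(lam * t) = 0 := by ring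
  rw [this, Real.exp_zero, one_mul]

end Pool.Agent.Burg
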