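import Pool.Agent.Helper46_Burg.Sol
import Pool.Agent.Helper46_Burg.H14

/-!
Module PHASE2: the infinite iteration of the control blocks, from the statement of `block`
(taken as a hypothesis). Proofs by helper5.
-/

set_option autoImplicit false

open MeasureTheory Set Filter Topology
open scoped Real ENNReal NNReal

noncomputable section

namespace Pool.Agent.Burg

/-- The conclusion of `block` for one `m`, `a`, `y1`. -/
def BlockConcl (γ : ℝ) (m : ℕ) (a : ℝ) (y1 : ℝ → ℝ) (v : ℝ → ℝ) (y g : ℝ → ℝ → ℝ) : Prop :=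
  Sol (flux γ) a (a + (1 / (m : ℝ) ^ 2 + 1 / (m : ℝ) ^ 2)) (fun _ => 0) v y g ∧
  (∀ x ∈ Icc (0 : ℝ) 1, y a x = y1 x) ∧
  (∀ t ∈ Icc a (a + (1 / (m : ℝ) ^ 2 + 1 / (m : ℝ) ^ 2)), ∀ x ∈ Icc (0 : ℝ) 1,
    |y t x| ≤ Real.exp (-(m : ℝ) ^ 4)) ∧
  (∀ x ∈ Icc (0 : ℝ) 1,
    |y (a + (1 / (m : ℝ) ^ 2 + 1 / (m : ℝ) ^ 2)) x| ≤ Real.exp (-((m : ℝ) + 1) ^ 5)) ∧
  BVb v (Real.exp (-(m : ℝ) ^ 4)) ∧
  (∀ t, t ∉ Ioc a (a + (1 / (m : ℝ) ^ 2 + 1 / (m : ℝ) ^ 2)) → v t = 0) ∧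
  ∫⁻ t in Ioc a (a + (1 / (m : ℝ) ^ 2 + 1 / (m : ℝ) ^ 2)), ∫⁻ x in Icc (0 : ℝ) 1,
    ENNReal.ofReal (g t x ^ 2) ≤ ENNReal.ofReal (Real.exp (-(m : ℝ) ^ 4))

theorem sum_inv_sq_le {m₀ : ℕ} (hm : 2 ≤ m₀) (k : ℕ) :
    ∑ i ∈ Finset.range k, (1 / ((m₀ + i : ℕ) : ℝ) ^ 2 + 1 / ((m₀ + i : ℕ) : ℝ) ^ 2) ≤
      2 / ((m₀ : ℝ) - 1) - 2 / ((m₀ + k : ℕ) - 1 : ℝ) := by
  have hm' : (2 : ℝ) ≤ m₀ := by exact_mod_cast hm
  induction k with
  | zero => simp
  | succ k ih =>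
    rw [Finset.sum_range_succ]
    have hx : (2 : ℝ) ≤ ((m₀ + k : ℕ) : ℝ) := by
      push_cast
      linarith [k.cast_nonneg (α := ℝ)]
    have e : ((m₀ + (k + 1) : ℕ) : ℝ) = ((m₀ + k : ℕ) : ℝ) + 1 := by push_cast; ring
    rw [e]
    set x := ((m₀ + k : ℕ) : ℝ) with hxd
    have h1 : 1 / x ^ 2 + 1 / x ^ 2 ≤ 2 / (x - 1) - 2 / (x + 1 - 1) := by
      have hx1 : 0 < x - 1 := by linarith
      have hx0 : 0 < x := by linarith
      have e2 : 2 / (x - 1) - 2 / (x + 1 - 1) - (1 / x ^ 2 + 1 / x ^ 2) =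
          2 / (x ^ 2 * (x - 1)) := by
        have : x + 1 - 1 = x := by ring
        rw [this]
        field_simp
        ring
      have : 0 ≤ 2 / (x ^ 2 * (x - 1)) := by positivity
      linarith
    linarith

/-- Local null controllability with the boundary control only, from the statement of `block`. -/
theorem phase2_of_block {γ : ℝ} (hγ1 : 1 < γ)
    (hblock : ∃ m₁ : ℕ, 1 ≤ m₁ ∧ ∀ m : ℕ, m₁ ≤ m → ∀ (a : ℝ) (y1 : ℝ → ℝ), Measurable y1 →
      (∀ x ∈ Icc (0 : ℝ) 1, |y1 x| ≤ Real.exp (-(m : ℝ) ^ 5)) →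
      ∃ (v : ℝ → ℝ) (y g : ℝ → ℝ → ℝ), BlockConcl γ m a y1 v y g)
    {T : ℝ} (hT : 0 < T) :
    ∃ ε : ℝ, 0 < ε ∧ ∀ (a c : ℝ) (y1 : ℝ → ℝ), a + T ≤ c → Measurable y1 →
      (∀ x ∈ Icc (0 : ℝ) 1, |y1 x| ≤ ε) →
      ∃ (v : ℝ → ℝ) (y g : ℝ → ℝ → ℝ),
        Sol (flux γ) a c (fun _ => 0) v y g ∧
        (∀ x ∈ Icc (0 : ℝ) 1, y a x = y1 x) ∧
        (∀ x ∈ Icc (0 : ℝ) 1, y c x = 0) ∧
        (∃ W, BVb v W) ∧ (∀ t, t ≤ a → v t = 0) := by
  obtain ⟨m₁, -, hb⟩ := hblock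
  choose! V Y G hVYG using hb
  obtain ⟨n, hn⟩ := exists_nat_ge (2 / T + 1)
  set m₀ := max m₁ (max 2 n) with hm₀
  have hm1 : m₁ ≤ m₀ := le_max_left _ _
  have hm2 : 2 ≤ m₀ := (le_max_left 2 n).trans (le_max_right _ _)
  have hm3 : (n : ℝ) ≤ m₀ := by exact_mod_cast (le_max_right 2 n).trans (le_max_right m₁ _)
  have hm2' : (2 : ℝ) ≤ m₀ := by exact_mod_cast hm2
  have hTm : 2 / ((m₀ : ℝ) - 1) ≤ T := by
    rw [div_le_iff₀ (by linarith)]
    have : 2 / T ≤ m₀ - 1 := by linarith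
    rw [div_le_iff₀ hT] at this
    linarith
  refine ⟨Real.exp (-(m₀ : ℝ) ^ 5), Real.exp_pos _, ?_⟩
  intro a c y1 hac hy1 hy1b
  set d : ℕ → ℝ := fun i => 1 / ((m₀ + i : ℕ) : ℝ) ^ 2 + 1 / ((m₀ + i : ℕ) : ℝ) ^ 2 with hd
  have hdpos : ∀ i, 0 < d i := by
    intro i
    have : (0 : ℝ) < ((m₀ + i : ℕ) : ℝ) := by
      push_cast
      linarith [i.cast_nonneg (α := ℝ)]
    rw [hd]
    positivity
  set s : ℕ → ℝ := fun k => a + ∑ i ∈ Finset.range k, d i with hs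
  have hs0 : s 0 = a := by simp [hs]
  have hssucc : ∀ k, s (k + 1) = s k + d k := by
    intro k
    simp only [hs, Finset.sum_range_succ]
    ring
  have hsm : StrictMono s := strictMono_nat_of_lt_succ fun k => by
    rw [hssucc]
    linarith [hdpos k]
  have hsle : ∀ k, s k ≤ a + T := by
    intro k
    have h1 := sum_inv_sq_le hm2 k
    have h2 : 0 ≤ 2 / (((m₀ + k : ℕ) : ℝ) - 1) := by
      apply div_nonneg (by norm_num)
      push_cast
      linarith [k.cast_nonneg (α := ℝ)]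
    have h3 : s k = a + ∑ i ∈ Finset.range k,
        (1 / ((m₀ + i : ℕ) : ℝ) ^ 2 + 1 / ((m₀ + i : ℕ) : ℝ) ^ 2) := rfl
    linarith
  -- the data
  let z : ℕ → ℝ → ℝ := fun k => Nat.rec (motive := fun _ => ℝ → ℝ) y1
    (fun k w => Y (m₀ + k) (s k) w (s (k + 1))) k
  have hz0 : z 0 = y1 := rfl
  have hzs : ∀ k, z (k + 1) = Y (m₀ + k) (s k) (z k) (s (k + 1)) := fun k => rfl
  have hmk : ∀ k, m₁ ≤ m₀ + k := fun k => hm1.trans (Nat.le_add_right _ _)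
  have hz : ∀ k, Measurable (z k) ∧
      ∀ x ∈ Icc (0 : ℝ) 1, |z k x| ≤ Real.exp (-((m₀ + k : ℕ) : ℝ) ^ 5) := by
    intro k
    induction k with
    | zero => exact ⟨hy1, fun x hx => by rw [hz0, Nat.add_zero]; exact hy1b x hx⟩
    | succ k ih =>
      have h := hVYG (m₀ + k) (hmk k) (s k) (z k) ih.1 ih.2
      constructor
      · rw [hzs]
        exact h.1.measY.comp measurable_prodMk_left
      · intro x hx
        rw [hzs, hssucc]
        have h4 := h.2.2.2.1 x hx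
        have e : ((m₀ + (k + 1) : ℕ) : ℝ) = ((m₀ + k : ℕ) : ℝ) + 1 := by push_cast; ring
        rw [e]
        exact h4
  have hC : ∀ k, BlockConcl γ (m₀ + k) (s k) (z k) (V (m₀ + k) (s k) (z k))
      (Y (m₀ + k) (s k) (z k)) (G (m₀ + k) (s k) (z k)) := fun k =>
    hVYG (m₀ + k) (hmk k) (s k) (z k) (hz k).1 (hz k).2
  set w : ℕ → ℝ → ℝ := fun k => V (m₀ + k) (s k) (z k) with hw
  have hend : ∀ k, s k + (1 / ((m₀ + k : ℕ) : ℝ) ^ 2 + 1 / ((m₀ + k : ℕ) : ℝ) ^ 2) =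
      s (k + 1) := fun k => (hssucc k).symm
  have hw0 : ∀ k t, t ∉ Ioc (s k) (s (k + 1)) → w k t = 0 := by
    intro k t ht
    have h := (hC k).2.2.2.2.2.1 t
    rw [hend k] at h
    exact h ht
  have huniq : ∀ {i j t}, t ∈ Ioc (s i) (s (i + 1)) → t ∈ Ioc (s j) (s (j + 1)) → i = j := by
    intro i j t hi hj
    rcases lt_trichotomy i j with h | h | h
    · exact absurd (hsm.monotone (Nat.succ_le_of_lt h)) (not_le.2 (lt_of_lt_of_le hj.1 hi.2))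
    · exact h
    · exact absurd (hsm.monotone (Nat.succ_le_of_lt h)) (not_le.2 (lt_of_lt_of_le hi.1 hj.2))
  have hsum : ∀ t, Summable fun k => w k t := by
    intro t
    apply summable_of_hasFiniteSupport
    refine Set.Subsingleton.finite fun i hi j hj => ?_
    have hi' : t ∈ Ioc (s i) (s (i + 1)) := by
      by_contra h
      exact hi (hw0 i t h)
    have hj' : t ∈ Ioc (s j) (s (j + 1)) := by
      by_contra h
      exact hj (hw0 j t h)
    exact huniq hi' hj'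
  have hW : Summable fun k : ℕ => Real.exp (-((m₀ + k : ℕ) : ℝ) ^ 4) := by
    refine Summable.of_nonneg_of_le (fun k => (Real.exp_pos _).le) (fun k => ?_)
      (Real.summable_exp_neg_nat)
    apply Real.exp_le_exp.2
    have h1 : (k : ℝ) ≤ ((m₀ + k : ℕ) : ℝ) := by push_cast; linarith
    have h2 : (1 : ℝ) ≤ ((m₀ + k : ℕ) : ℝ) := by
      push_cast
      linarith [k.cast_nonneg (α := ℝ)]
    have h3 : ((m₀ + k : ℕ) : ℝ) ≤ ((m₀ + k : ℕ) : ℝ) ^ 4 := le_self_pow₀ h2 (by norm_num)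
    linarith
  set v : ℝ → ℝ := fun t => ∑' k, w k t with hv
  have hvk : ∀ k, ∀ t ∈ Ioc (s k) (s (k + 1)), v t = w k t := by
    intro k t ht
    rw [hv]
    exact tsum_eq_single k fun j hj => hw0 j t fun h => hj (huniq h ht)
  have hv0 : ∀ t, (∀ k, t ∉ Ioc (s k) (s (k + 1))) → v t = 0 := by
    intro t ht
    rw [hv]
    simp only
    rw [tsum_congr (fun k => hw0 k t (ht k))]
    exact tsum_zero
  have hBV : BVb v (∑' k : ℕ, Real.exp (-((m₀ + k : ℕ) : ℝ) ^ 4)) :=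
    BVb.tsum (fun k => (hC k).2.2.2.2.1) hW hsum
  -- the limit of the times
  have hbdd : BddAbove (Set.range s) := ⟨a + T, by rintro _ ⟨k, rfl⟩; exact hsle k⟩
  have hlim : Tendsto s atTop (𝓝 (⨆ k, s k)) := tendsto_atTop_ciSup hsm.monotone hbdd
  set b := ⨆ k, s k with hbdef
  have hbT : b ≤ a + T := ciSup_le hsle
  have hsb : ∀ k, s k < b := fun k =>
    lt_of_lt_of_le (hsm (Nat.lt_succ_self k)) (le_ciSup hbdd (k + 1))
  obtain ⟨y', g', h1, h2, h3⟩ := Sol.countable (f := flux γ) (continuous_flux hγ1) (flux_zero γ)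
    hsm hlim (hbT.trans hac) (v := v)
    (y := fun k => Y (m₀ + k) (s k) (z k)) (g := fun k => G (m₀ + k) (s k) (z k))
    (fun k => by
      have h := (hC k).1
      rw [hend k] at h
      exact h.congr (fun _ _ => rfl) fun t ht => (hvk k t ht).symm)
    (fun k x hx => by
      have h := (hC (k + 1)).2.1 x hx
      rw [hzs] at h
      exact h.symm)
    (fun t ht => hv0 t fun k hk => absurd ht (not_le.2 (lt_of_le_of_lt hk.2 (hsb (k + 1)))))
    (M := fun k : ℕ => Real.exp (-((m₀ + k : ℕ) : ℝ) ^ 4))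
    (G := fun k : ℕ => Real.exp (-((m₀ + k : ℕ) : ℝ) ^ 4))
    (fun k t ht x hx => by
      have h := (hC k).2.2.1
      rw [hend k] at h
      exact h t ht x hx)
    hW.tendsto_atTop_zero
    (fun k => by
      have h := (hC k).2.2.2.2.2.2
      rw [hend k] at h
      exact h)
    (fun k => (Real.exp_pos _).le) hW
  rw [hs0] at h1 h2
  refine ⟨v, y', g', h1, fun x hx => ?_, fun x hx => h3 c (hbT.trans hac) x hx, ⟨_, hBV⟩,
    fun t ht => hv0 t fun k hk => ?_⟩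
  · rw [h2 x hx]
    have h := (hC 0).2.1 x hx
    rw [hs0] at h
    exact h
  · have := hsm.monotone (Nat.zero_le k)
    rw [hs0] at this
    linarith [hk.1]

end Pool.Agent.Burg
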