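import Mathlib

/-!
The notions used in the statement of the result on
`y_t + γ |y|^(γ-1) y_x - y_xx = u(t)`, `y(t,0) = v(t)`, `y(t,1) = 0`.
-/

set_option autoImplicit false

open MeasureTheory Set Filter Topology
open scoped Real ENNReal

noncomputable section

namespace Pool.Agent.Burg

/-- The fractional Sobolev space `H^{1/4}(0,T)` (square integrable functions with finite
Gagliardo seminorm). -/
def MemH14 (T : ℝ) (v : ℝ → ℝ) : Prop :=
  MemLp v 2 (volume.restrict (Ioo 0 T)) ∧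
    ∫⁻ t in Ioo 0 T, ∫⁻ s in Ioo 0 T,
      ENNReal.ofReal ((v t - v s) ^ 2 / |t - s| ^ (3 / 2 : ℝ)) < ⊤

/-- `y` is the weak solution on `(0,T) × (0,1)` of
`y_t + γ |y|^(γ-1) y_x - y_xx = u(t)`, `y(t,0) = v(t)`, `y(t,1) = 0`, `y(0,·) = y0`,
in the class `C([0,T]; L²(0,1)) ∩ L²(0,T; H¹(0,1)) ∩ L^∞((0,T) × (0,1))`.
In `equation`, `g` is the space derivative `y_x`: for almost every `t` the slice `y(t,·)` is the
primitive of `g(t,·) ∈ L²` with the boundary values `v(t)` at `0` and `0` at `1`, and the equation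
is tested with all `φ ∈ C¹` vanishing at `0` and `1`. -/
structure IsSolution (γ T : ℝ) (y0 u v : ℝ → ℝ) (y : ℝ → ℝ → ℝ) : Prop where
  bounded : MemLp (Function.uncurry y) ⊤
    ((volume.restrict (Ioo 0 T)).prod (volume.restrict (Ioo 0 1)))
  slices : ∀ t ∈ Icc 0 T, MemLp (y t) 2 (volume.restrict (Ioo 0 1))
  continuous : ∀ t₀ ∈ Icc 0 T,
    Tendsto (fun t => eLpNorm (fun x => y t x - y t₀ x) 2 (volume.restrict (Ioo 0 1)))
      (𝓝[Icc 0 T] t₀) (𝓝 0)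
  initial : y 0 =ᵐ[volume.restrict (Ioo 0 1)] y0
  equation : ∃ g : ℝ → ℝ → ℝ,
    MemLp (Function.uncurry g) 2
      ((volume.restrict (Ioo 0 T)).prod (volume.restrict (Ioo 0 1))) ∧
    (∀ᵐ t ∂(volume.restrict (Ioo 0 T)),
      (∀ x ∈ Icc (0 : ℝ) 1, y t x = v t + ∫ ξ in (0 : ℝ)..x, g t ξ) ∧ y t 1 = 0) ∧
    ∀ φ : ℝ → ℝ, ContDiff ℝ 1 φ → φ 0 = 0 → φ 1 = 0 →
      ∀ t ∈ Icc 0 T,
        (∫ x in (0 : ℝ)..1, y t x * φ x) - (∫ x in (0 : ℝ)..1, y0 x * φ x) +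
          (∫ s in (0 : ℝ)..t, ∫ x in (0 : ℝ)..1,
            (γ * |y s x| ^ (γ - 1) * g s x * φ x + g s x * deriv φ x)) =
          ∫ s in (0 : ℝ)..t, u s * ∫ x in (0 : ℝ)..1, φ x

end Pool.Agent.Burg
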