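import Pool.Agent.Helper46_Burg.UniqC

/-!
Module UNIQ: uniqueness of the weak solution.
-/

set_option autoImplicit false

open MeasureTheory Set Filter Topology
open scoped Real ENNReal

noncomputable section

namespace Pool.Agent.Burg

theorem flux_lip {γ M : ℝ} (hγ : 1 < γ) {a b : ℝ} (ha : |a| ≤ M) (hb : |b| ≤ M) :
    |flux γ a - flux γ b| ≤ γ * M ^ (γ - 1) * |a - b| := by
  have h := (convex_Icc (-M) M).norm_image_sub_le_of_norm_hasDerivWithin_le
      (f := flux γ) (f' := fun s => γ * |s| ^ (γ - 1)) (C := γ * M ^ (γ - 1))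
      (fun s _ => (hasDerivAt_flux hγ s).hasDerivWithinAt) (fun s hs => by
        rw [Real.norm_eq_abs, abs_of_nonneg (by positivity)]
        have : |s| ≤ M := abs_le.2 hs
        gcongr)
      (abs_le.1 hb) (abs_le.1 ha)
  simpa [Real.norm_eq_abs] using h

/-- Cauchy-Schwarz in `L²(0,1)`. -/
theorem cs_L2 {a b : ℝ → ℝ} (ha : MemLp a 2 μ₁) (hb : MemLp b 2 μ₁) :
    ∫ x in (0 : ℝ)..1, |a x| * |b x| ≤ ‖ha.toLp a‖ * ‖hb.toLp b‖ := by
  have ha' : MemLp (fun x => ‖a x‖) 2 μ₁ := ha.norm
  have hb' : MemLp (fun x => ‖b x‖) 2 μ₁ := hb.norm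
  have h1 := real_inner_le_norm (ha'.toLp _) (hb'.toLp _)
  have h2 : ‖ha'.toLp _‖ = ‖ha.toLp a‖ := by
    rw [Lp.norm_toLp, Lp.norm_toLp, eLpNorm_norm]
  have h3 : ‖hb'.toLp _‖ = ‖hb.toLp b‖ := by
    rw [Lp.norm_toLp, Lp.norm_toLp, eLpNorm_norm]
  rw [h2, h3] at h1
  refine le_trans (le_of_eq ?_) h1
  rw [inner_L2, ← integral_μ₁, ← integral_μ₁]
  refine integral_congr_ae ?_
  filter_upwards [ha'.coeFn_toLp, hb'.coeFn_toLp] with x h4 h5
  rw [h4, h5, Real.norm_eq_abs, Real.norm_eq_abs]

/-- the difference of two solutions as a curve in `L²(0,1)` -/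
def dcurve {γ T : ℝ} {y0 u v : ℝ → ℝ} {y y' : ℝ → ℝ → ℝ} (h : IsSolution γ T y0 u v y)
    (h' : IsSolution γ T y0 u v y') (t : ℝ) : Lp ℝ 2 μ₁ :=
  open scoped Classical in
  if ht : t ∈ Icc 0 T then ((h.slices t ht).sub (h'.slices t ht)).toLp (y t - y' t) else 0

section

variable {γ T : ℝ} {y0 u v : ℝ → ℝ} {y y' : ℝ → ℝ → ℝ} (h : IsSolution γ T y0 u v y)
    (h' : IsSolution γ T y0 u v y')

theorem dcurve_eq {t : ℝ} (ht : t ∈ Icc 0 T) :
    dcurve h h' t = ((h.slices t ht).sub (h'.slices t ht)).toLp (y t - y' t) := by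
  unfold dcurve
  rw [dif_pos ht]

theorem dcurve_coe {t : ℝ} (ht : t ∈ Icc 0 T) :
    (dcurve h h' t : ℝ → ℝ) =ᵐ[μ₁] fun x => y t x - y' t x := by
  rw [dcurve_eq h h' ht]
  exact MemLp.coeFn_toLp _

theorem dcurve_cont : ContinuousOn (dcurve h h') (Icc 0 T) := by
  intro t₀ ht₀
  rw [ContinuousWithinAt, tendsto_iff_edist_tendsto_0]
  have h1 := h.continuous t₀ ht₀
  have h2 := h'.continuous t₀ ht₀
  have h3 := h1.add h2
  rw [add_zero] at h3
  refine tendsto_of_tendsto_of_tendsto_of_le_of_le' tendsto_const_nhds h3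
    (Eventually.of_forall fun _ => zero_le) ?_
  filter_upwards [self_mem_nhdsWithin] with t ht
  rw [dcurve_eq h h' ht, dcurve_eq h h' ht₀, Lp.edist_toLp_toLp]
  have e : (y t - y' t) - (y t₀ - y' t₀) = (y t - y t₀) - (y' t - y' t₀) := by
    abel
  rw [e]
  exact eLpNorm_sub_le ((h.slices t ht).sub (h.slices t₀ ht₀)).aestronglyMeasurable
    ((h'.slices t ht).sub (h'.slices t₀ ht₀)).aestronglyMeasurable (by norm_num)

theorem dcurve_zero (hT : 0 < T) : dcurve h h' 0 = 0 := by
  have ht : (0 : ℝ) ∈ Icc 0 T := ⟨le_rfl, hT.le⟩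
  rw [Lp.eq_zero_iff_ae_eq_zero]
  filter_upwards [dcurve_coe h h' ht, h.initial, h'.initial] with x h1 h2 h3
  rw [h1, h2, h3]
  simp

end

theorem IsSolution.unique {γ T : ℝ} (hγ : 1 < γ) (hT : 0 < T) {y0 u v : ℝ → ℝ}
    {y y' : ℝ → ℝ → ℝ} (h : IsSolution γ T y0 u v y) (h' : IsSolution γ T y0 u v y') :
    ∀ t ∈ Icc 0 T, y t =ᵐ[volume.restrict (Ioo 0 1)] y' t := by
  obtain ⟨M₁, hM₁, g, hsl, hw⟩ := h.weak hγ
  obtain ⟨M₂, hM₂, g', hsl', hw'⟩ := h'.weak hγ
  set M := max M₁ M₂ with hM
  set L := γ * M ^ (γ - 1) with hL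
  have hM0 : 0 ≤ M := hM₁.trans (le_max_left _ _)
  have hL0 : 0 ≤ L := by positivity
  have key := abstract_gronwall PH (T := T) (L := L) (dcurve h h') (dcurve_cont h h')
    (dcurve_zero h h' hT) (by
      intro t₁ t₂ h0 h12 h2T
      have ht₁ : t₁ ∈ Icc 0 T := ⟨h0, h12.trans h2T⟩
      have ht₂ : t₂ ∈ Icc 0 T := ⟨h0.trans h12, h2T⟩
      set d : Lp ℝ 2 μ₁ := dcurve h h' t₂ - dcurve h h' t₁ with hd
      set k : Lp ℝ 2 μ₁ := dcurve h h' t₂ + dcurve h h' t₁ with hk
      have hki : IntervalIntegrable k volume 0 1 := memLp_two_intervalIntegrable (Lp.memLp k)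
      have hdi : IntervalIntegrable d volume 0 1 := memLp_two_intervalIntegrable (Lp.memLp d)
      obtain ⟨i1, e1⟩ := hw (Wp k) (contDiff_Wp hki) (Wp_zero _) (Wp_one hki)
      obtain ⟨i2, e2⟩ := hw' (Wp k) (contDiff_Wp hki) (Wp_zero _) (Wp_one hki)
      rw [deriv_Wp hki] at i1 e1 i2 e2
      set Ψ : ℝ → ℝ := fun s => ∫ x in (0 : ℝ)..1, (g s x - flux γ (y s x)) * Pp k x with hΨ
      set Ψ' : ℝ → ℝ := fun s => ∫ x in (0 : ℝ)..1, (g' s x - flux γ (y' s x)) * Pp k x with hΨ'
      have j1 : ∀ a b, a ∈ Icc 0 T → b ∈ Icc 0 T → IntervalIntegrable Ψ volume a b := by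
        intro a b ha hb
        rw [intervalIntegrable_iff]
        rw [← integrableOn_Icc_iff_integrableOn_Ioo] at i1
        refine i1.mono_set ?_
        rw [uIoc]
        refine Ioc_subset_Icc_self.trans (Icc_subset_Icc ?_ ?_)
        · exact le_min ha.1 hb.1
        · exact max_le ha.2 hb.2
      have j2 : ∀ a b, a ∈ Icc 0 T → b ∈ Icc 0 T → IntervalIntegrable Ψ' volume a b := by
        intro a b ha hb
        rw [intervalIntegrable_iff]
        rw [← integrableOn_Icc_iff_integrableOn_Ioo] at i2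
        refine i2.mono_set ?_
        rw [uIoc]
        refine Ioc_subset_Icc_self.trans (Icc_subset_Icc ?_ ?_)
        · exact le_min ha.1 hb.1
        · exact max_le ha.2 hb.2
      have h0T : (0 : ℝ) ∈ Icc 0 T := ⟨le_rfl, hT.le⟩
      -- the difference at a time
      have hdiff : ∀ t ∈ Icc 0 T, ∫ x in (0 : ℝ)..1, (dcurve h h' t : ℝ → ℝ) x * Wp k x =
          ∫ s in (0 : ℝ)..t, (Ψ' s - Ψ s) := by
        intro t ht
        have a1 := e1 t ht
        have a2 := e2 t ht
        rw [intervalIntegral.integral_sub (j2 0 t h0T ht) (j1 0 t h0T ht)]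
        have hW : Continuous (Wp k) := (contDiff_Wp hki).continuous
        have b1 : IntervalIntegrable (fun x => y t x * Wp k x) volume 0 1 :=
          (memLp_two_intervalIntegrable (h.slices t ht)).mul_continuousOn hW.continuousOn
        have b2 : IntervalIntegrable (fun x => y' t x * Wp k x) volume 0 1 :=
          (memLp_two_intervalIntegrable (h'.slices t ht)).mul_continuousOn hW.continuousOn
        have b3 : ∫ x in (0 : ℝ)..1, (dcurve h h' t : ℝ → ℝ) x * Wp k x =
            (∫ x in (0 : ℝ)..1, y t x * Wp k x) - ∫ x in (0 : ℝ)..1, y' t x * Wp k x := by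
          rw [← intervalIntegral.integral_sub b1 b2, ← integral_μ₁, ← integral_μ₁]
          refine integral_congr_ae ?_
          filter_upwards [dcurve_coe h h' ht] with x hx
          rw [hx]
          ring
        rw [b3]
        linarith
      refine ⟨fun s => Ψ' s - Ψ s, (j2 _ _ ht₁ ht₂).sub (j1 _ _ ht₁ ht₂), ?_, ?_⟩
      · rw [← map_sub, ← map_add, inner_PH, Pp_mul_Pp hdi hki]
        have hW : Continuous (Wp k) := (contDiff_Wp hki).continuous
        have c1 : IntervalIntegrable (fun x => (dcurve h h' t₂ : ℝ → ℝ) x * Wp k x) volume 0 1 :=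
          (memLp_two_intervalIntegrable (Lp.memLp _)).mul_continuousOn hW.continuousOn
        have c2 : IntervalIntegrable (fun x => (dcurve h h' t₁ : ℝ → ℝ) x * Wp k x) volume 0 1 :=
          (memLp_two_intervalIntegrable (Lp.memLp _)).mul_continuousOn hW.continuousOn
        have c3 : ∫ x in (0 : ℝ)..1, d x * Wp k x =
            (∫ x in (0 : ℝ)..1, (dcurve h h' t₂ : ℝ → ℝ) x * Wp k x) -
              ∫ x in (0 : ℝ)..1, (dcurve h h' t₁ : ℝ → ℝ) x * Wp k x := by
          rw [← intervalIntegral.integral_sub c1 c2, ← integral_μ₁, ← integral_μ₁]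
          refine integral_congr_ae ?_
          filter_upwards [Lp.coeFn_sub (dcurve h h' t₂) (dcurve h h' t₁)] with x hx
          rw [hd, hx]
          simp only [Pi.sub_apply]
          ring
        rw [c3, hdiff t₂ ht₂, hdiff t₁ ht₁]
        exact intervalIntegral.integral_interval_sub_left
          ((j2 _ _ h0T ht₂).sub (j1 _ _ h0T ht₂)) ((j2 _ _ h0T ht₁).sub (j1 _ _ h0T ht₁))
      · rw [ae_restrict_iff' measurableSet_Ioo] at hsl hsl'
        filter_upwards [hsl, hsl'] with s q1 q2 q3
        have hs : s ∈ Ioo 0 T := ⟨h0.trans_lt q3.1, q3.2.trans_le h2T⟩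
        have hsI : s ∈ Icc 0 T := Ioo_subset_Icc_self hs
        have r1 := (q1 hs).mono (le_max_left M₁ M₂)
        have r2 := (q2 hs).mono (le_max_right M₁ M₂)
        rw [← hM] at r1 r2
        have hP : Continuous (Pp k) := continuous_Pp hki
        -- the slice of the difference
        have hprim : IsPrim (fun x => y s x - y' s x) (fun x => g s x - g' s x) := by
          refine ⟨r1.prim.int.sub r2.prim.int, fun x hx => ?_⟩
          have hi1 : IntervalIntegrable (g s) volume 0 x := r1.prim.int.mono_set (by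
            rw [uIcc_of_le zero_le_one, uIcc_of_le hx.1]
            exact Icc_subset_Icc_right hx.2)
          have hi2 : IntervalIntegrable (g' s) volume 0 x := r2.prim.int.mono_set (by
            rw [uIcc_of_le zero_le_one, uIcc_of_le hx.1]
            exact Icc_subset_Icc_right hx.2)
          rw [intervalIntegral.integral_sub hi1 hi2, r1.prim.eq x hx, r2.prim.eq x hx]
          ring
        have hz := mul_Pp hprim (by rw [r1.zero, r2.zero]; ring) (by rw [r1.one, r2.one]; ring) hki
        have hin : inner ℝ (dcurve h h' s) k = ∫ x in (0 : ℝ)..1, (y s x - y' s x) * k x := by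
          rw [inner_L2, ← integral_μ₁, ← integral_μ₁]
          refine integral_congr_ae ?_
          filter_upwards [dcurve_coe h h' hsI] with x hx
          rw [hx]
        have cy : ContinuousOn (fun x => flux γ (y s x)) (Icc 0 1) :=
          (continuous_flux hγ).comp_continuousOn r1.prim.continuousOn
        have cy' : ContinuousOn (fun x => flux γ (y' s x)) (Icc 0 1) :=
          (continuous_flux hγ).comp_continuousOn r2.prim.continuousOn
        have k1 : IntervalIntegrable (fun x => (g s x - flux γ (y s x)) * Pp k x) volume 0 1 := by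
          refine (r1.prim.int.sub ?_).mul_continuousOn hP.continuousOn
          refine ContinuousOn.intervalIntegrable ?_
          rw [uIcc_of_le zero_le_one]
          exact cy
        have k2 : IntervalIntegrable (fun x => (g' s x - flux γ (y' s x)) * Pp k x)
            volume 0 1 := by
          refine (r2.prim.int.sub ?_).mul_continuousOn hP.continuousOn
          refine ContinuousOn.intervalIntegrable ?_
          rw [uIcc_of_le zero_le_one]
          exact cy'
        have k3 : IntervalIntegrable (fun x => (g s x - g' s x) * Pp k x) volume 0 1 :=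
          (r1.prim.int.sub r2.prim.int).mul_continuousOn hP.continuousOn
        have k4 : IntervalIntegrable (fun x => (flux γ (y s x) - flux γ (y' s x)) * Pp k x)
            volume 0 1 := by
          refine ContinuousOn.intervalIntegrable ?_
          rw [uIcc_of_le zero_le_one]
          exact (cy.sub cy').mul hP.continuousOn
        have hψs : Ψ' s - Ψ s = (∫ x in (0 : ℝ)..1, (flux γ (y s x) - flux γ (y' s x)) * Pp k x) -
            ∫ x in (0 : ℝ)..1, (g s x - g' s x) * Pp k x := by
          rw [hΨ, hΨ', ← intervalIntegral.integral_sub k4 k3,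
            ← intervalIntegral.integral_sub k2 k1]
          refine intervalIntegral.integral_congr fun x _ => ?_
          show (g' s x - flux γ (y' s x)) * Pp k x - (g s x - flux γ (y s x)) * Pp k x =
            (flux γ (y s x) - flux γ (y' s x)) * Pp k x - (g s x - g' s x) * Pp k x
          ring
        show Ψ' s - Ψ s ≤ _
        rw [hψs, hz, ← hin, ← map_add, ← hk]
        refine sub_le_sub_right ?_ _
        have m1 : MemLp (fun x => y s x - y' s x) 2 μ₁ := (h.slices s hsI).sub (h'.slices s hsI)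
        have m2 : MemLp (Pp k) 2 μ₁ := memLp_Pp k
        have hcs := cs_L2 m1 m2
        have n1 : ‖m1.toLp _‖ = ‖dcurve h h' s‖ := by
          rw [dcurve_eq h h' hsI]
          rfl
        have n2 : ‖m2.toLp _‖ = ‖PH k‖ := rfl
        rw [n1, n2] at hcs
        have l1 : IntervalIntegrable (fun x => |y s x - y' s x| * |Pp k x|) volume 0 1 := by
          refine ContinuousOn.intervalIntegrable ?_
          rw [uIcc_of_le zero_le_one]
          exact (hprim.continuousOn.abs).mul hP.continuousOn.abs
        calc ∫ x in (0 : ℝ)..1, (flux γ (y s x) - flux γ (y' s x)) * Pp k x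
            ≤ ∫ x in (0 : ℝ)..1, L * (|y s x - y' s x| * |Pp k x|) := by
              refine intervalIntegral.integral_mono_on zero_le_one k4 (l1.const_mul L) ?_
              intro x hx
              calc (flux γ (y s x) - flux γ (y' s x)) * Pp k x
                  ≤ |(flux γ (y s x) - flux γ (y' s x)) * Pp k x| := le_abs_self _
                _ = |flux γ (y s x) - flux γ (y' s x)| * |Pp k x| := abs_mul _ _
                _ ≤ (L * |y s x - y' s x|) * |Pp k x| := by
                    gcongr
                    exact flux_lip hγ (r1.bound x hx) (r2.bound x hx)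
                _ = L * (|y s x - y' s x| * |Pp k x|) := by ring
          _ = L * ∫ x in (0 : ℝ)..1, |y s x - y' s x| * |Pp k x| :=
              intervalIntegral.integral_const_mul _ _
          _ ≤ L * (‖dcurve h h' s‖ * ‖PH k‖) := mul_le_mul_of_nonneg_left hcs hL0
          _ = L * ‖dcurve h h' s‖ * ‖PH k‖ := by ring)
  intro t ht
  have h1 := eq_zero_of_PH (key t ht)
  have h2 := dcurve_coe h h' ht
  rw [h1] at h2
  filter_upwards [h2, Lp.coeFn_zero ℝ 2 μ₁] with x h3 h4
  rw [h4] at h3
  simp only [Pi.zero_apply] at h3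
  linarith

end Pool.Agent.Burg
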