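import Pool.Agent.Helper46_Burg.Defs

/-!
Module UNIQ, part A: primitives of integrable functions on `[0,1]` and the Green operator.
-/

set_option autoImplicit false

open MeasureTheory Set Filter Topology
open scoped Real ENNReal NNReal

noncomputable section

namespace Pool.Agent.Burg

/-- `u` is, on `[0,1]`, a primitive of the integrable function `a`. -/
structure IsPrim (u a : ℝ → ℝ) : Prop where
  int : IntervalIntegrable a volume 0 1
  eq : ∀ x ∈ Icc (0 : ℝ) 1, u x = u 0 + ∫ ξ in (0 : ℝ)..x, a ξ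

theorem ac_congr {f g : ℝ → ℝ} {a b : ℝ} (h : ∀ x ∈ uIcc a b, f x = g x)
    (hf : AbsolutelyContinuousOnInterval f a b) : AbsolutelyContinuousOnInterval g a b := by
  rw [absolutelyContinuousOnInterval_iff] at hf ⊢
  intro ε hε
  obtain ⟨δ, hδ, hd⟩ := hf ε hε
  refine ⟨δ, hδ, fun E hE hs => ?_⟩
  have h1 := hd E hE hs
  have h2 : ∑ i ∈ Finset.range E.1, dist (g (E.2 i).1) (g (E.2 i).2) =
      ∑ i ∈ Finset.range E.1, dist (f (E.2 i).1) (f (E.2 i).2) := by
    refine Finset.sum_congr rfl fun i hi => ?_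
    rw [h _ (hE.1 i hi).1, h _ (hE.1 i hi).2]
  rwa [h2]

/-- Composition with a Lipschitz function. -/
theorem ac_comp {f u : ℝ → ℝ} {a b K : ℝ} (hK : 0 ≤ K)
    (hf : ∀ x ∈ uIcc a b, ∀ y ∈ uIcc a b, |f (u x) - f (u y)| ≤ K * |u x - u y|)
    (hu : AbsolutelyContinuousOnInterval u a b) :
    AbsolutelyContinuousOnInterval (fun x => f (u x)) a b := by
  rw [absolutelyContinuousOnInterval_iff] at hu ⊢
  intro ε hε
  obtain ⟨δ, hδ, hd⟩ := hu (ε / (K + 1)) (by positivity)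
  refine ⟨δ, hδ, fun E hE hs => ?_⟩
  have h1 := hd E hE hs
  have h2 : ∑ i ∈ Finset.range E.1, dist (f (u (E.2 i).1)) (f (u (E.2 i).2)) ≤
      K * ∑ i ∈ Finset.range E.1, dist (u (E.2 i).1) (u (E.2 i).2) := by
    rw [Finset.mul_sum]
    refine Finset.sum_le_sum fun i hi => ?_
    rw [Real.dist_eq, Real.dist_eq]
    exact hf _ (hE.1 i hi).1 _ (hE.1 i hi).2
  have h0 : 0 ≤ ∑ i ∈ Finset.range E.1, dist (u (E.2 i).1) (u (E.2 i).2) :=
    Finset.sum_nonneg fun _ _ => dist_nonneg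
  calc _ ≤ K * ∑ i ∈ Finset.range E.1, dist (u (E.2 i).1) (u (E.2 i).2) := h2
    _ ≤ (K + 1) * ∑ i ∈ Finset.range E.1, dist (u (E.2 i).1) (u (E.2 i).2) := by nlinarith
    _ < (K + 1) * (ε / (K + 1)) := by gcongr
    _ = ε := by field_simp

theorem IsPrim.ac {u a : ℝ → ℝ} (h : IsPrim u a) : AbsolutelyContinuousOnInterval u 0 1 := by
  have h1 := h.int.absolutelyContinuousOnInterval_intervalIntegral (c := 0) (by simp)
  have h2 : AbsolutelyContinuousOnInterval (fun _ : ℝ => u 0) 0 1 :=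
    (contDiffOn_const).absolutelyContinuousOnInterval
  refine ac_congr ?_ (h2.fun_add h1)
  intro x hx
  rw [uIcc_of_le zero_le_one] at hx
  exact (h.eq x hx).symm

theorem IsPrim.continuousOn {u a : ℝ → ℝ} (h : IsPrim u a) : ContinuousOn u (Icc 0 1) := by
  have := h.ac.continuousOn
  rwa [uIcc_of_le zero_le_one] at this

theorem IsPrim.ae_hasDerivAt {u a : ℝ → ℝ} (h : IsPrim u a) :
    ∀ᵐ x, x ∈ Ioo (0 : ℝ) 1 → HasDerivAt u (a x) x := by
  filter_upwards [h.int.ae_hasDerivAt_integral] with x hx hx1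
  have h1 := hx (by rw [uIcc_of_le zero_le_one]; exact Ioo_subset_Icc_self hx1) 0
    (by rw [uIcc_of_le zero_le_one]; simp)
  have h2 := h1.const_add (u 0)
  refine h2.congr_of_eventuallyEq ?_
  filter_upwards [Ioo_mem_nhds hx1.1 hx1.2] with y hy
  exact h.eq y (Ioo_subset_Icc_self hy)

/-- An absolutely continuous function with a.e. derivative `a` is a primitive of `a`. -/
theorem isPrim_of_ac {u a : ℝ → ℝ} (h : AbsolutelyContinuousOnInterval u 0 1)
    (hd : ∀ᵐ x, x ∈ Ioo (0 : ℝ) 1 → HasDerivAt u (a x) x) : IsPrim u a := by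
  have hae : ∀ᵐ x, x ∈ Ioo (0 : ℝ) 1 → deriv u x = a x := by
    filter_upwards [hd] with x hx hx1
    exact (hx hx1).deriv
  have hne : ∀ᵐ x : ℝ, x ≠ 1 := by simp [ae_iff, measure_singleton]
  have hint : IntervalIntegrable a volume 0 1 := by
    refine h.intervalIntegrable_deriv.congr_ae ?_
    rw [uIoc_of_le zero_le_one]
    rw [EventuallyEq, ae_restrict_iff' measurableSet_Ioc]
    filter_upwards [hae, hne] with x hx hx1 hx2
    exact hx ⟨hx2.1, lt_of_le_of_ne hx2.2 hx1⟩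
  refine ⟨hint, fun x hx => ?_⟩
  have h1 : AbsolutelyContinuousOnInterval u 0 x := h.mono (by
    rw [uIcc_of_le zero_le_one, uIcc_of_le hx.1]
    exact Icc_subset_Icc_right hx.2)
  have h2 := h1.integral_deriv_eq_sub
  have h3 : ∫ ξ in (0 : ℝ)..x, deriv u ξ = ∫ ξ in (0 : ℝ)..x, a ξ := by
    apply intervalIntegral.integral_congr_ae
    filter_upwards [hae, hne] with y hy hy1 hy2
    rw [uIoc_of_le hx.1] at hy2
    exact hy ⟨hy2.1, lt_of_le_of_ne (hy2.2.trans hx.2) hy1⟩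
  rw [← h3, h2]
  ring

theorem isPrim_of_contDiff {u : ℝ → ℝ} (h : ContDiff ℝ 1 u) : IsPrim u (deriv u) := by
  refine isPrim_of_ac (h.contDiffOn.absolutelyContinuousOnInterval) ?_
  refine Eventually.of_forall fun x _ => ?_
  exact (h.differentiable (by norm_num) x).hasDerivAt

/-- Integration by parts. -/
theorem IsPrim.parts {u a v b : ℝ → ℝ} (hu : IsPrim u a) (hv : IsPrim v b) :
    ∫ x in (0 : ℝ)..1, (a x * v x + u x * b x) = u 1 * v 1 - u 0 * v 0 := by
  rw [← AbsolutelyContinuousOnInterval.integral_deriv_mul_eq_sub hu.ac hv.ac]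
  have hne : ∀ᵐ x : ℝ, x ≠ 1 := by simp [ae_iff, measure_singleton]
  apply intervalIntegral.integral_congr_ae
  filter_upwards [hu.ae_hasDerivAt, hv.ae_hasDerivAt, hne] with x h1 h2 h3 h4
  rw [uIoc_of_le zero_le_one] at h4
  have h5 : x ∈ Ioo (0 : ℝ) 1 := ⟨h4.1, lt_of_le_of_ne h4.2 h3⟩
  rw [(h1 h5).deriv, (h2 h5).deriv]

/-- Chain rule. -/
theorem IsPrim.comp {u a f f' : ℝ → ℝ} (hu : IsPrim u a) (hf : ∀ s, HasDerivAt f (f' s) s)
    (hf' : Continuous f') : IsPrim (fun x => f (u x)) (fun x => f' (u x) * a x) := by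
  -- bound of `u`
  obtain ⟨M, hM⟩ := isCompact_Icc.exists_bound_of_continuousOn hu.continuousOn
  obtain ⟨C, hC⟩ := (isCompact_Icc (a := -M) (b := M)).exists_bound_of_continuousOn
    hf'.continuousOn
  have hM0 : 0 ≤ M := (norm_nonneg _).trans (hM 0 (by simp))
  have hC0 : 0 ≤ C := (norm_nonneg _).trans (hC 0 ⟨by linarith, hM0⟩)
  have hmem : ∀ x ∈ Icc (0 : ℝ) 1, u x ∈ Icc (-M) M := by
    intro x hx
    have := hM x hx
    rw [Real.norm_eq_abs, abs_le] at this
    exact this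
  refine isPrim_of_ac (ac_comp hC0 ?_ hu.ac) ?_
  · intro x hx y hy
    rw [uIcc_of_le zero_le_one] at hx hy
    have := (convex_Icc (-M) M).norm_image_sub_le_of_norm_hasDerivWithin_le
      (f := f) (f' := f') (C := C) (fun s _ => (hf s).hasDerivWithinAt) (fun s hs => hC s hs)
      (hmem y hy) (hmem x hx)
    simpa [Real.norm_eq_abs] using this
  · filter_upwards [hu.ae_hasDerivAt] with x hx hx1
    exact (hf (u x)).comp x (hx hx1)

/-! ### Operators -/

/-- restriction to `(0,1]` -/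
def ind (h : ℝ → ℝ) : ℝ → ℝ := (Ioc (0 : ℝ) 1).indicator h

/-- primitive -/
def Kp (h : ℝ → ℝ) (x : ℝ) : ℝ := ∫ ξ in (0 : ℝ)..x, ind h ξ

/-- derivative of the solution of `-W'' = h`, `W(0) = W(1) = 0` -/
def Pp (h : ℝ → ℝ) (x : ℝ) : ℝ := (∫ ξ in (0 : ℝ)..1, Kp h ξ) - Kp h x

/-- solution of `-W'' = h`, `W(0) = W(1) = 0` -/
def Wp (h : ℝ → ℝ) (x : ℝ) : ℝ := ∫ ξ in (0 : ℝ)..x, Pp h ξ

theorem integrable_ind {h : ℝ → ℝ} (hh : IntervalIntegrable h volume 0 1) :
    Integrable (ind h) := by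
  unfold ind
  rw [integrable_indicator_iff measurableSet_Ioc]
  rwa [intervalIntegrable_iff, uIoc_of_le zero_le_one] at hh

theorem continuous_Kp {h : ℝ → ℝ} (hh : IntervalIntegrable h volume 0 1) : Continuous (Kp h) :=
  intervalIntegral.continuous_primitive (fun _ _ => (integrable_ind hh).intervalIntegrable) 0

theorem Kp_zero (h : ℝ → ℝ) : Kp h 0 = 0 := by simp [Kp]

theorem isPrim_Kp {h : ℝ → ℝ} (hh : IntervalIntegrable h volume 0 1) : IsPrim (Kp h) h := by
  refine ⟨hh, fun x hx => ?_⟩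
  rw [Kp_zero, zero_add]
  unfold Kp
  apply intervalIntegral.integral_congr_ae
  refine Eventually.of_forall fun ξ hξ => ?_
  rw [uIoc_of_le hx.1] at hξ
  exact indicator_of_mem (s := Ioc (0 : ℝ) 1) ⟨hξ.1, hξ.2.trans hx.2⟩ h

theorem continuous_Pp {h : ℝ → ℝ} (hh : IntervalIntegrable h volume 0 1) : Continuous (Pp h) :=
  continuous_const.sub (continuous_Kp hh)

theorem isPrim_Pp {h : ℝ → ℝ} (hh : IntervalIntegrable h volume 0 1) :
    IsPrim (Pp h) (fun x => -h x) := by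
  refine ⟨hh.neg, fun x hx => ?_⟩
  have h1 := (isPrim_Kp hh).eq x hx
  rw [Kp_zero, zero_add] at h1
  unfold Pp
  rw [Kp_zero, intervalIntegral.integral_neg, ← h1]
  ring

theorem Wp_zero (h : ℝ → ℝ) : Wp h 0 = 0 := by simp [Wp]

theorem Wp_one {h : ℝ → ℝ} (hh : IntervalIntegrable h volume 0 1) : Wp h 1 = 0 := by
  unfold Wp Pp
  rw [intervalIntegral.integral_sub intervalIntegrable_const
    ((continuous_Kp hh).intervalIntegrable _ _), intervalIntegral.integral_const]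
  simp

theorem hasDerivAt_Wp {h : ℝ → ℝ} (hh : IntervalIntegrable h volume 0 1) (x : ℝ) :
    HasDerivAt (Wp h) (Pp h x) x :=
  ((continuous_Pp hh).integral_hasStrictDerivAt 0 x).hasDerivAt

theorem deriv_Wp {h : ℝ → ℝ} (hh : IntervalIntegrable h volume 0 1) : deriv (Wp h) = Pp h :=
  funext fun x => (hasDerivAt_Wp hh x).deriv

theorem contDiff_Wp {h : ℝ → ℝ} (hh : IntervalIntegrable h volume 0 1) :
    ContDiff ℝ 1 (Wp h) := by
  rw [contDiff_one_iff_deriv]
  refine ⟨fun x => (hasDerivAt_Wp hh x).differentiableAt, ?_⟩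
  rw [deriv_Wp hh]
  exact continuous_Pp hh

/-- First identity: `∫ W_d' W_h' = ∫ d W_h`. -/
theorem Pp_mul_Pp {d h : ℝ → ℝ} (hd : IntervalIntegrable d volume 0 1)
    (hh : IntervalIntegrable h volume 0 1) :
    ∫ x in (0 : ℝ)..1, Pp d x * Pp h x = ∫ x in (0 : ℝ)..1, d x * Wp h x := by
  have h1 : IsPrim (Wp h) (Pp h) := by
    have := isPrim_of_contDiff (contDiff_Wp hh)
    rwa [deriv_Wp hh] at this
  have h2 := (isPrim_Pp hd).parts h1
  rw [Wp_zero, Wp_one hh, mul_zero, mul_zero, sub_zero] at h2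
  have hW : Continuous (Wp h) := (contDiff_Wp hh).continuous
  have i1 : IntervalIntegrable (fun x => -d x * Wp h x) volume 0 1 :=
    hd.neg.mul_continuousOn hW.continuousOn
  have i2 : IntervalIntegrable (fun x => Pp d x * Pp h x) volume 0 1 :=
    ((continuous_Pp hd).mul (continuous_Pp hh)).intervalIntegrable _ _
  rw [intervalIntegral.integral_add i1 i2] at h2
  have h3 : ∫ x in (0 : ℝ)..1, -d x * Wp h x = -∫ x in (0 : ℝ)..1, d x * Wp h x := by
    rw [← intervalIntegral.integral_neg]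
    refine intervalIntegral.integral_congr fun x _ => ?_
    show -d x * Wp h x = -(d x * Wp h x)
    ring
  rw [h3] at h2
  linarith

/-- Second identity: `∫ w' W_h' = ∫ w h` if `w(0) = w(1) = 0`. -/
theorem mul_Pp {w G h : ℝ → ℝ} (hw : IsPrim w G) (h0 : w 0 = 0) (h1 : w 1 = 0)
    (hh : IntervalIntegrable h volume 0 1) :
    ∫ x in (0 : ℝ)..1, G x * Pp h x = ∫ x in (0 : ℝ)..1, w x * h x := by
  have h2 := hw.parts (isPrim_Pp hh)
  rw [h0, h1, zero_mul, zero_mul, sub_zero] at h2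
  have i1 : IntervalIntegrable (fun x => G x * Pp h x) volume 0 1 :=
    hw.int.mul_continuousOn (continuous_Pp hh).continuousOn
  have i2 : IntervalIntegrable (fun x => w x * -h x) volume 0 1 := by
    refine hh.neg.continuousOn_mul ?_
    rw [uIcc_of_le zero_le_one]
    exact hw.continuousOn
  rw [intervalIntegral.integral_add i1 i2] at h2
  have h3 : ∫ x in (0 : ℝ)..1, w x * -h x = -∫ x in (0 : ℝ)..1, w x * h x := by
    rw [← intervalIntegral.integral_neg]
    refine intervalIntegral.integral_congr fun x _ => ?_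
    show w x * -h x = -(w x * h x)
    ring
  rw [h3] at h2
  linarith

/-- `Pp` is injective. -/
theorem eq_zero_of_Pp {h : ℝ → ℝ} (hh : IntervalIntegrable h volume 0 1)
    (h0 : ∀ᵐ x ∂(volume.restrict (Ioo (0 : ℝ) 1)), Pp h x = 0) :
    ∀ᵐ x ∂(volume.restrict (Ioo (0 : ℝ) 1)), h x = 0 := by
  have h1 : EqOn (Pp h) (fun _ => 0) (Ioo 0 1) :=
    Measure.eqOn_Ioo_of_ae_eq (μ := volume) h0 (continuous_Pp hh).continuousOn continuousOn_const
  rw [ae_restrict_iff' measurableSet_Ioo]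
  filter_upwards [(isPrim_Pp hh).ae_hasDerivAt] with x hx hx1
  have h2 := hx hx1
  have h3 : HasDerivAt (Pp h) 0 x := by
    refine (hasDerivAt_const x (0 : ℝ)).congr_of_eventuallyEq ?_
    filter_upwards [Ioo_mem_nhds hx1.1 hx1.2] with y hy
    exact h1 hy
  have h4 := h2.unique h3
  linarith

theorem Kp_add {d h : ℝ → ℝ} (hd : IntervalIntegrable d volume 0 1)
    (hh : IntervalIntegrable h volume 0 1) (x : ℝ) :
    Kp (fun y => d y + h y) x = Kp d x + Kp h x := by
  unfold Kp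
  rw [← intervalIntegral.integral_add (integrable_ind hd).intervalIntegrable
    (integrable_ind hh).intervalIntegrable]
  refine intervalIntegral.integral_congr fun ξ _ => ?_
  show ind (fun y => d y + h y) ξ = ind d ξ + ind h ξ
  unfold ind
  by_cases hξ : ξ ∈ Ioc (0 : ℝ) 1 <;> simp [hξ]

theorem Pp_add {d h : ℝ → ℝ} (hd : IntervalIntegrable d volume 0 1)
    (hh : IntervalIntegrable h volume 0 1) (x : ℝ) :
    Pp (fun y => d y + h y) x = Pp d x + Pp h x := by
  unfold Pp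
  rw [Kp_add hd hh]
  simp_rw [Kp_add hd hh]
  rw [intervalIntegral.integral_add ((continuous_Kp hd).intervalIntegrable _ _)
    ((continuous_Kp hh).intervalIntegrable _ _)]
  ring

theorem Kp_smul (c : ℝ) (h : ℝ → ℝ) (x : ℝ) : Kp (fun y => c * h y) x = c * Kp h x := by
  unfold Kp
  rw [← intervalIntegral.integral_const_mul]
  refine intervalIntegral.integral_congr fun ξ _ => ?_
  show ind (fun y => c * h y) ξ = c * ind h ξ
  unfold ind
  by_cases hξ : ξ ∈ Ioc (0 : ℝ) 1 <;> simp [hξ]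

theorem Pp_smul (c : ℝ) (h : ℝ → ℝ) (x : ℝ) : Pp (fun y => c * h y) x = c * Pp h x := by
  unfold Pp
  rw [Kp_smul]
  simp_rw [Kp_smul]
  rw [intervalIntegral.integral_const_mul]
  ring

theorem Kp_congr {d h : ℝ → ℝ} (e : ∀ᵐ x ∂(volume.restrict (Ioo (0 : ℝ) 1)), d x = h x) (x : ℝ) :
    Kp d x = Kp h x := by
  unfold Kp
  apply intervalIntegral.integral_congr_ae
  rw [ae_restrict_iff' measurableSet_Ioo] at e
  have hne : ∀ᵐ x : ℝ, x ≠ 1 := by simp [ae_iff, measure_singleton]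
  filter_upwards [e, hne] with ξ h1 h2 _
  unfold ind
  by_cases hξ : ξ ∈ Ioc (0 : ℝ) 1
  · simp only [hξ, indicator_of_mem]
    exact h1 ⟨hξ.1, lt_of_le_of_ne hξ.2 h2⟩
  · simp [hξ]

theorem Pp_congr {d h : ℝ → ℝ} (e : ∀ᵐ x ∂(volume.restrict (Ioo (0 : ℝ) 1)), d x = h x) (x : ℝ) :
    Pp d x = Pp h x := by
  unfold Pp
  simp_rw [Kp_congr e]

theorem abs_Kp_le {h : ℝ → ℝ} (hh : IntervalIntegrable h volume 0 1) (x : ℝ) :
    |Kp h x| ≤ ∫ y in (0 : ℝ)..1, |h y| := by
  unfold Kp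
  have hi := (integrable_ind hh).abs
  have h1 : ∫ y in (0 : ℝ)..1, |h y| = ∫ y, |ind h y| := by
    rw [intervalIntegral.integral_of_le zero_le_one, ← integral_indicator measurableSet_Ioc]
    refine integral_congr_ae (Eventually.of_forall fun y => ?_)
    show (Ioc (0 : ℝ) 1).indicator (fun y => |h y|) y = |ind h y|
    unfold ind
    by_cases hy : y ∈ Ioc (0 : ℝ) 1 <;> simp [hy]
  rw [h1]
  have h2 := intervalIntegral.norm_integral_le_integral_norm_uIoc (μ := volume) (a := 0) (b := x)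
    (f := ind h)
  simp only [Real.norm_eq_abs] at h2
  exact h2.trans (setIntegral_le_integral hi (Eventually.of_forall fun _ => abs_nonneg _))

theorem abs_Pp_le {h : ℝ → ℝ} (hh : IntervalIntegrable h volume 0 1) (x : ℝ) :
    |Pp h x| ≤ 2 * ∫ y in (0 : ℝ)..1, |h y| := by
  unfold Pp
  have h1 := abs_Kp_le hh x
  have h2 : |∫ ξ in (0 : ℝ)..1, Kp h ξ| ≤ ∫ y in (0 : ℝ)..1, |h y| := by
    have := intervalIntegral.norm_integral_le_of_norm_le_const (a := (0 : ℝ)) (b := 1)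
      (f := Kp h) (C := ∫ y in (0 : ℝ)..1, |h y|) (fun ξ _ => abs_Kp_le hh ξ)
    simpa using this
  calc |(∫ ξ in (0 : ℝ)..1, Kp h ξ) - Kp h x| ≤ |∫ ξ in (0 : ℝ)..1, Kp h ξ| + |Kp h x| :=
        abs_sub _ _
    _ ≤ _ := by linarith

end Pool.Agent.Burg
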