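import Pool.Agent.Helper46_Burg.UniqA

/-!
Module UNIQ, part B: an abstract Gronwall argument and the Green operator on `L²(0,1)`.
-/

set_option autoImplicit false

open MeasureTheory Set Filter Topology
open scoped Real ENNReal NNReal

noncomputable section

namespace Pool.Agent.Burg

section abstract

variable {H : Type*} [NormedAddCommGroup H] [InnerProductSpace ℝ H]

theorem abstract_gronwall (P : H →L[ℝ] H) {T L : ℝ} (w : ℝ → H)
    (hw : ContinuousOn w (Icc 0 T)) (h0 : w 0 = 0)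
    (hψ : ∀ t₁ t₂, 0 ≤ t₁ → t₁ ≤ t₂ → t₂ ≤ T → ∃ ψ : ℝ → ℝ,
      IntervalIntegrable ψ volume t₁ t₂ ∧
      inner ℝ (P (w t₂) - P (w t₁)) (P (w t₂) + P (w t₁)) = ∫ s in t₁..t₂, ψ s ∧
      ∀ᵐ s, s ∈ Ioo t₁ t₂ → ψ s ≤ L * ‖w s‖ * ‖P (w t₂) + P (w t₁)‖ -
        inner ℝ (w s) (w t₂ + w t₁)) :
    ∀ t ∈ Icc 0 T, P (w t) = 0 := by
  have hPw : ContinuousOn (fun t => P (w t)) (Icc 0 T) := P.continuous.comp_continuousOn hw
  have key : ∀ t ∈ Icc 0 T, ‖P (w t)‖ ^ 2 ≤ gronwallBound 0 (L ^ 2 / 2) 0 (t - 0) := by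
    refine le_gronwallBound_of_liminf_deriv_right_le (f := fun t => ‖P (w t)‖ ^ 2)
      (f' := fun t => 2 * L * ‖w t‖ * ‖P (w t)‖ - 2 * ‖w t‖ ^ 2) ?_ ?_ ?_ ?_
    · exact (hPw.norm).pow 2
    · intro x hx r hr
      have hxT : x ∈ Icc 0 T := ⟨hx.1, hx.2.le⟩
      obtain ⟨r', hr1, hr2⟩ := exists_between hr
      set Φ : ℝ × ℝ → ℝ := fun p => L * ‖w p.1‖ * ‖P (w p.2) + P (w x)‖ -
        inner ℝ (w p.1) (w p.2 + w x) with hΦ
      have hcont : ContinuousWithinAt Φ (Icc 0 T ×ˢ Icc 0 T) (x, x) := by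
        have c1 : ContinuousWithinAt (fun p : ℝ × ℝ => w p.1) (Icc 0 T ×ˢ Icc 0 T) (x, x) :=
          ContinuousWithinAt.comp (t := Icc 0 T) (hw x hxT) continuousWithinAt_fst
            (fun p hp => hp.1)
        have c2 : ContinuousWithinAt (fun p : ℝ × ℝ => w p.2) (Icc 0 T ×ˢ Icc 0 T) (x, x) :=
          ContinuousWithinAt.comp (t := Icc 0 T) (hw x hxT) continuousWithinAt_snd
            (fun p hp => hp.2)
        have c3 : ContinuousWithinAt (fun p : ℝ × ℝ => P (w p.2)) (Icc 0 T ×ˢ Icc 0 T) (x, x) :=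
          P.continuous.continuousAt.comp_continuousWithinAt c2
        exact ((continuousWithinAt_const.mul c1.norm).mul (c3.add continuousWithinAt_const).norm).sub
          (c1.inner (c2.add continuousWithinAt_const))
      have hval : Φ (x, x) = 2 * L * ‖w x‖ * ‖P (w x)‖ - 2 * ‖w x‖ ^ 2 := by
        simp only [hΦ]
        rw [← two_smul ℝ (P (w x)), norm_smul, ← two_smul ℝ (w x), inner_smul_right,
          real_inner_self_eq_norm_sq]
        simp only [Real.norm_ofNat]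
        ring
      have hlt : Φ (x, x) < r' := by rw [hval]; exact hr1
      have hev : ∀ᶠ p in 𝓝[Icc 0 T ×ˢ Icc 0 T] (x, x), Φ p < r' :=
        hcont.eventually (Iio_mem_nhds hlt)
      rw [Metric.nhdsWithin_basis_ball.eventually_iff] at hev
      obtain ⟨δ, hδ, hball⟩ := hev
      apply Eventually.frequently
      have hmem : Ioo x (min (x + δ) T) ∈ 𝓝[>] x :=
        Ioo_mem_nhdsGT (lt_min (by linarith) hx.2)
      filter_upwards [hmem] with z hz
      have hz1 : z < x + δ := lt_of_lt_of_le hz.2 (min_le_left _ _)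
      have hz2 : z < T := lt_of_lt_of_le hz.2 (min_le_right _ _)
      obtain ⟨ψ, hψi, hψe, hψl⟩ := hψ x z hx.1 hz.1.le hz2.le
      have hle : ∫ s in x..z, ψ s ≤ ∫ s in x..z, r' := by
        refine intervalIntegral.integral_mono_ae_restrict hz.1.le hψi intervalIntegrable_const ?_
        rw [EventuallyLE, ae_restrict_iff' measurableSet_Icc]
        have hne1 : ∀ᵐ s : ℝ, s ≠ x := by simp [ae_iff, measure_singleton]
        have hne2 : ∀ᵐ s : ℝ, s ≠ z := by simp [ae_iff, measure_singleton]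
        filter_upwards [hψl, hne1, hne2] with s hs hs1 hs2 hs3
        have hs4 : s ∈ Ioo x z := ⟨lt_of_le_of_ne hs3.1 hs1.symm, lt_of_le_of_ne hs3.2 hs2⟩
        refine (hs hs4).trans (le_of_lt (hball (x := (s, z)) ⟨?_, ?_, ?_⟩))
        · rw [Metric.mem_ball, Prod.dist_eq, max_lt_iff]
          constructor
          · rw [Real.dist_eq, abs_of_pos (by linarith [hs4.1])]
            linarith [hs4.2]
          · rw [Real.dist_eq, abs_of_pos (by linarith [hz.1])]
            linarith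
        · exact ⟨by linarith [hx.1, hs4.1], by linarith [hs4.2]⟩
        · exact ⟨by linarith [hx.1, hz.1], hz2.le⟩
      rw [intervalIntegral.integral_const, smul_eq_mul] at hle
      have hsub : ‖P (w z)‖ ^ 2 - ‖P (w x)‖ ^ 2 = ∫ s in x..z, ψ s := by
        rw [← hψe, inner_sub_left, inner_add_right, inner_add_right,
          real_inner_self_eq_norm_sq, real_inner_self_eq_norm_sq,
          real_inner_comm (P (w x)) (P (w z))]
        ring
      have hzx : 0 < z - x := by linarith [hz.1]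
      calc (z - x)⁻¹ * (‖P (w z)‖ ^ 2 - ‖P (w x)‖ ^ 2) ≤ (z - x)⁻¹ * ((z - x) * r') := by
            rw [hsub]
            exact mul_le_mul_of_nonneg_left hle (inv_nonneg.2 hzx.le)
        _ = r' := by field_simp
        _ < r := hr2
    · simp [h0]
    · intro x _
      show 2 * L * ‖w x‖ * ‖P (w x)‖ - 2 * ‖w x‖ ^ 2 ≤ L ^ 2 / 2 * ‖P (w x)‖ ^ 2 + 0
      nlinarith [sq_nonneg (2 * ‖w x‖ - L * ‖P (w x)‖)]
  intro t ht
  have h1 := key t ht
  have h2 : gronwallBound 0 (L ^ 2 / 2) 0 (t - 0) = 0 := by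
    rw [gronwallBound_ε0]
    simp
  rw [h2] at h1
  have h3 : ‖P (w t)‖ ^ 2 = 0 := le_antisymm h1 (sq_nonneg _)
  have h4 : ‖P (w t)‖ = 0 := by simpa using h3
  exact norm_eq_zero.1 h4

end abstract

/-- Lebesgue measure on `(0,1)` -/
abbrev μ₁ : Measure ℝ := volume.restrict (Ioo (0 : ℝ) 1)

instance : IsProbabilityMeasure μ₁ := ⟨by simp [μ₁]⟩

theorem memLp_two_intervalIntegrable {h : ℝ → ℝ} (hh : MemLp h 2 μ₁) :
    IntervalIntegrable h volume 0 1 := by
  have h1 : Integrable h μ₁ := hh.integrable (by norm_num)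
  rw [intervalIntegrable_iff, uIoc_of_le zero_le_one, integrableOn_Ioc_iff_integrableOn_Ioo]
  exact h1

theorem integral_μ₁ (h : ℝ → ℝ) : ∫ x, h x ∂μ₁ = ∫ x in (0 : ℝ)..1, h x := by
  rw [intervalIntegral.integral_of_le zero_le_one, integral_Ioc_eq_integral_Ioo]

theorem abs_Pp_le_norm (f : Lp ℝ 2 μ₁) (x : ℝ) : |Pp f x| ≤ 2 * ‖f‖ := by
  have hf := Lp.memLp f
  refine (abs_Pp_le (memLp_two_intervalIntegrable hf) x).trans ?_
  have h1 : eLpNorm f 1 μ₁ ≤ eLpNorm f 2 μ₁ :=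
    eLpNorm_le_eLpNorm_of_exponent_le (by norm_num) hf.aestronglyMeasurable
  have h2 : ∫ y in (0 : ℝ)..1, |(f : ℝ → ℝ) y| = (eLpNorm f 1 μ₁).toReal := by
    rw [← integral_μ₁, eLpNorm_one_eq_lintegral_enorm]
    have := integral_norm_eq_lintegral_enorm hf.aestronglyMeasurable
    simpa [Real.norm_eq_abs] using this
  rw [h2, Lp.norm_def]
  gcongr
  exact hf.2.ne

theorem memLp_Pp (f : Lp ℝ 2 μ₁) : MemLp (Pp f) 2 μ₁ :=
  MemLp.of_bound (continuous_Pp (memLp_two_intervalIntegrable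
    (Lp.memLp f))).aestronglyMeasurable (2 * ‖f‖)
    (Eventually.of_forall fun x => abs_Pp_le_norm f x)

/-- The operator `h ↦ W_h'` on `L²(0,1)`. -/
def PH : Lp ℝ 2 μ₁ →L[ℝ] Lp ℝ 2 μ₁ :=
  LinearMap.mkContinuous
    { toFun := fun f => (memLp_Pp f).toLp (Pp f)
      map_add' := fun f g => by
        rw [← MemLp.toLp_add]
        apply MemLp.toLp_congr
        refine Eventually.of_forall fun x => ?_
        show Pp ⇑(f + g) x = Pp f x + Pp g x
        rw [← Pp_add (memLp_two_intervalIntegrable (Lp.memLp f))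
          (memLp_two_intervalIntegrable (Lp.memLp g))]
        exact Pp_congr (Lp.coeFn_add f g) x
      map_smul' := fun c f => by
        rw [RingHom.id_apply, ← MemLp.toLp_const_smul]
        apply MemLp.toLp_congr
        refine Eventually.of_forall fun x => ?_
        show Pp ⇑(c • f) x = c * Pp f x
        rw [← Pp_smul]
        exact Pp_congr (Lp.coeFn_smul c f) x } 2 (fun f => by
    have h1 : ∀ᵐ x ∂μ₁, ‖((memLp_Pp f).toLp (Pp f) : ℝ → ℝ) x‖ ≤ 2 * ‖f‖ := by
      filter_upwards [(memLp_Pp f).coeFn_toLp] with x hx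
      rw [hx]
      exact abs_Pp_le_norm f x
    have h2 := Lp.norm_le_of_ae_bound (by positivity) h1
    have h3 : measureUnivNNReal μ₁ = 1 := by simp [measureUnivNNReal]
    rw [h3] at h2
    simpa using h2)

theorem PH_coe (f : Lp ℝ 2 μ₁) : (PH f : ℝ → ℝ) =ᵐ[μ₁] Pp f := (memLp_Pp f).coeFn_toLp

theorem inner_L2 (f g : Lp ℝ 2 μ₁) : inner ℝ f g = ∫ x in (0 : ℝ)..1, f x * g x := by
  rw [L2.inner_def, ← integral_μ₁]
  refine integral_congr_ae (Eventually.of_forall fun x => ?_)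
  show inner ℝ (f x) (g x) = f x * g x
  rw [real_inner_eq_re_inner]
  simp [mul_comm]

theorem inner_PH (f g : Lp ℝ 2 μ₁) :
    inner ℝ (PH f) (PH g) = ∫ x in (0 : ℝ)..1, Pp f x * Pp g x := by
  rw [inner_L2, ← integral_μ₁, ← integral_μ₁]
  refine integral_congr_ae ?_
  filter_upwards [PH_coe f, PH_coe g] with x h1 h2
  rw [h1, h2]

theorem eq_zero_of_PH {f : Lp ℝ 2 μ₁} (h : PH f = 0) : f = 0 := by
  have h1 : ∀ᵐ x ∂μ₁, Pp f x = 0 := by
    have h2 := PH_coe f
    rw [h] at h2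
    filter_upwards [h2, Lp.coeFn_zero ℝ 2 μ₁] with x h3 h4
    rw [← h3, h4]
    rfl
  have h2 := eq_zero_of_Pp (memLp_two_intervalIntegrable (Lp.memLp f)) h1
  exact (Lp.eq_zero_iff_ae_eq_zero).2 h2

end Pool.Agent.Burg
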