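import Pool.Agent.Helper46_Burg.Problem
import Pool.Agent.Helper46_Burg.Flux
import Pool.Agent.Helper46_Burg.UniqB

/-!
Module UNIQ, part C: slices of a weak solution and the weak form with the flux.
-/

set_option autoImplicit false

open MeasureTheory Set Filter Topology
open scoped Real ENNReal

noncomputable section

namespace Pool.Agent.Burg

/-- what is known about almost all slices -/
structure Slice (M : ℝ) (yv gv : ℝ → ℝ) (a : ℝ) : Prop where
  prim : IsPrim yv gv
  zero : yv 0 = a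
  one : yv 1 = 0
  bound : ∀ x ∈ Icc (0 : ℝ) 1, |yv x| ≤ M

theorem Slice.mono {M M' : ℝ} {yv gv : ℝ → ℝ} {a : ℝ} (h : Slice M yv gv a) (hM : M ≤ M') :
    Slice M' yv gv a := ⟨h.prim, h.zero, h.one, fun x hx => (h.bound x hx).trans hM⟩

theorem Slice.weak {M γ : ℝ} (hγ : 1 < γ) {yv gv : ℝ → ℝ} {a : ℝ} (h : Slice M yv gv a)
    {φ : ℝ → ℝ} (hφ : ContDiff ℝ 1 φ) (h0 : φ 0 = 0) (h1 : φ 1 = 0) :
    ∫ x in (0 : ℝ)..1, (γ * |yv x| ^ (γ - 1) * gv x * φ x + gv x * deriv φ x) =
      ∫ x in (0 : ℝ)..1, (gv x - flux γ (yv x)) * deriv φ x := by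
  have hc : Continuous fun s : ℝ => γ * |s| ^ (γ - 1) :=
    continuous_const.mul (continuous_abs.rpow_const (fun _ => Or.inr (by linarith)))
  have hp := h.prim.comp (f := flux γ) (fun s => hasDerivAt_flux hγ s) hc
  have h2 := hp.parts (isPrim_of_contDiff hφ)
  rw [h0, h1, mul_zero, mul_zero, sub_zero] at h2
  have hd : Continuous (deriv φ) := hφ.continuous_deriv (by norm_num)
  have i1 : IntervalIntegrable (fun x => γ * |yv x| ^ (γ - 1) * gv x * φ x) volume 0 1 :=
    hp.int.mul_continuousOn hφ.continuous.continuousOn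
  have i2 : IntervalIntegrable (fun x => flux γ (yv x) * deriv φ x) volume 0 1 := by
    refine ContinuousOn.intervalIntegrable ?_
    rw [uIcc_of_le zero_le_one]
    exact hp.continuousOn.mul hd.continuousOn
  have i3 : IntervalIntegrable (fun x => gv x * deriv φ x) volume 0 1 :=
    h.prim.int.mul_continuousOn hd.continuousOn
  rw [intervalIntegral.integral_add i1 i2] at h2
  rw [intervalIntegral.integral_add i1 i3]
  simp_rw [sub_mul]
  rw [intervalIntegral.integral_sub i3 i2]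
  linarith

theorem IsSolution.exists_slice {γ T : ℝ} {y0 u v : ℝ → ℝ} {y : ℝ → ℝ → ℝ}
    (h : IsSolution γ T y0 u v y) {g : ℝ → ℝ → ℝ}
    (hg : MemLp (Function.uncurry g) 2
      ((volume.restrict (Ioo 0 T)).prod (volume.restrict (Ioo 0 1))))
    (hs : ∀ᵐ t ∂(volume.restrict (Ioo 0 T)),
      (∀ x ∈ Icc (0 : ℝ) 1, y t x = v t + ∫ ξ in (0 : ℝ)..x, g t ξ) ∧ y t 1 = 0) :
    ∃ M : ℝ, 0 ≤ M ∧
      (∀ᵐ p ∂((volume.restrict (Ioo 0 T)).prod (volume.restrict (Ioo (0 : ℝ) 1))),
        |y p.1 p.2| ≤ M) ∧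
      ∀ᵐ t ∂(volume.restrict (Ioo 0 T)), Slice M (y t) (g t) (v t) := by
  have hb := h.bounded
  set N := eLpNorm (Function.uncurry y) ⊤
    ((volume.restrict (Ioo 0 T)).prod (volume.restrict (Ioo (0 : ℝ) 1))) with hN
  have hNtop : N ≠ ⊤ := hb.2.ne
  have hae : ∀ᵐ p ∂((volume.restrict (Ioo 0 T)).prod (volume.restrict (Ioo (0 : ℝ) 1))),
      |y p.1 p.2| ≤ N.toReal := by
    have h1 := ae_le_eLpNormEssSup (f := Function.uncurry y)
      (μ := (volume.restrict (Ioo 0 T)).prod (volume.restrict (Ioo (0 : ℝ) 1)))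
    filter_upwards [h1] with p hp
    rw [← eLpNorm_exponent_top, ← hN] at hp
    have h2 := ENNReal.toReal_mono hNtop hp
    rw [toReal_enorm, Real.norm_eq_abs] at h2
    exact h2
  refine ⟨N.toReal, ENNReal.toReal_nonneg, hae, ?_⟩
  have hgi : Integrable (Function.uncurry g)
      ((volume.restrict (Ioo 0 T)).prod (volume.restrict (Ioo 0 1))) :=
    hg.integrable (by norm_num)
  filter_upwards [hs, hgi.prod_right_ae, Measure.ae_ae_of_ae_prod hae] with t h1 h2 h3
  have hint : IntervalIntegrable (g t) volume 0 1 := by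
    rw [intervalIntegrable_iff, uIoc_of_le zero_le_one, integrableOn_Ioc_iff_integrableOn_Ioo]
    exact h2
  have hy0 : y t 0 = v t := by
    have := h1.1 0 (by simp)
    simpa using this
  have hprim : IsPrim (y t) (g t) := by
    refine ⟨hint, fun x hx => ?_⟩
    rw [hy0]
    exact h1.1 x hx
  refine ⟨hprim, hy0, h1.2, ?_⟩
  have hc : ContinuousOn (fun x => max |y t x| N.toReal) (Icc 0 1) :=
    hprim.continuousOn.abs.sup continuousOn_const
  have heq : EqOn (fun x => max |y t x| N.toReal) (fun _ => N.toReal) (Icc 0 1) := by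
    refine Measure.eqOn_Icc_of_ae_eq (volume : Measure ℝ) zero_ne_one ?_ hc continuousOn_const
    have hr : (volume : Measure ℝ).restrict (Icc 0 1) = volume.restrict (Ioo 0 1) :=
      (restrict_Ioo_eq_restrict_Icc).symm
    rw [hr]
    filter_upwards [h3] with x hx
    exact max_eq_right hx
  intro x hx
  have := heq hx
  exact (le_max_left _ _).trans this.le

/-- The weak form with the flux. -/
theorem IsSolution.weak {γ T : ℝ} (hγ : 1 < γ) {y0 u v : ℝ → ℝ} {y : ℝ → ℝ → ℝ}
    (h : IsSolution γ T y0 u v y) :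
    ∃ M : ℝ, 0 ≤ M ∧ ∃ g : ℝ → ℝ → ℝ,
      (∀ᵐ t ∂(volume.restrict (Ioo 0 T)), Slice M (y t) (g t) (v t)) ∧
      ∀ φ : ℝ → ℝ, ContDiff ℝ 1 φ → φ 0 = 0 → φ 1 = 0 →
        IntegrableOn (fun s => ∫ x in (0 : ℝ)..1, (g s x - flux γ (y s x)) * deriv φ x)
          (Ioo 0 T) ∧
        ∀ t ∈ Icc 0 T,
          (∫ x in (0 : ℝ)..1, y t x * φ x) - (∫ x in (0 : ℝ)..1, y0 x * φ x) +
            (∫ s in (0 : ℝ)..t, ∫ x in (0 : ℝ)..1, (g s x - flux γ (y s x)) * deriv φ x) =
          ∫ s in (0 : ℝ)..t, u s * ∫ x in (0 : ℝ)..1, φ x := by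
  obtain ⟨g, hg, hs, he⟩ := h.equation
  obtain ⟨M, hM, hae, hsl⟩ := h.exists_slice hg hs
  refine ⟨M, hM, g, hsl, fun φ hφ h0 h1 => ⟨?_, ?_⟩⟩
  · have hd : Continuous (deriv φ) := hφ.continuous_deriv (by norm_num)
    obtain ⟨C, hC⟩ := (isCompact_Icc (a := (0 : ℝ)) (b := 1)).exists_bound_of_continuousOn
      hd.continuousOn
    have hfl : MemLp (fun p : ℝ × ℝ => flux γ (y p.1 p.2)) 2
        ((volume.restrict (Ioo 0 T)).prod (volume.restrict (Ioo 0 1))) := by
      have hm : AEStronglyMeasurable (fun p : ℝ × ℝ => flux γ (y p.1 p.2))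
          ((volume.restrict (Ioo 0 T)).prod (volume.restrict (Ioo 0 1))) :=
        (continuous_flux hγ).comp_aestronglyMeasurable h.bounded.aestronglyMeasurable
      refine MemLp.of_bound hm (M ^ γ) ?_
      filter_upwards [hae] with p hp
      rw [Real.norm_eq_abs, abs_flux hγ]
      exact Real.rpow_le_rpow (abs_nonneg _) hp (by linarith)
    have hdm : AEStronglyMeasurable (fun p : ℝ × ℝ => deriv φ p.2)
        ((volume.restrict (Ioo 0 T)).prod (volume.restrict (Ioo 0 1))) :=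
      (hd.comp continuous_snd).aestronglyMeasurable
    have hdb : ∀ᵐ p ∂((volume.restrict (Ioo 0 T)).prod (volume.restrict (Ioo (0 : ℝ) 1))),
        ‖deriv φ p.2‖ ≤ C := by
      rw [Measure.prod_restrict]
      rw [ae_restrict_iff' (measurableSet_Ioo.prod measurableSet_Ioo)]
      refine Eventually.of_forall fun p hp => hC _ (Ioo_subset_Icc_self hp.2)
    have hi : Integrable (fun p : ℝ × ℝ => (g p.1 p.2 - flux γ (y p.1 p.2)) * deriv φ p.2)
        ((volume.restrict (Ioo 0 T)).prod (volume.restrict (Ioo 0 1))) := by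
      have hgf : Integrable (fun p : ℝ × ℝ => g p.1 p.2 - flux γ (y p.1 p.2))
          ((volume.restrict (Ioo 0 T)).prod (volume.restrict (Ioo 0 1))) :=
        (hg.integrable (by norm_num)).sub (hfl.integrable (by norm_num))
      exact hgf.mul_bdd hdm hdb
    have := hi.integral_prod_left
    refine this.congr (Eventually.of_forall fun s => ?_)
    exact integral_μ₁ (fun x => (g s x - flux γ (y s x)) * deriv φ x)
  · intro t ht
    rw [← he φ hφ h0 h1 t ht]
    congr 1
    apply intervalIntegral.integral_congr_ae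
    rw [ae_restrict_iff' measurableSet_Ioo] at hsl
    have hne : ∀ᵐ x : ℝ, x ≠ T := by simp [ae_iff, measure_singleton]
    filter_upwards [hsl, hne] with s h2 h3 h4
    rw [uIoc_of_le ht.1] at h4
    have h5 : s ∈ Ioo 0 T := ⟨h4.1, lt_of_le_of_ne (h4.2.trans ht.2) h3⟩
    exact ((h2 h5).weak hγ hφ h0 h1).symm

end Pool.Agent.Burg
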