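import Mathlib

/-!
Module VANDER: solution of a Vandermonde system with an explicit bound.
-/

set_option autoImplicit false

open Finset

noncomputable section

namespace Pool.Agent.Burg

open Polynomial in
theorem vander_coeff (s : Finset ℕ) (y : ℕ → ℝ) :
    (∏ k ∈ s, (X - C (y k))).natDegree = s.card ∧
      ∑ i ∈ range (s.card + 1), |(∏ k ∈ s, (X - C (y k))).coeff i| ≤ ∏ k ∈ s, (1 + |y k|) := by
  classical
  induction s using Finset.induction_on with
  | empty => simp
  | insert a s ha ih =>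
    obtain ⟨h1, h2⟩ := ih
    rw [Finset.prod_insert ha, Finset.prod_insert ha, Finset.card_insert_of_notMem ha]
    set p : ℝ[X] := ∏ k ∈ s, (X - C (y k)) with hp
    have hpm : p.Monic := monic_prod_of_monic _ _ fun k _ => monic_X_sub_C _
    refine ⟨?_, ?_⟩
    · rw [Monic.natDegree_mul (monic_X_sub_C _) hpm, natDegree_X_sub_C, h1, add_comm]
    · have h0 : p.coeff (s.card + 1) = 0 := coeff_eq_zero_of_natDegree_lt (by omega)
      have hc : ∀ i, ((X - C (y a)) * p).coeff i =
          (X * p).coeff i - y a * p.coeff i := by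
        intro i
        rw [sub_mul, coeff_sub, coeff_C_mul]
      calc ∑ i ∈ range (s.card + 1 + 1), |((X - C (y a)) * p).coeff i|
          ≤ ∑ i ∈ range (s.card + 1 + 1), (|(X * p).coeff i| + |y a| * |p.coeff i|) := by
            refine Finset.sum_le_sum fun i _ => ?_
            rw [hc, ← abs_mul]
            exact abs_sub _ _
        _ = ∑ i ∈ range (s.card + 1), |p.coeff i| +
              |y a| * ∑ i ∈ range (s.card + 1), |p.coeff i| := by
            rw [Finset.sum_add_distrib, Finset.sum_range_succ', ← Finset.mul_sum,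
              Finset.sum_range_succ (fun i => |p.coeff i|) (s.card + 1), h0]
            simp [coeff_X_mul]
        _ = (1 + |y a|) * ∑ i ∈ range (s.card + 1), |p.coeff i| := by ring
        _ ≤ _ := mul_le_mul_of_nonneg_left h2 (by positivity)

theorem vander_ratio {a : ℝ} (ha : 0 < a) (j k : ℕ) (hj : 1 ≤ j) (hk : 1 ≤ k) (hjk : j ≠ k) :
    0 < |Real.exp (a * (j : ℝ) ^ 2) - Real.exp (a * (k : ℝ) ^ 2)| ∧
    (1 + Real.exp (a * (k : ℝ) ^ 2)) /
      |Real.exp (a * (j : ℝ) ^ 2) - Real.exp (a * (k : ℝ) ^ 2)| ≤ 2 + 2 / a := by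
  have hj' : (1 : ℝ) ≤ j := by exact_mod_cast hj
  have hk' : (1 : ℝ) ≤ k := by exact_mod_cast hk
  set Y := Real.exp (a * (k : ℝ) ^ 2) with hY
  have hY1 : 1 ≤ Y := Real.one_le_exp (by positivity)
  rcases lt_or_gt_of_ne hjk with h | h
  · -- j < k
    have h' : (j : ℝ) + 1 ≤ k := by exact_mod_cast h
    have hsq : (1 : ℝ) ≤ (k : ℝ) ^ 2 - (j : ℝ) ^ 2 := by nlinarith
    have hexp : Real.exp (a * (j : ℝ) ^ 2) = Y * Real.exp (-(a * ((k : ℝ) ^ 2 - (j : ℝ) ^ 2))) := by
      rw [hY, ← Real.exp_add]; congr 1; ring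
    have hle : Real.exp (-(a * ((k : ℝ) ^ 2 - (j : ℝ) ^ 2))) ≤ Real.exp (-a) := by
      apply Real.exp_le_exp.2; nlinarith
    have h3 : Real.exp (-a) ≤ 1 / (1 + a) := by
      rw [Real.exp_neg, one_div]
      exact inv_anti₀ (by positivity) (by linarith [Real.add_one_le_exp a])
    have h4 : Y * (a / (1 + a)) ≤ Y - Real.exp (a * (j : ℝ) ^ 2) := by
      rw [hexp]
      have : a / (1 + a) = 1 - 1 / (1 + a) := by field_simp; ring
      rw [this]
      nlinarith
    have hpos : 0 < Y * (a / (1 + a)) := by positivity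
    have habs : |Real.exp (a * (j : ℝ) ^ 2) - Y| = Y - Real.exp (a * (j : ℝ) ^ 2) := by
      rw [abs_sub_comm]; exact abs_of_pos (by linarith)
    rw [habs]
    refine ⟨by linarith, ?_⟩
    rw [div_le_iff₀ (by linarith)]
    calc 1 + Y ≤ 2 * Y := by linarith
      _ = (2 + 2 / a) * (Y * (a / (1 + a))) := by field_simp; ring
      _ ≤ _ := mul_le_mul_of_nonneg_left h4 (by positivity)
  · have h' : (k : ℝ) + 1 ≤ j := by exact_mod_cast h
    have hsq : (1 : ℝ) ≤ (j : ℝ) ^ 2 - (k : ℝ) ^ 2 := by nlinarith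
    have hexp : Real.exp (a * (j : ℝ) ^ 2) = Y * Real.exp (a * ((j : ℝ) ^ 2 - (k : ℝ) ^ 2)) := by
      rw [hY, ← Real.exp_add]; congr 1; ring
    have hle : 1 + a ≤ Real.exp (a * ((j : ℝ) ^ 2 - (k : ℝ) ^ 2)) := by
      refine le_trans ?_ (Real.add_one_le_exp _)
      nlinarith
    have h4 : Y * a ≤ Real.exp (a * (j : ℝ) ^ 2) - Y := by
      rw [hexp]
      nlinarith
    have hpos : 0 < Y * a := by positivity
    have habs : |Real.exp (a * (j : ℝ) ^ 2) - Y| = Real.exp (a * (j : ℝ) ^ 2) - Y :=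
      abs_of_pos (by linarith)
    rw [habs]
    refine ⟨by linarith, ?_⟩
    rw [div_le_iff₀ (by linarith)]
    calc 1 + Y ≤ 2 * Y := by linarith
      _ = (2 / a) * (Y * a) := by field_simp
      _ ≤ (2 + 2 / a) * (Y * a) := by nlinarith
      _ ≤ _ := mul_le_mul_of_nonneg_left h4 (by positivity)

open Polynomial in
theorem exists_vander (n : ℕ) {a : ℝ} (ha : 0 < a) (d : ℕ → ℝ) {D : ℝ} (hD0 : 0 ≤ D)
    (hD : ∀ j, 1 ≤ j → j ≤ n → |d j| ≤ D) :
    ∃ b : ℕ → ℝ,
      (∀ j, 1 ≤ j → j ≤ n →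
        ∑ i ∈ range n, b i * Real.exp (a * (j : ℝ) ^ 2) ^ i = d j) ∧
      ∑ i ∈ range n, |b i| ≤ n * D * (2 + 2 / a) ^ n := by
  classical
  set Y : ℕ → ℝ := fun j => Real.exp (a * (j : ℝ) ^ 2) with hY
  set S : Finset ℕ := Finset.Icc 1 n with hS
  have hScard : S.card = n := by simp [hS]
  set P : ℕ → ℝ[X] := fun j => ∏ k ∈ S.erase j, (X - C (Y k)) with hP
  set c : ℕ → ℝ := fun j => ∏ k ∈ S.erase j, (Y j - Y k)⁻¹ with hc
  have hmem : ∀ j, j ∈ S ↔ 1 ≤ j ∧ j ≤ n := fun j => Finset.mem_Icc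
  have hcard : ∀ j ∈ S, (S.erase j).card + 1 = n := by
    intro j hj
    rw [Finset.card_erase_add_one hj, hScard]
  have hne : ∀ j ∈ S, ∀ k ∈ S.erase j, Y j - Y k ≠ 0 := by
    intro j hj k hk
    obtain ⟨hk1, hk2⟩ := Finset.mem_erase.1 hk
    have := (vander_ratio ha j k ((hmem j).1 hj).1 ((hmem k).1 hk2).1 (Ne.symm hk1)).1
    exact abs_pos.1 this
  refine ⟨fun i => ∑ j ∈ S, d j * c j * (P j).coeff i, ?_, ?_⟩
  · intro m hm1 hm2
    have hmS : m ∈ S := (hmem m).2 ⟨hm1, hm2⟩
    have h1 : ∀ j ∈ S, ∑ i ∈ range n, d j * c j * (P j).coeff i * Y m ^ i =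
        d j * c j * (P j).eval (Y m) := by
      intro j hj
      have hdeg : (P j).natDegree < n := by
        have := (vander_coeff (S.erase j) Y).1
        have h2 := hcard j hj
        rw [hP]
        simp only
        omega
      rw [eval_eq_sum_range' hdeg, Finset.mul_sum]
      exact Finset.sum_congr rfl fun i _ => by ring
    calc ∑ i ∈ range n, (∑ j ∈ S, d j * c j * (P j).coeff i) * Y m ^ i
        = ∑ j ∈ S, ∑ i ∈ range n, d j * c j * (P j).coeff i * Y m ^ i := by
          rw [Finset.sum_comm]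
          exact Finset.sum_congr rfl fun i _ => by rw [Finset.sum_mul]
      _ = ∑ j ∈ S, d j * c j * (P j).eval (Y m) := Finset.sum_congr rfl h1
      _ = d m * c m * (P m).eval (Y m) := by
          refine Finset.sum_eq_single_of_mem m hmS fun j hj hjm => ?_
          have : (P j).eval (Y m) = 0 := by
            rw [hP]
            simp only
            rw [eval_prod]
            exact Finset.prod_eq_zero (Finset.mem_erase.2 ⟨Ne.symm hjm, hmS⟩) (by simp)
          rw [this, mul_zero]
      _ = d m := by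
          have : c m * (P m).eval (Y m) = 1 := by
            rw [hP, hc]
            simp only
            rw [eval_prod, ← Finset.prod_mul_distrib]
            refine Finset.prod_eq_one fun k hk => ?_
            rw [eval_sub, eval_X, eval_C]
            exact inv_mul_cancel₀ (hne m hmS k hk)
          rw [mul_assoc, this, mul_one]
  · have hK : 1 ≤ 2 + 2 / a := by
      have : 0 < 2 / a := by positivity
      linarith
    have hterm : ∀ j ∈ S, |d j * c j| * ∑ i ∈ range n, |(P j).coeff i| ≤ D * (2 + 2 / a) ^ n := by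
      intro j hj
      have h2 := (vander_coeff (S.erase j) Y).2
      rw [hcard j hj] at h2
      have h3 : |c j| * ∏ k ∈ S.erase j, (1 + |Y k|) ≤ (2 + 2 / a) ^ n := by
        rw [hc]
        simp only
        rw [Finset.abs_prod, ← Finset.prod_mul_distrib]
        calc ∏ k ∈ S.erase j, |(Y j - Y k)⁻¹| * (1 + |Y k|)
            ≤ ∏ _k ∈ S.erase j, (2 + 2 / a) := by
              refine Finset.prod_le_prod (fun k _ => by positivity) fun k hk => ?_
              obtain ⟨hk1, hk2⟩ := Finset.mem_erase.1 hk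
              have := (vander_ratio ha j k ((hmem j).1 hj).1 ((hmem k).1 hk2).1 (Ne.symm hk1)).2
              rw [abs_inv, abs_of_pos (Real.exp_pos _ : 0 < Y k), mul_comm, ← div_eq_mul_inv]
              exact this
          _ = (2 + 2 / a) ^ (S.erase j).card := by rw [Finset.prod_const]
          _ ≤ (2 + 2 / a) ^ n := pow_le_pow_right₀ hK (by have := hcard j hj; omega)
      calc |d j * c j| * ∑ i ∈ range n, |(P j).coeff i|
          ≤ |d j * c j| * ∏ k ∈ S.erase j, (1 + |Y k|) :=
            mul_le_mul_of_nonneg_left h2 (abs_nonneg _)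
        _ = |d j| * (|c j| * ∏ k ∈ S.erase j, (1 + |Y k|)) := by rw [abs_mul]; ring
        _ ≤ D * (2 + 2 / a) ^ n := by
            refine mul_le_mul (hD j ((hmem j).1 hj).1 ((hmem j).1 hj).2) h3 ?_ hD0
            exact mul_nonneg (abs_nonneg _) (Finset.prod_nonneg fun k _ => by positivity)
    calc ∑ i ∈ range n, |∑ j ∈ S, d j * c j * (P j).coeff i|
        ≤ ∑ i ∈ range n, ∑ j ∈ S, |d j * c j| * |(P j).coeff i| := by
          refine Finset.sum_le_sum fun i _ => ?_
          refine (Finset.abs_sum_le_sum_abs _ _).trans (le_of_eq ?_)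
          exact Finset.sum_congr rfl fun j _ => abs_mul _ _
      _ = ∑ j ∈ S, |d j * c j| * ∑ i ∈ range n, |(P j).coeff i| := by
          rw [Finset.sum_comm]
          exact Finset.sum_congr rfl fun j _ => by rw [Finset.mul_sum]
      _ ≤ ∑ _j ∈ S, D * (2 + 2 / a) ^ n := Finset.sum_le_sum hterm
      _ = n * D * (2 + 2 / a) ^ n := by
          rw [Finset.sum_const, hScard, nsmul_eq_mul]; ring

end Pool.Agent.Burg
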